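import Pool.Agent.ISP.Defs

/-!
# Percolation games on Cayley graphs with controlled Foelner sets: basic facts
-/

set_option autoImplicit false
set_option linter.unusedSectionVars false

namespace Pool.Agent.ISP

open Finset Filter Pool.Agent.Helper30.Perc Pool.Agent.Helper22.PG

variable {Γ : Type} [Group Γ] [DecidableEq Γ] {G : SimpleGraph Γ} [G.LocallyFinite]
  {d : ℕ} {v : ℕ → ℕ}

namespace Cy

/-- left translation -/
def lt (h : Cy G d v) (g : Γ) : G ≃g G where
  toEquiv := Equiv.mulLeft g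
  map_rel_iff' := fun {x y} => h.inv g x y

@[simp] lemma lt_apply (h : Cy G d v) (g x : Γ) : h.lt g x = g * x := rfl

variable (h : Cy G d v)

include h

lemma dist_mul (g x y : Γ) : G.dist (g * x) (g * y) = G.dist x y :=
  dist_iso h.conn (h.lt g) x y

lemma dist_one (x y : Γ) : G.dist x y = G.dist 1 (x⁻¹ * y) := by
  rw [← h.dist_mul x⁻¹ x y, inv_mul_cancel]

lemma dist_self_mul (x s : Γ) : G.dist x (x * s) = G.dist 1 s := by
  rw [h.dist_one, inv_mul_cancel_left]

lemma dist_inv (x : Γ) : G.dist 1 x⁻¹ = G.dist 1 x := by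
  rw [SimpleGraph.dist_comm, h.dist_one x⁻¹ 1, inv_inv, mul_one]

lemma dist_mul_le (x y : Γ) : G.dist 1 (x * y) ≤ G.dist 1 x + G.dist 1 y := by
  have h1 := h.conn.dist_triangle (u := 1) (v := x) (w := x * y)
  rw [h.dist_self_mul] at h1
  exact h1

lemma v_zero : v 0 = 1 := by
  rw [← h.vol 1 0]
  simp [bl]

lemma v_mono {r s : ℕ} (hrs : r ≤ s) : v r ≤ v s := by
  rw [← h.vol 1 r, ← h.vol 1 s]
  exact card_le_card (bl_mono h.conn 1 hrs)

lemma v_pos (r : ℕ) : 0 < v r := by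
  rw [← h.vol 1 r, card_pos]
  exact ⟨1, self_mem_bl 1 r⟩

lemma v_le (r : ℕ) : v r ≤ (d + 1) ^ r := by
  induction r with
  | zero => rw [h.v_zero]; simp
  | succ r ih =>
    rw [← h.vol 1 (r + 1)]
    have h1 : (bl G 1 (r + 1)).card ≤ (bl G 1 r).card + (bl G 1 r).card * d := by
      simp only [bl]
      refine (card_union_le _ _).trans (Nat.add_le_add_left ?_ _)
      refine card_biUnion_le.trans ?_
      refine (sum_le_sum fun a _ => h.deg a).trans ?_
      rw [sum_const, smul_eq_mul]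
    rw [h.vol 1 r] at h1
    calc (bl G 1 (r + 1)).card ≤ v r + v r * d := h1
      _ = v r * (d + 1) := by ring
      _ ≤ (d + 1) ^ r * (d + 1) := Nat.mul_le_mul_right _ ih
      _ = (d + 1) ^ (r + 1) := by ring

/-- The growth is faster than every polynomial. -/
lemma v_pow (B : ℕ) : ∃ r₁ : ℕ, ∀ r, r₁ ≤ r → r ^ B ≤ v r := by
  obtain ⟨r₀, hr₀⟩ := h.gr (4 * B)
  refine ⟨(r₀ + 2) ^ 2, fun n hn => ?_⟩
  set s := Nat.sqrt n with hs
  have h1 : s ^ 2 ≤ n := Nat.sqrt_le' n
  have h2 : n < (s + 1) ^ 2 := Nat.lt_succ_sqrt' n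
  have h3 : r₀ + 2 ≤ s := by
    rw [hs, Nat.le_sqrt']
    exact hn
  have h4 : n ≤ s ^ 4 := by
    have h5 : (s + 1) ^ 2 ≤ s ^ 4 := by
      have h6 : s + 1 ≤ s ^ 2 := by nlinarith
      calc (s + 1) ^ 2 ≤ (s ^ 2) ^ 2 := Nat.pow_le_pow_left h6 2
        _ = s ^ 4 := by ring
    exact h2.le.trans h5
  calc n ^ B ≤ (s ^ 4) ^ B := Nat.pow_le_pow_left h4 B
    _ = s ^ (4 * B) := by rw [← pow_mul]
    _ ≤ s ^ (4 * B) * v s := Nat.le_mul_of_pos_right _ (h.v_pos s)
    _ ≤ v (s ^ 2) := hr₀ s (by omega)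
    _ ≤ v n := h.v_mono h1

lemma v_unb (n : ℕ) : ∃ r, n < v r := by
  obtain ⟨r₁, hr₁⟩ := h.v_pow 1
  refine ⟨max r₁ (n + 1), ?_⟩
  have h1 := hr₁ _ (le_max_left r₁ (n + 1))
  rw [pow_one] at h1
  have h2 := le_max_right r₁ (n + 1)
  omega

lemma d_pos : 0 < d := by
  rcases Nat.eq_zero_or_pos d with h0 | h0
  · obtain ⟨r, hr⟩ := h.v_unb 1
    have h2 := h.v_le r
    rw [h0] at h2
    simp only [Nat.zero_add, one_pow] at h2
    omega
  · exact h0

lemma exists_dist_eq (x : Γ) (r : ℕ) : ∃ z, G.dist x z = r := by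
  by_contra hcon
  push Not at hcon
  have h1 : ∀ y s, y ∈ bl G x s → y ∈ bl G x r := by
    intro y s _
    rw [mem_bl h.conn]
    by_contra hy
    obtain ⟨z, hz⟩ := exists_dist_eq_of_le h.conn x y r (by omega)
    exact hcon z hz
  obtain ⟨R, hR⟩ := h.v_unb (v r)
  have h2 : v R ≤ v r := by
    rw [← h.vol x R]
    refine (card_le_card fun y hy => h1 y _ hy).trans ?_
    rw [h.vol x r]
  omega

lemma inf : Infinite Γ := by
  rw [← not_finite_iff_infinite]
  intro hfin
  have := Fintype.ofFinite Γ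
  obtain ⟨R, hR⟩ := h.v_unb (Fintype.card Γ)
  have h1 : v R ≤ Fintype.card Γ := by
    rw [← h.vol 1 R]
    exact card_le_univ _
  omega

lemma edge_infinite : G.edgeSet.Infinite := by
  intro hfin
  have h1 : (⋃ e ∈ G.edgeSet, {u : Γ | u ∈ e}).Finite := by
    refine hfin.biUnion fun e _ => ?_
    refine (Sym2.toFinset e).finite_toSet.subset ?_
    intro u hu
    simpa using hu
  have := h.inf
  have h2 : (Set.univ : Set Γ).Infinite := Set.infinite_univ
  refine h2 (h1.subset ?_)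
  intro u _
  obtain ⟨z, hz⟩ := h.exists_dist_eq u 1
  rw [SimpleGraph.dist_eq_one_iff_adj] at hz
  simp only [Set.mem_iUnion]
  exact ⟨s(u, z), hz, by simp⟩

lemma trans (x y : Γ) : ∃ φ : G ≃g G, φ x = y :=
  ⟨h.lt (y * x⁻¹), by simp⟩

/-- translation does not change the number of boundary edges -/
lemma cut_mul (g : Γ) (W : Finset Γ) : cut G (W.image fun x => g * x) = cut G W := by
  have h1 := cut_map G (h.lt g) W
  have h2 : W.map (h.lt g).toEquiv.toEmbedding = W.image fun x => g * x := by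
    rw [Finset.map_eq_image]
    rfl
  rw [h2] at h1
  exact h1

/-- admissible sets for translated templates -/
lemma adm_mul (g : Γ) (T : Finset (Sym2 Γ)) (c₁ : ℝ) (hT : ∀ W, Adm 1 T W → c₁ ≤ cut G W)
    (W : Finset Γ) (hg : g ∈ W)
    (hW : ∀ a b, s(a, b) ∈ T → g * a ∈ W → g * b ∈ W) : c₁ ≤ cut G W := by
  have h1 := h.cut_mul g⁻¹ W
  have hmem : ∀ x, x ∈ W.image (fun x => g⁻¹ * x) ↔ g * x ∈ W := by
    intro x
    rw [mem_image]
    constructor
    · rintro ⟨y, hy, rfl⟩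
      simpa using hy
    · intro hx
      exact ⟨g * x, hx, by simp⟩
  have h2 := hT (W.image fun x => g⁻¹ * x) ⟨(hmem 1).2 (by simpa using hg), fun a b hab ha =>
    (hmem b).2 (hW a b hab ((hmem a).1 ha))⟩
  rwa [h1] at h2

end Cy

/-! ## The game -/

lemma Stp.mono {p q : ℕ} {M B : Finset (Sym2 Γ)} {Φ Ψ : Finset (Sym2 Γ) → Finset (Sym2 Γ) → Prop}
    (h : Stp G p q M B Φ) (h' : ∀ M' B', Φ M' B' → Ψ M' B') : Stp G p q M B Ψ := by
  obtain ⟨X, h1, h2, h3, h4⟩ := h
  exact ⟨X, h1, h2, h3, fun Y a b c => h' _ _ (h4 Y a b c)⟩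

/-- the position after a round is legal and contains the old one -/
lemma Stp.strong {p q : ℕ} {M B : Finset (Sym2 Γ)} {Φ : Finset (Sym2 Γ) → Finset (Sym2 Γ) → Prop}
    (hPos : Pos G M B) (h : Stp G p q M B Φ) :
    Stp G p q M B fun M' B' => Φ M' B' ∧ Pos G M' B' ∧ B ⊆ B' ∧ B'.card ≤ B.card + q := by
  obtain ⟨X, h1, h2, h3, h4⟩ := h
  refine ⟨X, h1, h2, h3, fun Y hY hYE hYd => ⟨h4 Y hY hYE hYd, ⟨?_, ?_, ?_⟩, subset_union_left,
    ?_⟩⟩
  · rw [Finset.coe_union]; exact Set.union_subset hPos.1 h2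
  · rw [Finset.coe_union]; exact Set.union_subset hPos.2.1 hYE
  · rw [disjoint_union_right, disjoint_union_left]
    rw [disjoint_union_right] at h3
    rw [disjoint_union_right] at hYd
    exact ⟨⟨hPos.2.2, h3.2⟩, hYd.1.symm⟩
  · have := card_union_le B Y
    omega

lemma Stp.force {p q : ℕ} {M B : Finset (Sym2 Γ)} {Q : Finset (Sym2 Γ) → Finset (Sym2 Γ) → Prop}
    (h : Stp G p q M B (Frc G p q Q)) : Frc G p q Q M B := by
  obtain ⟨X, h1, h2, h3, h4⟩ := h
  exact Frc.step M B X h1 h2 h3 h4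

lemma Frc.trans {p q : ℕ} {M B : Finset (Sym2 Γ)}
    {Q Q' : Finset (Sym2 Γ) → Finset (Sym2 Γ) → Prop}
    (h : Frc G p q Q M B) (h' : ∀ M' B', Q M' B' → Frc G p q Q' M' B') :
    Frc G p q Q' M B := by
  induction h with
  | base M B h => exact h' M B h
  | step M B X h1 h2 h3 _ ih => exact Frc.step M B X h1 h2 h3 ih

lemma Frc.mono {p q : ℕ} {M B : Finset (Sym2 Γ)}
    {Q Q' : Finset (Sym2 Γ) → Finset (Sym2 Γ) → Prop}
    (h : Frc G p q Q M B) (h' : ∀ M' B', Q M' B' → Q' M' B') :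
    Frc G p q Q' M B := h.trans fun M' B' h => Frc.base _ _ (h' M' B' h)

/-- forcing followed by at least one more round -/
lemma Frc.bind {p q : ℕ} {M B : Finset (Sym2 Γ)}
    {Q Q' : Finset (Sym2 Γ) → Finset (Sym2 Γ) → Prop}
    (h : Frc G p q Q M B)
    (h' : ∀ M' B', Q M' B' → Stp G p q M' B' (Frc G p q Q')) :
    Stp G p q M B (Frc G p q Q') := by
  cases h with
  | base _ _ h => exact h' M B h
  | step _ _ X h1 h2 h3 h4 =>
    exact ⟨X, h1, h2, h3, fun Y a b c => (h4 Y a b c).trans fun M' B' hQ => (h' M' B' hQ).force⟩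

/-- Breaker always has a legal reply: a forced position can be reached. -/
lemma Frc.exists (hE : G.edgeSet.Infinite) {p q : ℕ} {M B : Finset (Sym2 Γ)}
    {Q : Finset (Sym2 Γ) → Finset (Sym2 Γ) → Prop} (h : Frc G p q Q M B) :
    ∃ M' B', Q M' B' ∧ B ⊆ B' := by
  induction h with
  | base M B h => exact ⟨M, B, h, subset_rfl⟩
  | step M B X h1 h2 h3 _ ih =>
    obtain ⟨Y, -, hYq, hYE, hYd⟩ := exists_move hE ∅ (M ∪ X ∪ B) q (by simp) (by simp)
      (by simp)
    rw [Finset.disjoint_coe] at hYd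
    obtain ⟨M', B', hQ, hB⟩ := ih Y hYq hYE hYd
    exact ⟨M', B', hQ, subset_union_left.trans hB⟩

lemma Stp.exists (hE : G.edgeSet.Infinite) {p q : ℕ} {M B : Finset (Sym2 Γ)}
    {Φ : Finset (Sym2 Γ) → Finset (Sym2 Γ) → Prop} (h : Stp G p q M B Φ) :
    ∃ M' B', Φ M' B' ∧ B ⊆ B' := by
  obtain ⟨X, h1, h2, h3, h4⟩ := h
  obtain ⟨Y, -, hYq, hYE, hYd⟩ := exists_move hE ∅ (M ∪ X ∪ B) q (by simp) (by simp)
    (by simp)
  rw [Finset.disjoint_coe] at hYd
  exact ⟨_, _, h4 Y hYq hYE hYd, subset_union_left⟩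

lemma At.mono {k k' : ℕ} {M M' B : Finset (Sym2 Γ)} {y : Γ} (h : At G k M B y) (hk : k ≤ k')
    (hM : M ⊆ M') : At G k' M' B y := by
  obtain ⟨X, h1, h2, h3, h4⟩ := h
  exact ⟨X, h1.trans hk, h2, h3, reach_mono (union_subset_union hM subset_rfl) h4⟩

/-- Walking: if Maker is live at `x` and `w` is a walk from `x` to `y` whose edges do not belong to
Breaker, then she is live at `y`. -/
lemma At.walk {k : ℕ} {M B : Finset (Sym2 Γ)} {x y : Γ} (h : At G k M B x) (w : G.Walk x y)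
    (hw : ∀ u ∈ w.support, u ∉ vert B) : At G (k + w.length) M B y := by
  obtain ⟨X, h1, h2, h3, h4⟩ := h
  refine ⟨X ∪ w.edges.toFinset, ?_, ?_, ?_, ?_⟩
  · refine (card_union_le _ _).trans (Nat.add_le_add h1 ?_)
    refine (List.toFinset_card_le _).trans ?_
    rw [SimpleGraph.Walk.length_edges]
  · rw [Finset.coe_union]
    refine Set.union_subset h2 ?_
    intro e he
    rw [mem_coe, List.mem_toFinset] at he
    exact w.edges_subset_edgeSet he
  · rw [disjoint_union_left]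
    refine ⟨h3, ?_⟩
    rw [Finset.disjoint_left]
    intro e he heB
    rw [List.mem_toFinset] at he
    induction e with
    | _ a b =>
      exact hw a (w.fst_mem_support_of_mem_edges he) ((mem_vert _ _).2 ⟨_, heB, by simp⟩)
  · refine (reach_mono (union_subset_union subset_rfl subset_union_left) h4).trans ?_
    have hwalk : ∀ (a b : Γ) (w' : G.Walk a b), (∀ e ∈ w'.edges, e ∈ w.edges) →
        (SimpleGraph.fromEdgeSet ((M ∪ (X ∪ w.edges.toFinset) : Finset (Sym2 Γ)) :
          Set (Sym2 Γ))).Reachable a b := by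
      intro a b w'
      induction w' with
      | nil => intro _; exact SimpleGraph.Reachable.refl _
      | @cons a c b hac w'' ih =>
        intro hsub
        have h5 : (SimpleGraph.fromEdgeSet ((M ∪ (X ∪ w.edges.toFinset) : Finset (Sym2 Γ)) :
            Set (Sym2 Γ))).Adj a c := by
          rw [SimpleGraph.fromEdgeSet_adj]
          refine ⟨?_, hac.ne⟩
          have h6 := hsub s(a, c) (by simp)
          rw [mem_coe, mem_union, mem_union, List.mem_toFinset]
          exact Or.inr (Or.inr h6)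
        exact h5.reachable.trans (ih fun e he => hsub e (by
          rw [SimpleGraph.Walk.edges_cons]
          exact List.mem_cons_of_mem _ he))
    exact hwalk x y w fun e he => he

/-- where Maker is live, the component of `1` in the graph without Breaker's edges arrives -/
lemma At.reachable {k : ℕ} {M B : Finset (Sym2 Γ)} {y : Γ} (h : At G k M B y)
    (hPos : Pos G M B) : (G.deleteEdges (B : Set (Sym2 Γ))).Reachable 1 y := by
  obtain ⟨X, -, h2, h3, h4⟩ := h
  refine h4.mono ?_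
  intro a b hab
  rw [SimpleGraph.fromEdgeSet_adj] at hab
  rw [SimpleGraph.deleteEdges_adj]
  obtain ⟨hab, -⟩ := hab
  rw [mem_coe, mem_union] at hab
  rcases hab with hab | hab
  · exact ⟨hPos.1 hab, fun hB => Finset.disjoint_left.1 hPos.2.2 hab hB⟩
  · exact ⟨h2 hab, fun hB => Finset.disjoint_left.1 h3 hab hB⟩

/-! ## Quotients -/

section

variable {Q : Type} [Group Q] [DecidableEq Q] {H : SimpleGraph Q} [H.LocallyFinite] {π : Γ → Q}

lemma Qm.one (h : Qm G H π) : π 1 = 1 := by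
  have h1 := h.mul 1 1
  rw [mul_one] at h1
  exact (mul_eq_left.1 h1.symm)

lemma Qm.refl (H : SimpleGraph Q) : Qm H H (id : Q → Q) :=
  ⟨fun _ _ => rfl, fun _ _ hxy => Or.inr hxy, fun _ q hq => ⟨q, hq, rfl⟩⟩

lemma Qm.dist_walk (h : Qm G H π) (hH : H.Connected) {x y : Γ} (w : G.Walk x y) :
    H.dist (π x) (π y) ≤ w.length := by
  induction w with
  | nil => simp
  | @cons a b c hab w ih =>
    rw [SimpleGraph.Walk.length_cons]
    rcases h.adj a b hab with h1 | h1
    · rw [h1]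
      omega
    · have h2 := hH.dist_triangle (u := π a) (v := π b) (w := π c)
      have h3 : H.dist (π a) (π b) = 1 := SimpleGraph.dist_eq_one_iff_adj.2 h1
      omega

lemma Qm.dist_le (h : Qm G H π) (hG : G.Connected) (hH : H.Connected) (x y : Γ) :
    H.dist (π x) (π y) ≤ G.dist x y := by
  obtain ⟨w, hw⟩ := hG.exists_walk_length_eq_dist x y
  rw [← hw]
  exact h.dist_walk hH w

/-- walks can be lifted -/
lemma Qm.lift_walk (h : Qm G H π) {c c' : Q} (w : H.Walk c c') (x : Γ) (hx : π x = c) :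
    ∃ (y : Γ) (w' : G.Walk x y), π y = c' ∧ w'.length = w.length ∧
      ∀ u ∈ w'.support, π u ∈ w.support := by
  induction w generalizing x with
  | nil => exact ⟨x, SimpleGraph.Walk.nil, hx, rfl, by simp [hx]⟩
  | @cons a b c hab w ih =>
    subst hx
    obtain ⟨y, hxy, hy⟩ := h.lift x b hab
    obtain ⟨z, w', h1, h2, h3⟩ := ih y hy
    refine ⟨z, SimpleGraph.Walk.cons hxy w', h1, ?_, ?_⟩
    · rw [SimpleGraph.Walk.length_cons, SimpleGraph.Walk.length_cons, h2]
    · intro u hu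
      rw [SimpleGraph.Walk.support_cons, List.mem_cons] at hu
      rw [SimpleGraph.Walk.support_cons, List.mem_cons]
      rcases hu with rfl | hu
      · exact Or.inl rfl
      · exact Or.inr (h3 u hu)

lemma mem_nb (hH : H.Connected) {O : Finset Γ} {c : Q} {r : ℕ} {o : Γ} :
    o ∈ nb H π O c r ↔ o ∈ O ∧ H.dist c (π o) ≤ r := by
  rw [nb, mem_filter, mem_bl hH]

lemma nb_subset (hH : H.Connected) {O O' : Finset Γ} (hO : O ⊆ O') {c c' : Q} {r r' : ℕ}
    (h : H.dist c' c + r ≤ r') : nb H π O c r ⊆ nb H π O' c' r' := by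
  intro o ho
  rw [mem_nb hH] at ho ⊢
  refine ⟨hO ho.1, ?_⟩
  have := hH.dist_triangle (u := c') (v := c) (w := π o)
  omega

lemma nb_le (hH : H.Connected) {B B' : Finset (Sym2 Γ)} (hB : B ⊆ B') {n : ℕ}
    (hn : B'.card ≤ B.card + n) {c c' : Q} {r r' : ℕ} (h : H.dist c' c + r ≤ r') :
    (nb H π (vert B') c r).card ≤ (nb H π (vert B) c' r').card + 2 * n := by
  have h1 : nb H π (vert B') c r ⊆ nb H π (vert B) c' r' ∪ vert (B' \ B) := by
    intro o ho
    rw [mem_nb hH] at ho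
    rw [mem_union]
    by_cases ho' : o ∈ vert (B' \ B)
    · exact Or.inr ho'
    · refine Or.inl ((mem_nb hH).2 ⟨?_, ?_⟩)
      · obtain ⟨e, he, heo⟩ := (mem_vert _ _).1 ho.1
        by_cases heB : e ∈ B
        · exact (mem_vert _ _).2 ⟨e, heB, heo⟩
        · exact absurd ((mem_vert _ _).2 ⟨e, mem_sdiff.2 ⟨he, heB⟩, heo⟩) ho'
      · have := hH.dist_triangle (u := c') (v := c) (w := π o)
        omega
  have h2 := card_le_card h1
  have h3 := card_union_le (nb H π (vert B) c' r') (vert (B' \ B))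
  have h4 := card_vert (B' \ B)
  have h5 : (B' \ B).card ≤ n := by
    rw [card_sdiff_of_subset hB]
    omega
  omega

lemma card_nb_le (O : Finset Γ) (c : Q) (r : ℕ) : (nb H π O c r).card ≤ O.card :=
  card_le_card (filter_subset _ _)

end

end Pool.Agent.ISP
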