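import Pool.Agent.ISP.St

/-!
# ISP, module Cl0: the claim of level 0 (statement and proof: helper78; Lean: helper37)
-/

set_option autoImplicit false
set_option linter.unusedSectionVars false

namespace Pool.Agent.ISP

open Finset Filter Pool.Agent.Helper30.Perc Pool.Agent.Helper22.PG

/-- [Cl0] -/
theorem thm_Cl0 (hTri : St_Tri) (hCnt : St_Cnt) : St_Cl0 := by
  intro Γ Q _ _ _ _ G _ H _ d d' v v' π hG hH hπ p q k₀ A E σ ς ρ e τ m hS hp hF hA hk hT
    M B y b hPos hAt hCa hCb hyb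
  classical
  obtain ⟨K, hK⟩ := hF
  have hCa0 := hCa 0 le_rfl
  have hfar : ∀ o ∈ vert B, σ 0 < G.dist y o := by
    intro o ho
    by_contra hcon
    push Not at hcon
    have h1 := hπ.dist_le hG.conn hH.conn y o
    have h2 : o ∈ nb H π (vert B) (π y) (2 * σ 0) :=
      (mem_nb hH.conn).2 ⟨ho, by omega⟩
    unfold Ca at hCa0
    rw [hS.m0, Nat.le_zero, card_eq_zero] at hCa0
    rw [hCa0] at h2
    exact absurd h2 (notMem_empty o)
  refine ((hT M B y hPos hAt hfar).strong hPos).mono ?_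
  rintro M' B' ⟨⟨j, N, hj, hN, hNd, hNat⟩, hPos', hBB, hBq⟩
  apply Frc.base
  have e0 := hS.e0
  have c1 := hS.c1 0
  have c3 := hS.c3 0
  have v3 := hS.v3
  have v4 := hS.v4
  have t0 := hS.t0
  -- the bad set
  obtain ⟨O, hO⟩ : ∃ O : Finset Γ, O = nb H π (vert B') (π y) (5 * ρ 0) := ⟨_, rfl⟩
  have hOc : O.card ≤ 2 * m 1 + 2 * q := by
    have h1 := nb_le (π := π) hH.conn hBB hBq (c := π y) (c' := π y) (r := 5 * ρ 0)
      (r' := 5 * ρ 0) (by simp)
    rw [← hO] at h1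
    have h2 : (nb H π (vert B) (π y) (5 * ρ 0)).card ≤ 2 * m (0 + 1) := hCb
    rw [Nat.zero_add] at h2
    omega
  obtain ⟨X', hX'⟩ : ∃ X' : Finset Q, X' = bl H b (ς 0) := ⟨_, rfl⟩
  have hX'm : ∀ c, c ∈ X' ↔ H.dist b c ≤ ς 0 := fun c => by rw [hX', mem_bl hH.conn]
  obtain ⟨Bad', hBad'⟩ : ∃ Bad' : Finset Q,
    Bad' = X'.filter fun c => 0 < (nb H π (vert B') c (2 * σ 0)).card := ⟨_, rfl⟩
  have hX'c : X'.card = v' (ς 0) := by rw [hX']; exact hH.vol b (ς 0)
  have hNne : N.Nonempty := by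
    rw [← card_pos]
    exact lt_of_lt_of_le (Nat.pow_pos (by omega)) hN
  have hX'ne : X'.Nonempty := ⟨b, by rw [hX'm]; simp⟩
  have hxy : ∀ x ∈ N, H.dist (π y) (π x) ≤ σ 0 := fun x hx =>
    (hπ.dist_le hG.conn hH.conn y x).trans (hNd x hx)
  have hD : ∀ x ∈ N, ∀ x' ∈ X', H.dist (π x) x' ≤ σ 0 + e 0 + 1 + ς 0 := by
    intro x hx x' hx'
    have h1 := hxy x hx
    have h2 := (hX'm x').1 hx'
    have h3 := hH.conn.dist_triangle (u := π x) (v := π y) (w := x')
    have h4 := hH.conn.dist_triangle (u := π y) (v := b) (w := x')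
    rw [SimpleGraph.dist_comm] at h1
    omega
  have hbad1 : 8 * O.card * (ρ 0 + 1) ≤ 8 * (2 * m 1 + 2 * q) * (ρ 0 + 1) :=
    Nat.mul_le_mul_right _ (Nat.mul_le_mul_left _ hOc)
  have hbad' : 8 * Bad'.card ≤ X'.card := by
    have h1 := (hCnt Γ Q H d' v' π hH X' (vert B') (π y) (e 0 + 1 + ς 0) (2 * σ 0) 0 (by
      intro c hc
      have h2 := (hX'm c).1 hc
      have h4 := hH.conn.dist_triangle (u := π y) (v := b) (w := c)
      omega)).2
    have h3 : (nb H π (vert B') (π y) (e 0 + 1 + ς 0 + 2 * σ 0)).card ≤ O.card := by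
      rw [hO]
      refine card_le_card (nb_subset hH.conn subset_rfl ?_)
      rw [SimpleGraph.dist_self]
      omega
    rw [hX'c]
    have h1' : Bad'.card ≤ (nb H π (vert B') (π y) (e 0 + 1 + ς 0 + 2 * σ 0)).card *
        v' (2 * σ 0) := by
      rw [hBad']
      exact h1
    calc 8 * Bad'.card ≤ 8 * ((nb H π (vert B') (π y) (e 0 + 1 + ς 0 + 2 * σ 0)).card *
          v' (2 * σ 0)) := Nat.mul_le_mul_left _ h1'
      _ ≤ 8 * ((2 * m 1 + 2 * q) * v' (2 * σ 0)) :=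
          Nat.mul_le_mul_left _ (Nat.mul_le_mul_right _ (h3.trans hOc))
      _ ≤ _ := v4
  obtain ⟨x, hx, z, hz, hzB, w, hw, hwO⟩ := hTri Γ Q G H d d' v v' π hG hH hπ
    (σ 0 + e 0 + 1 + ς 0) (ρ 0) K N X' O Bad' hK hNne hX'ne hD (hbad1.trans (hA.trans hN))
    (by rw [hX'c]; exact hbad1.trans v3) hbad'
  have hwB : ∀ u ∈ w.support, u ∉ vert B' := by
    intro u hu huB
    refine hwO u hu ?_
    rw [hO]
    refine (mem_nb hH.conn).2 ⟨huB, ?_⟩
    have h1 : G.dist x u ≤ 2 * ρ 0 :=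
      (SimpleGraph.dist_le (w.takeUntil u hu)).trans ((w.length_takeUntil_le_length hu).trans hw)
    have h2 := hπ.dist_le hG.conn hH.conn x u
    have h3 := hH.conn.dist_triangle (u := π y) (v := π x) (w := π u)
    have h4 := hxy x hx
    omega
  have hAtz : At G k₀ M' B' z := ((hNat x hx).walk w hwB).mono (by
    have := hk j hj
    omega) subset_rfl
  refine ⟨hPos', hBB, by rw [t0, mul_one]; exact hBq, z, hAtz, ?_, ?_⟩
  · rw [SimpleGraph.dist_comm, e0]
    exact (hX'm _).1 hz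
  · intro i hi
    have hi0 : i = 0 := by omega
    subst hi0
    unfold Ca
    by_contra hcon
    refine hzB ?_
    rw [hBad', mem_filter]
    exact ⟨hz, by omega⟩

end Pool.Agent.ISP
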