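import Pool.Agent.ISP.St

/-! ISP module Cls: the induction step. -/

set_option autoImplicit false

namespace Pool.Agent.ISP

open Finset Filter Pool.Agent.Helper30.Perc Pool.Agent.Helper22.PG

theorem thm_Cls (h1 : St_Flw) (h2 : St_Pth) : St_Cls := by
  intro Γ Q _ _ _ _ G _ H _ d' v' π hH p q k₀ σ ς ρ e τ m hS k hF hC
  intro M B y b hPos hAt hCa hCb hyb
  obtain ⟨L, c, hL, hc0, hcs, hcn, hcb, hcf⟩ := h2 Γ Q H d' v' π hH q σ ς ρ e τ m hS k hF
    (vert B) (π y) b (hCa (k + 1) le_rfl) hCb hyb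
  have hLt : (L + 1) * τ k ≤ τ (k + 1) := by
    rw [hS.t1 k]
    exact Nat.mul_le_mul_right _ (by omega)
  have hst := h1 Γ Q G H d' v' π hH p q k₀ σ ς ρ e τ m hS k hC L c M B y hLt hcs hcn hPos hAt
    (fun j hj => hCa j (by omega)) (by rw [hc0, SimpleGraph.dist_self]; omega)
  refine hst.mono fun M' B' hF' => hF'.mono fun M'' B'' hG => ?_
  obtain ⟨hPos', hBB, hcard, y', hAt', hy', hCa'⟩ := hG
  have hcard' : B''.card ≤ B.card + q * τ (k + 1) :=
    hcard.trans (Nat.add_le_add_left (Nat.mul_le_mul_left _ hLt) _)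
  refine ⟨hPos', hBB, hcard', y', hAt', ?_, ?_⟩
  · have h3 := hH.conn.dist_triangle (u := π y') (v := c L) (w := b)
    have h4 := hS.e1 k
    omega
  · intro j hj
    rcases Nat.lt_or_ge j (k + 1) with h | h
    · exact hCa' j (by omega)
    · have hjk : j = k + 1 := by omega
      subst hjk
      have h5 : H.dist (c L) (π y') + 2 * σ (k + 1) ≤ 3 * σ (k + 1) := by
        rw [SimpleGraph.dist_comm]
        have h6 := hS.c1 k
        have h7 := hS.c2 k
        omega
      have h8 := nb_le (π := π) hH.conn hBB hcard' h5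
      have h9 := hS.m1 k
      unfold Ca
      rw [h9]
      calc (nb H π (vert B'') (π y') (2 * σ (k + 1))).card
          ≤ (nb H π (vert B) (c L) (3 * σ (k + 1))).card + 2 * (q * τ (k + 1)) := h8
        _ ≤ 4 * (q + 1) * τ (k + 1) + 2 * (q * τ (k + 1)) := Nat.add_le_add_right hcf _
        _ ≤ 8 * (q + 1) * τ (k + 1) := by
          nlinarith [Nat.zero_le (q * τ (k + 1)), Nat.zero_le (τ (k + 1))]

end Pool.Agent.ISP
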