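import Pool.Agent.ISP.St

/-!
# Percolation games on Cayley graphs with controlled Foelner sets: one composition step
-/

set_option autoImplicit false

namespace Pool.Agent.ISP

open Finset Filter Pool.Agent.Helper30.Perc Pool.Agent.Helper22.PG
open Pool.Agent.SIM (MinAdm Lv cay)

/-- the real inequality of the composition step -/
private lemma cmp_real (κ K S s ρ m p c C₁ : ℝ) (hκ : 0 ≤ κ) (hK : κ ≤ K) (hS : 1 ≤ S)
    (hSs : S * S = s) (hρ0 : 0 ≤ ρ) (hρ : ρ ≤ S) (hm : 0 ≤ m) (hc : 0 ≤ c)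
    (h1 : m * (s + ρ) ≤ p) (h2 : p ≤ (m + 1) * (s + ρ)) (h3 : s * s ≤ p)
    (hC : 3 * K + 2 * c ≤ C₁) :
    (κ - C₁ / S) * p ≤ m * (κ * s) - m * (c * (ρ + 1)) := by
  have hS0 : 0 < S := by linarith
  have hs1 : S ≤ s := by nlinarith
  have hs0 : 0 ≤ s := by linarith
  obtain ⟨q, hq⟩ : ∃ q, q = p / S := ⟨_, rfl⟩
  have e1 : C₁ / S * p = C₁ * q := by rw [hq]; ring
  have hq1 : m * S ≤ q := by
    rw [hq, le_div_iff₀ hS0]
    calc m * S * S = m * s := by rw [mul_assoc, hSs]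
      _ ≤ m * (s + ρ) := by nlinarith [mul_nonneg hm hρ0]
      _ ≤ p := h1
  have hq2 : s ≤ q := by
    rw [hq, le_div_iff₀ hS0]
    nlinarith [mul_nonneg hs0 (sub_nonneg.2 hs1)]
  have hq0 : 0 ≤ q := hs0.trans hq2
  have h4 : m * ρ ≤ q := (mul_le_mul_of_nonneg_left hρ hm).trans hq1
  have h5 : m ≤ q := by nlinarith
  have h6 : ρ ≤ q := by linarith
  have h7 : κ * p ≤ κ * (m * s) + κ * (3 * q) := by
    rw [← mul_add]
    refine mul_le_mul_of_nonneg_left ?_ hκ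
    nlinarith
  have h8 : κ * (3 * q) ≤ K * (3 * q) := mul_le_mul_of_nonneg_right hK (by linarith)
  have h9 : c * (m * ρ + m) ≤ c * (q + q) := mul_le_mul_of_nonneg_left (by linarith) hc
  have h10 : (3 * K + 2 * c) * q ≤ C₁ * q := mul_le_mul_of_nonneg_right hC hq0
  rw [sub_mul, e1]
  nlinarith

theorem thm_Cmp (h1 : St_Loc) (h2 : St_Nms) (h3 : St_Plc) : St_Cmp := by
  intro Γ _ _ G _ d v hCy K B E
  obtain ⟨ψ, -, hψg, hψ⟩ := h1 Γ G d v hCy
  obtain ⟨r₀, hr₀⟩ := hψg 2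
  obtain ⟨s₀, hs₀⟩ := h2 v ψ (fun r => hCy.v_pos r) hCy.gr hψg B (E + 2)
  set Rθ : ℕ := max r₀ 3 with hRθ
  have hθ : ∀ r, Rθ < r → 2 * r + 1 ≤ ψ r := by
    intro r hr
    have ha : r₀ ≤ r := (le_max_left r₀ 3).trans hr.le
    have hb : 3 < r := (le_max_right r₀ 3).trans_lt hr
    have hc := hr₀ r ha
    nlinarith
  refine ⟨3 * |K| + 2 * ((d * v Rθ : ℕ) : ℝ) + 1, max s₀ 1, by positivity, ?_⟩
  intro s hs κ T0 R1 hκ0 hκK hT0 hT0c hR1 hcut p hp1 hp2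
  have hs1 : 1 ≤ s := (le_max_right s₀ 1).trans hs
  obtain ⟨ρ, R0, hρ, hm⟩ := hs₀ s ((le_max_left s₀ 1).trans hs)
  have hρE : ρ ^ E ≤ s := by
    rcases Nat.eq_zero_or_pos ρ with h0 | h0
    · rw [h0]
      rcases Nat.eq_zero_or_pos E with h0' | h0'
      · rw [h0', pow_zero]
        exact hs1
      · rw [zero_pow h0'.ne']
        omega
    · exact (Nat.pow_le_pow_right h0 (by omega)).trans hρ
  have hρ2 : ρ ^ 2 ≤ s := by
    rcases Nat.eq_zero_or_pos ρ with h0 | h0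
    · rw [h0]
      simp
    · exact (Nat.pow_le_pow_right h0 (by omega)).trans hρ
  set m : ℕ := p / (s + ρ) with hmdef
  have hmp : m ≤ p := Nat.div_le_self _ _
  obtain ⟨hm1, hm2⟩ := hm m (hmp.trans hp2)
  obtain ⟨T, hT1, hT2, hT3, hT4⟩ := h3 Γ G d v hCy ψ hψ T0 s R1 ρ R0 Rθ m (κ * s) hT0 hT0c hR1
    hcut hm1 hθ hm2
  have hmle : m * (s + ρ) ≤ p := Nat.div_mul_le_self _ _
  have hmlt : p ≤ (m + 1) * (s + ρ) := by
    have := Nat.lt_div_mul_add (a := p) (b := s + ρ) (by omega)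
    rw [← hmdef] at this
    calc p ≤ m * (s + ρ) + (s + ρ) := this.le
      _ = (m + 1) * (s + ρ) := by ring
  refine ⟨T, ρ, hρE, hT1, hT2.trans hmle, hT3, fun W hW => ?_⟩
  have h5 := hT4 W hW
  have hsR : (1 : ℝ) ≤ (s : ℝ) := by exact_mod_cast hs1
  have hSS : Real.sqrt (s : ℝ) * Real.sqrt (s : ℝ) = (s : ℝ) :=
    Real.mul_self_sqrt (by positivity)
  have hS1 : 1 ≤ Real.sqrt (s : ℝ) := by
    rw [Real.one_le_sqrt]
    exact hsR
  have hρS : (ρ : ℝ) ≤ Real.sqrt (s : ℝ) := by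
    refine Real.le_sqrt_of_sq_le ?_
    exact_mod_cast hρ2
  have h6 := cmp_real κ K (Real.sqrt (s : ℝ)) (s : ℝ) (ρ : ℝ) (m : ℝ) (p : ℝ)
    ((d * v Rθ : ℕ) : ℝ) (3 * |K| + 2 * ((d * v Rθ : ℕ) : ℝ) + 1) hκ0 hκK hS1 hSS
    (by positivity) hρS (by positivity) (by positivity) (by exact_mod_cast hmle)
    (by exact_mod_cast hmlt) (by
      have : s * s ≤ p := by rw [← pow_two]; exact hp1
      exact_mod_cast this) (by
      have := le_abs_self K
      linarith)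
  refine h6.trans ?_
  push_cast
  nlinarith [h5]

end Pool.Agent.ISP
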