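import Pool.Agent.ISP.St

/-!
# ISP [Cnt]: Markov's inequality for balls
-/

set_option autoImplicit false

namespace Pool.Agent.ISP

open Finset Filter Pool.Agent.Helper30.Perc Pool.Agent.Helper22.PG

private lemma cnt_sum {Γ Q : Type} [Group Γ] [DecidableEq Γ] [Group Q] [DecidableEq Q]
    (H : SimpleGraph Q) [H.LocallyFinite] (d' : ℕ) (v' : ℕ → ℕ) (π : Γ → Q) (h : Cy H d' v')
    (F : Finset Q) (O : Finset Γ) (y : Q) (R r : ℕ) (hF : ∀ c ∈ F, H.dist y c ≤ R) :
    ∑ c ∈ F, (nb H π O c r).card ≤ (nb H π O y (R + r)).card * v' r := by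
  have h1 : ∀ c ∈ F, (nb H π O c r).card =
      ∑ o ∈ nb H π O y (R + r), if H.dist c (π o) ≤ r then 1 else 0 := by
    intro c hc
    rw [← card_filter]
    congr 1
    ext o
    rw [mem_filter, mem_nb h.conn, mem_nb h.conn]
    constructor
    · rintro ⟨h2, h3⟩
      refine ⟨⟨h2, ?_⟩, h3⟩
      have h4 := h.conn.dist_triangle (u := y) (v := c) (w := π o)
      have h5 := hF c hc
      omega
    · rintro ⟨⟨h2, _⟩, h3⟩
      exact ⟨h2, h3⟩
  rw [sum_congr rfl h1, sum_comm]
  have h2 : ∀ o ∈ nb H π O y (R + r), (∑ c ∈ F, if H.dist c (π o) ≤ r then 1 else 0) ≤ v' r := by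
    intro o _
    rw [← card_filter, ← h.vol (π o) r]
    refine card_le_card fun c hc => ?_
    rw [mem_bl h.conn, SimpleGraph.dist_comm]
    exact (mem_filter.1 hc).2
  refine (sum_le_sum h2).trans ?_
  rw [sum_const, smul_eq_mul]

theorem thm_Cnt : St_Cnt := by
  intro Γ Q _ _ _ _ H _ d' v' π h S O y R r t hS
  have hF : ∀ c ∈ S.filter (fun c => t < (nb H π O c r).card), H.dist y c ≤ R :=
    fun c hc => hS c (mem_filter.1 hc).1
  have h1 := cnt_sum H d' v' π h _ O y R r hF
  refine ⟨?_, ?_⟩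
  · refine le_trans ?_ h1
    rw [← smul_eq_mul, ← sum_const]
    exact sum_le_sum fun c hc => (mem_filter.1 hc).2.le
  · refine le_trans ?_ h1
    rw [card_eq_sum_ones]
    refine sum_le_sum fun c hc => ?_
    have := (mem_filter.1 hc).2
    omega

end Pool.Agent.ISP
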