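import Pool.Agent.SIM.Basic

/-!
# Percolation games on Cayley graphs with controlled Foelner sets: definitions
-/

set_option autoImplicit false

namespace Pool.Agent.ISP

open Finset Filter Pool.Agent.Helper30.Perc Pool.Agent.Helper22.PG

section

variable {Γ : Type} [Group Γ] [DecidableEq Γ]

/-- Standing assumptions: `G` is a connected left invariant graph on the group `Γ` (a Cayley
graph) of degree at most `d`, the balls of radius `r` have `v r` elements, and for every `B` the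
inequality `r ^ B * v r ≤ v (r ^ 2)` holds for all large `r`. -/
structure Cy (G : SimpleGraph Γ) [G.LocallyFinite] (d : ℕ) (v : ℕ → ℕ) : Prop where
  inv : ∀ g x y, G.Adj (g * x) (g * y) ↔ G.Adj x y
  conn : G.Connected
  deg : ∀ x, (G.neighborFinset x).card ≤ d
  vol : ∀ x r, (bl G x r).card = v r
  gr : ∀ B : ℕ, ∃ r₀ : ℕ, ∀ r, r₀ ≤ r → r ^ B * v r ≤ v (r ^ 2)

/-- `K` is a nonempty finite set in the ball of radius `ρ` around `1`, at least half of which stays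
in `K` under left translation by every element of the ball of radius `D`. -/
def Fo (G : SimpleGraph Γ) (D ρ : ℕ) (K : Finset Γ) : Prop :=
  K.Nonempty ∧ (∀ x ∈ K, G.dist 1 x ≤ ρ) ∧
    ∀ g, G.dist 1 g ≤ D → K.card ≤ 2 * (K ∩ K.image fun k => g * k).card

/-- Controlled Foelner sets: for all large `D` there is such a set in the ball of radius
`D ^ C`. -/
def FoC (G : SimpleGraph Γ) (C : ℕ) : Prop :=
  ∃ D₀ : ℕ, ∀ D, D₀ ≤ D → ∃ K : Finset Γ, Fo G D (D ^ C) K

/-- Localisation with the function `ψ`: around every vertex `x` of a minimal admissible set there is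
a ball of some radius `r` with more than `ψ r` vertices of the template. -/
def LocP (G : SimpleGraph Γ) [G.LocallyFinite] (ψ : ℕ → ℕ) : Prop :=
  ∀ (o : Γ) (T : Finset (Sym2 Γ)) (W : Finset Γ), SIM.MinAdm G o T W → ∀ x ∈ W, ∃ r : ℕ,
    ψ r < ((insert o (vert T)) ∩ bl G x r).card

/-- Templates of subpolynomial diameter: `T` has at most `p` edges, its vertices are within
`p ^ (1 / E)` of `1`, and every admissible set has at least `(κ - ε) p` boundary edges. -/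
def Stat (G : SimpleGraph Γ) [G.LocallyFinite] (κ : ℝ) : Prop :=
  ∀ ε : ℝ, 0 < ε → ∀ E : ℕ, ∃ p₀ : ℕ, ∀ p : ℕ, p₀ ≤ p → ∃ T : Finset (Sym2 Γ),
    (T : Set (Sym2 Γ)) ⊆ G.edgeSet ∧ T.card ≤ p ∧ (∀ u ∈ vert T, G.dist 1 u ^ E ≤ p) ∧
    ∀ W : Finset Γ, Adm 1 T W → (κ - ε) * p ≤ cut G W

/-! ## The game -/

/-- One round of the `(p,q)`-game from Maker's set `M` and Breaker's set `B`: Maker has a legal
move `X` such that `Φ` holds after every legal reply. -/
def Stp (G : SimpleGraph Γ) (p q : ℕ) (M B : Finset (Sym2 Γ))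
    (Φ : Finset (Sym2 Γ) → Finset (Sym2 Γ) → Prop) : Prop :=
  ∃ X : Finset (Sym2 Γ), X.card = p ∧ (X : Set (Sym2 Γ)) ⊆ G.edgeSet ∧ Disjoint X (M ∪ B) ∧
    ∀ Y : Finset (Sym2 Γ), Y.card = q → (Y : Set (Sym2 Γ)) ⊆ G.edgeSet →
      Disjoint Y (M ∪ X ∪ B) → Φ (M ∪ X) (B ∪ Y)

/-- Maker can force the play to reach a position satisfying `Q`. -/
inductive Frc (G : SimpleGraph Γ) (p q : ℕ) (Q : Finset (Sym2 Γ) → Finset (Sym2 Γ) → Prop) :
    Finset (Sym2 Γ) → Finset (Sym2 Γ) → Prop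
  | base (M B : Finset (Sym2 Γ)) (h : Q M B) : Frc G p q Q M B
  | step (M B X : Finset (Sym2 Γ)) (h1 : X.card = p) (h2 : (X : Set (Sym2 Γ)) ⊆ G.edgeSet)
      (h3 : Disjoint X (M ∪ B))
      (h4 : ∀ Y : Finset (Sym2 Γ), Y.card = q → (Y : Set (Sym2 Γ)) ⊆ G.edgeSet →
        Disjoint Y (M ∪ X ∪ B) → Frc G p q Q (M ∪ X) (B ∪ Y)) : Frc G p q Q M B

/-- Maker is live at `y`: it can be reached from `1` by her edges and at most `k` other edges that
do not belong to Breaker. -/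
def At (G : SimpleGraph Γ) (k : ℕ) (M B : Finset (Sym2 Γ)) (y : Γ) : Prop :=
  ∃ X : Finset (Sym2 Γ), X.card ≤ k ∧ (X : Set (Sym2 Γ)) ⊆ G.edgeSet ∧ Disjoint X B ∧
    (SimpleGraph.fromEdgeSet ((M ∪ X : Finset (Sym2 Γ)) : Set (Sym2 Γ))).Reachable 1 y

/-- The scales of the steering strategy. -/
structure Scl (v : ℕ → ℕ) (q : ℕ) (σ ς ρ e τ m : ℕ → ℕ) : Prop where
  e0 : e 0 = ς 0
  e1 : ∀ k, e (k + 1) = ς (k + 1) + e k
  t0 : τ 0 = 1
  t1 : ∀ k, τ (k + 1) = (σ (k + 1) + 2 * ρ (k + 1) + 1) * τ k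
  m0 : m 0 = 0
  m1 : ∀ k, m (k + 1) = 8 * (q + 1) * τ (k + 1)
  c0 : 1 ≤ σ 0
  c1 : ∀ k, e k + 1 ≤ ρ k
  c2 : ∀ k, 6 * ρ k ≤ σ (k + 1)
  c3 : ∀ k, σ k ≤ ς k
  v1 : ∀ k, 16 * ((σ (k + 2) + 2 * ρ (k + 2) + 1) * v (6 * ρ k)) * (ρ (k + 1) + 1) ≤
    v (σ (k + 1))
  v2 : ∀ k, 32 * ((σ (k + 2) + 2 * ρ (k + 2) + 1) * v (3 * σ (k + 1))) ≤ v (ς (k + 1))
  v3 : 8 * (2 * m 1 + 2 * q) * (ρ 0 + 1) ≤ v (ς 0)
  v4 : 8 * ((2 * m 1 + 2 * q) * v (2 * σ 0)) ≤ v (ς 0)

end

section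

variable {Γ Q : Type} [Group Γ] [DecidableEq Γ] [Group Q] [DecidableEq Q]

/-- `π` is a homomorphism onto a quotient, compatible with the graphs: edges are mapped to edges or
to single vertices, and edges can be lifted. -/
structure Qm (G : SimpleGraph Γ) (H : SimpleGraph Q) (π : Γ → Q) : Prop where
  mul : ∀ x y, π (x * y) = π x * π y
  adj : ∀ x y, G.Adj x y → π x = π y ∨ H.Adj (π x) (π y)
  lift : ∀ x q, H.Adj (π x) q → ∃ y, G.Adj x y ∧ π y = q

/-- the elements of `O` whose image is in the ball of radius `r` around `c` -/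
def nb (H : SimpleGraph Q) [H.LocallyFinite] (π : Γ → Q) (O : Finset Γ) (c : Q) (r : ℕ) :
    Finset Γ :=
  O.filter fun o => π o ∈ bl H c r

/-- Condition (a) of level `k` at the vertex `c`: few endpoints of Breaker's edges are mapped to the
ball of radius `2 σ k`. -/
def Ca (H : SimpleGraph Q) [H.LocallyFinite] (π : Γ → Q) (σ m : ℕ → ℕ) (k : ℕ)
    (B : Finset (Sym2 Γ)) (c : Q) : Prop :=
  (nb H π (vert B) c (2 * σ k)).card ≤ m k

/-- Condition (b) of level `k` at the vertex `c`: not too many endpoints of Breaker's edges are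
mapped to the ball of radius `5 ρ k`. -/
def Cb (H : SimpleGraph Q) [H.LocallyFinite] (π : Γ → Q) (ρ m : ℕ → ℕ) (k : ℕ)
    (B : Finset (Sym2 Γ)) (c : Q) : Prop :=
  (nb H π (vert B) c (5 * ρ k)).card ≤ 2 * m (k + 1)

/-- The end of an excursion of level `k` with target `b` which uses at most `t` rounds: Maker is
live at some `y'` whose image is within `e k` of the target, with (a) at all levels up to `k`. -/
def Goal (G : SimpleGraph Γ) (H : SimpleGraph Q) [H.LocallyFinite] (π : Γ → Q) (q k₀ : ℕ)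
    (σ e m : ℕ → ℕ) (k t : ℕ) (b : Q) (B M' B' : Finset (Sym2 Γ)) : Prop :=
  Pos G M' B' ∧ B ⊆ B' ∧ B'.card ≤ B.card + q * t ∧
    ∃ y', At G k₀ M' B' y' ∧ H.dist (π y') b ≤ e k ∧ ∀ j ≤ k, Ca H π σ m j B' (π y')

/-- The claim of level `k`: from a legal position with Maker live at `y`, (a) at all levels up to
`k` and (b) at level `k`, she can get, in at least one and at most `τ k` rounds, near every target
within `e k + 1` of (the image of) `y`. -/
def Clm (G : SimpleGraph Γ) (H : SimpleGraph Q) [H.LocallyFinite] (π : Γ → Q) (p q k₀ : ℕ)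
    (σ ρ e τ m : ℕ → ℕ) (k : ℕ) : Prop :=
  ∀ (M B : Finset (Sym2 Γ)) (y : Γ) (b : Q), Pos G M B → At G k₀ M B y →
    (∀ j ≤ k, Ca H π σ m j B (π y)) → Cb H π ρ m k B (π y) → H.dist (π y) b ≤ e k + 1 →
    Stp G p q M B (Frc G p q (Goal G H π q k₀ σ e m k (τ k) b B))

/-- Positions of the invariant. -/
def Inv (G : SimpleGraph Γ) (H : SimpleGraph Q) [H.LocallyFinite] (π : Γ → Q) (q k₀ : ℕ)
    (σ τ m : ℕ → ℕ) (M B : Finset (Sym2 Γ)) : Prop :=
  Pos G M B ∧ ∃ (k : ℕ) (y : Γ), At G k₀ M B y ∧ (∀ j ≤ k, Ca H π σ m j B (π y)) ∧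
    B.card ≤ 4 * (q + 1) * τ (k + 1)

end

end Pool.Agent.ISP
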