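import Pool.Agent.ISP.St

/-! ISP module Exg: exponential growth. -/

set_option autoImplicit false

namespace Pool.Agent.ISP

open Finset Filter Pool.Agent.Helper30.Perc Pool.Agent.Helper22.PG

/-- powers are eventually smaller than exponentials -/
private lemma exg_pow (a B : ℕ) : ∃ r₀ : ℕ, ∀ r, r₀ ≤ r → a * r ^ B ≤ 2 ^ r := by
  have h1 : Tendsto (fun n : ℕ => (n : ℝ) ^ B / (2 : ℝ) ^ n) atTop (nhds 0) :=
    tendsto_pow_const_div_const_pow_of_one_lt B (by norm_num)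
  have h2 : ∀ᶠ n : ℕ in atTop, (n : ℝ) ^ B / (2 : ℝ) ^ n < 1 / (a + 1) :=
    (tendsto_order.1 h1).2 _ (by positivity)
  obtain ⟨r₀, hr₀⟩ := eventually_atTop.1 h2
  refine ⟨r₀, fun r hr => ?_⟩
  have h3 := hr₀ r hr
  rw [div_lt_div_iff₀ (by positivity) (by positivity)] at h3
  have h4 : (a : ℝ) * (r : ℝ) ^ B ≤ 2 ^ r := by
    have h5 : (0 : ℝ) ≤ (r : ℝ) ^ B := by positivity
    nlinarith
  exact_mod_cast h4

theorem thm_Exg : St_Exg := by
  intro d c v h0 hle hmono hgr B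
  have hc : 0 < c := by
    rcases Nat.eq_zero_or_pos c with h | h
    · have h1 := hgr 1
      rw [h, Nat.zero_mul, h0] at h1
      omega
    · exact h
  obtain ⟨r₁, hr₁⟩ := exg_pow 2 B
  refine ⟨max r₁ (c * (d + 3)), fun r hr => ?_⟩
  have h1 : r₁ ≤ r := (le_max_left _ _).trans hr
  have h2 : c * (d + 3) ≤ r := (le_max_right _ _).trans hr
  -- `r ^ 2 / c ≥ (d + 2) r + 1`
  have h3 : r * (d + 3) ≤ r ^ 2 / c := by
    rw [Nat.le_div_iff_mul_le hc]
    calc r * (d + 3) * c = r * (c * (d + 3)) := by ring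
      _ ≤ r * r := Nat.mul_le_mul_left _ h2
      _ = r ^ 2 := by ring
  have h4 : d + 1 ≤ 2 ^ d := Nat.lt_two_pow_self
  calc r ^ B * v r ≤ 2 ^ r * (2 ^ d) ^ r := by
        refine Nat.mul_le_mul ?_ ((hle r).trans (Nat.pow_le_pow_left h4 r))
        have := hr₁ r h1
        omega
    _ = 2 ^ (r * (d + 1)) := by rw [← pow_mul, ← pow_add]; congr 1; ring
    _ ≤ 2 ^ (r * (d + 3)) := Nat.pow_le_pow_right (by norm_num) (Nat.mul_le_mul_left _ (by omega))
    _ ≤ 2 ^ (r ^ 2 / c) := Nat.pow_le_pow_right (by norm_num) h3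
    _ ≤ v (c * (r ^ 2 / c)) := hgr _
    _ ≤ v (r ^ 2) := hmono _ _ (Nat.mul_div_le _ _)

end Pool.Agent.ISP
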