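import Pool.Agent.ISP.St

/-!
# ISP, Fgr: the inverse growth function at the powers of 2 is subpolynomial
-/

set_option autoImplicit false

namespace Pool.Agent.ISP

open Finset Filter Pool.Agent.Helper30.Perc Pool.Agent.Helper22.PG

theorem thm_Fgr : St_Fgr := by
  classical
  intro Γ _ _ G _ d v h
  have hex : ∀ k : ℕ, ∃ R, 2 ^ (k + 2) ≤ v R := fun k => by
    obtain ⟨R, hR⟩ := h.v_unb (2 ^ (k + 2))
    exact ⟨R, hR.le⟩
  refine ⟨fun k => Nat.find (hex k), fun k => Nat.find_spec (hex k), fun k => ?_, fun k => ?_,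
    fun A => ?_⟩
  · rw [Nat.one_le_iff_ne_zero]
    intro h0
    have h1 := Nat.find_spec (hex k)
    have h0' : Nat.find (hex k) = 0 := h0
    rw [h0', h.v_zero] at h1
    have h2 : 2 ^ (k + 2) = 4 * 2 ^ k := by ring
    have h3 : 0 < 2 ^ k := by positivity
    omega
  · refine Nat.find_min' (hex k) ?_
    refine le_trans ?_ (Nat.find_spec (hex (k + 1)))
    exact Nat.pow_le_pow_right (by norm_num) (by omega)
  · obtain ⟨r₁, hr₁⟩ := h.v_pow A
    refine ⟨4 * 2 ^ A + (r₁ + 1) ^ A, fun k => ?_⟩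
    show Nat.find (hex k) ^ A ≤ _
    have hk : 1 ≤ 2 ^ k := Nat.one_le_two_pow
    have hmin : ∀ m, m < Nat.find (hex k) → v m < 2 ^ (k + 2) := fun m hm =>
      not_le.1 (Nat.find_min (hex k) hm)
    generalize Nat.find (hex k) = R at hmin
    by_cases hc : r₁ + 2 ≤ R
    · have h1 := hr₁ (R - 1) (by omega)
      have h2 := hmin (R - 1) (by omega)
      have h3 : R ≤ 2 * (R - 1) := by omega
      calc R ^ A ≤ (2 * (R - 1)) ^ A := Nat.pow_le_pow_left h3 A
        _ = 2 ^ A * (R - 1) ^ A := mul_pow _ _ _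
        _ ≤ 2 ^ A * 2 ^ (k + 2) := Nat.mul_le_mul_left _ (h1.trans h2.le)
        _ = 4 * 2 ^ A * 2 ^ k := by ring
        _ ≤ (4 * 2 ^ A + (r₁ + 1) ^ A) * 2 ^ k :=
          Nat.mul_le_mul_right _ (Nat.le_add_right _ _)
    · calc R ^ A ≤ (r₁ + 1) ^ A := Nat.pow_le_pow_left (by omega) A
        _ ≤ 4 * 2 ^ A + (r₁ + 1) ^ A := Nat.le_add_left _ _
        _ = (4 * 2 ^ A + (r₁ + 1) ^ A) * 1 := (mul_one _).symm
        _ ≤ (4 * 2 ^ A + (r₁ + 1) ^ A) * 2 ^ k := Nat.mul_le_mul_left _ hk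

end Pool.Agent.ISP
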