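import Pool.Agent.ISP.St
import Pool.Agent.SIM.Final

/-!
# Percolation games on Cayley graphs with controlled Foelner sets: the theorem
-/

set_option autoImplicit false

namespace Pool.Agent.ISP

open Finset Filter Topology Pool.Agent.Helper30.Perc Pool.Agent.Helper22.PG
open Pool.Agent.SIM (cay)

section

variable {Γ : Type} [Group Γ]

private lemma final_adj (S : Finset Γ) (x y : Γ) :
    (cay S).Adj x y ↔ x ≠ y ∧ (x⁻¹ * y ∈ S ∨ y⁻¹ * x ∈ S) := Iff.rfl

private lemma final_inv (S : Finset Γ) (g x y : Γ) :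
    (cay S).Adj (g * x) (g * y) ↔ (cay S).Adj x y := by
  rw [final_adj, final_adj]
  have h1 : (g * x)⁻¹ * (g * y) = x⁻¹ * y := by group
  have h2 : (g * y)⁻¹ * (g * x) = y⁻¹ * x := by group
  rw [h1, h2]
  constructor
  · rintro ⟨h, h'⟩
    exact ⟨fun e => h (by rw [e]), h'⟩
  · rintro ⟨h, h'⟩
    exact ⟨fun e => h (mul_left_cancel e), h'⟩

private def final_iso (S : Finset Γ) (g : Γ) : cay S ≃g cay S where
  toEquiv := Equiv.mulLeft g
  map_rel_iff' := fun {x y} => final_inv S g x y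

private lemma final_reach (S : Finset Γ) (g x y : Γ)
    (h : (cay S).Reachable x y) : (cay S).Reachable (g * x) (g * y) :=
  h.map (final_iso S g).toHom

private lemma final_conn (S : Finset Γ) (hS : Subgroup.closure (S : Set Γ) = ⊤) :
    (cay S).Connected := by
  have h1 : ∀ g : Γ, (cay S).Reachable 1 g := by
    intro g
    have hg : g ∈ Subgroup.closure (S : Set Γ) := by
      rw [hS]
      exact Subgroup.mem_top g
    induction hg using Subgroup.closure_induction with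
    | mem x hx =>
      by_cases hx1 : x = 1
      · rw [hx1]
      · apply SimpleGraph.Adj.reachable
        rw [final_adj]
        refine ⟨fun h => hx1 h.symm, Or.inl ?_⟩
        rw [inv_one, one_mul]
        exact mem_coe.1 hx
    | one => exact SimpleGraph.Reachable.refl 1
    | mul x y _ _ hx hy =>
      refine hx.trans ?_
      have := final_reach S x 1 y hy
      rwa [mul_one] at this
    | inv x _ hx =>
      have := final_reach S x⁻¹ 1 x hx
      rw [mul_one, inv_mul_cancel] at this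
      exact this.symm
  have h2 : (cay S).Preconnected := fun x y => (h1 x).symm.trans (h1 y)
  exact ⟨h2⟩

private lemma final_nbr [DecidableEq Γ] (S : Finset Γ) (x : Γ) :
    (cay S).neighborSet x ⊆
      ((S.image fun s => x * s) ∪ S.image fun s => x * s⁻¹ : Finset Γ) := by
  intro y hy
  have h : (cay S).Adj x y := hy
  rw [final_adj] at h
  rw [mem_coe, mem_union, mem_image, mem_image]
  rcases h.2 with h | h
  · exact Or.inl ⟨_, h, by group⟩
  · exact Or.inr ⟨_, h, by group⟩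

private lemma final_vol [DecidableEq Γ] (S : Finset Γ) [(cay S).LocallyFinite]
    (hconn : (cay S).Connected) (x : Γ) (r : ℕ) :
    (bl (cay S) x r).card = (bl (cay S) 1 r).card := by
  have hb : bl (cay S) x r = (bl (cay S) 1 r).image fun y => x * y := by
    ext y
    rw [mem_image, mem_bl hconn]
    constructor
    · intro hy
      refine ⟨x⁻¹ * y, ?_, by group⟩
      rw [mem_bl hconn]
      have := dist_iso hconn (final_iso S x) 1 (x⁻¹ * y)
      change (cay S).dist (x * 1) (x * (x⁻¹ * y)) = _ at this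
      rw [mul_one, mul_inv_cancel_left] at this
      rw [← this]
      exact hy
    · rintro ⟨u, hu, rfl⟩
      rw [mem_bl hconn] at hu
      have := dist_iso hconn (final_iso S x) 1 u
      change (cay S).dist (x * 1) (x * u) = _ at this
      rw [mul_one] at this
      rw [this]
      exact hu
  rw [hb]
  exact card_image_of_injective _ (mul_right_injective x)

private lemma final_ncard [DecidableEq Γ] (S : Finset Γ) [(cay S).LocallyFinite]
    (hconn : (cay S).Connected) (r : ℕ) :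
    {g : Γ | (cay S).dist 1 g ≤ r}.ncard = (bl (cay S) 1 r).card := by
  have h1 : {g : Γ | (cay S).dist 1 g ≤ r} = (bl (cay S) 1 r : Set Γ) := by
    ext g
    rw [Finset.mem_coe, mem_bl hconn]
    exact Iff.rfl
  rw [h1, Set.ncard_coe_finset]

/-- Superpolynomial growth, in the form: for every `B` the ball of radius `r ^ 2` has at least
`r ^ B` times as many elements as the ball of radius `r`, for all large `r`. -/
def SuperPoly (S : Finset Γ) : Prop :=
  ∀ B : ℕ, ∃ r₀ : ℕ, ∀ r : ℕ, r₀ ≤ r →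
    r ^ B * {g : Γ | (cay S).dist 1 g ≤ r}.ncard ≤ {g : Γ | (cay S).dist 1 g ≤ r ^ 2}.ncard

/-- Polynomially controlled Foelner sets: small boundary, or growth at most `exp (r ^ a)`, or
return probabilities at least `exp (-n ^ a)`. -/
def FolPoly (S : Finset Γ) : Prop :=
  (∃ c : ℝ, 0 < c ∧ ∃ r₀ : ℕ, ∀ r : ℕ, r₀ ≤ r → ∃ F : Finset Γ, F.Nonempty ∧
    (∀ x ∈ F, (cay S).dist 1 x ≤ r) ∧
      ((bdry (cay S) (F : Set Γ)).ncard : ℝ) ≤ (r : ℝ) ^ (-c) * F.card) ∨
  (∃ a : ℝ, a < 1 ∧ ∃ r₀ : ℕ, ∀ r : ℕ, r₀ ≤ r →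
    ({g : Γ | (cay S).dist 1 g ≤ r}.ncard : ℝ) ≤ Real.exp ((r : ℝ) ^ a)) ∨
  ∃ a : ℝ, a < 1 ∧ ∃ n₀ : ℕ, ∀ n : ℕ, n₀ ≤ n →
    (((cay S).neighborSet 1).ncard : ℝ) ^ (2 * n) * Real.exp (-((n : ℝ) ^ a)) ≤
      {w : (cay S).Walk 1 1 | w.length = 2 * n}.ncard

/-- A quotient of superpolynomial growth with polynomially controlled Foelner sets. -/
def FolQuot (S : Finset Γ) : Prop :=
  ∃ (Q : Type) (_ : Group Q) (φ : Γ →* Q) (T : Finset Q), Function.Surjective φ ∧
    (∀ t, t ∈ T ↔ ∃ s ∈ S, φ s = t) ∧ SuperPoly T ∧ FolPoly T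

private lemma final_cy [DecidableEq Γ] (S : Finset Γ) (hS : Subgroup.closure (S : Set Γ) = ⊤)
    (hgr : SuperPoly S) [(cay S).LocallyFinite] :
    Cy (cay S) (S.card + S.card) (fun r => (bl (cay S) 1 r).card) := by
  have hconn := final_conn S hS
  refine ⟨final_inv S, hconn, fun x => ?_, final_vol S hconn, fun B => ?_⟩
  · have hsub : (cay S).neighborFinset x ⊆
        (S.image fun s => x * s) ∪ S.image fun s => x * s⁻¹ := by
      intro y hy
      rw [SimpleGraph.mem_neighborFinset] at hy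
      exact mem_coe.1 (final_nbr S x hy)
    refine (card_le_card hsub).trans ((card_union_le _ _).trans ?_)
    exact Nat.add_le_add card_image_le card_image_le
  · obtain ⟨r₀, hr₀⟩ := hgr B
    refine ⟨r₀, fun r hr => ?_⟩
    have h := hr₀ r hr
    rwa [final_ncard S hconn, final_ncard S hconn] at h

/-- The Foelner sets of `Fo1` from `FolPoly`. -/
private lemma final_fol (hFo1 : St_Fo1) (hFo2 : St_Fo2) (hRtn : St_Rtn) [DecidableEq Γ]
    (S : Finset Γ) (hS : Subgroup.closure (S : Set Γ) = ⊤) (hgr : SuperPoly S)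
    [(cay S).LocallyFinite] (hF : FolPoly S) : ∃ C, FoC (cay S) C := by
  have hCy := final_cy S hS hgr
  have hconn := final_conn S hS
  rcases hF with ⟨c, hc, r₀, hr₀⟩ | ⟨a, ha, r₀, hr₀⟩ | ⟨a, ha, n₀, hn₀⟩
  · refine hFo1 Γ (cay S) _ _ hCy c hc ⟨r₀, fun r hr => ?_⟩
    obtain ⟨F, h1, h2, h3⟩ := hr₀ r hr
    refine ⟨F, h1, h2, ?_⟩
    rwa [bdry_ncard] at h3
  · obtain ⟨c, hc, hF⟩ := hFo2 Γ (cay S) _ _ hCy a ha ⟨r₀, fun r hr => by
      have h := hr₀ r hr
      rwa [final_ncard S hconn] at h⟩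
    exact hFo1 Γ (cay S) _ _ hCy c hc hF
  · obtain ⟨c, hc, hF⟩ := hRtn Γ (cay S) _ _ hCy a ha ⟨n₀, fun n hn => by
      have h := hn₀ n hn
      rw [← SimpleGraph.coe_finsetWalkLength_eq, Set.ncard_coe_finset,
        ← SimpleGraph.coe_neighborFinset, Set.ncard_coe_finset] at h
      exact h⟩
    exact hFo1 Γ (cay S) _ _ hCy c hc hF

end

/-- the theorem, from the modules -/
theorem final_of (hSst : St_Sst) (hMkr : St_Mkr) (hFo1 : St_Fo1) (hFo2 : St_Fo2)
    (hRtn : St_Rtn) (Γ : Type) [Group Γ] (S : Finset Γ)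
    (hS : Subgroup.closure (S : Set Γ) = ⊤) (hgr : SuperPoly S) :
    ∃ b : ℝ, 0 < b ∧
      (∀ v₀ : Γ, Tendsto (fun p : ℕ => (maxCap (cay S) v₀ p : ℝ) / (p : ℝ)) atTop (𝓝 b)) ∧
      ∀ ε : ℝ, 0 < ε → ∃ p₀ : ℕ, ∀ p q : ℕ, p₀ ≤ p → ∀ v₀ : Γ,
        ((b + ε) * (p : ℝ) < (q : ℝ) → BreakerWins (cay S) v₀ p q) ∧
        (FolQuot S → (q : ℝ) < (b - ε) * (p : ℝ) → MakerWins (cay S) v₀ p q) := by
  classical
  have hfin : ∀ x, ((cay S).neighborSet x).Finite := fun x =>
    (finite_toSet _).subset (final_nbr S x)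
  let inst : (cay S).LocallyFinite := fun x => (hfin x).fintype
  have hCy := final_cy S hS hgr
  obtain ⟨b, hb, hlim, hbr, hstat⟩ := hSst Γ (cay S) _ _ hCy
  refine ⟨b, hb, hlim, fun ε hε => ?_⟩
  obtain ⟨p1, hp1⟩ := hbr ε hε
  by_cases hQ : FolQuot S
  · obtain ⟨Q, hgQ, φ, T, hφ, hT, hTg, hTF⟩ := hQ
    have hfinT : ∀ x, ((cay T).neighborSet x).Finite := fun x =>
      (finite_toSet _).subset (final_nbr T x)
    let instT : (cay T).LocallyFinite := fun x => (hfinT x).fintype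
    have hTcl : Subgroup.closure (T : Set Q) = ⊤ := by
      have h1 : (T : Set Q) = φ '' (S : Set Γ) := by
        ext t
        rw [mem_coe, hT, Set.mem_image]
        exact Iff.rfl
      rw [h1, ← MonoidHom.map_closure, hS, ← MonoidHom.range_eq_map]
      exact MonoidHom.range_eq_top.2 hφ
    have hCyT := final_cy T hTcl hTg
    obtain ⟨C, hC⟩ := final_fol hFo1 hFo2 hRtn T hTcl hTg hTF
    have hπ : Qm (cay S) (cay T) φ := by
      refine ⟨fun x y => map_mul φ x y, fun x y hxy => ?_, fun x t ht => ?_⟩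
      · rw [final_adj] at hxy
        by_cases hne : φ x = φ y
        · exact Or.inl hne
        · refine Or.inr ((final_adj T _ _).2 ⟨hne, ?_⟩)
          rcases hxy.2 with h | h
          · exact Or.inl ((hT _).2 ⟨_, h, by rw [map_mul, map_inv]⟩)
          · exact Or.inr ((hT _).2 ⟨_, h, by rw [map_mul, map_inv]⟩)
      · rw [final_adj] at ht
        rcases ht.2 with h | h
        · obtain ⟨s, hs, hst⟩ := (hT _).1 h
          refine ⟨x * s, ?_, ?_⟩
          · rw [final_adj]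
            refine ⟨fun e => ht.1 ?_, Or.inl (by rwa [inv_mul_cancel_left])⟩
            have h1 : s = 1 := (mul_eq_left.1 e.symm)
            rw [h1, map_one] at hst
            exact (inv_mul_eq_one.1 hst.symm)
          · rw [map_mul, hst, mul_inv_cancel_left]
        · obtain ⟨s, hs, hst⟩ := (hT _).1 h
          refine ⟨x * s⁻¹, ?_, ?_⟩
          · rw [final_adj]
            refine ⟨fun e => ht.1 ?_, Or.inr (by
              rw [mul_inv_rev, inv_inv, inv_mul_cancel_right]; exact hs)⟩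
            have h1 : s⁻¹ = 1 := (mul_eq_left.1 e.symm)
            rw [inv_eq_one] at h1
            rw [h1, map_one] at hst
            exact (inv_mul_eq_one.1 hst.symm).symm
          · rw [map_mul, map_inv, hst, mul_inv_rev, inv_inv, mul_inv_cancel_left]
    obtain ⟨p3, hp3⟩ : ∃ p3 : ℕ, ∀ p q : ℕ, p3 ≤ p → (q : ℝ) < (b - ε) * p →
        MakerWins (cay S) 1 p q := by
      by_cases hεb : ε < b
      · obtain ⟨p3, hp3⟩ := hMkr Γ Q (cay S) (cay T) _ _ _ _ φ hCy hCyT hπ C hC (b - ε / 2)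
          (hstat (ε / 2) (by linarith)) (ε / 2) (by linarith) (by linarith)
        refine ⟨p3, fun p q hp hq => hp3 p hp q ?_⟩
        have h5 : b - ε / 2 - ε / 2 = b - ε := by ring
        rw [h5]
        exact hq.le
      · refine ⟨0, fun p q _ hq => ?_⟩
        exfalso
        have h6 : (b - ε) * (p : ℝ) ≤ 0 :=
          mul_nonpos_of_nonpos_of_nonneg (by linarith) (Nat.cast_nonneg p)
        have h7 : (0 : ℝ) ≤ q := Nat.cast_nonneg q
        linarith
    refine ⟨max p1 p3, fun p q hp w => ⟨hp1 p q ((le_max_left _ _).trans hp) w,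
      fun _ hq => ?_⟩⟩
    have hMo : MakerWins (cay S) 1 p q := hp3 p q ((le_max_right _ _).trans hp) hq
    obtain ⟨ψ, hψ⟩ := hCy.trans 1 w
    rw [← hψ]
    exact makerWins_map ψ hMo
  · exact ⟨p1, fun p q hp w => ⟨hp1 p q hp w, fun h => absurd h hQ⟩⟩

/-- Templates of subpolynomial diameter are templates in the sense of `SIM`. -/
private lemma final_stat {Γ : Type} [Group Γ] [DecidableEq Γ] {G : SimpleGraph Γ}
    [G.LocallyFinite] {κ : ℝ} (h : Stat G κ) : SIM.Stat G κ := by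
  intro ε δ hε hδ
  obtain ⟨p₀, hp₀⟩ := h ε hε 2
  refine ⟨max p₀ ⌈1 / δ ^ 2⌉₊, fun p hp => ?_⟩
  obtain ⟨T, h1, h2, h3, h4⟩ := hp₀ p ((le_max_left _ _).trans hp)
  refine ⟨T, h1, h2, fun u hu => ?_, h4⟩
  have h5 : (1 / δ ^ 2 : ℝ) ≤ p :=
    (Nat.le_ceil _).trans (by exact_mod_cast (le_max_right _ _).trans hp)
  have h6 : ((G.dist 1 u : ℝ)) ^ 2 ≤ p := by exact_mod_cast h3 u hu
  have hp0 : (0 : ℝ) ≤ p := Nat.cast_nonneg p
  refine (pow_le_pow_iff_left₀ (Nat.cast_nonneg _) (by positivity) (by norm_num : 2 ≠ 0)).1 ?_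
  rw [div_le_iff₀ (by positivity)] at h5
  calc ((G.dist 1 u : ℝ)) ^ 2 ≤ p * 1 := by rw [mul_one]; exact h6
    _ ≤ p * (p * δ ^ 2) := mul_le_mul_of_nonneg_left h5 hp0
    _ = (δ * p) ^ 2 := by ring

/-- exponential growth of groups that act by similarities -/
private lemma final_exp (hExg : St_Exg) {Γ : Type} [Group Γ] (S : Finset Γ)
    (hS : Subgroup.closure (S : Set Γ) = ⊤) (h : SIM.Sims Γ) : SuperPoly S := by
  classical
  have hfin : ∀ x, ((cay S).neighborSet x).Finite := fun x =>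
    (finite_toSet _).subset (final_nbr S x)
  let inst : (cay S).LocallyFinite := fun x => (hfin x).fintype
  have hconn := final_conn S hS
  have hinv := final_inv S
  obtain ⟨K, hK, X, hX1, hX2, hX3, hX4, lam, h1, h2, h3⟩ := h
  obtain ⟨lam', δ, t, k, Λ, c₀, hsim⟩ := SIM.thm_Nf Γ S hS K X lam h1 h2 h3
  obtain ⟨c, hc⟩ := SIM.thm_Gr SIM.thm_Wd1 SIM.thm_Wd2 Γ (cay S) hinv hconn K lam' δ t k Λ c₀ hsim
  have hCG : SIM.CG (cay S) (S.card + S.card) c (fun r => (bl (cay S) 1 r).card) := by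
    refine ⟨hinv, hconn, fun x => ?_, final_vol S hconn, hc⟩
    have hsub : (cay S).neighborFinset x ⊆
        (S.image fun s => x * s) ∪ S.image fun s => x * s⁻¹ := by
      intro y hy
      rw [SimpleGraph.mem_neighborFinset] at hy
      exact mem_coe.1 (final_nbr S x hy)
    refine (card_le_card hsub).trans ((card_union_le _ _).trans ?_)
    exact Nat.add_le_add card_image_le card_image_le
  intro B
  obtain ⟨r₀, hr₀⟩ := hExg (S.card + S.card) c (fun r => (bl (cay S) 1 r).card) hCG.v_zero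
    hCG.v_le (fun r s hrs => hCG.v_mono hrs) hc B
  refine ⟨r₀, fun r hr => ?_⟩
  rw [final_ncard S hconn, final_ncard S hconn]
  exact hr₀ r hr

/-- the theorem with both sufficient conditions for Maker's half, from the modules -/
theorem final_of' (hSst : St_Sst) (hMkr : St_Mkr) (hFo1 : St_Fo1) (hFo2 : St_Fo2)
    (hRtn : St_Rtn) (hExg : St_Exg) (Γ : Type) [Group Γ] (S : Finset Γ)
    (hS : Subgroup.closure (S : Set Γ) = ⊤) (hgr : SuperPoly S ∨ SIM.Sims Γ) :
    ∃ b : ℝ, 0 < b ∧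
      (∀ v₀ : Γ, Tendsto (fun p : ℕ => (maxCap (cay S) v₀ p : ℝ) / (p : ℝ)) atTop (𝓝 b)) ∧
      ∀ ε : ℝ, 0 < ε → ∃ p₀ : ℕ, ∀ p q : ℕ, p₀ ≤ p → ∀ v₀ : Γ,
        ((b + ε) * (p : ℝ) < (q : ℝ) → BreakerWins (cay S) v₀ p q) ∧
        (FolQuot S ∨ SIM.Sims Γ → (q : ℝ) < (b - ε) * (p : ℝ) →
          MakerWins (cay S) v₀ p q) := by
  classical
  have hgr' : SuperPoly S := hgr.elim id (final_exp hExg S hS)
  obtain ⟨b, hb, hlim, hmain⟩ := final_of hSst hMkr hFo1 hFo2 hRtn Γ S hS hgr'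
  refine ⟨b, hb, hlim, fun ε hε => ?_⟩
  obtain ⟨p1, hp1⟩ := hmain ε hε
  by_cases hsims : SIM.Sims Γ
  · have hsims' := hsims
    obtain ⟨K, hK, X, hX1, hX2, hX3, hX4, lam, h1, h2, h3⟩ := hsims
    have hfin : ∀ x, ((cay S).neighborSet x).Finite := fun x =>
      (finite_toSet _).subset (final_nbr S x)
    let inst : (cay S).LocallyFinite := fun x => (hfin x).fintype
    have hconn := final_conn S hS
    have hinv := final_inv S
    have hCy := final_cy S hS hgr'
    obtain ⟨lam', δ, t, k, Λ, c₀, hsim⟩ := SIM.thm_Nf Γ S hS K X lam h1 h2 h3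
    obtain ⟨c, hc⟩ := SIM.thm_Gr SIM.thm_Wd1 SIM.thm_Wd2 Γ (cay S) hinv hconn K lam' δ t k Λ c₀
      hsim
    have hCG : SIM.CG (cay S) (S.card + S.card) c (fun r => (bl (cay S) 1 r).card) := by
      refine ⟨hinv, hconn, hCy.deg, final_vol S hconn, hc⟩
    obtain ⟨C, hC⟩ := SIM.thm_Pln SIM.thm_Wd1 SIM.thm_Wd2 Γ (cay S) _ c _ hCG K lam' δ t k Λ c₀
      hsim
    obtain ⟨b', hb', hlim', -, hstat⟩ := hSst Γ (cay S) _ _ hCy
    have hbb : b' = b := tendsto_nhds_unique (hlim' 1) (hlim 1)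
    subst hbb
    obtain ⟨p3, hp3⟩ : ∃ p3 : ℕ, ∀ p q : ℕ, p3 ≤ p → (q : ℝ) < (b' - ε) * p →
        MakerWins (cay S) 1 p q := by
      by_cases hεb : ε < b'
      · obtain ⟨p3, hp3⟩ := SIM.final_mkr Γ (cay S) _ c _ hCG C c₀ hC (b' - ε / 2)
          (final_stat (hstat (ε / 2) (by linarith))) (ε / 2) (by linarith) (by linarith)
        refine ⟨p3, fun p q hp hq => hp3 p hp q ?_⟩
        have h5 : b' - ε / 2 - ε / 2 = b' - ε := by ring
        rw [h5]
        exact hq.le
      · refine ⟨0, fun p q _ hq => ?_⟩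
        exfalso
        have h6 : (b' - ε) * (p : ℝ) ≤ 0 :=
          mul_nonpos_of_nonpos_of_nonneg (by linarith) (Nat.cast_nonneg p)
        have h7 : (0 : ℝ) ≤ q := Nat.cast_nonneg q
        linarith
    refine ⟨max p1 p3, fun p q hp w => ⟨(hp1 p q ((le_max_left _ _).trans hp) w).1,
      fun _ hq => ?_⟩⟩
    have hMo : MakerWins (cay S) 1 p q := hp3 p q ((le_max_right _ _).trans hp) hq
    obtain ⟨ψ, hψ⟩ := hCy.trans 1 w
    rw [← hψ]
    exact makerWins_map ψ hMo
  · exact ⟨p1, fun p q hp w => ⟨(hp1 p q hp w).1, fun h =>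
      (hp1 p q hp w).2 (h.resolve_right hsims)⟩⟩

end Pool.Agent.ISP
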