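import Pool.Agent.ISP.St

/-!
# Percolation games: following a path at level `k`
-/

set_option autoImplicit false

namespace Pool.Agent.ISP

open Finset Filter Pool.Agent.Helper30.Perc Pool.Agent.Helper22.PG

theorem thm_Flw : St_Flw := by
  intro Γ Q _ _ _ _ G _ H _ d' v' π hH p q k₀ σ ς ρ e τ m hS k hClm L c M B y hL hc hnb hPos hAt
    hCa hdist
  have hC := hH.conn
  have hc1 := hS.c1 k
  have hm1 := hS.m1 k
  have key : ∀ i, i ≤ L →
      Stp G p q M B (Frc G p q (Goal G H π q k₀ σ e m k ((i + 1) * τ k) (c i) B)) := by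
    intro i
    induction i with
    | zero =>
      intro _
      rw [Nat.zero_add, Nat.one_mul]
      apply hClm M B y (c 0) hPos hAt hCa _ hdist
      have h1 : nb H π (vert B) (π y) (5 * ρ k) ⊆ nb H π (vert B) (c 0) (6 * ρ k) := by
        apply nb_subset hC subset_rfl
        rw [SimpleGraph.dist_comm]
        omega
      have h2 := (card_le_card h1).trans (hnb 0 (Nat.zero_le _))
      show (nb H π (vert B) (π y) (5 * ρ k)).card ≤ 2 * m (k + 1)
      omega
    | succ i ih =>
      intro hi
      refine (ih (by omega)).mono fun M₁ B₁ hF => hF.trans fun M' B' hG => ?_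
      obtain ⟨hPos', hBB', hcard', y', hAt', hd', hCa'⟩ := hG
      have hd : H.dist (π y') (c (i + 1)) ≤ e k + 1 := by
        have h1 := hC.dist_triangle (u := π y') (v := c i) (w := c (i + 1))
        have h2 := hc i (by omega)
        omega
      have hτ : (i + 1) * τ k ≤ τ (k + 1) :=
        (Nat.mul_le_mul_right (τ k) (by omega : i + 1 ≤ L + 1)).trans hL
      have hCb : Cb H π ρ m k B' (π y') := by
        have h1 : (nb H π (vert B') (π y') (5 * ρ k)).card ≤
            (nb H π (vert B) (c (i + 1)) (6 * ρ k)).card + 2 * (q * ((i + 1) * τ k)) := by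
          apply nb_le hC hBB' hcard'
          rw [SimpleGraph.dist_comm]
          omega
        have h2 := hnb (i + 1) hi
        have h3 : q * ((i + 1) * τ k) ≤ q * τ (k + 1) := Nat.mul_le_mul_left q hτ
        have h4 : m (k + 1) = 8 * (q * τ (k + 1)) + 8 * τ (k + 1) := by
          rw [hm1]
          ring
        show (nb H π (vert B') (π y') (5 * ρ k)).card ≤ 2 * m (k + 1)
        omega
      refine (hClm M' B' y' (c (i + 1)) hPos' hAt' hCa' hCb hd).force.mono ?_
      intro M'' B'' hG'
      obtain ⟨hPos'', hBB'', hcard'', y'', hAt'', hd'', hCa''⟩ := hG'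
      refine ⟨hPos'', hBB'.trans hBB'', ?_, y'', hAt'', hd'', hCa''⟩
      have h5 : q * ((i + 1 + 1) * τ k) = q * ((i + 1) * τ k) + q * τ k := by ring
      omega
  exact key L le_rfl

end Pool.Agent.ISP
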