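import Pool.Agent.ISP.St

/-!
# ISP, module Fo1: small boundary gives controlled Foelner sets
-/

set_option autoImplicit false

namespace Pool.Agent.ISP

open Finset Filter Pool.Agent.Helper30.Perc Pool.Agent.Helper22.PG

private theorem fo1_num (c : ℝ) (hc : 0 < c) : ∃ C : ℕ, 1 ≤ C ∧ ∀ D : ℕ, 2 ≤ D →
    (((D ^ C : ℕ) : ℝ)) ^ (-c) ≤ 1 / (2 * D) := by
  refine ⟨⌈2 / c⌉₊ + 1, Nat.le_add_left _ _, fun D hD => ?_⟩
  have hD' : (2 : ℝ) ≤ D := by exact_mod_cast hD
  have hD0 : (0 : ℝ) < D := by linarith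
  have h1 : 2 ≤ c * ((⌈2 / c⌉₊ + 1 : ℕ) : ℝ) := by
    have h2 : 2 / c ≤ ⌈2 / c⌉₊ := Nat.le_ceil _
    rw [div_le_iff₀ hc] at h2
    push_cast
    nlinarith
  rw [Nat.cast_pow, ← Real.rpow_natCast, ← Real.rpow_mul hD0.le]
  calc (D : ℝ) ^ ((((⌈2 / c⌉₊ + 1 : ℕ)) : ℝ) * -c) ≤ (D : ℝ) ^ (-2 : ℝ) := by
        apply Real.rpow_le_rpow_of_exponent_le (by linarith)
        linarith
    _ = 1 / (D : ℝ) ^ 2 := by
        rw [Real.rpow_neg hD0.le, one_div]
        congr 1
        exact_mod_cast Real.rpow_natCast (D : ℝ) 2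
    _ ≤ 1 / (2 * D) := by
        apply one_div_le_one_div_of_le (by positivity)
        nlinarith

theorem thm_Fo1 (h1 : St_Iso1) : St_Fo1 := by
  intro Γ _ _ G _ d v h c hc hF
  obtain ⟨r₀, hr₀⟩ := hF
  obtain ⟨C, hC1, hC⟩ := fo1_num c hc
  refine ⟨C, max r₀ 2, fun D hD => ?_⟩
  have hD2 : 2 ≤ D := (le_max_right _ _).trans hD
  have hDr : r₀ ≤ D := (le_max_left _ _).trans hD
  have hr : r₀ ≤ D ^ C := hDr.trans (Nat.le_self_pow (by omega) D)
  obtain ⟨F, hne, hdist, hcut⟩ := hr₀ (D ^ C) hr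
  have hD0 : (0 : ℝ) < D := by
    have : 0 < D := by omega
    exact_mod_cast this
  have hcut2 : 2 * (D * cut G F) ≤ F.card := by
    have h2 : (cut G F : ℝ) ≤ 1 / (2 * D) * F.card :=
      hcut.trans (mul_le_mul_of_nonneg_right (hC D hD2) (Nat.cast_nonneg _))
    have h3 : (2 : ℝ) * (D * cut G F) ≤ F.card := by
      calc (2 : ℝ) * (D * cut G F) ≤ 2 * (D * (1 / (2 * D) * F.card)) := by gcongr
        _ = F.card := by
          field_simp
    exact_mod_cast h3
  have hcard : (F.image fun x => x⁻¹).card = F.card := card_image_of_injective F inv_injective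
  refine ⟨F.image fun x => x⁻¹, hne.image _, ?_, ?_⟩
  · intro x hx
    obtain ⟨f, hf, rfl⟩ := mem_image.1 hx
    rw [h.dist_inv]
    exact hdist f hf
  · intro g hg
    have h2 := (h1 Γ G d v h F).1 g
    have h3 : (F.filter fun x => x * g ∉ F).card ≤ D * cut G F :=
      h2.trans (Nat.mul_le_mul_right _ hg)
    have h4 : (F.filter fun x => x * g ∈ F).card + (F.filter fun x => x * g ∉ F).card = F.card :=
      card_filter_add_card_filter_not _
    have h5 : (F.filter fun x => x * g ∈ F).card ≤ ((F.image fun x => x⁻¹) ∩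
        (F.image fun x => x⁻¹).image fun k => g * k).card := by
      rw [← card_image_of_injective (F.filter fun x => x * g ∈ F) inv_injective]
      apply card_le_card
      intro y hy
      obtain ⟨f, hf, rfl⟩ := mem_image.1 hy
      obtain ⟨hf1, hf2⟩ := mem_filter.1 hf
      refine mem_inter.2 ⟨mem_image.2 ⟨f, hf1, rfl⟩, mem_image.2 ⟨(f * g)⁻¹,
        mem_image.2 ⟨f * g, hf2, rfl⟩, ?_⟩⟩
      rw [mul_inv_rev, mul_inv_cancel_left]
    rw [hcard]
    omega

end Pool.Agent.ISP
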