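import Pool.Agent.ISP.St

/-!
# Percolation games on Cayley graphs with controlled Foelner sets: [Fo2], growth at most
`exp (r ^ a)` gives sets with small boundary
-/

set_option autoImplicit false

namespace Pool.Agent.ISP

open Finset Filter Pool.Agent.Helper30.Perc Pool.Agent.Helper22.PG

/-- the number of boundary edges of a ball -/
lemma fo2_cut {Γ : Type} [Group Γ] [DecidableEq Γ] {G : SimpleGraph Γ} [G.LocallyFinite] {d : ℕ}
    {v : ℕ → ℕ} (hG : Cy G d v) (s : ℕ) :
    cut G (bl G 1 s) + d * v s ≤ d * v (s + 1) := by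
  have hsub : bl G 1 s ⊆ bl G 1 (s + 1) := bl_mono hG.conn 1 (Nat.le_succ s)
  have h4 : (bdE G (bl G 1 s)).card ≤ (bl G 1 (s + 1) \ bl G 1 s).card * d := by
    calc (bdE G (bl G 1 s)).card ≤ ((bl G 1 (s + 1) \ bl G 1 s).biUnion fun b =>
          (G.neighborFinset b).image fun a => s(a, b)).card := by
          refine card_le_card ?_
          intro e he
          rw [mem_bdE] at he
          obtain ⟨a, ha, b, hb, hab, rfl⟩ := he
          rw [mem_biUnion]
          refine ⟨b, ?_, ?_⟩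
          · rw [Finset.mem_sdiff]
            refine ⟨?_, hb⟩
            rw [mem_bl hG.conn] at ha ⊢
            have h5 := hG.conn.dist_triangle (u := 1) (v := a) (w := b)
            have h6 : G.dist a b = 1 := SimpleGraph.dist_eq_one_iff_adj.2 hab
            omega
          · rw [mem_image]
            exact ⟨a, by simpa using hab.symm, rfl⟩
      _ ≤ ∑ b ∈ bl G 1 (s + 1) \ bl G 1 s,
          ((G.neighborFinset b).image fun a => s(a, b)).card := card_biUnion_le
      _ ≤ ∑ _b ∈ bl G 1 (s + 1) \ bl G 1 s, d :=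
          sum_le_sum fun b _ => card_image_le.trans (hG.deg b)
      _ = _ := by rw [sum_const, smul_eq_mul]
  rw [card_bdE] at h4
  have h6 : (bl G 1 (s + 1) \ bl G 1 s).card + (bl G 1 s).card = (bl G 1 (s + 1)).card := by
    rw [card_sdiff_add_card_eq_card hsub]
  rw [hG.vol, hG.vol] at h6
  have h7 : d * v (s + 1) = (bl G 1 (s + 1) \ bl G 1 s).card * d + d * v s := by rw [← h6]; ring
  omega

lemma fo2_exp {x : ℝ} (h0 : 0 ≤ x) (h1 : x ≤ 1) : Real.exp (x / 2) ≤ 1 + x := by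
  have h2 := Real.add_one_le_exp (-(x / 2))
  have h3 : 0 < Real.exp (x / 2) := Real.exp_pos _
  have h4 : Real.exp (x / 2) * Real.exp (-(x / 2)) = 1 := by
    rw [← Real.exp_add]; simp
  have h5 : Real.exp (x / 2) * (1 - x / 2) ≤ 1 := by
    rw [← h4]
    exact mul_le_mul_of_nonneg_left (by linarith) h3.le
  have h6 : (1 : ℝ) ≤ (1 + x) * (1 - x / 2) := by nlinarith
  have h7 : 0 < 1 - x / 2 := by linarith
  exact le_of_mul_le_mul_right (h5.trans h6) h7

theorem thm_Fo2 : St_Fo2 := by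
  intro Γ _ _ G _ d v hG a ha hv
  obtain ⟨r₀, hr₀⟩ := hv
  set b := max a 0 with hb
  have hb0 : 0 ≤ b := le_max_right _ _
  have hb1 : b < 1 := max_lt ha one_pos
  have hc : 0 < (1 - b) / 2 := by linarith
  have hd : (0 : ℝ) < d := by exact_mod_cast hG.d_pos
  have hd1 : (1 : ℝ) ≤ d := by exact_mod_cast hG.d_pos
  refine ⟨(1 - b) / 2, hc, ?_⟩
  set c := (1 - b) / 2 with hcdef
  have hlim : ∀ᶠ r : ℕ in atTop, 2 * (d : ℝ) < (r : ℝ) ^ c :=
    ((tendsto_rpow_atTop hc).comp tendsto_natCast_atTop_atTop).eventually_gt_atTop _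
  obtain ⟨r₁, hr₁⟩ := eventually_atTop.1 hlim
  refine ⟨max (max r₀ r₁) 1, fun r hr => ?_⟩
  have hrr₀ : r₀ ≤ r := (le_max_left _ _).trans ((le_max_left _ _).trans hr)
  have hrr₁ : r₁ ≤ r := (le_max_right _ _).trans ((le_max_left _ _).trans hr)
  have hr1 : 1 ≤ r := (le_max_right _ _).trans hr
  have hr1' : (1 : ℝ) ≤ r := by exact_mod_cast hr1
  have hr0' : (0 : ℝ) < r := by linarith
  by_contra hcon
  push Not at hcon
  set x := (r : ℝ) ^ (-c) / d with hx
  have hx0 : 0 ≤ x := by positivity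
  have hx1 : x ≤ 1 := by
    rw [hx, div_le_one hd]
    exact (Real.rpow_le_one_of_one_le_of_nonpos hr1' (by linarith)).trans hd1
  have hstep : ∀ s, s < r → (1 + x) * (v s : ℝ) ≤ v (s + 1) := by
    intro s hs
    have h1 := hcon (bl G 1 s) ⟨1, self_mem_bl 1 s⟩ (fun y hy => by
      rw [mem_bl hG.conn] at hy
      omega)
    rw [hG.vol] at h1
    have h2 : (cut G (bl G 1 s) : ℝ) + d * v s ≤ d * v (s + 1) := by
      exact_mod_cast fo2_cut hG s
    have h3 : (d : ℝ) * x = (r : ℝ) ^ (-c) := by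
      rw [hx]; field_simp
    have h4 : (d : ℝ) * ((1 + x) * (v s : ℝ)) ≤ d * v (s + 1) := by
      have h5 : (d : ℝ) * ((1 + x) * (v s : ℝ)) = d * v s + (d * x) * v s := by ring
      rw [h5, h3]
      linarith
    exact le_of_mul_le_mul_left h4 hd
  have hpow : ∀ s, s ≤ r → (1 + x) ^ s ≤ (v s : ℝ) := by
    intro s
    induction s with
    | zero => intro _; rw [hG.v_zero]; simp
    | succ s ih =>
      intro hs
      have h1 := ih (by omega)
      have h2 := hstep s (by omega)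
      rw [pow_succ, mul_comm]
      exact (mul_le_mul_of_nonneg_left h1 (by linarith)).trans h2
  have h1 : Real.exp (x / 2) ^ r ≤ (v r : ℝ) :=
    (pow_le_pow_left₀ (Real.exp_pos _).le (fo2_exp hx0 hx1) r).trans (hpow r le_rfl)
  have h2 : (v r : ℝ) ≤ Real.exp ((r : ℝ) ^ a) := hr₀ r hrr₀
  rw [← Real.exp_nat_mul] at h1
  have h3 := Real.exp_le_exp.1 (h1.trans h2)
  have h4 : (r : ℝ) ^ a ≤ (r : ℝ) ^ b := Real.rpow_le_rpow_of_exponent_le hr1' (le_max_left _ _)
  have h5 := hr₁ r hrr₁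
  have h6 : (r : ℝ) * (x / 2) * (2 * d) = (r : ℝ) ^ b * (r : ℝ) ^ c := by
    rw [hx, ← Real.rpow_add hr0']
    have h7 : (r : ℝ) ^ (b + c) = r * (r : ℝ) ^ (-c) := by
      conv_rhs => rw [← Real.rpow_one (r : ℝ)]
      rw [← Real.rpow_mul hr0'.le, one_mul, ← Real.rpow_add hr0']
      congr 1
      rw [hcdef]; ring
    rw [h7]
    field_simp
  have h7 : (r : ℝ) ^ b * (r : ℝ) ^ c ≤ (r : ℝ) ^ b * (2 * d) := by
    rw [← h6]
    exact mul_le_mul_of_nonneg_right (h3.trans h4) (by positivity)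
  have h8 : (0 : ℝ) < (r : ℝ) ^ b := Real.rpow_pos_of_pos hr0' _
  have h9 := le_of_mul_le_mul_left h7 h8
  linarith

end Pool.Agent.ISP
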