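import Pool.Agent.ISP.St

/-! ISP module Gam: the game lemma. -/

set_option autoImplicit false

namespace Pool.Agent.ISP

open Finset Filter Pool.Agent.Helper30.Perc Pool.Agent.Helper22.PG

theorem thm_Gam : St_Gam := by
  intro Γ _ _ G _ hE p q Q h0 h1 h2
  refine makerWins_of_invariant G 1 p q (fun _ M B => Frc G p q Q M B) (Frc.base _ _ h0) ?_ ?_
  · intro k M B hF
    have hS : Stp G p q M B (Frc G p q Q) := by
      cases hF with
      | base _ _ h => exact h1 M B h
      | step _ _ X k1 k2 k3 k4 => exact ⟨X, k1, k2, k3, k4⟩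
    obtain ⟨X, hXp, hXE, hXd, hX⟩ := hS
    refine ⟨X, hXp, hXE, ?_, ?_⟩
    · rw [← Finset.coe_union, Finset.disjoint_coe]
      exact hXd
    intro M' B' Y hM' hB' hY hYE hYd
    have eM : M' = M ∪ X := by
      apply Finset.coe_injective
      rw [hM', Finset.coe_union]
    have eB : B' = B ∪ Y := by
      apply Finset.coe_injective
      rw [hB', Finset.coe_union]
    subst eM
    subst eB
    rw [← Finset.coe_union, Finset.disjoint_coe] at hYd
    exact hX Y hY hYE hYd
  · intro k M B hF
    obtain ⟨M', B', hQ, hB⟩ := hF.exists hE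
    refine (h2 M' B' hQ).mono ?_
    intro w hw
    refine SimpleGraph.Reachable.mono ?_ hw
    intro a b hab
    rw [SimpleGraph.deleteEdges_adj] at hab ⊢
    exact ⟨hab.1, fun h => hab.2 (hB h)⟩

end Pool.Agent.ISP
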