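import Pool.Agent.ISP.St

/-!
# Gro (helper89): growth of a sequence
-/

set_option autoImplicit false

namespace Pool.Agent.ISP

open Finset Filter

private theorem gro_num (C E : ℕ) : ∃ L₀ : ℕ, ∀ L : ℕ, L₀ ≤ L → (C * (L + 1)) ^ (2 * E) ≤ 2 ^ L := by
  have h := tendsto_pow_const_div_const_pow_of_one_lt (2 * E) (r := (2 : ℝ)) (by norm_num)
  have h1 : ∀ᶠ n : ℕ in atTop, (n : ℝ) ^ (2 * E) / 2 ^ n < 1 / (2 * (C : ℝ) ^ (2 * E) + 2) :=
    h.eventually (gt_mem_nhds (by positivity))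
  obtain ⟨N, hN⟩ := eventually_atTop.1 h1
  refine ⟨N, fun L hL => ?_⟩
  have h2 := hN (L + 1) (by omega)
  rw [div_lt_div_iff₀ (by positivity) (by positivity), one_mul, pow_succ] at h2
  have h3 : 0 ≤ ((L + 1 : ℕ) : ℝ) ^ (2 * E) := by positivity
  have h4 : ((C : ℝ) * ((L + 1 : ℕ) : ℝ)) ^ (2 * E) ≤ 2 ^ L := by
    rw [mul_pow]
    nlinarith
  have h5 : (((C * (L + 1)) ^ (2 * E) : ℕ) : ℝ) ≤ ((2 ^ L : ℕ) : ℝ) := by
    push_cast at h4 ⊢
    exact h4
  exact_mod_cast h5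

theorem thm_Gro : St_Gro := by
  intro d A E K ε hd hK hε
  have hd' : (0 : ℝ) < d := by exact_mod_cast hd
  set c₁ : ℕ := ⌈4 * d * K / ε⌉₊ with hc₁
  set C : ℕ := c₁ + 4 * d * A with hC
  obtain ⟨L₀, hL₀⟩ := gro_num C E
  refine ⟨2 * E, 2 ^ L₀, fun p hp R f hR hRp hf0 h1 h2 => ?_⟩
  by_contra hcon
  push Not at hcon
  set L : ℕ := Nat.log 2 p with hL
  have hp0 : p ≠ 0 := by
    have : 0 < 2 ^ L₀ := by positivity
    omega
  have hLL : L₀ ≤ L := (Nat.le_log_iff_pow_le (by norm_num) hp0).2 hp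
  have hpL : 2 ^ L ≤ p := Nat.pow_log_le_self 2 hp0
  have hpL' : p < 2 ^ (L + 1) := Nat.lt_pow_succ_log_self (by norm_num) p
  have hpR : (0 : ℝ) < p := by exact_mod_cast Nat.pos_of_ne_zero hp0
  have hRR : (0 : ℝ) < R := by exact_mod_cast hR
  set τ : ℕ := 4 * R * d with hτ
  have hτ0 : 0 < τ := by positivity
  have hτ' : (0 : ℝ) < τ := by exact_mod_cast hτ0
  set j₁ : ℕ := c₁ * R with hj₁
  set m : ℕ := τ * (A * (L + 1)) with hm
  -- the total number of steps
  have htot : (j₁ + m) ^ E ≤ p := by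
    have h3 : j₁ + m ≤ R * (C * (L + 1)) := by
      have e1 : R * (C * (L + 1)) = c₁ * R * (L + 1) + τ * (A * (L + 1)) := by
        rw [hC, hτ]
        ring
      rw [e1, hj₁, hm]
      exact Nat.add_le_add_right (Nat.le_mul_of_pos_right _ (by omega)) _
    have h4 : ((j₁ + m) ^ E) ^ 2 ≤ p ^ 2 := by
      calc ((j₁ + m) ^ E) ^ 2 ≤ ((R * (C * (L + 1))) ^ E) ^ 2 :=
            Nat.pow_le_pow_left (Nat.pow_le_pow_left h3 E) 2
        _ = R ^ (2 * E) * (C * (L + 1)) ^ (2 * E) := by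
            rw [← pow_mul, mul_pow, mul_comm E 2]
        _ ≤ p * 2 ^ L := Nat.mul_le_mul hRp (hL₀ L hLL)
        _ ≤ p * p := Nat.mul_le_mul_left _ hpL
        _ = p ^ 2 := (sq p).symm
    exact (Nat.pow_le_pow_iff_left (by norm_num)).1 h4
  have hJ : ∀ j, j ≤ j₁ + m → j ^ E ≤ p := fun j hj => (Nat.pow_le_pow_left hj E).trans htot
  -- monotone
  have hmono : ∀ j, j ≤ j₁ + m → (f j : ℝ) ≤ f (j + 1) := by
    intro j hj
    have h3 := h1 j (hJ j hj)
    have h4 : (d : ℝ) * f j ≤ d * f (j + 1) := by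
      have : 0 < ε * p := by positivity
      linarith
    exact le_of_mul_le_mul_left h4 hd'
  have hlin : ∀ j ≤ j₁ + m, (j : ℝ) * (ε * p) ≤ d * (f j : ℝ) := by
    intro j
    induction j with
    | zero => intro _; simp only [Nat.cast_zero, zero_mul]; positivity
    | succ n ih =>
      intro hn
      have h3 := ih (by omega)
      have h4 := h1 n (hJ n (by omega))
      push_cast
      linarith
  have hf1 : ∀ j ≤ j₁ + m, (1 : ℝ) ≤ f j := by
    intro j
    induction j with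
    | zero => intro _; exact_mod_cast hf0
    | succ n ih => intro hn; exact (ih (by omega)).trans (hmono n (by omega))
  -- growth after the first stage
  have hstep : ∀ j, j₁ ≤ j → j ≤ j₁ + m → (f j : ℝ) * (1 + 1 / τ) ≤ f (j + 1) := by
    intro j hj hjJ
    have hfj := hlin j hjJ
    have hlt : f j < p ^ A := hcon j (hJ j hjJ)
    have h3 := h2 j (hJ j hjJ) hlt.le
    have hc : 4 * d * K / ε ≤ (c₁ : ℝ) := Nat.le_ceil _
    rw [div_le_iff₀ hε] at hc
    have hjr : (c₁ : ℝ) * R ≤ j := by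
      have : ((c₁ * R : ℕ) : ℝ) ≤ j := by exact_mod_cast hj
      push_cast at this
      exact this
    have h4 : 4 * R * K * p ≤ f j := by
      have h5 : (d : ℝ) * (4 * R * K * p) ≤ d * f j := by
        calc (d : ℝ) * (4 * R * K * p) = (4 * d * K) * (R * p) := by ring
          _ ≤ ((c₁ : ℝ) * ε) * (R * p) := mul_le_mul_of_nonneg_right hc (by positivity)
          _ = (c₁ * R) * (ε * p) := by ring
          _ ≤ j * (ε * p) := mul_le_mul_of_nonneg_right hjr (by positivity)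
          _ ≤ d * f j := hfj
      exact le_of_mul_le_mul_left h5 hd'
    have h5 : K * p ≤ (f j : ℝ) / (4 * R) := by
      rw [le_div_iff₀ (by positivity)]
      linarith
    have h6 : (f j : ℝ) / (2 * R) = (f j : ℝ) / (4 * R) + (f j : ℝ) / (4 * R) := by
      field_simp
      ring
    have h7 : (f j : ℝ) / (4 * R) + d * f j ≤ d * f (j + 1) := by linarith
    have h8 : (d : ℝ) * ((f j : ℝ) * (1 + 1 / τ)) = (f j : ℝ) / (4 * R) + d * f j := by
      rw [hτ]
      push_cast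
      field_simp
      ring
    rw [← h8] at h7
    exact le_of_mul_le_mul_left h7 hd'
  have hgeo : ∀ i ≤ m, (1 + 1 / (τ : ℝ)) ^ i ≤ f (j₁ + i) := by
    intro i
    induction i with
    | zero => intro _; simpa using hf1 j₁ (by omega)
    | succ n ih =>
      intro hn
      have h3 := ih (by omega)
      have h4 := hstep (j₁ + n) (by omega) (by omega)
      rw [pow_succ]
      calc (1 + 1 / (τ : ℝ)) ^ n * (1 + 1 / τ) ≤ f (j₁ + n) * (1 + 1 / τ) :=
            mul_le_mul_of_nonneg_right h3 (by positivity)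
        _ ≤ f (j₁ + n + 1) := h4
  have hfin := hgeo m le_rfl
  have hber : (2 : ℝ) ≤ (1 + 1 / (τ : ℝ)) ^ τ := by
    have h3 := one_add_mul_le_pow (a := 1 / (τ : ℝ)) (by
      have : (0 : ℝ) ≤ 1 / τ := by positivity
      linarith) τ
    have h4 : (τ : ℝ) * (1 / τ) = 1 := by field_simp
    linarith
  have h9 : (p : ℝ) ^ A ≤ f (j₁ + m) := by
    calc (p : ℝ) ^ A ≤ (2 ^ (L + 1)) ^ A := by
          refine pow_le_pow_left₀ hpR.le ?_ A
          exact_mod_cast hpL'.le
      _ = 2 ^ (A * (L + 1)) := by rw [← pow_mul, mul_comm]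
      _ ≤ ((1 + 1 / (τ : ℝ)) ^ τ) ^ (A * (L + 1)) := pow_le_pow_left₀ (by norm_num) hber _
      _ = (1 + 1 / (τ : ℝ)) ^ m := by rw [← pow_mul]
      _ ≤ _ := hfin
  have h10 : p ^ A ≤ f (j₁ + m) := by exact_mod_cast h9
  exact absurd (hcon _ htot) (not_lt.2 h10)

end Pool.Agent.ISP
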