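import Pool.Agent.ISP.St

/-!
# ISP, Ind: independent vertices in a digraph of small out-degree
-/

set_option autoImplicit false

namespace Pool.Agent.ISP

open Finset Filter Pool.Agent.Helper30.Perc Pool.Agent.Helper22.PG

private theorem ind_vertex {V : Type} [DecidableEq V] (B : Finset V) (bad : V → Finset V) (β : ℕ)
    (hb : ∀ a ∈ B, (bad a).card ≤ β) (hB : B.Nonempty) :
    ∃ b ∈ B, (B.filter fun a => b ∈ bad a).card ≤ β := by
  refine exists_le_of_sum_le hB ?_
  have h1 : ∑ b ∈ B, (B.filter fun a => b ∈ bad a).card =
      ∑ a ∈ B, (B.filter fun b => b ∈ bad a).card := by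
    simp only [card_filter]
    exact sum_comm
  rw [h1]
  refine sum_le_sum fun a ha => ?_
  refine le_trans (card_le_card ?_) (hb a ha)
  intro b hb'
  exact (mem_filter.1 hb').2

theorem thm_Ind : St_Ind := by
  intro V _ _ B bad β m
  induction m generalizing B with
  | zero =>
    intro _ _
    exact ⟨fun _ => Classical.arbitrary V, fun i hi => absurd hi (Nat.not_lt_zero i),
      fun i hi => absurd hi (Nat.not_lt_zero i)⟩
  | succ m ih =>
    intro hb hB
    have hne : B.Nonempty := by
      rw [← card_pos]
      have : (m + 1) * (2 * β + 1) = m * (2 * β + 1) + (2 * β + 1) := by ring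
      omega
    obtain ⟨b, hbB, hb1⟩ := ind_vertex B bad β hb hne
    have hsub : ((B \ (B.filter fun a => b ∈ bad a)) \ bad b).erase b ⊆ B := fun x hx =>
      (Finset.mem_sdiff.1 (Finset.mem_sdiff.1 (mem_of_mem_erase hx)).1).1
    have hcard : m * (2 * β + 1) ≤
        (((B \ (B.filter fun a => b ∈ bad a)) \ bad b).erase b).card := by
      have h1 := pred_card_le_card_erase (s := (B \ (B.filter fun a => b ∈ bad a)) \ bad b)
        (a := b)
      have h2 := le_card_sdiff (bad b) (B \ (B.filter fun a => b ∈ bad a))
      have h3 := le_card_sdiff (B.filter fun a => b ∈ bad a) B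
      have h4 := hb b hbB
      have h5 : (m + 1) * (2 * β + 1) = m * (2 * β + 1) + (2 * β + 1) := by ring
      omega
    obtain ⟨g, hg1, hg2⟩ := ih _ (fun a ha => hb a (hsub ha)) hcard
    refine ⟨fun i => if i = m then b else g i, fun i hi => ?_, fun i hi j hj hij => ?_⟩
    · by_cases him : i = m
      · simp only [if_pos him]
        exact hbB
      · simp only [if_neg him]
        exact hsub (hg1 i (by omega))
    · by_cases him : i = m
      · have hjm : j ≠ m := fun h => hij (him.trans h.symm)
        simp only [if_pos him, if_neg hjm]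
        exact (Finset.mem_sdiff.1 (mem_of_mem_erase (hg1 j (by omega)))).2
      · by_cases hjm : j = m
        · simp only [if_pos hjm, if_neg him]
          intro hc
          have h1 := mem_of_mem_erase (hg1 i (by omega))
          have h2 := (Finset.mem_sdiff.1 h1).1
          exact (Finset.mem_sdiff.1 h2).2 (mem_filter.2 ⟨(Finset.mem_sdiff.1 h2).1, hc⟩)
        · simp only [if_neg hjm, if_neg him]
          exact hg2 i (by omega) j (by omega) hij

end Pool.Agent.ISP
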