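import Pool.Agent.ISP.St

/-!
# In a position of the invariant the component of the identity is infinite
-/

set_option autoImplicit false

namespace Pool.Agent.ISP

open Finset Filter Pool.Agent.Helper30.Perc Pool.Agent.Helper22.PG
open Pool.Agent.SIM (MinAdm Lv cay)

private lemma inf_e {v : ℕ → ℕ} {q : ℕ} {σ ς ρ e τ m : ℕ → ℕ} (hS : Scl v q σ ς ρ e τ m)
    (k : ℕ) : k ≤ e k := by
  induction k with
  | zero => exact Nat.zero_le _
  | succ k ih =>
    have h1 := hS.e1 k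
    have h2 := hS.c1 k
    have h3 := hS.c2 k
    have h4 := hS.c3 (k + 1)
    omega

private lemma inf_tau {v : ℕ → ℕ} {q : ℕ} {σ ς ρ e τ m : ℕ → ℕ} (hS : Scl v q σ ς ρ e τ m) :
    Monotone τ := by
  refine monotone_nat_of_le_succ fun k => ?_
  rw [hS.t1 k]
  exact Nat.le_mul_of_pos_left _ (by omega)

private lemma inf_m {v : ℕ → ℕ} {q : ℕ} {σ ς ρ e τ m : ℕ → ℕ} (hS : Scl v q σ ς ρ e τ m)
    {k l : ℕ} (hkl : k + 1 ≤ l) : m (k + 1) ≤ m l := by
  obtain ⟨l, rfl⟩ : ∃ l', l = l' + 1 := ⟨l - 1, by omega⟩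
  rw [hS.m1, hS.m1]
  exact Nat.mul_le_mul_left _ (inf_tau hS hkl)

theorem thm_Inf (h1 : St_Flw) : St_Inf := by
  intro Γ Q _ _ _ _ G _ H _ d d' v v' π hG hH p q k₀ σ ς ρ e τ m hS hClm M B hInv
  obtain ⟨hPos, k, y, hAt, hCa, hB⟩ := hInv
  intro hfin
  -- a bound for the distances
  obtain ⟨N, hN⟩ : ∃ N : ℕ, ∀ w : Γ,
      (G.deleteEdges (B : Set (Sym2 Γ))).Reachable 1 w → H.dist (π y) (π w) ≤ N := by
    obtain ⟨N, hN⟩ := (hfin.image fun w => H.dist (π y) (π w)).bddAbove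
    exact ⟨N, fun w hw => hN ⟨w, hw, rfl⟩⟩
  set l := max (k + 1) N with hl
  have hkl : k + 1 ≤ l := le_max_left _ _
  have hNl : N ≤ l := le_max_right _ _
  have hnb : ∀ (c : Q) (r j : ℕ), k + 1 ≤ j → (nb H π (vert B) c r).card ≤ m j := by
    intro c r j hj
    have h2 := card_nb_le (H := H) (π := π) (vert B) c r
    have h3 := card_vert B
    have h4 : 2 * B.card ≤ m (k + 1) := by
      rw [hS.m1 k]
      calc 2 * B.card ≤ 2 * (4 * (q + 1) * τ (k + 1)) := Nat.mul_le_mul_left _ hB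
        _ = 8 * (q + 1) * τ (k + 1) := by ring
    have h5 := inf_m hS hj
    omega
  have hCa' : ∀ j ≤ l, Ca H π σ m j B (π y) := by
    intro j _
    rcases Nat.lt_or_ge k j with hkj | hkj
    · exact hnb _ _ j hkj
    · exact hCa j hkj
  obtain ⟨z, hz⟩ := hH.exists_dist_eq (π y) (σ (l + 1))
  obtain ⟨w, hw⟩ := hH.conn.exists_walk_length_eq_dist (π y) z
  have hwL : w.length = σ (l + 1) := hw.trans hz
  have hStp := h1 Γ Q G H d' v' π hH p q k₀ σ ς ρ e τ m hS l (hClm l) (σ (l + 1))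
    (fun i => w.getVert i) M B y
    (by
      rw [hS.t1 l]
      exact Nat.mul_le_mul_right _ (by omega))
    (by
      intro i hi
      have h2 : H.Adj (w.getVert i) (w.getVert (i + 1)) :=
        w.adj_getVert_succ (by omega)
      exact (SimpleGraph.dist_eq_one_iff_adj.2 h2).le)
    (fun i _ => hnb _ _ (l + 1) (by omega)) hPos hAt hCa'
    (by
      show H.dist (π y) (w.getVert 0) ≤ _
      rw [SimpleGraph.Walk.getVert_zero, SimpleGraph.dist_self]
      exact Nat.zero_le _)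
  obtain ⟨M', B', hF, -⟩ := hStp.exists hG.edge_infinite
  obtain ⟨M'', B'', hGoal, -⟩ := hF.exists hG.edge_infinite
  obtain ⟨hPos'', hBB, -, y', hAt', hd, -⟩ := hGoal
  have hreach : (G.deleteEdges (B : Set (Sym2 Γ))).Reachable 1 y' := by
    refine (hAt'.reachable hPos'').mono ?_
    intro a b hab
    rw [SimpleGraph.deleteEdges_adj] at hab ⊢
    exact ⟨hab.1, fun hB => hab.2 (hBB hB)⟩
  have h2 := hN y' hreach
  have h3 : H.dist (π y') z ≤ e l := by
    have h4 : w.getVert (σ (l + 1)) = z := by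
      rw [← hwL]
      exact w.getVert_length
    have h5 : H.dist (π y') (w.getVert (σ (l + 1))) ≤ e l := hd
    rwa [h4] at h5
  have h4 := hH.conn.dist_triangle (u := π y) (v := π y') (w := z)
  have h5 := hS.c1 l
  have h6 := hS.c2 l
  have h7 := inf_e hS l
  omega

end Pool.Agent.ISP
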