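import Pool.Agent.ISP.St

/-!
# ISP [Iso1]: right translations and isoperimetry from growth
-/

set_option autoImplicit false

namespace Pool.Agent.ISP

open Finset Filter Pool.Agent.Helper30.Perc Pool.Agent.Helper22.PG

private lemma iso1_step {Γ : Type} [Group Γ] [DecidableEq Γ] {G : SimpleGraph Γ}
    [G.LocallyFinite] {d : ℕ} {v : ℕ → ℕ} (h : Cy G d v) (W F : Finset Γ) (g g' : Γ)
    (hg : G.Adj g g') : (F.filter fun x => x * g ∈ W ∧ x * g' ∉ W).card ≤ cut G W := by
  have h1 : ((F.filter fun x => x * g ∈ W ∧ x * g' ∉ W).card) ≤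
      (W.filter fun a => (G.neighborFinset a \ W).Nonempty).card := by
    refine Finset.card_le_card_of_injOn (fun x => x * g) ?_ ?_
    · intro x hx
      have hx' := Finset.mem_filter.1 (Finset.mem_coe.1 hx)
      refine Finset.mem_coe.2 (Finset.mem_filter.2 ⟨hx'.2.1, ?_⟩)
      refine ⟨x * g', ?_⟩
      rw [Finset.mem_sdiff, SimpleGraph.mem_neighborFinset]
      exact ⟨(h.inv x g g').2 hg, hx'.2.2⟩
    · intro x _ y _ hxy
      exact mul_right_cancel hxy
  refine h1.trans ?_
  unfold cut
  rw [Finset.card_filter]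
  refine Finset.sum_le_sum fun a _ => ?_
  split_ifs with h2
  · exact Finset.card_pos.2 h2
  · exact Nat.zero_le _

private lemma iso1_walk {Γ : Type} [Group Γ] [DecidableEq Γ] {G : SimpleGraph Γ}
    [G.LocallyFinite] {d : ℕ} {v : ℕ → ℕ} (h : Cy G d v) (W F : Finset Γ) {g g' : Γ}
    (w : G.Walk g g') :
    (F.filter fun x => x * g ∈ W ∧ x * g' ∉ W).card ≤ w.length * cut G W := by
  induction w with
  | @nil a =>
    have : (F.filter fun x => x * a ∈ W ∧ x * a ∉ W) = ∅ := by
      rw [Finset.filter_eq_empty_iff]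
      rintro x _ ⟨h1, h2⟩
      exact h2 h1
    rw [this]
    simp
  | @cons a b e hab w ih =>
    have hsub : (F.filter fun x => x * a ∈ W ∧ x * e ∉ W) ⊆
        (F.filter fun x => x * a ∈ W ∧ x * b ∉ W) ∪
          (F.filter fun x => x * b ∈ W ∧ x * e ∉ W) := by
      intro x hx
      rw [Finset.mem_union, Finset.mem_filter, Finset.mem_filter]
      rw [Finset.mem_filter] at hx
      by_cases hb : x * b ∈ W
      · exact Or.inr ⟨hx.1, hb, hx.2.2⟩
      · exact Or.inl ⟨hx.1, hx.2.1, hb⟩
    calc (F.filter fun x => x * a ∈ W ∧ x * e ∉ W).card ≤ _ := Finset.card_le_card hsub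
      _ ≤ (F.filter fun x => x * a ∈ W ∧ x * b ∉ W).card +
          (F.filter fun x => x * b ∈ W ∧ x * e ∉ W).card := Finset.card_union_le _ _
      _ ≤ cut G W + w.length * cut G W := Nat.add_le_add (iso1_step h W F a b hab) ih
      _ = (SimpleGraph.Walk.cons hab w).length * cut G W := by
          rw [SimpleGraph.Walk.length_cons]
          ring

theorem thm_Iso1 : St_Iso1 := by
  intro Γ _ _ G _ d v h W
  have hA0 : ∀ g : Γ, (W.filter fun x => x * g ∉ W).card ≤ G.dist 1 g * cut G W := by
    intro g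
    obtain ⟨w, hw⟩ := h.conn.exists_walk_length_eq_dist 1 g
    have h1 := iso1_walk h W W w
    have h2 : (W.filter fun x => x * 1 ∈ W ∧ x * g ∉ W) = W.filter fun x => x * g ∉ W := by
      refine Finset.filter_congr fun x hx => ?_
      rw [mul_one]
      exact ⟨fun h3 => h3.2, fun h3 => ⟨hx, h3⟩⟩
    rw [h2, hw] at h1
    exact h1
  refine ⟨hA0, fun r hW => ?_⟩
  have hv := h.v_pos r
  have hA : ∀ g ∈ bl G 1 r, (W.filter fun x => x * g ∉ W).card ≤ r * cut G W := by
    intro g hg
    rw [mem_bl h.conn] at hg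
    exact (hA0 g).trans (Nat.mul_le_mul_right _ hg)
  have hB : ∑ g ∈ bl G 1 r, (W.filter fun x => x * g ∉ W).card ≤ v r * (r * cut G W) := by
    refine (Finset.sum_le_sum hA).trans ?_
    rw [Finset.sum_const, smul_eq_mul, h.vol]
  have hC : ∑ g ∈ bl G 1 r, (W.filter fun x => x * g ∉ W).card =
      ∑ x ∈ W, ((bl G 1 r).filter fun g => x * g ∉ W).card := by
    simp only [Finset.card_filter]
    exact Finset.sum_comm
  have hD : ∀ x ∈ W, v r ≤ 2 * ((bl G 1 r).filter fun g => x * g ∉ W).card := by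
    intro x hx
    have h1 : ((bl G 1 r).filter fun g => x * g ∈ W).card ≤ (W ∩ bl G x r).card := by
      refine Finset.card_le_card_of_injOn (fun g => x * g) ?_ ?_
      · intro g hg
        have hg' := Finset.mem_filter.1 (Finset.mem_coe.1 hg)
        refine Finset.mem_coe.2 (Finset.mem_inter.2 ⟨hg'.2, ?_⟩)
        rw [mem_bl h.conn, h.dist_self_mul, ← mem_bl h.conn]
        exact hg'.1
      · intro g _ g' _ hgg
        exact mul_left_cancel hgg
    have h2 : ((bl G 1 r).filter fun g => x * g ∈ W).card +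
        ((bl G 1 r).filter fun g => x * g ∉ W).card = v r := by
      rw [← h.vol 1 r]
      exact Finset.card_filter_add_card_filter_not _
    have h3 := hW x hx
    omega
  have hE : W.card * v r ≤ 2 * (v r * (r * cut G W)) := by
    calc W.card * v r = ∑ x ∈ W, v r := by rw [Finset.sum_const, smul_eq_mul]
      _ ≤ ∑ x ∈ W, 2 * ((bl G 1 r).filter fun g => x * g ∉ W).card := Finset.sum_le_sum hD
      _ = 2 * ∑ x ∈ W, ((bl G 1 r).filter fun g => x * g ∉ W).card := by rw [Finset.mul_sum]
      _ ≤ 2 * (v r * (r * cut G W)) := Nat.mul_le_mul_left _ (hC ▸ hB)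
  have hF : v r * W.card ≤ v r * (2 * r * cut G W) := by
    calc v r * W.card = W.card * v r := Nat.mul_comm _ _
      _ ≤ 2 * (v r * (r * cut G W)) := hE
      _ = v r * (2 * r * cut G W) := by ring
  exact Nat.le_of_mul_le_mul_left hF hv

end Pool.Agent.ISP
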