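import Pool.Agent.ISP.St
import Pool.Agent.SIM.Loc

/-!
# ISP/Lc1 (helper52): localisation of minimal admissible sets
-/

set_option autoImplicit false

namespace Pool.Agent.ISP

open Finset Filter Pool.Agent.Helper30.Perc Pool.Agent.Helper22.PG
open Pool.Agent.SIM (MinAdm Lv cay loc_e loc_e_comm loc_e_le loc_e_union_le loc_e_mono loc_cut
  mem_vert_right)

/-- growth of a sequence -/
private lemma lc1_grow (F N f S : ℕ → ℕ) (d M : ℕ) (hd : 0 < d) (hf : ∀ k, 1 ≤ f k)
    (hS0 : S 0 = 0) (hS : ∀ k, S (k + 1) = S k + 8 * d * f k)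
    (hF : Monotone F) (hM : ∀ r, F r ≤ M) (h0 : 1 ≤ F 0)
    (hN : ∀ k r, S k < r → r ≤ S (k + 1) → 8 * d * f k * N r ≤ 2 ^ k)
    (hstep : ∀ k r, F (r + 1) < 2 ^ (k + 1) → F (r + 1) ≤ 2 * f k *
      (2 * (d * N (r + 1) + d * (F (r + 1) - F r)))) : False := by
  have key : ∀ k, 2 ^ k ≤ F (S k) := by
    intro k
    induction k with
    | zero => rw [hS0]; simpa using h0
    | succ k ih =>
      by_contra hcon
      push Not at hcon
      have h1 : ∀ j, j ≤ 8 * d * f k →
          F (S k) * (8 * d * f k) + j * 2 ^ k ≤ F (S k + j) * (8 * d * f k) := by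
        intro j
        induction j with
        | zero => intro _; simp
        | succ j ihj =>
          intro hj
          have h2 := ihj (by omega)
          set r := S k + j with hr
          have hr1 : S k < r + 1 := by omega
          have hr2 : r + 1 ≤ S (k + 1) := by rw [hS k]; omega
          have h4 : 2 ^ k ≤ F (r + 1) := ih.trans (hF (by omega))
          have h5 : F (r + 1) < 2 ^ (k + 1) := lt_of_le_of_lt (hF hr2) hcon
          have h7 := hstep k r h5
          have h8 := hN k (r + 1) hr1 hr2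
          have h9 : F r ≤ F (r + 1) := hF (by omega)
          obtain ⟨t, ht⟩ := Nat.exists_eq_add_of_le h9
          have h10 : F (r + 1) - F r = t := by omega
          rw [h10] at h7
          have e2 : S k + (j + 1) = r + 1 := by omega
          rw [e2, ht]
          have h11 : 2 ^ k ≤ 8 * d * f k * t := by
            have h12 : 2 ^ k ≤ 4 * (d * f k * N (r + 1)) + 4 * (d * f k * t) := by
              calc 2 ^ k ≤ F (r + 1) := h4
                _ ≤ _ := h7
                _ = _ := by ring
            have h13 : 8 * (d * f k * N (r + 1)) ≤ 2 ^ k := by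
              calc 8 * (d * f k * N (r + 1)) = 8 * d * f k * N (r + 1) := by ring
                _ ≤ _ := h8
            have h14 : 8 * d * f k * t = 8 * (d * f k * t) := by ring
            rw [h14]
            omega
          calc F (S k) * (8 * d * f k) + (j + 1) * 2 ^ k
              = (F (S k) * (8 * d * f k) + j * 2 ^ k) + 2 ^ k := by ring
            _ ≤ F r * (8 * d * f k) + 8 * d * f k * t := Nat.add_le_add h2 h11
            _ = (F r + t) * (8 * d * f k) := by ring
      have h2 := h1 _ le_rfl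
      rw [← hS k] at h2
      have hpos : 0 < 8 * d * f k := Nat.mul_pos (Nat.mul_pos (by norm_num) hd) (hf k)
      have h3 : F (S k) + 2 ^ k ≤ F (S (k + 1)) := by
        refine Nat.le_of_mul_le_mul_right (c := 8 * d * f k) ?_ hpos
        calc _ = F (S k) * (8 * d * f k) + 8 * d * f k * 2 ^ k := by ring
          _ ≤ _ := h2
      have h5 : 2 ^ (k + 1) = 2 ^ k + 2 ^ k := by ring
      omega
  have h1 := key M
  have h2 := hM (S M)
  have h3 : M < 2 ^ M := M.lt_two_pow_self
  omega

theorem thm_Lc1 (h : St_Iso1) : St_Lc1 := by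
  intro Γ _ _ G _ d v hG f ψ hfv hf1 hψ0 hψ o T W hW x hx
  by_contra hcon
  push Not at hcon
  set V0 := insert o (vert T) with hV0
  have hd := hG.d_pos
  have hmono : ∀ r s, r ≤ s → (W ∩ bl G x r) \ V0 ⊆ (W ∩ bl G x s) \ V0 := fun r s hrs =>
    sdiff_subset_sdiff (inter_subset_inter_left (bl_mono hG.conn x hrs)) subset_rfl
  have hN0 : (V0 ∩ bl G x 0).card = 0 := by
    have h1 := hcon 0
    rw [hψ0] at h1
    omega
  have hxV : x ∉ V0 := by
    intro hxV
    rw [card_eq_zero] at hN0
    have : x ∈ V0 ∩ bl G x 0 := mem_inter.2 ⟨hxV, self_mem_bl x 0⟩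
    rw [hN0] at this
    simp at this
  have hxQ : ∀ r, x ∈ (W ∩ bl G x r) \ V0 := fun r =>
    Finset.mem_sdiff.2 ⟨mem_inter.2 ⟨hx, self_mem_bl x r⟩, hxV⟩
  refine lc1_grow (fun r => ((W ∩ bl G x r) \ V0).card) (fun r => (V0 ∩ bl G x r).card) f
    (fun k => ∑ i ∈ range k, 8 * d * f i) d
    W.card hd hf1 (by simp) (fun k => by rw [sum_range_succ])
    (fun r s hrs => card_le_card (hmono r s hrs))
    (fun r => card_le_card (sdiff_subset.trans inter_subset_left)) ?_ ?_ ?_
  · exact card_pos.2 ⟨x, hxQ 0⟩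
  · intro k r h1 h2
    exact (Nat.mul_le_mul_left _ (hcon r)).trans (hψ k r h1 h2)
  · intro k r hlt
    set Q := (W ∩ bl G x (r + 1)) \ V0 with hQdef
    have hQW : Q ⊆ W := sdiff_subset.trans inter_subset_left
    have hcut : cut G Q < 2 * loc_e G Q (W \ Q) := by
      obtain ⟨h1, h2⟩ := loc_cut G W Q hQW
      have hadm : Adm o T (W \ Q) := by
        refine ⟨Finset.mem_sdiff.2 ⟨hW.1.1, fun ho => ?_⟩, fun a b hab ha => ?_⟩
        · exact (Finset.mem_sdiff.1 ho).2 (mem_insert_self _ _)
        · refine Finset.mem_sdiff.2 ⟨hW.1.2 a b hab (Finset.mem_sdiff.1 ha).1, fun hb => ?_⟩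
          exact (Finset.mem_sdiff.1 hb).2 (mem_insert_of_mem (mem_vert_right hab))
      obtain ⟨h3, h4⟩ := hW.2 _ hadm
      have h5 : cut G (W \ Q) ≠ cut G W := by
        intro h6
        have h7 := h4 h6
        have h8 : W \ Q ⊂ W := by
          rw [Finset.ssubset_iff_subset_ne]
          refine ⟨sdiff_subset, fun h9 => ?_⟩
          have h10 : x ∈ W \ Q := by rw [h9]; exact hx
          exact (Finset.mem_sdiff.1 h10).2 (hxQ (r + 1))
        have h9 := card_lt_card h8
        omega
      omega
    have hle : loc_e G Q (W \ Q) ≤ d * (V0 ∩ bl G x (r + 1)).card +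
        d * (Q.card - ((W ∩ bl G x r) \ V0).card) := by
      have h1 : W \ Q ⊆ (V0 ∩ bl G x (r + 1)) ∪ ((W \ Q) \ bl G x (r + 1)) := by
        intro b hb
        rw [mem_union, mem_inter, Finset.mem_sdiff]
        by_cases hb' : b ∈ bl G x (r + 1)
        · left
          refine ⟨?_, hb'⟩
          by_contra hbV
          rw [Finset.mem_sdiff] at hb
          exact hb.2 (Finset.mem_sdiff.2 ⟨mem_inter.2 ⟨hb.1, hb'⟩, hbV⟩)
        · right
          exact ⟨hb, hb'⟩
      refine (loc_e_mono G Q h1).trans ((loc_e_union_le G _ _ _).trans (Nat.add_le_add ?_ ?_))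
      · rw [loc_e_comm]
        exact loc_e_le G d hG.deg _ _
      · have h2 : loc_e G Q ((W \ Q) \ bl G x (r + 1)) =
            loc_e G (Q \ ((W ∩ bl G x r) \ V0)) ((W \ Q) \ bl G x (r + 1)) := by
          unfold loc_e
          symm
          refine sum_subset sdiff_subset fun a ha ha' => ?_
          have ha2 : a ∈ (W ∩ bl G x r) \ V0 := by
            by_contra h3
            exact ha' (Finset.mem_sdiff.2 ⟨ha, h3⟩)
          rw [card_eq_zero, eq_empty_iff_forall_notMem]
          intro b hb
          rw [mem_inter, SimpleGraph.mem_neighborFinset, Finset.mem_sdiff] at hb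
          have h4 : a ∈ bl G x r := (mem_inter.1 (Finset.mem_sdiff.1 ha2).1).2
          refine hb.2.2 ?_
          simp only [bl, mem_union, mem_biUnion, SimpleGraph.mem_neighborFinset]
          exact Or.inr ⟨a, h4, hb.1⟩
        rw [h2]
        refine (loc_e_le G d hG.deg _ _).trans (Nat.mul_le_mul_left _ ?_)
        rw [card_sdiff_of_subset (hmono r (r + 1) (Nat.le_succ r))]
    have hiso : Q.card ≤ 2 * f k * cut G Q := by
      refine (h Γ G d v hG Q).2 (f k) fun y _ => ?_
      have h1 : (Q ∩ bl G y (f k)).card ≤ Q.card := card_le_card inter_subset_left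
      have h2 : Q.card < 2 ^ (k + 1) := hlt
      have h3 := hfv k
      have h4 : 2 ^ (k + 2) = 2 * 2 ^ (k + 1) := by ring
      omega
    calc Q.card ≤ 2 * f k * cut G Q := hiso
      _ ≤ 2 * f k * (2 * (d * (V0 ∩ bl G x (r + 1)).card +
          d * (Q.card - ((W ∩ bl G x r) \ V0).card))) :=
          Nat.mul_le_mul_left _ (hcut.le.trans (Nat.mul_le_mul_left _ hle))

end Pool.Agent.ISP
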