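import Pool.Agent.ISP.St

/-!
# ISP, module Lc2: the localisation function
-/

set_option autoImplicit false

namespace Pool.Agent.ISP

open Finset Filter

private theorem lc2_poly (m C : ℕ) : ∃ k₀ : ℕ, ∀ k, k₀ ≤ k → (k + 1) ^ m * C ≤ 2 ^ k := by
  have h := (tendsto_pow_const_div_const_pow_of_one_lt m (one_lt_two : (1 : ℝ) < 2)).comp
    (tendsto_add_atTop_nat 1)
  have hpos : (0 : ℝ) < 1 / (2 * ((C : ℝ) + 1)) := by positivity
  obtain ⟨k₀, hk₀⟩ := eventually_atTop.1 (h.eventually (Iio_mem_nhds hpos))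
  refine ⟨k₀, fun k hk => ?_⟩
  have h1 : (((k + 1 : ℕ) : ℝ)) ^ m / 2 ^ (k + 1) < 1 / (2 * ((C : ℝ) + 1)) := hk₀ k hk
  rw [div_lt_div_iff₀ (by positivity) (by positivity), one_mul, pow_succ] at h1
  have h2 : ((((k + 1) ^ m * C : ℕ)) : ℝ) ≤ ((2 ^ k : ℕ) : ℝ) := by
    push_cast
    push_cast at h1
    have h3 : (0 : ℝ) ≤ ((k : ℝ) + 1) ^ m := by positivity
    nlinarith
  exact_mod_cast h2

private theorem lc2_mono {f : ℕ → ℕ} (hf : ∀ k, f k ≤ f (k + 1)) : Monotone f :=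
  monotone_nat_of_le_succ hf

private theorem lc2_S_mono (g : ℕ → ℕ) : Monotone fun k => ∑ i ∈ range k, g i :=
  monotone_nat_of_le_succ fun k => by rw [sum_range_succ]; exact Nat.le_add_right _ _

private theorem lc2_S_ge (g : ℕ → ℕ) (hg : ∀ i, 1 ≤ g i) (k : ℕ) : k ≤ ∑ i ∈ range k, g i := by
  calc k = ∑ _i ∈ range k, 1 := by rw [sum_const, card_range, smul_eq_mul, mul_one]
    _ ≤ ∑ i ∈ range k, g i := sum_le_sum fun i _ => hg i

theorem thm_Lc2 : St_Lc2 := by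
  classical
  intro d f hd hf1 hf2 hf3
  have hg : ∀ i, 1 ≤ 8 * d * f i := fun i => by
    have h1 := hf1 i
    have h2 : 1 * 1 ≤ (8 * d) * f i := Nat.mul_le_mul (by omega) h1
    exact h2
  have hex : ∀ r : ℕ, ∃ k, r ≤ ∑ i ∈ range (k + 1), 8 * d * f i := fun r =>
    ⟨r, (Nat.le_succ r).trans (lc2_S_ge (fun i => 8 * d * f i) hg (r + 1))⟩
  have hSm := lc2_S_mono (fun i => 8 * d * f i)
  have hfm := lc2_mono hf2
  let K : ℕ → ℕ := fun r => Nat.find (hex r)
  have hK : ∀ r, r ≤ ∑ i ∈ range (K r + 1), 8 * d * f i := fun r => Nat.find_spec (hex r)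
  have hKeq : ∀ k r, ∑ i ∈ range k, 8 * d * f i < r → r ≤ ∑ i ∈ range (k + 1), 8 * d * f i →
      K r = k := by
    intro k r h1 h2
    apply le_antisymm
    · exact Nat.find_min' (hex r) h2
    · by_contra h3
      have h4 : K r + 1 ≤ k := by omega
      have h5 : ∑ i ∈ range (K r + 1), 8 * d * f i ≤ ∑ i ∈ range k, 8 * d * f i := hSm h4
      have h6 := hK r
      omega
  refine ⟨fun r => if r = 0 then 0 else 2 ^ K r / (8 * d * f (K r)), if_pos rfl, ?_, ?_⟩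
  · intro B
    obtain ⟨C, hC⟩ := hf3 (2 * (B + 1))
    obtain ⟨k₀, hk₀⟩ := lc2_poly (2 * (B + 1)) ((8 * d) ^ (2 * (B + 1)) * C)
    refine ⟨∑ i ∈ range k₀, 8 * d * f i + 1, fun r hr => ?_⟩
    have hr0 : r ≠ 0 := by omega
    have hKk : k₀ ≤ K r := by
      by_contra h3
      have h4 : K r + 1 ≤ k₀ := by omega
      have h5 : ∑ i ∈ range (K r + 1), 8 * d * f i ≤ ∑ i ∈ range k₀, 8 * d * f i := hSm h4
      have h6 := hK r
      omega
    show r ^ B ≤ if r = 0 then 0 else 2 ^ K r / (8 * d * f (K r))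
    rw [if_neg hr0, Nat.le_div_iff_mul_le (hg (K r))]
    set k := K r with hk
    have h1 : r ≤ (k + 1) * (8 * d * f k) := by
      refine (hK r).trans ?_
      calc ∑ i ∈ range (k + 1), 8 * d * f i ≤ ∑ _i ∈ range (k + 1), 8 * d * f k := by
            refine sum_le_sum fun i hi => Nat.mul_le_mul_left _ (hfm ?_)
            have := mem_range.1 hi
            omega
        _ = (k + 1) * (8 * d * f k) := by rw [sum_const, card_range, smul_eq_mul]
    have h2 : r ^ B * (8 * d * f k) ≤ ((k + 1) * (8 * d * f k)) ^ (B + 1) := by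
      rw [pow_succ]
      refine Nat.mul_le_mul (Nat.pow_le_pow_left h1 B) ?_
      calc 8 * d * f k = 1 * (8 * d * f k) := (one_mul _).symm
        _ ≤ (k + 1) * (8 * d * f k) := Nat.mul_le_mul_right _ (by omega)
    refine h2.trans ?_
    have h3 : (((k + 1) * (8 * d * f k)) ^ (B + 1)) ^ 2 ≤ (2 ^ k) ^ 2 := by
      calc (((k + 1) * (8 * d * f k)) ^ (B + 1)) ^ 2
          = (k + 1) ^ (2 * (B + 1)) * (8 * d) ^ (2 * (B + 1)) * f k ^ (2 * (B + 1)) := by
            rw [← pow_mul, mul_comm (B + 1) 2, ← mul_pow, ← mul_pow]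
            congr 1
            ring
        _ ≤ (k + 1) ^ (2 * (B + 1)) * (8 * d) ^ (2 * (B + 1)) * (C * 2 ^ k) :=
            Nat.mul_le_mul_left _ (hC k)
        _ = (k + 1) ^ (2 * (B + 1)) * ((8 * d) ^ (2 * (B + 1)) * C) * 2 ^ k := by ring
        _ ≤ 2 ^ k * 2 ^ k := Nat.mul_le_mul_right _ (hk₀ k hKk)
        _ = (2 ^ k) ^ 2 := by ring
    exact (Nat.pow_le_pow_iff_left two_ne_zero).1 h3
  · intro k r h1 h2
    have hr0 : r ≠ 0 := by omega
    show 8 * d * f k * (if r = 0 then 0 else 2 ^ K r / (8 * d * f (K r))) ≤ 2 ^ k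
    rw [if_neg hr0, hKeq k r h1 h2]
    exact Nat.mul_div_le _ _

end Pool.Agent.ISP
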