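import Pool.Agent.ISP.St

/-! ISP module Loc. -/

set_option autoImplicit false

namespace Pool.Agent.ISP

open Finset Filter Pool.Agent.Helper30.Perc Pool.Agent.Helper22.PG

theorem thm_Loc (h1 : St_Fgr) (h2 : St_Lc2) (h3 : St_Lc1) : St_Loc := by
  intro Γ _ _ G _ d v hG
  obtain ⟨f, hf1, hf2, hf3, hf4⟩ := h1 Γ G d v hG
  obtain ⟨ψ, hψ0, hψ1, hψ2⟩ := h2 d f hG.d_pos hf2 hf3 hf4
  exact ⟨ψ, hψ0, hψ1, h3 Γ G d v hG f ψ hf1 hf2 hψ0 hψ2⟩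

end Pool.Agent.ISP
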