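import Pool.Agent.ISP.St
import Pool.Agent.SIM.Min

/-!
# Minimal admissible sets

Existence, distance from the base point and size of minimal admissible sets.
-/

set_option autoImplicit false

namespace Pool.Agent.ISP

open Finset Filter Pool.Agent.Helper30.Perc Pool.Agent.Helper22.PG

theorem thm_Min (h1 : St_Iso1) (h2 : St_Fgr) : St_Min := by
  intro Γ _ _ G _ d v hG
  obtain ⟨f, hf1, -, -, hf4⟩ := h2 Γ G d v hG
  obtain ⟨C, hC⟩ := hf4 2
  refine ⟨16 * C * d ^ 2, fun o T => ⟨SIM.min_exists G o T, fun hT W hW =>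
    ⟨fun x hx => SIM.min_dist G o T hT W hW x hx, ?_⟩⟩⟩
  rcases Nat.eq_zero_or_pos W.card with h0 | h0
  · omega
  set n := W.card with hn
  set k := Nat.log 2 n with hk
  set t := T.card + 1 with ht
  have h3 : cut G W ≤ d * (2 * t) :=
    (((hW.2 _ (SIM.min_adm0 o T)).1).trans (SIM.min_cut0 G d hG.deg o T)).trans
      (Nat.mul_le_mul_left _ (by omega))
  have h4 : 2 ^ k ≤ n := Nat.pow_log_le_self 2 (by omega)
  have h5 : n < 2 ^ (k + 1) := Nat.lt_pow_succ_log_self (by norm_num) n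
  have h6 : n ≤ 2 * f k * cut G W := by
    refine (h1 Γ G d v hG W).2 (f k) fun x _ => ?_
    have h7 : (W ∩ bl G x (f k)).card ≤ n := card_le_card inter_subset_left
    have h8 : (2 : ℕ) ^ (k + 2) = 2 * 2 ^ (k + 1) := by ring
    have h9 := hf1 k
    omega
  have h10 : n ≤ 4 * f k * d * t := by
    calc n ≤ 2 * f k * cut G W := h6
      _ ≤ 2 * f k * (d * (2 * t)) := Nat.mul_le_mul_left _ h3
      _ = 4 * f k * d * t := by ring
  have h11 : n * n ≤ 16 * C * d ^ 2 * t ^ 2 * n := by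
    calc n * n ≤ (4 * f k * d * t) * (4 * f k * d * t) := Nat.mul_le_mul h10 h10
      _ = 16 * d ^ 2 * t ^ 2 * f k ^ 2 := by ring
      _ ≤ 16 * d ^ 2 * t ^ 2 * (C * 2 ^ k) := Nat.mul_le_mul_left _ (hC k)
      _ ≤ 16 * d ^ 2 * t ^ 2 * (C * n) :=
        Nat.mul_le_mul_left _ (Nat.mul_le_mul_left _ h4)
      _ = 16 * C * d ^ 2 * t ^ 2 * n := by ring
  exact Nat.le_of_mul_le_mul_right h11 h0

end Pool.Agent.ISP
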