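import Pool.Agent.ISP.St

/-! ISP module Mkr: Maker wins. -/

set_option autoImplicit false

namespace Pool.Agent.ISP

open Finset Filter Pool.Agent.Helper30.Perc Pool.Agent.Helper22.PG

theorem thm_Mkr (h1 : St_Tn0) (h2 : St_Cl0) (h3 : St_Cls) (h4 : St_Inf) (h5 : St_Top)
    (h6 : St_Gam) (h7 : St_Num) : St_Mkr := by
  intro Γ Q _ _ _ _ G _ H _ d d' v v' π hG hH hπ C hC κ hκ ε hε hεκ
  obtain ⟨A, E, hE, hnum⟩ := h7 Q H d' v' hH C hC κ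
  obtain ⟨δ, hδ, htn⟩ := h1 Γ G d v hG κ hκ ε hε hεκ
  obtain ⟨p1, hp1⟩ := hnum δ hδ
  obtain ⟨p2, hp2⟩ := htn A E hE
  refine ⟨max (max p1 p2) 1, fun p hp q hq => ?_⟩
  have hpp1 : p1 ≤ p := ((le_max_left _ _).trans (le_max_left _ _)).trans hp
  have hpp2 : p2 ≤ p := ((le_max_right _ _).trans (le_max_left _ _)).trans hp
  have hpp3 : 1 ≤ p := (le_max_right _ _).trans hp
  have hp0 : (0 : ℝ) ≤ p := Nat.cast_nonneg p
  have hq' : (q : ℝ) ≤ κ * p := hq.trans (mul_le_mul_of_nonneg_right (by linarith) hp0)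
  obtain ⟨σ, ς, ρ, e, τ, m, hS, hF, hA, hσ, hk⟩ := hp1 p hpp1 q hq'
  have hk₀ : ((⌊δ * p⌋₊ : ℕ) : ℝ) ≤ δ * p := Nat.floor_le (by positivity)
  have hcl0 : Clm G H π p q ⌊δ * p⌋₊ σ ρ e τ m 0 :=
    h2 Γ Q G H d d' v v' π hG hH hπ p q ⌊δ * p⌋₊ A E σ ς ρ e τ m hS hpp3 (hF 0) hA hk
      fun M B y hPos hAt hB => hp2 p hpp2 q hq ⌊δ * p⌋₊ hk₀ (σ 0) hσ M B y hPos hAt hB
  have hcl : ∀ k, Clm G H π p q ⌊δ * p⌋₊ σ ρ e τ m k := by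
    intro k
    induction k with
    | zero => exact hcl0
    | succ k ih =>
      exact h3 Γ Q G H d' v' π hH p q ⌊δ * p⌋₊ σ ς ρ e τ m hS k (hF (k + 1)) ih
  refine h6 Γ G hG.edge_infinite p q (Inv G H π q ⌊δ * p⌋₊ σ τ m) ?_ ?_ ?_
  · refine ⟨⟨by simp, by simp, by simp⟩, 0, 1, ⟨∅, by simp, by simp, by simp,
      SimpleGraph.Reachable.refl _⟩, ?_, by simp⟩
    intro j _
    unfold Ca
    have : nb H π (vert (∅ : Finset (Sym2 Γ))) (π 1) (2 * σ j) = ∅ := by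
      simp [nb, vert]
    rw [this]
    simp
  · exact h5 Γ Q G H v' π p q ⌊δ * p⌋₊ σ ς ρ e τ m hS hcl
  · exact h4 Γ Q G H d d' v v' π hG hH p q ⌊δ * p⌋₊ σ ς ρ e τ m hS hcl

end Pool.Agent.ISP
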