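import Pool.Agent.ISP.St

/-!
# The choice of the radii
-/

set_option autoImplicit false

namespace Pool.Agent.ISP

open Finset

private lemma nms_pow (N y : ℕ) (hy : 31 * 3 ^ N ≤ y) : 31 * (3 * y) ^ N ≤ y ^ (N + 1) := by
  rw [mul_pow, pow_succ, ← mul_assoc]
  calc 31 * 3 ^ N * y ^ N ≤ y * y ^ N := Nat.mul_le_mul_right _ hy
    _ = y ^ N * y := by ring

theorem thm_Nms : St_Nms := by
  intro v ψ hv hv2 hψ B E
  obtain ⟨N, hN⟩ : ∃ N, N = 2 * (E + 1) * (B + 2) := ⟨_, rfl⟩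
  obtain ⟨r1, hr1⟩ := hψ (N + 1)
  obtain ⟨r2, hr2⟩ := hv2 (N + 1)
  obtain ⟨M, hM⟩ : ∃ M, M = r1 + r2 + 31 * 3 ^ N := ⟨_, rfl⟩
  refine ⟨(2 * M + 1) ^ (2 * (E + 1)), fun s hs => ?_⟩
  have hMs : M ≤ s := by
    have : 2 * M + 1 ≤ (2 * M + 1) ^ (2 * (E + 1)) := Nat.le_self_pow (by omega) _
    omega
  have hs1 : 1 ≤ s := le_trans (Nat.one_le_pow _ _ (by omega)) hs
  obtain ⟨R0, hR0⟩ : ∃ R0, R0 = Nat.findGreatest (fun R => (2 * R + 1) ^ (2 * (E + 1)) ≤ s) s :=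
    ⟨_, rfl⟩
  have hP : (2 * R0 + 1) ^ (2 * (E + 1)) ≤ s := by
    rw [hR0]
    exact Nat.findGreatest_spec (P := fun R => (2 * R + 1) ^ (2 * (E + 1)) ≤ s) hMs hs
  have hMR : M ≤ R0 := by
    rw [hR0]
    exact Nat.le_findGreatest hMs hs
  have hnP : s < (2 * R0 + 3) ^ (2 * (E + 1)) := by
    by_contra hcon
    push Not at hcon
    have hle : R0 + 1 ≤ s := by
      have : 2 * R0 + 3 ≤ (2 * R0 + 3) ^ (2 * (E + 1)) := Nat.le_self_pow (by omega) _
      omega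
    have h1 : R0 + 1 ≤ Nat.findGreatest (fun R => (2 * R + 1) ^ (2 * (E + 1)) ≤ s) s :=
      Nat.le_findGreatest hle (by
        have : 2 * (R0 + 1) + 1 = 2 * R0 + 3 := by ring
        rw [this]; exact hcon)
    omega
  have hρs : (2 * R0 + 1) ^ 2 ≤ s :=
    le_trans (Nat.pow_le_pow_right (by omega) (by omega)) hP
  have hkey : ∀ y, 2 * R0 + 3 ≤ 3 * y → 31 * 3 ^ N ≤ y → 31 * s ^ (B + 2) ≤ y ^ (N + 1) := by
    intro y hy hy2
    have h1 : s ≤ (3 * y) ^ (2 * (E + 1)) :=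
      le_trans hnP.le (Nat.pow_le_pow_left hy _)
    have h2 : s ^ (B + 2) ≤ (3 * y) ^ N := by
      rw [hN, pow_mul]
      exact Nat.pow_le_pow_left h1 _
    exact le_trans (Nat.mul_le_mul_left _ h2) (nms_pow N y hy2)
  refine ⟨(2 * R0 + 1) ^ 2, R0, ?_, ?_⟩
  · rw [← pow_mul]
    exact le_trans (Nat.pow_le_pow_right (by omega) (by omega)) hP
  · intro m hm
    obtain ⟨ρ, hρ⟩ : ∃ ρ, ρ = (2 * R0 + 1) ^ 2 := ⟨_, rfl⟩
    rw [← hρ] at hρs ⊢
    have hsB : 1 ≤ s ^ B := Nat.one_le_pow _ _ hs1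
    have hs2 : s ≤ s ^ 2 := Nat.le_self_pow (by omega) _
    constructor
    · intro r hr
      have h1 := hkey r (by omega) (by omega)
      have h2 := hr1 r (by omega)
      refine le_trans ?_ (le_trans h1 h2)
      have h3 : m * (ρ + 2 * s + 2) ≤ s ^ B * (5 * s ^ 2) := by
        refine Nat.mul_le_mul hm ?_
        nlinarith
      have h4 : s ^ (B + 2) = s ^ B * s ^ 2 := pow_add _ _ _
      have h5 : 1 ≤ s ^ B * s ^ 2 := by
        have : 1 ≤ s ^ 2 := le_trans hs1 hs2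
        exact Nat.mul_le_mul hsB this |>.trans_eq' (by norm_num)
      rw [h4]
      nlinarith
    · have hx := hkey (2 * R0 + 1) (by omega) (by omega)
      have h2 := hr2 (2 * R0 + 1) (by omega)
      rw [← hρ] at h2
      refine le_trans ?_ h2
      have hvx := hv (2 * R0 + 1)
      obtain ⟨w, hw⟩ : ∃ w, w = v (2 * R0 + 1) := ⟨_, rfl⟩
      rw [← hw] at hvx ⊢
      refine le_trans ?_ (Nat.mul_le_mul_right w hx)
      have h4 : s ^ (B + 2) = s ^ B * s ^ 2 := pow_add _ _ _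
      rw [h4]
      have h6 : 2 * ((ρ + 2 * s + 2) * ((2 * s + 1) * w)) + 1 ≤ 31 * (s ^ 2 * w) := by
        have a1 : ρ + 2 * s + 2 ≤ 5 * s := by omega
        have a2 : 2 * s + 1 ≤ 3 * s := by omega
        have a3 : (ρ + 2 * s + 2) * ((2 * s + 1) * w) ≤ (5 * s) * ((3 * s) * w) :=
          Nat.mul_le_mul a1 (Nat.mul_le_mul_right _ a2)
        have a4 : (5 * s) * ((3 * s) * w) = 15 * (s ^ 2 * w) := by ring
        have a5 : 1 ≤ s ^ 2 * w := by
          have : 1 ≤ s ^ 2 := le_trans hs1 hs2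
          exact Nat.mul_le_mul this hvx |>.trans_eq' (by norm_num)
        omega
      calc m * (2 * ((ρ + 2 * s + 2) * ((2 * s + 1) * w)) + 1)
          ≤ s ^ B * (31 * (s ^ 2 * w)) := Nat.mul_le_mul hm h6
        _ = 31 * (s ^ B * s ^ 2) * w := by ring

end Pool.Agent.ISP
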