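import Pool.Agent.ISP.St

/-!
# Percolation games on Cayley graphs: the scales (module Num)
-/

set_option autoImplicit false

namespace Pool.Agent.ISP

open Finset Filter Pool.Agent.Helper30.Perc Pool.Agent.Helper22.PG

/-- The integer root. -/
theorem num_root (N p s₀ : ℕ) (hN : 1 ≤ N) (h : s₀ ^ N ≤ p) :
    ∃ s, s₀ ≤ s ∧ s ^ N ≤ p ∧ p < (s + 1) ^ N := by
  have hle : ∀ x : ℕ, x ≤ x ^ N := fun x => Nat.le_self_pow (by omega) x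
  refine ⟨Nat.findGreatest (fun s => s ^ N ≤ p) p, ?_, ?_, ?_⟩
  · exact Nat.le_findGreatest ((hle s₀).trans h) h
  · exact Nat.findGreatest_spec (P := fun s => s ^ N ≤ p) ((hle s₀).trans h) h
  · rcases Nat.lt_or_ge p (Nat.findGreatest (fun s => s ^ N ≤ p) p + 1) with h1 | h1
    · exact lt_of_lt_of_le h1 (hle _)
    · have := Nat.findGreatest_is_greatest (P := fun s => s ^ N ≤ p) (n := p)
        (k := Nat.findGreatest (fun s => s ^ N ≤ p) p + 1) (Nat.lt_succ_self _) h1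
      exact not_le.1 this

/-- Recursion. -/
theorem num_rec (s : ℕ) (f : ℕ → ℕ → ℕ) :
    ∃ σ : ℕ → ℕ, σ 0 = s ∧ ∀ k, σ (k + 1) = f k (σ k) :=
  ⟨fun k => Nat.rec s (fun k x => f k x) k, rfl, fun _ => rfl⟩

theorem num_fo_mono {Γ : Type} [Group Γ] [DecidableEq Γ] {G : SimpleGraph Γ} {D D' ρ ρ' : ℕ}
    {K : Finset Γ} (h : Fo G D ρ K) (hD : D' ≤ D) (hρ : ρ ≤ ρ') : Fo G D' ρ' K :=
  ⟨h.1, fun x hx => (h.2.1 x hx).trans hρ, fun g hg => h.2.2 g (hg.trans hD)⟩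

/-- `5 x ^ 4 ≤ x ^ 8 ≤ x ^ (8 C)`. -/
theorem num_pow {x C : ℕ} (hx : 2 ≤ x) (hC : 1 ≤ C) :
    x ≤ x ^ 4 ∧ 16 ≤ x ^ 4 ∧ 5 * x ^ 4 ≤ x ^ 8 ∧ x ^ 8 ≤ x ^ (8 * C) ∧ 256 ≤ x ^ 8 := by
  have h1 : 16 ≤ x ^ 4 := by
    calc 16 = 2 ^ 4 := by norm_num
      _ ≤ x ^ 4 := Nat.pow_le_pow_left hx 4
  have h2 : x ^ 8 = x ^ 4 * x ^ 4 := by ring
  refine ⟨Nat.le_self_pow (by norm_num) x, h1, ?_, ?_, ?_⟩
  · rw [h2]
    exact Nat.mul_le_mul_right _ (by omega)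
  · exact Nat.pow_le_pow_right (by omega) (by omega)
  · rw [h2]
    calc 256 = 16 * 16 := by norm_num
      _ ≤ x ^ 4 * x ^ 4 := Nat.mul_le_mul h1 h1

/-- The growth condition at scale `b`. -/
theorem num_gr {v : ℕ → ℕ} (vm : ∀ r r', r ≤ r' → v r ≤ v r') {B r₀ : ℕ}
    (hgr : ∀ r, r₀ ≤ r → r ^ B * v r ≤ v (r ^ 2)) {x r t n : ℕ} (hr : r₀ ≤ r)
    (hx : x ≤ r ^ n) (hn : n ≤ B) (hr1 : 1 ≤ r) (ht : r ^ 2 ≤ t) : x * v r ≤ v t := by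
  calc x * v r ≤ r ^ B * v r :=
        Nat.mul_le_mul_right _ (hx.trans (Nat.pow_le_pow_right hr1 hn))
    _ ≤ v (r ^ 2) := hgr r hr
    _ ≤ v t := vm _ _ ht

/-- `v1`. -/
theorem num_v1 {v : ℕ → ℕ} (vm : ∀ r r', r ≤ r' → v r ≤ v r') {C r₀ R S U ρ1 ρ2 : ℕ}
    (hC : 1 ≤ C) (hgr : ∀ r, r₀ ≤ r → r ^ (1024 * C ^ 2 + 32 * C + 1) * v r ≤ v (r ^ 2))
    (hR : r₀ ≤ R) (hR2 : 256 ≤ R) (hS : S = R ^ 4) (hρ1 : ρ1 = R ^ (32 * C))
    (hU : U = R ^ (128 * C)) (hρ2 : ρ2 = R ^ (1024 * C ^ 2)) :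
    16 * ((U + 2 * ρ2 + 1) * v (6 * R)) * (ρ1 + 1) ≤ v S := by
  have hUρ : U ≤ ρ2 := by
    rw [hU, hρ2]
    exact Nat.pow_le_pow_right (by omega) (by nlinarith)
  have h1 : 1 ≤ ρ2 := by
    rw [hρ2]
    exact Nat.one_le_pow _ _ (by omega)
  have h2 : 1 ≤ ρ1 := by
    rw [hρ1]
    exact Nat.one_le_pow _ _ (by omega)
  have h3 : 16 * (U + 2 * ρ2 + 1) * (ρ1 + 1) ≤ (6 * R) ^ (1024 * C ^ 2 + 32 * C + 1) := by
    calc 16 * (U + 2 * ρ2 + 1) * (ρ1 + 1) ≤ 16 * (4 * ρ2) * (2 * ρ1) :=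
          Nat.mul_le_mul (Nat.mul_le_mul_left _ (by omega)) (by omega)
      _ = 128 * (ρ2 * ρ1) := by ring
      _ ≤ R * (ρ2 * ρ1) := Nat.mul_le_mul_right _ (by omega)
      _ = R ^ (1024 * C ^ 2 + 32 * C + 1) := by
          rw [hρ2, hρ1]
          ring
      _ ≤ (6 * R) ^ (1024 * C ^ 2 + 32 * C + 1) := Nat.pow_le_pow_left (by omega) _
  have h4 := num_gr vm hgr (x := 16 * (U + 2 * ρ2 + 1) * (ρ1 + 1)) (r := 6 * R) (t := S)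
    (by omega) h3 le_rfl (by omega) (by
      rw [hS]
      have : (6 * R) ^ 2 = 36 * R ^ 2 := by ring
      rw [this]
      have h5 : R ^ 4 = R ^ 2 * R ^ 2 := by ring
      rw [h5]
      exact Nat.mul_le_mul_right _ (by nlinarith))
  calc 16 * ((U + 2 * ρ2 + 1) * v (6 * R)) * (ρ1 + 1)
      = 16 * (U + 2 * ρ2 + 1) * (ρ1 + 1) * v (6 * R) := by ring
    _ ≤ v S := h4

/-- `v2`. -/
theorem num_v2 {v : ℕ → ℕ} (vm : ∀ r r', r ≤ r' → v r ≤ v r') {C r₀ S T U ρ2 : ℕ}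
    (hC : 1 ≤ C) (hgr : ∀ r, r₀ ≤ r → r ^ (1024 * C ^ 2 + 32 * C + 1) * v r ≤ v (r ^ 2))
    (hR : r₀ ≤ S) (hR2 : 256 ≤ S) (hT : T = S ^ 4)
    (hU : U = S ^ (32 * C)) (hρ2 : ρ2 = S ^ (256 * C ^ 2)) :
    32 * ((U + 2 * ρ2 + 1) * v (3 * S)) ≤ v T := by
  have hUρ : U ≤ ρ2 := by
    rw [hU, hρ2]
    exact Nat.pow_le_pow_right (by omega) (by nlinarith)
  have h1 : 1 ≤ ρ2 := by
    rw [hρ2]
    exact Nat.one_le_pow _ _ (by omega)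
  have h3 : 32 * (U + 2 * ρ2 + 1) ≤ (3 * S) ^ (256 * C ^ 2 + 1) := by
    calc 32 * (U + 2 * ρ2 + 1) ≤ 32 * (4 * ρ2) := Nat.mul_le_mul_left _ (by omega)
      _ = 128 * ρ2 := by ring
      _ ≤ S * ρ2 := Nat.mul_le_mul_right _ (by omega)
      _ = S ^ (256 * C ^ 2 + 1) := by
          rw [hρ2]
          ring
      _ ≤ (3 * S) ^ (256 * C ^ 2 + 1) := Nat.pow_le_pow_left (by omega) _
  have h4 := num_gr vm hgr (x := 32 * (U + 2 * ρ2 + 1)) (r := 3 * S) (t := T)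
    (by omega) h3 (by nlinarith) (by omega) (by
      rw [hT]
      have : (3 * S) ^ 2 = 9 * S ^ 2 := by ring
      rw [this]
      have h5 : S ^ 4 = S ^ 2 * S ^ 2 := by ring
      rw [h5]
      exact Nat.mul_le_mul_right _ (by nlinarith))
  calc 32 * ((U + 2 * ρ2 + 1) * v (3 * S))
      = 32 * (U + 2 * ρ2 + 1) * v (3 * S) := by ring
    _ ≤ v T := h4

/-- Level `0`. -/
theorem num_X {C K' s q ρ1 σ1 m1 : ℕ} (hC : 1 ≤ C) (hs2 : 2 ≤ s) (hs : 1024 * (K' + 1) ≤ s)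
    (hq : q ≤ K' * (2 * s) ^ (8 * C + 1)) (hσ1 : σ1 = s ^ (32 * C)) (hρ1 : ρ1 = s ^ (256 * C ^ 2))
    (hm : m1 = 8 * (q + 1) * (σ1 + 2 * ρ1 + 1)) :
    8 * (2 * m1 + 2 * q) * (s ^ (8 * C) + 1) ≤ (2 * s) ^ (1024 * C ^ 2 + 32 * C + 1) := by
  have hσρ : σ1 ≤ ρ1 := by
    rw [hσ1, hρ1]
    exact Nat.pow_le_pow_right (by omega) (by nlinarith)
  have h1 : 1 ≤ ρ1 := by
    rw [hρ1]
    exact Nat.one_le_pow _ _ (by omega)
  have h2 : m1 ≤ 32 * (q + 1) * ρ1 := by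
    rw [hm]
    calc 8 * (q + 1) * (σ1 + 2 * ρ1 + 1) ≤ 8 * (q + 1) * (4 * ρ1) :=
          Nat.mul_le_mul_left _ (by omega)
      _ = 32 * (q + 1) * ρ1 := by ring
  have h3 : q ≤ m1 := by
    rw [hm]
    nlinarith [Nat.zero_le (q * σ1), Nat.zero_le (q * ρ1)]
  have h4 : q + 1 ≤ (K' + 1) * (2 * s) ^ (8 * C + 1) := by
    have : 1 ≤ (2 * s) ^ (8 * C + 1) := Nat.one_le_pow _ _ (by omega)
    rw [add_mul, one_mul]
    omega
  have h5 : 8 * (2 * m1 + 2 * q) ≤ (2 * s) ^ (256 * C ^ 2 + 8 * C + 2) := by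
    calc 8 * (2 * m1 + 2 * q) ≤ 32 * m1 := by omega
      _ ≤ 32 * (32 * (q + 1) * ρ1) := Nat.mul_le_mul_left _ h2
      _ = 1024 * (q + 1) * ρ1 := by ring
      _ ≤ 1024 * ((K' + 1) * (2 * s) ^ (8 * C + 1)) * ρ1 :=
          Nat.mul_le_mul_right _ (Nat.mul_le_mul_left _ h4)
      _ = 1024 * (K' + 1) * ((2 * s) ^ (8 * C + 1) * ρ1) := by ring
      _ ≤ (2 * s) * ((2 * s) ^ (8 * C + 1) * (2 * s) ^ (256 * C ^ 2)) := by
          refine Nat.mul_le_mul (by omega) (Nat.mul_le_mul_left _ ?_)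
          rw [hρ1]
          exact Nat.pow_le_pow_left (by omega) _
      _ = (2 * s) ^ (256 * C ^ 2 + 8 * C + 2) := by ring
  have h6 : s ^ (8 * C) + 1 ≤ (2 * s) ^ (8 * C) := by
    have e1 : 1 ≤ s ^ (8 * C) := Nat.one_le_pow _ _ (by omega)
    have e2 : 2 ≤ 2 ^ (8 * C) := by
      calc 2 = 2 ^ 1 := by norm_num
        _ ≤ 2 ^ (8 * C) := Nat.pow_le_pow_right (by norm_num) (by omega)
    rw [mul_pow]
    calc s ^ (8 * C) + 1 ≤ 2 * s ^ (8 * C) := by omega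
      _ ≤ 2 ^ (8 * C) * s ^ (8 * C) := Nat.mul_le_mul_right _ e2
  calc 8 * (2 * m1 + 2 * q) * (s ^ (8 * C) + 1)
      ≤ (2 * s) ^ (256 * C ^ 2 + 8 * C + 2) * (2 * s) ^ (8 * C) := Nat.mul_le_mul h5 h6
    _ = (2 * s) ^ (256 * C ^ 2 + 8 * C + 2 + 8 * C) := by rw [← pow_add]
    _ ≤ (2 * s) ^ (1024 * C ^ 2 + 32 * C + 1) :=
        Nat.pow_le_pow_right (by omega) (by nlinarith)

theorem num_small {C s a p : ℕ} (hs : 3 ^ (8 * C + 2) * 2 ^ (8 * C + 1) ≤ s)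
    (hp : p < (s + 1) ^ (8 * C + 1)) (hs1 : 1 ≤ s) (ha : a ^ (8 * C + 2) ≤ p) : 3 * a < s := by
  by_contra hcon
  have hcon' : s ≤ 3 * a := not_lt.1 hcon
  have h1 : s ^ (8 * C + 2) < s ^ (8 * C + 2) := by
    calc s ^ (8 * C + 2) ≤ (3 * a) ^ (8 * C + 2) := Nat.pow_le_pow_left hcon' _
      _ = 3 ^ (8 * C + 2) * a ^ (8 * C + 2) := mul_pow _ _ _
      _ ≤ 3 ^ (8 * C + 2) * p := Nat.mul_le_mul_left _ ha
      _ < 3 ^ (8 * C + 2) * (s + 1) ^ (8 * C + 1) := Nat.mul_lt_mul_of_pos_left hp (by positivity)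
      _ ≤ 3 ^ (8 * C + 2) * (2 * s) ^ (8 * C + 1) :=
          Nat.mul_le_mul_left _ (Nat.pow_le_pow_left (by omega) _)
      _ = 3 ^ (8 * C + 2) * 2 ^ (8 * C + 1) * s ^ (8 * C + 1) := by rw [mul_pow]; ring
      _ ≤ s * s ^ (8 * C + 1) := Nat.mul_le_mul_right _ hs
      _ = s ^ (8 * C + 2) := by ring
  exact lt_irrefl _ h1

theorem thm_Num : St_Num := by
  intro Γ _ _ H _ d v hCy C0 hF0 K
  obtain ⟨C, hC, D₀, hF⟩ : ∃ C : ℕ, 1 ≤ C ∧ ∃ D₀ : ℕ, ∀ D, D₀ ≤ D →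
      ∃ K : Finset Γ, Fo H D (D ^ C) K := by
    obtain ⟨D₀, hD⟩ := hF0
    refine ⟨C0 + 1, by omega, D₀ + 1, fun D hDD => ?_⟩
    obtain ⟨K, hK⟩ := hD D (by omega)
    exact ⟨K, num_fo_mono hK le_rfl (Nat.pow_le_pow_right (by omega) (by omega))⟩
  obtain ⟨r₀, hgr⟩ := hCy.gr (1024 * C ^ 2 + 32 * C + 1)
  have vm : ∀ r r', r ≤ r' → v r ≤ v r' := fun r r' h => hCy.v_mono h
  refine ⟨2 * (1024 * C ^ 2 + 32 * C + 1), 8 * C + 2, by omega, fun δ hδ => ?_⟩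
  obtain ⟨s₀, hs₀⟩ : ∃ s₀, s₀ = 2 + D₀ + r₀ + 1024 * (⌈K⌉₊ + 1) +
    3 ^ (8 * C + 2) * 2 ^ (8 * C + 1) + ⌈3 / δ⌉₊ := ⟨_, rfl⟩
  refine ⟨s₀ ^ (8 * C + 1), fun p hp q hq => ?_⟩
  obtain ⟨s, hs, hs1, hs2⟩ := num_root (8 * C + 1) p s₀ (by omega) hp
  have g1 : 2 ≤ s := by omega
  have g2 : D₀ ≤ s := by omega
  have g3 : r₀ ≤ s := by omega
  have g4 : 1024 * (⌈K⌉₊ + 1) ≤ s := by omega
  have g5 : 3 ^ (8 * C + 2) * 2 ^ (8 * C + 1) ≤ s := by omega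
  have g6 : ⌈3 / δ⌉₊ ≤ s := by omega
  obtain ⟨σ, hσ0, hσ1⟩ := num_rec s (fun _ x => x ^ (32 * C))
  replace hσ1 : ∀ k, σ (k + 1) = σ k ^ (32 * C) := hσ1
  obtain ⟨e, he0, he1⟩ := num_rec (σ 0 ^ 4) (fun k x => σ (k + 1) ^ 4 + x)
  replace he1 : ∀ k, e (k + 1) = σ (k + 1) ^ 4 + e k := he1
  obtain ⟨τ, hτ0, hτ1⟩ := num_rec 1 (fun k x => (σ (k + 1) + 2 * σ (k + 1) ^ (8 * C) + 1) * x)
  replace hτ1 : ∀ k, τ (k + 1) = (σ (k + 1) + 2 * σ (k + 1) ^ (8 * C) + 1) * τ k := hτ1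
  obtain ⟨m, hm0, hm1⟩ := num_rec 0 (fun k _ => 8 * (q + 1) * τ (k + 1))
  replace hm1 : ∀ k, m (k + 1) = 8 * (q + 1) * τ (k + 1) := hm1
  have hσs : ∀ k, s ≤ σ k := by
    intro k
    induction k with
    | zero => rw [hσ0]
    | succ k ih =>
      rw [hσ1]
      exact ih.trans (Nat.le_self_pow (by omega) _)
  have hσ2 : ∀ k, 2 ≤ σ k := fun k => g1.trans (hσs k)
  have hpw : ∀ k, σ k ^ 8 ≤ σ (k + 1) := by
    intro k
    rw [hσ1]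
    exact Nat.pow_le_pow_right (by have := hσ2 k; omega) (by omega)
  have he : ∀ k, e k ≤ 2 * σ k ^ 4 := by
    intro k
    induction k with
    | zero => rw [he0]; omega
    | succ k ih =>
      rw [he1]
      obtain ⟨a1, a2, a3, a4, a5⟩ := num_pow (hσ2 k) hC
      have h1 := hpw k
      obtain ⟨b1, _⟩ := num_pow (hσ2 (k + 1)) hC
      omega
  have hq' : q ≤ ⌈K⌉₊ * (2 * s) ^ (8 * C + 1) := by
    have h1 : (q : ℝ) ≤ ((⌈K⌉₊ * p : ℕ) : ℝ) := by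
      push_cast
      exact hq.trans (mul_le_mul_of_nonneg_right (Nat.le_ceil K) (Nat.cast_nonneg p))
    have h2 : q ≤ ⌈K⌉₊ * p := by exact_mod_cast h1
    have h3 : p ≤ (2 * s) ^ (8 * C + 1) :=
      hs2.le.trans (Nat.pow_le_pow_left (by omega) _)
    exact h2.trans (Nat.mul_le_mul_left _ h3)
  have hX := num_X (C := C) (K' := ⌈K⌉₊) (s := s) (q := q) (σ1 := σ 1) (ρ1 := σ 1 ^ (8 * C))
    (m1 := m 1) hC g1 g4 hq' (by rw [hσ1, hσ0])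
    (by
      rw [hσ1, hσ0, ← pow_mul]
      congr 1
      ring)
    (by rw [hm1, hτ1, hτ0, mul_one])
  have h2s : (2 * s) ^ 2 ≤ s ^ 4 := by
    have h5 : s ^ 4 = s ^ 2 * s ^ 2 := by ring
    have h6 : (2 * s) ^ 2 = 4 * s ^ 2 := by ring
    rw [h5, h6]
    exact Nat.mul_le_mul_right _ (by nlinarith)
  have hvs : (2 * s) ^ (1024 * C ^ 2 + 32 * C + 1) * v (2 * s) ≤ v (s ^ 4) :=
    (hgr (2 * s) (by omega)).trans (vm _ _ h2s)
  have hsp : s ≤ p := (Nat.le_self_pow (by omega) s).trans hs1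
  refine ⟨σ, fun k => σ k ^ 4, fun k => σ k ^ (8 * C), e, τ, m, ?_, ?_, ?_, ?_, ?_⟩
  · refine ⟨he0, he1, hτ0, hτ1, hm0, hm1, ?_, ?_, ?_, ?_, ?_, ?_, ?_, ?_⟩
    · have := hσ2 0
      omega
    · intro k
      obtain ⟨a1, a2, a3, a4, a5⟩ := num_pow (hσ2 k) hC
      have := he k
      change e k + 1 ≤ σ k ^ (8 * C)
      omega
    · intro k
      obtain ⟨a1, a2, a3, a4, a5⟩ := num_pow (hσ2 k) hC
      have h1 : σ (k + 1) = σ k ^ (8 * C) * (σ k ^ (8 * C)) ^ 3 := by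
        rw [hσ1, ← pow_mul, ← pow_add]
        congr 1
        ring
      rw [h1, mul_comm]
      refine Nat.mul_le_mul_left _ ?_
      calc 6 ≤ σ k ^ (8 * C) := by omega
        _ ≤ (σ k ^ (8 * C)) ^ 3 := Nat.le_self_pow (by norm_num) _
    · intro k
      exact (num_pow (hσ2 k) hC).1
    · intro k
      obtain ⟨a1, a2, a3, a4, a5⟩ := num_pow (hσ2 k) hC
      have hk := hσs k
      refine num_v1 vm (R := σ k ^ (8 * C)) (S := σ (k + 1)) (U := σ (k + 2))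
        (ρ1 := σ (k + 1) ^ (8 * C)) (ρ2 := σ (k + 2) ^ (8 * C)) hC hgr (by omega) (by omega) ?_ ?_
        ?_ ?_
      · rw [hσ1, ← pow_mul]
        congr 1
        ring
      · rw [hσ1, ← pow_mul, ← pow_mul]
        congr 1
        ring
      · rw [hσ1, hσ1, ← pow_mul, ← pow_mul]
        congr 1
        ring
      · rw [hσ1, hσ1, ← pow_mul, ← pow_mul, ← pow_mul]
        congr 1
        ring
    · intro k
      obtain ⟨a1, a2, a3, a4, a5⟩ := num_pow (hσ2 k) hC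
      have hk := hσs (k + 1)
      have hk' := hpw k
      refine num_v2 vm (S := σ (k + 1)) (T := σ (k + 1) ^ 4) (U := σ (k + 2))
        (ρ2 := σ (k + 2) ^ (8 * C)) hC hgr (by omega) (by omega) rfl ?_ ?_
      · rw [hσ1 (k + 1)]
      · rw [hσ1 (k + 1), ← pow_mul]
        congr 1
        ring
    · rw [hσ0]
      exact hX.trans ((Nat.le_mul_of_pos_right _ (hCy.v_pos _)).trans hvs)
    · rw [hσ0]
      refine le_trans ?_ hvs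
      rw [← mul_assoc]
      refine Nat.mul_le_mul_right _ (le_trans ?_ hX)
      exact Nat.le_mul_of_pos_right _ (by omega)
  · intro k
    obtain ⟨a1, a2, a3, a4, a5⟩ := num_pow (hσ2 k) hC
    have hk := hσs k
    have hek := he k
    obtain ⟨F, hF'⟩ := hF (σ k ^ 8) (by omega)
    refine ⟨F, num_fo_mono hF' ?_ ?_⟩
    · change σ k + e k + 1 + σ k ^ 4 ≤ σ k ^ 8
      omega
    · rw [← pow_mul]
  · change 8 * (2 * m 1 + 2 * q) * (σ 0 ^ (8 * C) + 1) ≤ _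
    rw [hσ0]
    refine hX.trans ?_
    calc (2 * s) ^ (1024 * C ^ 2 + 32 * C + 1) ≤ (s ^ 2) ^ (1024 * C ^ 2 + 32 * C + 1) :=
          Nat.pow_le_pow_left (by nlinarith) _
      _ = s ^ (2 * (1024 * C ^ 2 + 32 * C + 1)) := by rw [← pow_mul]
      _ ≤ p ^ (2 * (1024 * C ^ 2 + 32 * C + 1)) := Nat.pow_le_pow_left hsp _
  · intro a b ha hb
    rw [hσ0]
    have h1 := num_small g5 hs2 (by omega) ha
    have h2 := num_small g5 hs2 (by omega) hb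
    omega
  · intro a ha
    change a + 2 * σ 0 ^ (8 * C) ≤ _
    rw [hσ0]
    have h1 := num_small g5 hs2 (by omega) ha
    apply Nat.le_floor
    have h2 : a + 2 * s ^ (8 * C) ≤ 3 * s ^ (8 * C) := by
      have : s ≤ s ^ (8 * C) := Nat.le_self_pow (by omega) s
      omega
    have h3 : ((a + 2 * s ^ (8 * C) : ℕ) : ℝ) ≤ ((3 * s ^ (8 * C) : ℕ) : ℝ) := by
      exact_mod_cast h2
    refine h3.trans ?_
    push_cast
    have h4 : 3 ≤ δ * s := by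
      have h5 : 3 / δ ≤ s := (Nat.le_ceil _).trans (by exact_mod_cast g6)
      rw [div_le_iff₀ hδ] at h5
      linarith
    have h6 : ((s ^ (8 * C + 1) : ℕ) : ℝ) ≤ p := by exact_mod_cast hs1
    push_cast at h6
    calc 3 * (s : ℝ) ^ (8 * C) ≤ δ * s * (s : ℝ) ^ (8 * C) :=
          mul_le_mul_of_nonneg_right h4 (by positivity)
      _ = δ * (s : ℝ) ^ (8 * C + 1) := by ring
      _ ≤ δ * p := mul_le_mul_of_nonneg_left h6 hδ.le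

end Pool.Agent.ISP
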