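import Pool.Agent.ISP.St

/-!
# Placement of the blocks on geodesics from the identity
-/

set_option autoImplicit false

namespace Pool.Agent.ISP

open Finset Filter Pool.Agent.Helper30.Perc Pool.Agent.Helper22.PG
open Pool.Agent.SIM (MinAdm Lv cay)

private lemma plc_card {Γ : Type} [Group Γ] [DecidableEq Γ] {G : SimpleGraph Γ}
    [G.LocallyFinite] {d : ℕ} {v : ℕ → ℕ} (hC : Cy G d v) (P V1 : Finset Γ) (R a b : ℕ)
    (hP : P.card ≤ a) (hV : V1.card ≤ b) :
    (P.biUnion fun w => V1.biUnion fun u => (bl G w R).image fun x => x * u⁻¹).card ≤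
      a * (b * v R) := by
  calc _ ≤ ∑ _w ∈ P, (b * v R) := by
        refine card_biUnion_le.trans (sum_le_sum fun w _ => ?_)
        calc _ ≤ ∑ _u ∈ V1, v R := by
              refine card_biUnion_le.trans (sum_le_sum fun u _ => ?_)
              refine card_image_le.trans ?_
              rw [hC.vol]
          _ = V1.card * v R := by rw [sum_const, smul_eq_mul]
          _ ≤ b * v R := Nat.mul_le_mul_right _ hV
    _ = P.card * (b * v R) := by rw [sum_const, smul_eq_mul]
    _ ≤ a * (b * v R) := Nat.mul_le_mul_right _ hP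

private lemma plc_mem {Γ : Type} [Group Γ] [DecidableEq Γ] {G : SimpleGraph Γ}
    [G.LocallyFinite] {d : ℕ} {v : ℕ → ℕ} (hC : Cy G d v) {P V1 : Finset Γ} {R : ℕ}
    {w u g' : Γ} (hw : w ∈ P) (hu : u ∈ V1) (hd : G.dist w (g' * u) ≤ R) :
    g' ∈ P.biUnion fun w => V1.biUnion fun u => (bl G w R).image fun x => x * u⁻¹ := by
  rw [mem_biUnion]
  refine ⟨w, hw, mem_biUnion.2 ⟨u, hu, mem_image.2 ⟨g' * u, ?_, by simp⟩⟩⟩
  rw [mem_bl hC.conn]
  exact hd

theorem thm_Plc (h1 : St_Ind) (h2 : St_Min) (h3 : St_Str) : St_Plc := by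
  intro Γ _ _ G _ d v hC ψ hψ T0 s R1 ρ R0 Rθ m C0 hT0 hs hR1 hadm hn1 hn2 hv
  classical
  obtain ⟨C₂, hC₂⟩ := h2 Γ G d v hC
  have hmin : ∀ (o : Γ) (T : Finset (Sym2 Γ)), ∃ W, MinAdm G o T W := fun o T => (hC₂ o T).1
  have hgeo : ∀ g : Γ, ∃ p : G.Walk 1 g, p.length = G.dist 1 g := fun g =>
    hC.conn.exists_walk_length_eq_dist 1 g
  choose π hπ using hgeo
  set V1 : Finset Γ := insert 1 (vert T0) with hV1
  have hV1c : V1.card ≤ 2 * s + 1 := by
    have h4 := card_vert T0
    have h5 := card_insert_le 1 (vert T0)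
    rw [hV1]
    omega
  set P : Γ → Finset Γ := fun g => (π g).support.toFinset ∪ V1.image (fun x => g * x) with hP
  have hPc : ∀ g ∈ bl G 1 ρ, (P g).card ≤ ρ + 2 * s + 2 := by
    intro g hg
    rw [mem_bl hC.conn] at hg
    have h4 : (π g).support.toFinset.card ≤ ρ + 1 := by
      refine (List.toFinset_card_le _).trans ?_
      rw [SimpleGraph.Walk.length_support, hπ]
      omega
    have h5 : (V1.image (fun x => g * x)).card ≤ 2 * s + 1 := card_image_le.trans hV1c
    have h6 := card_union_le (π g).support.toFinset (V1.image (fun x => g * x))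
    simp only [hP]
    omega
  set bad : Γ → Finset Γ := fun g => (P g).biUnion fun w => V1.biUnion fun u =>
    (bl G w (2 * R0 + 1)).image fun x => x * u⁻¹ with hbad
  have hbadc : ∀ g ∈ bl G 1 ρ, (bad g).card ≤
      (ρ + 2 * s + 2) * ((2 * s + 1) * v (2 * R0 + 1)) := fun g hg =>
    plc_card hC (P g) V1 _ _ _ (hPc g hg) hV1c
  obtain ⟨g, hg1, hg2⟩ := h1 Γ (bl G 1 ρ) bad
    ((ρ + 2 * s + 2) * ((2 * s + 1) * v (2 * R0 + 1))) m hbadc (by rw [hC.vol]; exact hv)
  refine h3 Γ G d v hC ψ hψ hmin T0 s R1 ρ R0 Rθ m C0 g (fun j => π (g j)) hT0 hs hR1 hadm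
    (fun j => hπ (g j)) ?_ ?_ ?_ hn1 hn2
  · intro j hj
    exact (mem_bl hC.conn _ _ _).1 (hg1 j hj)
  · intro i hi j hj hij w hw u hu
    by_contra hcon
    refine hg2 i hi j hj hij (plc_mem hC (w := w) (u := u) ?_ hu (by omega))
    simp only [hP, mem_union, List.mem_toFinset]
    exact Or.inl hw
  · intro i hi j hj hij u hu u' hu'
    by_contra hcon
    refine hg2 i hi j hj hij (plc_mem hC (w := g i * u) (u := u') ?_ hu' (by omega))
    simp only [hP, mem_union]
    exact Or.inr (mem_image_of_mem _ hu)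

end Pool.Agent.ISP
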