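import Pool.Agent.ISP.St

/-!
# ISP/Pos (helper52): the isoperimetric constant is positive
-/

set_option autoImplicit false

namespace Pool.Agent.ISP

open Finset Filter Pool.Agent.Helper30.Perc Pool.Agent.Helper22.PG
open Pool.Agent.SIM (MinAdm Lv cay)

theorem thm_Pos (h1 : St_Iso1) (h2 : St_Min) (h3 : St_Loc) : St_Pos := by
  intro Γ _ _ G _ d v hG
  obtain ⟨ψ, -, hψ, hLoc⟩ := h3 Γ G d v hG
  obtain ⟨C₂, hMin⟩ := h2 Γ G d v hG
  obtain ⟨r₀, hr₀⟩ := hψ 2
  obtain ⟨Rθ, hRθ⟩ : ∃ Rθ, Rθ = r₀ + 3 := ⟨_, rfl⟩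
  have hR : ∀ r, Rθ < r → 2 * r + 1 ≤ ψ r := by
    intro r hr
    refine le_trans ?_ (hr₀ r (by omega))
    nlinarith
  obtain ⟨r₁, hr₁⟩ := hG.v_pow 2
  obtain ⟨r0, hr0⟩ : ∃ r0, r0 = r₁ + (4 * v Rθ + (4 * Rθ + 2) * v Rθ) + 1 := ⟨_, rfl⟩
  have hr0p : 0 < r0 := by omega
  have hr0v : 2 * ((2 * (r0 + Rθ) + 1) * v Rθ) ≤ v r0 := by
    refine le_trans ?_ (hr₁ r0 (by omega))
    have e1 : 4 * v Rθ + (4 * Rθ + 2) * v Rθ ≤ r0 := by omega
    have e2 : (4 * Rθ + 2) * v Rθ * 1 ≤ (4 * Rθ + 2) * v Rθ * r0 := Nat.mul_le_mul_left _ hr0p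
    calc 2 * ((2 * (r0 + Rθ) + 1) * v Rθ)
        = 4 * v Rθ * r0 + (4 * Rθ + 2) * v Rθ * 1 := by ring
      _ ≤ 4 * v Rθ * r0 + (4 * Rθ + 2) * v Rθ * r0 := Nat.add_le_add_left e2 _
      _ = (4 * v Rθ + (4 * Rθ + 2) * v Rθ) * r0 := by ring
      _ ≤ r0 * r0 := Nat.mul_le_mul_right _ e1
      _ = r0 ^ 2 := by ring
  have hr0R : (0 : ℝ) < r0 := by exact_mod_cast hr0p
  refine ⟨1 / (2 * r0), by positivity, fun p => ?_⟩
  obtain ⟨z, hz⟩ := hG.exists_dist_eq 1 p
  obtain ⟨γ, hγ⟩ := hG.conn.exists_walk_length_eq_dist 1 z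
  set T : Finset (Sym2 Γ) := γ.edges.toFinset with hT
  have hTE : (T : Set (Sym2 Γ)) ⊆ G.edgeSet := by
    intro e he
    rw [hT, mem_coe, List.mem_toFinset] at he
    exact γ.edges_subset_edgeSet he
  have hTc : T.card ≤ p := by
    rw [hT]
    refine (List.toFinset_card_le _).trans ?_
    rw [SimpleGraph.Walk.length_edges, hγ, hz]
  have hTs : insert 1 (vert T) ⊆ γ.support.toFinset := by
    intro u hu
    rw [List.mem_toFinset]
    rcases mem_insert.1 hu with rfl | hu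
    · exact γ.start_mem_support
    · rw [mem_vert] at hu
      obtain ⟨e, he, hue⟩ := hu
      rw [hT, List.mem_toFinset] at he
      induction e with
      | _ a b =>
        rcases Sym2.mem_iff.1 hue with rfl | rfl
        · exact γ.fst_mem_support_of_mem_edges he
        · exact γ.snd_mem_support_of_mem_edges he
  obtain ⟨⟨W, hW⟩, -⟩ := hMin 1 T
  -- every point of `W` is near the geodesic
  have hnear : ∀ x ∈ W, ∃ u ∈ γ.support, G.dist x u ≤ Rθ := by
    intro x hx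
    obtain ⟨r, hr⟩ := hLoc 1 T W hW x hx
    have hle : ((insert 1 (vert T)) ∩ bl G x r).card ≤ 2 * r + 1 :=
      (card_le_card (inter_subset_inter_right hTs)).trans (card_support_ball hG.conn γ hγ x r)
    have hrR : r ≤ Rθ := by
      by_contra hcon
      have h5 := hR r (by omega)
      omega
    have hpos : 0 < ((insert 1 (vert T)) ∩ bl G x r).card := by omega
    obtain ⟨u, hu⟩ := card_pos.1 hpos
    rw [mem_inter, mem_bl hG.conn] at hu
    exact ⟨u, List.mem_toFinset.1 (hTs hu.1), hu.2.trans hrR⟩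
  have hball : ∀ x ∈ W, 2 * (W ∩ bl G x r0).card ≤ v r0 := by
    intro x _
    have hsub : W ∩ bl G x r0 ⊆
        (γ.support.toFinset ∩ bl G x (r0 + Rθ)).biUnion fun u => bl G u Rθ := by
      intro y hy
      rw [mem_inter, mem_bl hG.conn] at hy
      obtain ⟨u, hu, hyu⟩ := hnear y hy.1
      rw [mem_biUnion]
      refine ⟨u, ?_, ?_⟩
      · rw [mem_inter, List.mem_toFinset, mem_bl hG.conn]
        refine ⟨hu, ?_⟩
        have := hG.conn.dist_triangle (u := x) (v := y) (w := u)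
        omega
      · rw [mem_bl hG.conn, SimpleGraph.dist_comm]
        exact hyu
    have hcard : (W ∩ bl G x r0).card ≤ (2 * (r0 + Rθ) + 1) * v Rθ := by
      refine (card_le_card hsub).trans (card_biUnion_le.trans ?_)
      rw [sum_congr rfl fun u _ => hG.vol u Rθ, sum_const, smul_eq_mul]
      exact Nat.mul_le_mul_right _ (card_support_ball hG.conn γ hγ x _)
    omega
  have hiso := (h1 Γ G d v hG W).2 r0 hball
  have hpath : γ.IsPath := γ.isPath_of_length_eq_dist hγ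
  have hsupp : γ.support.toFinset ⊆ W := by
    intro u hu
    rw [List.mem_toFinset] at hu
    refine walk_closed T W hW.1.2 (γ.takeUntil u hu) ?_ hW.1.1
    intro e he
    rw [hT, List.mem_toFinset]
    exact γ.edges_takeUntil_subset_edges hu he
  have hWp : p + 1 ≤ W.card := by
    have h5 : γ.support.toFinset.card = p + 1 := by
      rw [List.toFinset_card_of_nodup hpath.support_nodup, SimpleGraph.Walk.length_support, hγ, hz]
    rw [← h5]
    exact card_le_card hsupp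
  have hfin : (1 / (2 * r0) : ℝ) * p ≤ cut G W := by
    have h5 : p ≤ 2 * r0 * cut G W := by omega
    have h6 : (p : ℝ) ≤ 2 * r0 * cut G W := by exact_mod_cast h5
    rw [div_mul_eq_mul_div, one_mul, div_le_iff₀ (by positivity)]
    linarith
  obtain ⟨M, hTM, hMc, hME, -⟩ := exists_move hG.edge_infinite T ∅ p hTE
    (by rw [coe_empty]; exact Set.disjoint_empty _) hTc
  refine ⟨M, hME, hMc, fun W' hW' => ?_⟩
  have h5 : Adm 1 T W' := ⟨hW'.1, fun a b hab => hW'.2 a b (hTM hab)⟩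
  have h6 : cut G W ≤ cut G W' := (hW.2 W' h5).1
  have h7 : (cut G W : ℝ) ≤ cut G W' := by exact_mod_cast h6
  exact hfin.trans h7

end Pool.Agent.ISP
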