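import Pool.Agent.ISP.St

/-!
# Percolation games on Cayley graphs with controlled Foelner sets: [Pth]
-/

set_option autoImplicit false

namespace Pool.Agent.ISP

open Finset Filter Pool.Agent.Helper30.Perc Pool.Agent.Helper22.PG

lemma pth_tau {v : ℕ → ℕ} {q : ℕ} {σ ς ρ e τ m : ℕ → ℕ} (h : Scl v q σ ς ρ e τ m) (k : ℕ) :
    0 < τ k := by
  induction k with
  | zero => rw [h.t0]; exact Nat.one_pos
  | succ k ih => rw [h.t1]; exact Nat.mul_pos (by omega) ih

lemma pth_support {V : Type} {H : SimpleGraph V} {x z : V} (w : H.Walk x z) {u : V}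
    (hu : u ∈ w.support) : H.dist x u ≤ w.length := by
  classical
  exact (SimpleGraph.dist_le (w.takeUntil u hu)).trans (w.length_takeUntil_le_length hu)

/-- arithmetic of the first bad set -/
lemma pth_num1 {X S T q V N m1 m2 : ℕ} (hT : 0 < T) (h1 : m1 = 8 * (q + 1) * T)
    (h2 : m2 = 8 * (q + 1) * (S * T)) (hN : N ≤ 2 * m2) (h3 : X * m1 ≤ N * V) :
    X ≤ 2 * (S * V) := by
  have h4 : X * m1 ≤ 2 * (S * V) * m1 := by
    calc X * m1 ≤ N * V := h3
      _ ≤ 2 * m2 * V := Nat.mul_le_mul_right _ hN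
      _ = 2 * (S * V) * m1 := by rw [h2, h1]; ring
  have h5 : 0 < m1 := by rw [h1]; positivity
  exact Nat.le_of_mul_le_mul_right h4 h5

/-- arithmetic of the second bad set -/
lemma pth_num2 {X S T q V N m2 : ℕ} (hT : 0 < T)
    (h2 : m2 = 8 * (q + 1) * (S * T)) (hN : N ≤ 2 * m2)
    (h3 : X * (4 * (q + 1) * T) ≤ N * V) : X ≤ 4 * (S * V) := by
  have h4 : X * (4 * (q + 1) * T) ≤ 4 * (S * V) * (4 * (q + 1) * T) := by
    calc X * (4 * (q + 1) * T) ≤ N * V := h3
      _ ≤ 2 * m2 * V := Nat.mul_le_mul_right _ hN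
      _ = 4 * (S * V) * (4 * (q + 1) * T) := by rw [h2]; ring
  exact Nat.le_of_mul_le_mul_right h4 (by positivity)

theorem thm_Pth (h1 : St_Tri) (h2 : St_Cnt) : St_Pth := by
  intro Γ Q _ _ _ _ H _ d' v' π hH q σ ς ρ e τ m hS k hF O y b ha hb hyb
  obtain ⟨K, hK⟩ := hF
  have c1 := hS.c1 (k + 1)
  have c2 := hS.c2 k
  have c3 := hS.c3 (k + 1)
  have e1 := hS.e1 k
  have t1 := hS.t1 (k + 1)
  have m1 := hS.m1 k
  have m2 := hS.m1 (k + 1)
  rw [t1] at m2
  have hτ := pth_tau hS (k + 1)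
  have v1 := hS.v1 k
  have v2 := hS.v2 k
  have hvσ : v' (σ (k + 1)) ≤ v' (ς (k + 1)) := hH.v_mono c3
  have hmb : ∀ {a c : Q} {r : ℕ}, c ∈ bl H a r ↔ H.dist a c ≤ r := fun {a c r} =>
    mem_bl hH.conn a c r
  -- endpoints near `y`
  have hN : ∀ r, r ≤ 5 * ρ (k + 1) → (nb H π O y r).card ≤ 2 * m (k + 1 + 1) := by
    intro r hr
    refine (card_le_card (nb_subset hH.conn subset_rfl ?_)).trans hb
    rw [SimpleGraph.dist_self]
    omega
  -- the bad sets
  have hB1 := (h2 Γ Q H d' v' π hH (bl H y (σ (k + 1) + 2 * ρ (k + 1))) O y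
    (σ (k + 1) + 2 * ρ (k + 1)) (6 * ρ k) (m (k + 1)) (fun c hc => hmb.1 hc)).1
  have hB2 := (h2 Γ Q H d' v' π hH (bl H b (ς (k + 1))) O y
    (e (k + 1) + 1 + ς (k + 1)) (3 * σ (k + 1)) (4 * (q + 1) * τ (k + 1)) (fun c hc => by
      have h3 := hmb.1 hc
      have h4 := hH.conn.dist_triangle (u := y) (v := b) (w := c)
      omega)).1
  have hC1 := pth_num1 hτ m1 m2 (hN _ (by omega)) hB1
  have hC2 := pth_num2 hτ m2 (hN _ (by omega)) hB2
  have hD1 : 8 * ((bl H y (σ (k + 1) + 2 * ρ (k + 1))).filter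
      fun c => m (k + 1) < (nb H π O c (6 * ρ k)).card).card * (ρ (k + 1) + 1) ≤
      v' (σ (k + 1)) := by
    refine le_trans (Nat.mul_le_mul_right _ ?_) v1
    have h5 := Nat.mul_le_mul_left 8 hC1
    refine h5.trans (le_of_eq ?_)
    ring
  have hD2 : 8 * ((bl H b (ς (k + 1))).filter
      fun c => 4 * (q + 1) * τ (k + 1) < (nb H π O c (3 * σ (k + 1))).card).card ≤
      v' (ς (k + 1)) := by
    refine le_trans ?_ v2
    have h5 := Nat.mul_le_mul_left 8 hC2
    refine h5.trans (le_of_eq ?_)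
    ring
  obtain ⟨x, hx, z, hz1, hz2, w, hw1, hw2⟩ := h1 Q Q H H d' d' v' v' id hH hH (Qm.refl H)
    (σ (k + 1) + e (k + 1) + 1 + ς (k + 1)) (ρ (k + 1)) K (bl H y (σ (k + 1)))
    (bl H b (ς (k + 1)))
    ((bl H y (σ (k + 1) + 2 * ρ (k + 1))).filter
      fun c => m (k + 1) < (nb H π O c (6 * ρ k)).card)
    ((bl H b (ς (k + 1))).filter
      fun c => 4 * (q + 1) * τ (k + 1) < (nb H π O c (3 * σ (k + 1))).card)
    hK ⟨y, hmb.2 (by simp)⟩ ⟨b, hmb.2 (by simp)⟩
    (by
      intro x hx x' hx'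
      have h3 := hmb.1 hx
      have h4 := hmb.1 hx'
      have h5 := hH.conn.dist_triangle (u := x) (v := y) (w := x')
      have h6 := hH.conn.dist_triangle (u := y) (v := b) (w := x')
      rw [SimpleGraph.dist_comm] at h3
      rw [id_eq]
      omega)
    (by rw [hH.vol]; exact hD1) (by rw [hH.vol]; exact hD1.trans hvσ)
    (by rw [hH.vol]; exact hD2)
  rw [id_eq] at hz1 hz2
  have hx' := hmb.1 hx
  obtain ⟨w0, hw0⟩ := hH.conn.exists_walk_length_eq_dist y x
  have hlen : (w0.append w).length = w0.length + w.length := SimpleGraph.Walk.length_append _ _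
  refine ⟨(w0.append w).length, (w0.append w).getVert, ?_, ?_, ?_, ?_, ?_, ?_⟩
  · omega
  · exact SimpleGraph.Walk.getVert_zero _
  · intro i hi
    exact (SimpleGraph.dist_eq_one_iff_adj.2
      (SimpleGraph.Walk.adj_getVert_succ (w0.append w) hi)).le
  · intro i _
    have h3 : (w0.append w).getVert i ∈ (w0.append w).support :=
      SimpleGraph.Walk.getVert_mem_support _ _
    rw [SimpleGraph.Walk.mem_support_append_iff] at h3
    rcases h3 with h3 | h3
    · have h4 := pth_support w0 h3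
      refine (card_le_card (nb_subset hH.conn subset_rfl ?_)).trans ha
      omega
    · have h4 := pth_support w h3
      have h5 := hw2 _ h3
      have h6 := hH.conn.dist_triangle (u := y) (v := x) (w := (w0.append w).getVert i)
      by_contra hcon
      refine h5 (mem_filter.2 ⟨hmb.2 (by omega), ?_⟩)
      omega
  · rw [SimpleGraph.Walk.getVert_length, SimpleGraph.dist_comm]
    exact hmb.1 hz1
  · rw [SimpleGraph.Walk.getVert_length]
    by_contra hcon
    exact hz2 (mem_filter.2 ⟨hz1, by omega⟩)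

end Pool.Agent.ISP
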