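import Pool.Agent.ISP.St

/-!
# Percolation games on Cayley graphs with controlled Foelner sets: [Rch], Maker reaches many
vertices
-/

set_option autoImplicit false

namespace Pool.Agent.ISP

open Finset Filter Pool.Agent.Helper30.Perc Pool.Agent.Helper22.PG
open Pool.Agent.SIM (MinAdm Lv cay)

private lemma rch_vert {V : Type} [DecidableEq V] (T : Finset (Sym2 V)) {a x : V}
    (h : (SimpleGraph.fromEdgeSet (T : Set (Sym2 V))).Reachable a x) (hne : x ≠ a) :
    x ∈ vert T := by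
  obtain ⟨w⟩ := h.symm
  cases w with
  | nil => exact absurd rfl hne
  | cons hadj _ =>
    rw [mem_vert]
    exact ⟨_, ((fes_adj T _ _).1 hadj).1, by simp⟩

private lemma rch_zero {Γ : Type} [Group Γ] [DecidableEq Γ] {G : SimpleGraph Γ}
    [G.LocallyFinite] {z : Γ} {T B : Finset (Sym2 Γ)} {ρ : ℕ}
    (hT : ∀ u ∈ vert T, G.dist z u ≤ ρ) : ∃ N, Lv G z T B ρ 0 N := by
  obtain ⟨N, h1, h2, h3⟩ := exists_clos T {z}
  refine ⟨N, ⟨⟨h1 (mem_singleton_self z), h2, ?_⟩, ?_⟩⟩
  · intro x hx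
    refine ⟨∅, by simp, by simp, by simp, ?_⟩
    obtain ⟨a, ha, hax⟩ := h3 x hx
    rw [mem_singleton] at ha
    subst ha
    simpa using hax
  · intro x hx
    obtain ⟨a, ha, hax⟩ := h3 x hx
    rw [mem_singleton] at ha
    subst ha
    by_cases h : x = a
    · subst h
      simp
    · exact hT x (rch_vert T hax h)

private lemma rch_succ {Γ : Type} [Group Γ] [DecidableEq Γ] {G : SimpleGraph Γ}
    [G.LocallyFinite] {d : ℕ} {v : ℕ → ℕ} (hG : Cy G d v) {z : Γ}
    {T B Y : Finset (Sym2 Γ)} {ρ R j : ℕ} {N : Finset Γ}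
    (hT : ∀ u ∈ vert T, G.dist z u ≤ ρ) (hB : ∀ o ∈ vert B, R < G.dist z o)
    (hj : ρ + j ≤ R) (h : Lv G z T (B ∪ Y) ρ j N) :
    ∃ N', Lv G z T (B ∪ Y) ρ (j + 1) N' ∧
      cut G N + d * N.card ≤ Y.card + d * N'.card := by
  have hd := hG.deg
  obtain ⟨N', h1, h2, h3⟩ := exists_clos T (N ∪ N.biUnion fun a =>
    (G.neighborFinset a).filter fun b => s(a, b) ∉ B ∪ Y)
  have hNN : N ⊆ N' := subset_union_left.trans h1
  refine ⟨N', ⟨⟨hNN h.ho, h2, ?_⟩, ?_⟩, ?_⟩
  · intro x hx
    obtain ⟨a, ha, hax⟩ := h3 x hx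
    rw [Finset.mem_union, mem_biUnion] at ha
    rcases ha with ha | ⟨c, hc, ha⟩
    · obtain ⟨P, hP1, hP2, hP3, hP4⟩ := h.re a ha
      exact ⟨P, by omega, hP2, hP3, hP4.trans (reach_mono subset_union_left hax)⟩
    · rw [Finset.mem_filter, SimpleGraph.mem_neighborFinset] at ha
      obtain ⟨P, hP1, hP2, hP3, hP4⟩ := h.re c hc
      refine ⟨insert s(c, a) P, ?_, ?_, ?_, ?_⟩
      · exact (card_insert_le _ _).trans (by omega)
      · rw [coe_insert]
        exact Set.insert_subset (by simpa using ha.1) hP2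
      · rw [disjoint_insert_left]
        exact ⟨ha.2, hP3⟩
      · refine (reach_mono ?_ hP4).trans ?_
        · exact union_subset_union (Subset.refl _) (subset_insert _ _)
        · have h5 : (SimpleGraph.fromEdgeSet
              ((T ∪ insert s(c, a) P : Finset (Sym2 Γ)) : Set (Sym2 Γ))).Reachable c a :=
            SimpleGraph.Adj.reachable ((fes_adj _ _ _).2 ⟨by simp, ha.1.ne⟩)
          exact h5.trans (reach_mono subset_union_left hax)
  · intro x hx
    obtain ⟨a, ha, hax⟩ := h3 x hx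
    by_cases hxa : x = a
    · subst hxa
      rw [Finset.mem_union, mem_biUnion] at ha
      rcases ha with ha | ⟨c, hc, ha⟩
      · have := h.di x ha
        omega
      · rw [Finset.mem_filter, SimpleGraph.mem_neighborFinset] at ha
        have h4 := h.di c hc
        have h5 := hG.conn.dist_triangle (u := z) (v := c) (w := x)
        have h6 : G.dist c x = 1 := SimpleGraph.dist_eq_one_iff_adj.2 ha.1
        omega
    · have := hT x (rch_vert T hax hxa)
      omega
  · have h4 : (bdE G N \ (B ∪ Y)).card ≤ (N' \ N).card * d := by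
      calc (bdE G N \ (B ∪ Y)).card ≤ ((N' \ N).biUnion fun b =>
            (G.neighborFinset b).image fun a => s(a, b)).card := by
            refine card_le_card ?_
            intro e he
            rw [Finset.mem_sdiff, mem_bdE] at he
            obtain ⟨⟨a, ha, b, hb, hab, rfl⟩, heB⟩ := he
            rw [mem_biUnion]
            refine ⟨b, ?_, ?_⟩
            · rw [Finset.mem_sdiff]
              refine ⟨h1 ?_, hb⟩
              rw [Finset.mem_union, mem_biUnion]
              refine Or.inr ⟨a, ha, ?_⟩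
              rw [Finset.mem_filter]
              exact ⟨by simpa using hab, heB⟩
            · rw [mem_image]
              exact ⟨a, by simpa using hab.symm, rfl⟩
        _ ≤ ∑ b ∈ N' \ N, ((G.neighborFinset b).image fun a => s(a, b)).card := card_biUnion_le
        _ ≤ ∑ _b ∈ N' \ N, d := sum_le_sum fun b _ => card_image_le.trans (hd b)
        _ = _ := by rw [sum_const, smul_eq_mul]
    have hsub : bdE G N ∩ (B ∪ Y) ⊆ Y := by
      intro e he
      rw [Finset.mem_inter, mem_bdE, Finset.mem_union] at he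
      obtain ⟨⟨a, ha, b, hb, hab, rfl⟩, heB | heY⟩ := he
      · exfalso
        have h6 := hB a ((mem_vert B a).2 ⟨_, heB, by simp⟩)
        have h7 := h.di a ha
        omega
      · exact heY
    have h5 : (bdE G N).card ≤ (bdE G N \ (B ∪ Y)).card + Y.card := by
      rw [← card_sdiff_add_card_inter (bdE G N) (B ∪ Y)]
      exact Nat.add_le_add_left (card_le_card hsub) _
    rw [card_bdE] at h5
    have h6 : (N' \ N).card + N.card = N'.card := by
      rw [card_sdiff_add_card_eq_card hNN]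
    have h7 : d * N'.card = (N' \ N).card * d + d * N.card := by rw [← h6]; ring
    omega

private lemma rch_seq {Γ : Type} [Group Γ] [DecidableEq Γ] {G : SimpleGraph Γ}
    [G.LocallyFinite] {d : ℕ} {v : ℕ → ℕ} (hG : Cy G d v) {z : Γ}
    {T B Y : Finset (Sym2 Γ)} {ρ R : ℕ}
    (hT : ∀ u ∈ vert T, G.dist z u ≤ ρ) (hB : ∀ o ∈ vert B, R < G.dist z o) (J : ℕ) :
    ρ + J ≤ R → ∃ F : ℕ → Finset Γ, (∀ j ≤ J, Lv G z T (B ∪ Y) ρ j (F j)) ∧
      ∀ j < J, cut G (F j) + d * (F j).card ≤ Y.card + d * (F (j + 1)).card := by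
  induction J with
  | zero =>
    intro _
    obtain ⟨N, hN⟩ := rch_zero (B := B ∪ Y) hT
    refine ⟨fun _ => N, fun j hj => ?_, fun j hj => absurd hj (Nat.not_lt_zero _)⟩
    rw [Nat.le_zero.1 hj]
    exact hN
  | succ J ih =>
    intro hJ
    obtain ⟨F, h1, h2⟩ := ih (by omega)
    obtain ⟨N', hN', hc⟩ := rch_succ hG hT hB (by omega) (h1 J le_rfl)
    refine ⟨fun j => if j ≤ J then F j else N', fun j hj => ?_, fun j hj => ?_⟩
    · by_cases h : j ≤ J
      · simp only [if_pos h]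
        exact h1 j h
      · have : j = J + 1 := by omega
        subst this
        simp only [if_neg h]
        exact hN'
    · by_cases h : j + 1 ≤ J
      · simp only [if_pos h, if_pos (show j ≤ J by omega)]
        exact h2 j (by omega)
      · have : j = J := by omega
        subst this
        simp only [if_neg h, if_pos (le_refl j)]
        exact hc

/-- the radius -/
private lemma rch_radius {v : ℕ → ℕ} (hv : ∀ B : ℕ, ∃ r₁ : ℕ, ∀ r, r₁ ≤ r → r ^ B ≤ v r)
    (A E' : ℕ) : ∃ p₀ : ℕ, ∀ p, p₀ ≤ p → ∃ R : ℕ, 1 ≤ R ∧ R ^ E' ≤ p ∧ 2 * p ^ A ≤ v R := by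
  obtain ⟨r₁, hr₁⟩ := hv ((E' + 1) * A + 1)
  refine ⟨(max r₁ (2 ^ ((E' + 1) * A + 1))) ^ (E' + 1), fun p hp => ?_⟩
  set R₀ := max r₁ (2 ^ ((E' + 1) * A + 1)) with hR₀
  have hR0 : R₀ ≤ p := (Nat.le_self_pow (Nat.succ_ne_zero _) R₀).trans hp
  set R := Nat.findGreatest (fun R => R ^ (E' + 1) ≤ p) p with hR
  have h1 : R ^ (E' + 1) ≤ p :=
    Nat.findGreatest_spec (P := fun R => R ^ (E' + 1) ≤ p) hR0 hp
  have h2 : R₀ ≤ R := Nat.le_findGreatest hR0 hp
  have h3 : p < (R + 1) ^ (E' + 1) := by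
    by_contra hcon
    push Not at hcon
    have h4 : R + 1 ≤ p := (Nat.le_self_pow (Nat.succ_ne_zero _) (R + 1)).trans hcon
    have h5 : R + 1 ≤ R := Nat.le_findGreatest h4 hcon
    omega
  have h4 : 2 ^ ((E' + 1) * A + 1) ≤ R := (le_max_right _ _).trans h2
  have h5 : 1 ≤ R := Nat.one_le_two_pow.trans h4
  refine ⟨R, h5, ?_, ?_⟩
  · refine le_trans ?_ h1
    exact Nat.pow_le_pow_right h5 (Nat.le_succ _)
  · calc 2 * p ^ A ≤ 2 * ((R + 1) ^ (E' + 1)) ^ A :=
          Nat.mul_le_mul_left _ (Nat.pow_le_pow_left h3.le _)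
      _ = 2 * (R + 1) ^ ((E' + 1) * A) := by rw [pow_mul]
      _ ≤ 2 * (2 * R) ^ ((E' + 1) * A) :=
          Nat.mul_le_mul_left _ (Nat.pow_le_pow_left (by omega) _)
      _ = 2 ^ ((E' + 1) * A + 1) * R ^ ((E' + 1) * A) := by rw [mul_pow]; ring
      _ ≤ R * R ^ ((E' + 1) * A) := Nat.mul_le_mul_right _ h4
      _ = R ^ ((E' + 1) * A + 1) := by ring
      _ ≤ v R := hr₁ R ((le_max_left _ _).trans h2)

theorem thm_Rch (h1 : St_Iso1) (h2 : St_Gro) : St_Rch := by
  intro Γ _ _ G _ d v hG K ε hε A E hE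
  obtain ⟨E', p₀, hp₀⟩ := h2 d A E (max K 0) ε hG.d_pos (le_max_right _ _) hε
  obtain ⟨p₁, hp₁⟩ := rch_radius hG.v_pow A E'
  refine ⟨max p₀ p₁, fun p hp z T B Y ρ R' hT hY hB hR hcap => ?_⟩
  obtain ⟨R, hR1, hR2, hR3⟩ := hp₁ p ((le_max_right _ _).trans hp)
  -- the last index
  set J := Nat.findGreatest (fun j => j ^ E ≤ p) p with hJ
  have hJ1 : ∀ j, j ^ E ≤ p → j ≤ J := fun j hj =>
    Nat.le_findGreatest ((Nat.le_self_pow hE.ne' j).trans hj) hj
  have hJ2 : J ^ E ≤ p := by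
    refine Nat.findGreatest_spec (P := fun j => j ^ E ≤ p) (Nat.zero_le p) ?_
    rw [zero_pow hE.ne']
    exact Nat.zero_le _
  have hRJ : ρ + (J + 1) ≤ R' := by
    have := hR J hJ2
    omega
  obtain ⟨F, hF1, hF2⟩ := rch_seq (Y := Y) hG hT hB _ hRJ
  have hF3 : ∀ j, j ^ E ≤ p →
      (cut G (F j) : ℝ) + d * (F j).card ≤ Y.card + d * (F (j + 1)).card := by
    intro j hj
    have h3 := hJ1 j hj
    exact_mod_cast hF2 j (by omega)
  obtain ⟨j, hj, hpj⟩ := hp₀ p ((le_max_left _ _).trans hp) R (fun j => (F j).card) hR1 hR2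
    (card_pos.2 ⟨z, (hF1 0 (Nat.zero_le _)).ho⟩)
    (fun j hj => by
      have h3 := hcap (F j) (hF1 j (by have := hJ1 j hj; omega)).toLev.adm
      have h4 := hF3 j hj
      linarith)
    (fun j hj hjA => by
      have h4 := hF3 j hj
      have h5 := (h1 Γ G d v hG (F j)).2 R (fun x _ => by
        have h6 := card_le_card (inter_subset_left (s₁ := F j) (s₂ := bl G x R))
        have h7 : (F j).card ≤ p ^ A := hjA
        omega)
      have hRp : (0 : ℝ) < 2 * (R : ℝ) := by
        have : (0 : ℝ) < R := by exact_mod_cast hR1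
        linarith
      have h6 : ((F j).card : ℝ) / (2 * R) ≤ cut G (F j) := by
        rw [div_le_iff₀ hRp]
        have h7 : ((F j).card : ℝ) ≤ ((2 * R * cut G (F j) : ℕ) : ℝ) := by exact_mod_cast h5
        push_cast at h7
        linarith
      have h8 : (Y.card : ℝ) ≤ max K 0 * p :=
        hY.trans (mul_le_mul_of_nonneg_right (le_max_left _ _) (Nat.cast_nonneg _))
      linarith)
  exact ⟨j, F j, hj, hF1 j (by have := hJ1 j hj; omega), hpj⟩

end Pool.Agent.ISP
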