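import Pool.Agent.ISP.St

/-!
# Percolation games: [Rt1] pigeonhole for the numbers of closed walks
-/

set_option autoImplicit false

namespace Pool.Agent.ISP

open Finset Filter Pool.Agent.Helper30.Perc Pool.Agent.Helper22.PG

section

variable {V : Type} [DecidableEq V] (G : SimpleGraph V) [G.LocallyFinite]

private lemma rt1_zero (u v : V) :
    (G.finsetWalkLength 0 u v).card = if u = v then 1 else 0 := by
  obtain rfl | h := eq_or_ne u v <;> simp [SimpleGraph.finsetWalkLength, *]

private lemma rt1_succ (k : ℕ) (u v : V) : (G.finsetWalkLength (k + 1) u v).card =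
    ∑ y ∈ G.neighborFinset u, (G.finsetWalkLength k y v).card := by
  simp only [SimpleGraph.finsetWalkLength]
  rw [Finset.card_biUnion]
  · simp only [card_map]
    exact (Finset.sum_subtype (p := fun y => y ∈ G.neighborSet u) (G.neighborFinset u)
      (fun x => by rw [SimpleGraph.mem_neighborFinset, SimpleGraph.mem_neighborSet])
      (fun y => (G.finsetWalkLength k y v).card)).symm
  · rintro ⟨x, hx⟩ - ⟨y, hy⟩ - hxy
    rw [Function.onFun, disjoint_iff_inf_le]
    intro p hp
    simp only [inf_eq_inter, mem_inter, Finset.mem_map] at hp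
    obtain ⟨⟨px, _, rfl⟩, ⟨py, hpy, hp⟩⟩ := hp
    cases hp
    simp at hxy

private lemma rt1_symm (k : ℕ) (u v : V) : (G.finsetWalkLength k u v).card =
    (G.finsetWalkLength k v u).card := by
  refine Finset.card_nbij' (fun p => p.reverse) (fun p => p.reverse) ?_ ?_ ?_ ?_
  · intro p hp
    rw [mem_coe, SimpleGraph.mem_finsetWalkLength_iff] at hp ⊢
    rw [SimpleGraph.Walk.length_reverse, hp]
  · intro p hp
    rw [mem_coe, SimpleGraph.mem_finsetWalkLength_iff] at hp ⊢
    rw [SimpleGraph.Walk.length_reverse, hp]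
  · intro p _
    exact SimpleGraph.Walk.reverse_reverse p
  · intro p _
    exact SimpleGraph.Walk.reverse_reverse p

private lemma rt1_add (k : ℕ) (v : V) (T : Finset V)
    (hT : ∀ x, (G.finsetWalkLength k x v).card ≠ 0 → x ∈ T) (j : ℕ) : ∀ u : V,
    (G.finsetWalkLength (j + k) u v).card =
      ∑ x ∈ T, (G.finsetWalkLength j u x).card * (G.finsetWalkLength k x v).card := by
  induction j with
  | zero =>
    intro u
    rw [Nat.zero_add]
    simp only [rt1_zero, ite_mul, one_mul, zero_mul]
    rw [Finset.sum_ite_eq]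
    split_ifs with h
    · rfl
    · by_contra h0
      exact h (hT u h0)
  | succ j ih =>
    intro u
    have e : j + 1 + k = (j + k) + 1 := by ring
    rw [e, rt1_succ, Finset.sum_congr rfl fun y _ => ih y, Finset.sum_comm]
    refine Finset.sum_congr rfl fun x _ => ?_
    rw [rt1_succ, Finset.sum_mul]

end

theorem thm_Rt1 : St_Rt1 := by
  intro Γ _ _ G _ d v h a n hn hyp
  classical
  set D : ℝ := ((G.neighborFinset 1).card : ℝ) with hD
  have hsupp : ∀ k x, (G.finsetWalkLength k x 1).card ≠ 0 → G.dist 1 x ≤ k := by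
    intro k x hx
    obtain ⟨p, hp⟩ := Finset.card_pos.1 (Nat.pos_of_ne_zero hx)
    rw [SimpleGraph.mem_finsetWalkLength_iff] at hp
    rw [SimpleGraph.dist_comm, ← hp]
    exact SimpleGraph.dist_le p
  -- the numbers of closed walks
  have hs : ∀ k, k ≤ n → ((G.finsetWalkLength (2 * k) 1 1).card : ℝ) =
      ∑ x ∈ bl G 1 n, ((G.finsetWalkLength k x 1).card : ℝ) ^ 2 := by
    intro k hk
    have h1 := rt1_add G k 1 (bl G 1 n) (fun x hx => by
      rw [mem_bl h.conn]
      exact (hsupp k x hx).trans hk) k 1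
    rw [two_mul, h1]
    push_cast
    refine Finset.sum_congr rfl fun x _ => ?_
    rw [rt1_symm G k 1 x, sq]
  set c : ℝ := D ^ 2 * Real.exp (-((n : ℝ) ^ (a - 1))) with hc
  have hc0 : 0 ≤ c := by positivity
  have hcn : c ^ n = D ^ (2 * n) * Real.exp (-((n : ℝ) ^ a)) := by
    rw [hc, mul_pow, ← pow_mul, ← Real.exp_nat_mul]
    congr 2
    have hn' : (n : ℝ) ≠ 0 := by exact_mod_cast hn.ne'
    rw [Real.rpow_sub_one hn']
    field_simp
  have hex : ∃ k < n, c * ((G.finsetWalkLength (2 * k) 1 1).card : ℝ) ≤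
      ((G.finsetWalkLength (2 * (k + 1)) 1 1).card : ℝ) := by
    by_contra hcon
    push Not at hcon
    have hle : ∀ k, k ≤ n → ((G.finsetWalkLength (2 * k) 1 1).card : ℝ) ≤ c ^ k := by
      intro k
      induction k with
      | zero => intro _; rw [Nat.mul_zero, rt1_zero]; simp
      | succ k ih =>
        intro hk
        have h1 := ih (by omega)
        have h2 := hcon k (by omega)
        calc ((G.finsetWalkLength (2 * (k + 1)) 1 1).card : ℝ)
            ≤ c * ((G.finsetWalkLength (2 * k) 1 1).card : ℝ) := h2.le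
          _ ≤ c * c ^ k := mul_le_mul_of_nonneg_left h1 hc0
          _ = c ^ (k + 1) := by ring
    obtain ⟨m, rfl⟩ : ∃ m, n = m + 1 := ⟨n - 1, by omega⟩
    have h1 := hle m (by omega)
    have h2 := hcon m (by omega)
    have h3 : c * ((G.finsetWalkLength (2 * m) 1 1).card : ℝ) ≤ c ^ (m + 1) := by
      rw [pow_succ']
      exact mul_le_mul_of_nonneg_left h1 hc0
    rw [← hcn] at hyp
    linarith
  obtain ⟨k, hk, hkle⟩ := hex
  refine ⟨fun x => (G.finsetWalkLength k x 1).card, ?_, ?_, ?_⟩
  · obtain ⟨z, hz⟩ := h.exists_dist_eq 1 k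
    obtain ⟨w, hw⟩ := h.conn.exists_walk_length_eq_dist z 1
    refine ⟨z, ?_⟩
    apply Nat.ne_of_gt
    rw [Finset.card_pos]
    refine ⟨w, ?_⟩
    rw [SimpleGraph.mem_finsetWalkLength_iff, hw, SimpleGraph.dist_comm, hz]
  · intro x hx
    exact lt_of_le_of_lt (hsupp k x hx) hk
  · have h1 := hs k hk.le
    have h2 := hs (k + 1) hk
    rw [h1, h2] at hkle
    refine hkle.trans (le_of_eq ?_)
    refine Finset.sum_congr rfl fun x _ => ?_
    rw [rt1_succ]
    push_cast
    rfl

end Pool.Agent.ISP
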