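import Pool.Agent.ISP.St

/-!
# ISP Rt2: the inequality of Cheeger for two steps
-/

set_option autoImplicit false

namespace Pool.Agent.ISP

open Finset Filter Pool.Agent.Helper30.Perc Pool.Agent.Helper22.PG

namespace Rt2x

variable {Γ : Type} [Group Γ] [DecidableEq Γ] {G : SimpleGraph Γ} [G.LocallyFinite]
  {d : ℕ} {v : ℕ → ℕ}

lemma deg_eq (h : Cy G d v) (x : Γ) :
    (G.neighborFinset x).card = (G.neighborFinset 1).card := by
  have h1 : G.neighborFinset x = (G.neighborFinset 1).image fun y => x * y := by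
    ext z
    rw [SimpleGraph.mem_neighborFinset, mem_image]
    constructor
    · intro hz
      refine ⟨x⁻¹ * z, ?_, by simp⟩
      rw [SimpleGraph.mem_neighborFinset]
      have h2 := (h.inv x 1 (x⁻¹ * z)).1
      rw [mul_one, mul_inv_cancel_left] at h2
      exact h2 hz
    · rintro ⟨y, hy, rfl⟩
      rw [SimpleGraph.mem_neighborFinset] at hy
      have h2 := (h.inv x 1 y).2 hy
      rw [mul_one] at h2
      exact h2
  rw [h1, card_image_of_injective _ (mul_right_injective x)]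

/-- double counting -/
lemma dc (h : Cy G d v) (n : ℕ) (φ : Γ → ℝ) (hφ : ∀ y, φ y ≠ 0 → G.dist 1 y < n) :
    ∑ x ∈ bl G 1 n, ∑ y ∈ G.neighborFinset x, φ y =
      ((G.neighborFinset 1).card : ℝ) * ∑ y ∈ bl G 1 n, φ y := by
  have h1 : ∀ x, ∑ y ∈ G.neighborFinset x, φ y =
      ∑ y ∈ bl G 1 n, if y ∈ G.neighborFinset x then φ y else 0 := by
    intro x
    rw [← sum_filter]
    refine (sum_subset_zero_on_sdiff ?_ ?_ ?_).symm
    · intro y hy
      rw [mem_filter] at hy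
      exact hy.2
    · intro y hy
      rw [Finset.mem_sdiff, mem_filter] at hy
      by_contra h0
      refine hy.2 ⟨?_, hy.1⟩
      rw [mem_bl h.conn]
      exact (hφ y h0).le
    · intro y _
      rfl
  rw [sum_congr rfl fun x _ => h1 x, sum_comm, mul_sum]
  refine sum_congr rfl fun y _ => ?_
  by_cases h0 : φ y = 0
  · rw [h0, mul_zero]
    exact sum_eq_zero fun x _ => by simp
  · rw [← sum_filter, sum_const, nsmul_eq_mul]
    congr 2
    rw [← deg_eq h y]
    congr 1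
    ext x
    rw [mem_filter, SimpleGraph.mem_neighborFinset, SimpleGraph.mem_neighborFinset,
      mem_bl h.conn]
    constructor
    · rintro ⟨_, hx⟩
      exact hx.symm
    · intro hx
      refine ⟨?_, hx.symm⟩
      have h2 := h.conn.dist_triangle (u := 1) (v := y) (w := x)
      have h3 : G.dist y x = 1 := SimpleGraph.dist_eq_one_iff_adj.2 hx
      have h4 := hφ y h0
      omega

/-- Cauchy-Schwarz -/
lemma cs (h : Cy G d v) (η : ℝ) (n : ℕ) (g : Γ → ℝ) (hη : 0 ≤ η)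
    (hg : ∀ y, g y ≠ 0 → G.dist 1 y < n)
    (hA : ((G.neighborFinset 1).card : ℝ) ^ 2 * (1 - η) * ∑ x ∈ bl G 1 n, g x ^ 2 ≤
      ∑ x ∈ bl G 1 n, (∑ y ∈ G.neighborFinset x, g y) ^ 2) :
    ∑ x ∈ bl G 1 n, ∑ y ∈ G.neighborFinset x, ∑ z ∈ G.neighborFinset x, |g y ^ 2 - g z ^ 2| ≤
      4 * Real.sqrt η * ((G.neighborFinset 1).card : ℝ) ^ 2 * ∑ x ∈ bl G 1 n, g x ^ 2 := by
  set D : ℝ := ((G.neighborFinset 1).card : ℝ) with hD
  set N : ℝ := ∑ x ∈ bl G 1 n, g x ^ 2 with hN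
  have hdeg : ∀ x, ((G.neighborFinset x).card : ℝ) = D := fun x => by
    rw [hD, deg_eq h x]
  have hS : ∑ x ∈ bl G 1 n, ∑ y ∈ G.neighborFinset x, g y ^ 2 = D * N := by
    refine dc h n (fun y => g y ^ 2) ?_
    intro y hy
    exact hg y fun h0 => hy (by simp [h0])
  have hN0 : 0 ≤ N := sum_nonneg fun x _ => sq_nonneg _
  have hD0 : 0 ≤ D := Nat.cast_nonneg _
  -- the two quadratic sums
  have e1 : ∀ x, ∑ y ∈ G.neighborFinset x, ∑ z ∈ G.neighborFinset x, (g y - g z) ^ 2 =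
      2 * D * ∑ y ∈ G.neighborFinset x, g y ^ 2 - 2 * (∑ y ∈ G.neighborFinset x, g y) ^ 2 := by
    intro x
    have h1 : ∀ y z, (g y - g z) ^ 2 = g y ^ 2 + g z ^ 2 - 2 * (g y * g z) := by
      intro y z; ring
    have h2 : (∑ y ∈ G.neighborFinset x, g y) ^ 2 =
        ∑ y ∈ G.neighborFinset x, ∑ z ∈ G.neighborFinset x, g y * g z := by
      rw [sq, sum_mul_sum]
    have h3 : ∑ y ∈ G.neighborFinset x, ∑ z ∈ G.neighborFinset x, 2 * (g y * g z) =
        2 * ∑ y ∈ G.neighborFinset x, ∑ z ∈ G.neighborFinset x, g y * g z := by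
      simp only [mul_sum]
    rw [h2]
    simp only [h1, sum_sub_distrib, sum_add_distrib, sum_const, nsmul_eq_mul, hdeg]
    rw [h3]
    simp only [← mul_sum]
    ring
  have e2 : ∀ x, ∑ y ∈ G.neighborFinset x, ∑ z ∈ G.neighborFinset x, (g y + g z) ^ 2 =
      2 * D * ∑ y ∈ G.neighborFinset x, g y ^ 2 + 2 * (∑ y ∈ G.neighborFinset x, g y) ^ 2 := by
    intro x
    have h1 : ∀ y z, (g y + g z) ^ 2 = g y ^ 2 + g z ^ 2 + 2 * (g y * g z) := by
      intro y z; ring
    have h2 : (∑ y ∈ G.neighborFinset x, g y) ^ 2 =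
        ∑ y ∈ G.neighborFinset x, ∑ z ∈ G.neighborFinset x, g y * g z := by
      rw [sq, sum_mul_sum]
    have h3 : ∑ y ∈ G.neighborFinset x, ∑ z ∈ G.neighborFinset x, 2 * (g y * g z) =
        2 * ∑ y ∈ G.neighborFinset x, ∑ z ∈ G.neighborFinset x, g y * g z := by
      simp only [mul_sum]
    rw [h2]
    simp only [h1, sum_add_distrib, sum_const, nsmul_eq_mul, hdeg]
    rw [h3]
    simp only [← mul_sum]
    ring
  have e3 : ∀ x, (∑ y ∈ G.neighborFinset x, g y) ^ 2 ≤ D * ∑ y ∈ G.neighborFinset x, g y ^ 2 := by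
    intro x
    have := sq_sum_le_card_mul_sum_sq (s := G.neighborFinset x) (f := g)
    rw [hdeg] at this
    exact this
  have T1 : ∑ x ∈ bl G 1 n, ∑ y ∈ G.neighborFinset x, ∑ z ∈ G.neighborFinset x, (g y - g z) ^ 2 ≤
      2 * η * D ^ 2 * N := by
    rw [sum_congr rfl fun x _ => e1 x, sum_sub_distrib, ← mul_sum, ← mul_sum, hS]
    nlinarith [hA]
  have T2 : ∑ x ∈ bl G 1 n, ∑ y ∈ G.neighborFinset x, ∑ z ∈ G.neighborFinset x, (g y + g z) ^ 2 ≤
      4 * D ^ 2 * N := by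
    rw [sum_congr rfl fun x _ => e2 x, sum_add_distrib, ← mul_sum, ← mul_sum, hS]
    have h3 : ∑ x ∈ bl G 1 n, (∑ y ∈ G.neighborFinset x, g y) ^ 2 ≤ D * (D * N) := by
      rw [← hS, mul_sum]
      exact sum_le_sum fun x _ => e3 x
    nlinarith [h3]
  -- Cauchy-Schwarz over the triples
  set P : Finset (Σ _ : Γ, Γ × Γ) := (bl G 1 n).sigma fun x =>
    (G.neighborFinset x) ×ˢ (G.neighborFinset x) with hP
  have conv : ∀ F : Γ → Γ → ℝ, ∑ x ∈ bl G 1 n, ∑ y ∈ G.neighborFinset x,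
      ∑ z ∈ G.neighborFinset x, F y z = ∑ t ∈ P, F t.2.1 t.2.2 := by
    intro F
    rw [hP, sum_sigma]
    refine sum_congr rfl fun x _ => ?_
    rw [sum_product]
  rw [conv fun y z => (g y - g z) ^ 2] at T1
  rw [conv fun y z => (g y + g z) ^ 2] at T2
  rw [conv fun y z => |g y ^ 2 - g z ^ 2|]
  have h4 : (∑ t ∈ P, |g t.2.1 ^ 2 - g t.2.2 ^ 2|) ^ 2 ≤ (2 * η * D ^ 2 * N) * (4 * D ^ 2 * N) := by
    have h5 : ∀ t : (Σ _ : Γ, Γ × Γ), |g t.2.1 ^ 2 - g t.2.2 ^ 2| =
        |g t.2.1 - g t.2.2| * |g t.2.1 + g t.2.2| := by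
      intro t
      rw [← abs_mul]
      congr 1
      ring
    rw [sum_congr rfl fun t _ => h5 t]
    refine (sum_mul_sq_le_sq_mul_sq P (fun t => |g t.2.1 - g t.2.2|)
      (fun t => |g t.2.1 + g t.2.2|)).trans ?_
    simp only [sq_abs]
    refine mul_le_mul T1 T2 (sum_nonneg fun t _ => sq_nonneg _) ?_
    positivity
  have h6 : (2 * η * D ^ 2 * N) * (4 * D ^ 2 * N) ≤ (4 * Real.sqrt η * D ^ 2 * N) ^ 2 := by
    have h7 : Real.sqrt η ^ 2 = η := Real.sq_sqrt hη
    have h8 : (4 * Real.sqrt η * D ^ 2 * N) ^ 2 = 16 * η * (D ^ 2 * N) ^ 2 := by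
      rw [show (4 * Real.sqrt η * D ^ 2 * N) ^ 2 = 16 * Real.sqrt η ^ 2 * (D ^ 2 * N) ^ 2 by ring,
        h7]
    rw [h8]
    have h9 : 0 ≤ η * (D ^ 2 * N) ^ 2 := by positivity
    nlinarith [h9]
  exact le_of_sq_le_sq (h4.trans h6) (by positivity)

end Rt2x

open Rt2x

theorem thm_Rt2 : St_Rt2 := by
  intro Γ _ _ G _ d v h η n f hη hf0 hfn hA
  set D : ℝ := ((G.neighborFinset 1).card : ℝ) with hD
  have hD0 : 0 ≤ D := Nat.cast_nonneg _
  have hcs := cs h η n (fun y => (f y : ℝ)) hη (fun y hy => hfn y fun h0 => hy (by simp [h0])) hA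
  rw [← hD] at hcs
  -- the level sets
  set Ft : ℕ → Finset Γ := fun t => (bl G 1 n).filter fun y => t ≤ f y ^ 2 with hFt
  set M : ℕ := ∑ y ∈ bl G 1 n, f y ^ 2 with hM
  set Rt : ℕ → ℝ := fun t => ∑ x ∈ bl G 1 n, ∑ y ∈ G.neighborFinset x,
    ∑ z ∈ G.neighborFinset x, (if t ≤ f y ^ 2 ∧ f z ^ 2 < t then (1 : ℝ) else 0) with hRt
  have hmem : ∀ y, f y ≠ 0 → y ∈ bl G 1 n := by
    intro y hy
    rw [mem_bl h.conn]
    exact (hfn y hy).le
  have hsum1 : ∑ t ∈ Icc 1 M, ((Ft t).card : ℝ) = ∑ y ∈ bl G 1 n, (f y : ℝ) ^ 2 := by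
    have h1 : ∑ t ∈ Icc 1 M, (Ft t).card = ∑ y ∈ bl G 1 n, f y ^ 2 := by
      simp only [hFt, card_filter]
      rw [sum_comm]
      refine sum_congr rfl fun y hy => ?_
      rw [← card_filter]
      have h2 : (Icc 1 M).filter (fun t => t ≤ f y ^ 2) = Icc 1 (f y ^ 2) := by
        ext t
        rw [mem_filter, mem_Icc, mem_Icc]
        have h3 : f y ^ 2 ≤ M := single_le_sum (f := fun y => f y ^ 2) (fun _ _ => Nat.zero_le _) hy
        omega
      rw [h2, Nat.card_Icc]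
      omega
    exact_mod_cast h1
  have hsum2 : ∑ t ∈ Icc 1 M, Rt t ≤ ∑ x ∈ bl G 1 n, ∑ y ∈ G.neighborFinset x,
      ∑ z ∈ G.neighborFinset x, |(f y : ℝ) ^ 2 - (f z : ℝ) ^ 2| := by
    simp only [hRt]
    rw [sum_comm]
    refine sum_le_sum fun x _ => ?_
    rw [sum_comm]
    refine sum_le_sum fun y _ => ?_
    rw [sum_comm]
    refine sum_le_sum fun z _ => ?_
    have h2 : ∑ t ∈ Icc 1 M, (if t ≤ f y ^ 2 ∧ f z ^ 2 < t then (1 : ℝ) else 0) =
        (((Icc 1 M).filter fun t => t ≤ f y ^ 2 ∧ f z ^ 2 < t).card : ℝ) := by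
      rw [card_filter]
      push_cast
      rfl
    rw [h2]
    have h3 : (((Icc 1 M).filter fun t => t ≤ f y ^ 2 ∧ f z ^ 2 < t).card) ≤
        f y ^ 2 - f z ^ 2 := by
      rw [← Nat.card_Ioc]
      refine card_le_card fun t ht => ?_
      rw [mem_filter] at ht
      rw [mem_Ioc]
      exact ⟨ht.2.2, ht.2.1⟩
    rcases le_total (f z ^ 2) (f y ^ 2) with hle | hle
    · have h4 : (((Icc 1 M).filter fun t => t ≤ f y ^ 2 ∧ f z ^ 2 < t).card : ℝ) ≤
          (f y : ℝ) ^ 2 - (f z : ℝ) ^ 2 := by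
        have h5 : (((f y ^ 2 - f z ^ 2 : ℕ)) : ℝ) = (f y : ℝ) ^ 2 - (f z : ℝ) ^ 2 := by
          rw [Nat.cast_sub hle]
          push_cast
          rfl
        rw [← h5]
        exact_mod_cast h3
      exact h4.trans (le_abs_self _)
    · have h4 : (((Icc 1 M).filter fun t => t ≤ f y ^ 2 ∧ f z ^ 2 < t).card) = 0 := by omega
      rw [h4]
      simp
  -- a good level
  obtain ⟨t, ht1, htM, htne, htR⟩ : ∃ t, 1 ≤ t ∧ t ≤ M ∧ (Ft t).Nonempty ∧
      Rt t ≤ 4 * Real.sqrt η * D ^ 2 * (Ft t).card := by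
    by_contra hcon
    push Not at hcon
    obtain ⟨x₀, hx₀⟩ := hf0
    have hx1 : 1 ≤ f x₀ ^ 2 := Nat.one_le_iff_ne_zero.2 (pow_ne_zero 2 hx₀)
    have hM1 : 1 ≤ M := hx1.trans
      (single_le_sum (f := fun y => f y ^ 2) (fun _ _ => Nat.zero_le _) (hmem x₀ hx₀))
    have hR0 : ∀ t, 0 ≤ Rt t := by
      intro t
      refine sum_nonneg fun x _ => sum_nonneg fun y _ => sum_nonneg fun z _ => ?_
      split_ifs <;> norm_num
    have hlt : ∑ t ∈ Icc 1 M, 4 * Real.sqrt η * D ^ 2 * ((Ft t).card : ℝ) <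
        ∑ t ∈ Icc 1 M, Rt t := by
      refine sum_lt_sum ?_ ⟨1, mem_Icc.2 ⟨le_rfl, hM1⟩, ?_⟩
      · intro t ht
        rw [mem_Icc] at ht
        rcases (Ft t).eq_empty_or_nonempty with h0 | h0
        · rw [h0]
          simp only [card_empty, Nat.cast_zero, mul_zero]
          exact hR0 t
        · exact (hcon t ht.1 ht.2 h0).le
      · refine hcon 1 le_rfl hM1 ⟨x₀, ?_⟩
        simp only [hFt, mem_filter]
        exact ⟨hmem x₀ hx₀, hx1⟩
    rw [← mul_sum, hsum1] at hlt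
    exact absurd (hlt.trans_le hsum2) (not_lt.2 hcs)
  have hFf : ∀ y, y ∈ Ft t ↔ t ≤ f y ^ 2 := by
    intro y
    simp only [hFt, mem_filter]
    refine ⟨fun hy => hy.2, fun hy => ⟨hmem y ?_, hy⟩⟩
    rintro h0
    rw [h0] at hy
    simp only [ne_eq, OfNat.ofNat_ne_zero, not_false_eq_true, zero_pow, nonpos_iff_eq_zero] at hy
    omega
  have hFd : ∀ y ∈ Ft t, G.dist 1 y < n := by
    intro y hy
    refine hfn y fun h0 => ?_
    rw [hFf, h0] at hy
    simp only [ne_eq, OfNat.ofNat_ne_zero, not_false_eq_true, zero_pow, nonpos_iff_eq_zero] at hy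
    omega
  set F' : Finset Γ := Ft t ∪ (Ft t).biUnion fun y => G.neighborFinset y with hF'
  have hF'd : ∀ x ∈ F', G.dist 1 x ≤ n := by
    intro x hx
    rw [hF', mem_union, mem_biUnion] at hx
    rcases hx with hx | ⟨y, hy, hx⟩
    · exact (hFd x hx).le
    · rw [SimpleGraph.mem_neighborFinset] at hx
      have h2 := h.conn.dist_triangle (u := 1) (v := y) (w := x)
      have h3 : G.dist y x = 1 := SimpleGraph.dist_eq_one_iff_adj.2 hx
      have h4 := hFd y hy
      omega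
  refine ⟨F', htne.mono (by rw [hF']; exact subset_union_left), hF'd, ?_⟩
  have hcut : (cut G F' : ℝ) ≤ Rt t := by
    have h1 : (cut G F' : ℝ) = ∑ a ∈ F', ((G.neighborFinset a \ F').card : ℝ) := by
      rw [cut]
      push_cast
      rfl
    rw [h1]
    have h2 : ∀ a ∈ F', ((G.neighborFinset a \ F').card : ℝ) ≤ ∑ y ∈ G.neighborFinset a,
        ∑ z ∈ G.neighborFinset a, (if t ≤ f y ^ 2 ∧ f z ^ 2 < t then (1 : ℝ) else 0) := by
      intro a ha
      have hnn : ∀ y ∈ G.neighborFinset a, 0 ≤ ∑ z ∈ G.neighborFinset a,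
          (if t ≤ f y ^ 2 ∧ f z ^ 2 < t then (1 : ℝ) else 0) := by
        intro y _
        refine sum_nonneg fun z _ => ?_
        split_ifs <;> norm_num
      rcases (G.neighborFinset a \ F').eq_empty_or_nonempty with h0 | ⟨z₀, hz₀⟩
      · rw [h0]
        simp only [card_empty, Nat.cast_zero]
        exact sum_nonneg hnn
      · rw [Finset.mem_sdiff] at hz₀
        have haF : a ∉ Ft t := by
          intro haF
          refine hz₀.2 ?_
          rw [hF', mem_union, mem_biUnion]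
          exact Or.inr ⟨a, haF, hz₀.1⟩
        rw [hF', mem_union, mem_biUnion] at ha
        rcases ha with ha | ⟨y, hy, hya⟩
        · exact absurd ha haF
        · have hya' : y ∈ G.neighborFinset a := by
            rw [SimpleGraph.mem_neighborFinset] at hya ⊢
            exact hya.symm
          refine le_trans ?_ (single_le_sum hnn hya')
          have h3 : ∑ z ∈ G.neighborFinset a,
              (if t ≤ f y ^ 2 ∧ f z ^ 2 < t then (1 : ℝ) else 0) =
              (((G.neighborFinset a).filter fun z => t ≤ f y ^ 2 ∧ f z ^ 2 < t).card : ℝ) := by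
            rw [card_filter]
            push_cast
            rfl
          rw [h3]
          have h4 : (G.neighborFinset a \ F').card ≤
              ((G.neighborFinset a).filter fun z => t ≤ f y ^ 2 ∧ f z ^ 2 < t).card := by
            refine card_le_card fun z hz => ?_
            rw [Finset.mem_sdiff] at hz
            rw [mem_filter]
            refine ⟨hz.1, (hFf y).1 hy, ?_⟩
            by_contra hlt
            refine hz.2 ?_
            rw [hF', mem_union]
            exact Or.inl ((hFf z).2 (not_lt.1 hlt))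
          exact_mod_cast h4
    refine (sum_le_sum h2).trans ?_
    simp only [hRt]
    refine sum_le_sum_of_subset_of_nonneg ?_ ?_
    · intro x hx
      rw [mem_bl h.conn]
      exact hF'd x hx
    · intro x _ _
      refine sum_nonneg fun y _ => sum_nonneg fun z _ => ?_
      split_ifs <;> norm_num
  refine hcut.trans (htR.trans ?_)
  have h5 : ((Ft t).card : ℝ) ≤ (F'.card : ℝ) := by
    exact_mod_cast card_le_card (by rw [hF']; exact subset_union_left)
  exact mul_le_mul_of_nonneg_left h5 (by positivity)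

end Pool.Agent.ISP
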