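import Pool.Agent.ISP.St

/-! ISP module Rtn: slow decay of the return probabilities gives sets with small boundary. -/

set_option autoImplicit false

namespace Pool.Agent.ISP

open Finset Filter Pool.Agent.Helper30.Perc Pool.Agent.Helper22.PG

theorem thm_Rtn (h1 : St_Rt1) (h2 : St_Rt2) : St_Rtn := by
  intro Γ _ _ G _ d v hG a ha hw
  obtain ⟨n₀, hn₀⟩ := hw
  set D : ℝ := ((G.neighborFinset 1).card : ℝ) with hD
  set c : ℝ := (1 - a) / 4 with hc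
  have hc0 : 0 < c := by rw [hc]; linarith
  refine ⟨c, hc0, ?_⟩
  have hlim : Tendsto (fun n : ℕ => (n : ℝ) ^ c) atTop atTop :=
    (tendsto_rpow_atTop hc0).comp tendsto_natCast_atTop_atTop
  obtain ⟨n₁, hn₁⟩ := eventually_atTop.1 (hlim.eventually_ge_atTop (4 * D ^ 2))
  refine ⟨max (max n₀ n₁) 1, fun n hn => ?_⟩
  have hnn₀ : n₀ ≤ n := ((le_max_left _ _).trans (le_max_left _ _)).trans hn
  have hnn₁ : n₁ ≤ n := ((le_max_right _ _).trans (le_max_left _ _)).trans hn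
  have hn1 : 1 ≤ n := (le_max_right _ _).trans hn
  have hnR : (0 : ℝ) < n := by exact_mod_cast hn1
  obtain ⟨f, hf1, hf2, hf3⟩ := h1 Γ G d v hG a n hn1 (hn₀ n hnn₀)
  set η : ℝ := (n : ℝ) ^ (a - 1) with hη
  have hη0 : 0 ≤ η := by positivity
  have hexp : 1 - η ≤ Real.exp (-η) := by
    have := Real.add_one_le_exp (-η)
    linarith
  have hS0 : 0 ≤ ∑ x ∈ bl G 1 n, (f x : ℝ) ^ 2 := Finset.sum_nonneg fun x _ => by positivity
  obtain ⟨F, hF1, hF2, hF3⟩ := h2 Γ G d v hG η n f hη0 hf1 hf2 (by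
    refine le_trans ?_ hf3
    refine mul_le_mul_of_nonneg_right ?_ hS0
    exact mul_le_mul_of_nonneg_left hexp (by positivity))
  refine ⟨F, hF1, hF2, hF3.trans ?_⟩
  refine mul_le_mul_of_nonneg_right ?_ (Nat.cast_nonneg _)
  have hsq : Real.sqrt η = (n : ℝ) ^ (-c) * (n : ℝ) ^ (-c) := by
    rw [← Real.rpow_add hnR, Real.sqrt_eq_rpow, hη, ← Real.rpow_mul hnR.le]
    congr 1
    rw [hc]
    ring
  rw [hsq]
  have hnc : 0 < (n : ℝ) ^ (-c) := Real.rpow_pos_of_pos hnR _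
  have h5 : (n : ℝ) ^ (-c) * (4 * D ^ 2) ≤ 1 := by
    have h6 := hn₁ n hnn₁
    calc (n : ℝ) ^ (-c) * (4 * D ^ 2) ≤ (n : ℝ) ^ (-c) * (n : ℝ) ^ c :=
          mul_le_mul_of_nonneg_left h6 hnc.le
      _ = 1 := by rw [← Real.rpow_add hnR]; simp
  calc 4 * ((n : ℝ) ^ (-c) * (n : ℝ) ^ (-c)) * D ^ 2
      = (n : ℝ) ^ (-c) * ((n : ℝ) ^ (-c) * (4 * D ^ 2)) := by ring
    _ ≤ (n : ℝ) ^ (-c) * 1 := mul_le_mul_of_nonneg_left h5 hnc.le
    _ = (n : ℝ) ^ (-c) := mul_one _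

end Pool.Agent.ISP
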