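import Pool.Agent.ISP.St

/-! ISP module Sst: the static half. -/

set_option autoImplicit false

namespace Pool.Agent.ISP

open Finset Filter Topology Pool.Agent.Helper30.Perc Pool.Agent.Helper22.PG

section

variable {Γ : Type} [Group Γ] [DecidableEq Γ] {G : SimpleGraph Γ} [G.LocallyFinite]

private lemma sst_cap (hE : G.edgeSet.Infinite) {κ : ℝ} (hS : Stat G κ) (ε : ℝ)
    (hε : 0 < ε) : ∃ p0 : ℕ, ∀ p : ℕ, p0 ≤ p → CapGE G 1 p ((κ - ε) * p) := by
  obtain ⟨p0, hp0⟩ := hS ε hε 1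
  refine ⟨p0, fun p hp => ?_⟩
  obtain ⟨T, hT1, hT2, -, hT3⟩ := hp0 p hp
  obtain ⟨M, hTM, hMc, hME, -⟩ := exists_move hE T ∅ p hT1 (by simp) hT2
  exact ⟨M, hME, hMc, fun W hW => hT3 W ⟨hW.1, fun a b hab ha => hW.2 a b (hTM hab) ha⟩⟩

/-- The limit exists, Breaker wins above it, and there are templates below it. -/
private theorem sst_static {d : ℕ} {v : ℕ → ℕ} (h1 : St_Sta) (h2 : St_Pos) (h : Cy G d v) : ∃ b : ℝ, 0 < b ∧
    (∀ v₀ : Γ, Tendsto (fun p : ℕ => (maxCap G v₀ p : ℝ) / p) atTop (𝓝 b)) ∧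
    (∀ ε : ℝ, 0 < ε → ∃ p₀ : ℕ, ∀ p q : ℕ, p₀ ≤ p → ∀ v₀ : Γ,
      (b + ε) * (p : ℝ) < (q : ℝ) → BreakerWins G v₀ p q) ∧
    ∀ ε : ℝ, 0 < ε → Stat G (b - ε) := by
  have hE := h.edge_infinite
  have hd := h.deg
  obtain ⟨b₀, hb₀, hb₀'⟩ := h2 Γ G d v h
  set S : Set ℝ := {c | ∃ᶠ n : ℕ in atTop, CapGE G 1 n (c * n)} with hS
  have h0S : b₀ ∈ S := (Eventually.of_forall fun n => hb₀' n).frequently
  have hbdd : BddAbove S := by
    refine ⟨3 * d, ?_⟩
    intro c hc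
    obtain ⟨n, ⟨M, k1, k2, k3⟩, hn⟩ := (hc.and_eventually (eventually_ge_atTop 1)).exists
    obtain ⟨W, hW, hW'⟩ := exists_adm_small G d hd 1 M
    have h4 := k3 W hW
    rw [k2] at hW'
    have h5 : (cut G W : ℝ) ≤ (2 * n + 1) * d := by exact_mod_cast hW'
    have h6 : (1 : ℝ) ≤ n := by exact_mod_cast hn
    have h7 : (0 : ℝ) < n := by linarith
    have h8 : c * n ≤ 3 * d * n := by nlinarith [(Nat.cast_nonneg d : (0 : ℝ) ≤ d)]
    exact le_of_mul_le_mul_right h8 h7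
  set b : ℝ := sSup S with hb
  have hb0 : 0 < b := lt_of_lt_of_le hb₀ (le_csSup hbdd h0S)
  have hlow : ∀ ε : ℝ, 0 < ε → ∃ᶠ n : ℕ in atTop, CapGE G 1 n ((b - ε) * n) := by
    intro ε hε
    obtain ⟨c, hc, hc'⟩ := exists_lt_of_lt_csSup ⟨b₀, h0S⟩ (show b - ε < sSup S by
      rw [← hb]; linarith)
    refine Frequently.mono hc fun n hn => hn.mono G ?_
    exact mul_le_mul_of_nonneg_right hc'.le (by positivity)
  have hup : ∀ ε : ℝ, 0 < ε → ∀ᶠ n : ℕ in atTop, ¬ CapGE G 1 n ((b + ε) * n) := by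
    intro ε hε
    have h1 : b + ε ∉ S := by
      intro h2
      have := le_csSup hbdd h2
      linarith
    exact not_frequently.1 h1
  have htr : ∀ v w : Γ, ∀ n c, CapGE G v n c → CapGE G w n c := by
    intro v w n c hc
    obtain ⟨φ, hφ⟩ := h.trans v w
    rw [← hφ]
    exact hc.translate G φ
  have hstat : ∀ ε : ℝ, 0 < ε → Stat G (b - ε) := fun ε hε =>
    h1 Γ G d v h (b - ε) (hlow ε hε)
  have hlow' : ∀ ε : ℝ, 0 < ε → ∃ p0 : ℕ, ∀ p : ℕ, p0 ≤ p → ∀ v,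
      CapGE G v p ((b - ε) * p) := by
    intro ε hε
    obtain ⟨p0, hp0⟩ := sst_cap hE (hstat (ε / 2) (by linarith)) (ε / 2) (by linarith)
    refine ⟨p0, fun p hp v => htr 1 v _ _ ?_⟩
    have h4 := hp0 p hp
    have h5 : b - ε / 2 - ε / 2 = b - ε := by ring
    rw [h5] at h4
    exact h4
  refine ⟨b, hb0, ?_, ?_, hstat⟩
  · intro w
    rw [Metric.tendsto_atTop]
    intro ε hε
    obtain ⟨p1, hp1⟩ := hlow' (ε / 2) (by linarith)
    obtain ⟨p2, hp2⟩ := eventually_atTop.1 (hup (ε / 2) (by linarith))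
    refine ⟨max (max p1 p2) 1, ?_⟩
    intro p hp
    have hpp : (0 : ℝ) < p := by
      have : 1 ≤ p := (le_max_right _ _).trans hp
      exact_mod_cast this
    have h1 := hp1 p ((le_max_left _ _).trans ((le_max_left _ _).trans hp)) w
    have h2 := hp2 p ((le_max_right _ _).trans ((le_max_left _ _).trans hp))
    have h3 : ¬ CapGE G w p ((b + ε / 2) * p) := fun hc => h2 (htr w 1 _ _ hc)
    rw [capGE_iff G d hd hE] at h1 h3
    rw [not_le] at h3
    rw [Real.dist_eq, abs_lt]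
    constructor
    · have : b - ε / 2 ≤ (maxCap G w p : ℝ) / p := by
        rw [le_div_iff₀ hpp]; exact h1
      linarith
    · have : (maxCap G w p : ℝ) / p < b + ε / 2 := by
        rw [div_lt_iff₀ hpp]; exact h3
      linarith
  · intro ε hε
    obtain ⟨p2, hp2⟩ := eventually_atTop.1 (hup ε hε)
    refine ⟨p2, ?_⟩
    intro p q hp w hq
    refine breakerWins_of_cut G hE w p q ?_
    intro X hX hXE
    have h1 : ¬ CapGE G w p ((b + ε) * p) := fun hc => hp2 p hp (htr w 1 _ _ hc)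
    have h2 : ∃ W : Finset Γ, Adm w X W ∧ (cut G W : ℝ) < (b + ε) * p := by
      by_contra hcon
      push Not at hcon
      exact h1 ⟨X, hXE, hX, hcon⟩
    obtain ⟨W, hW, hWc⟩ := h2
    refine ⟨W, bdE G W, hW.1, ?_, ?_, ?_, ?_⟩
    · rw [card_bdE]
      have : (cut G W : ℝ) < q := hWc.trans hq
      have : cut G W < q := by exact_mod_cast this
      exact this.le
    · intro e he
      rw [mem_coe, mem_bdE] at he
      obtain ⟨a, -, b, -, hab, rfl⟩ := he
      simpa using hab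
    · rw [adm_iff G w X hXE, bdry_eq] at hW
      exact hW.2
    · intro a ha b' hb' hab
      rw [mem_bdE]
      exact ⟨a, ha, b', hb', hab, rfl⟩

end


theorem thm_Sst (h1 : St_Sta) (h2 : St_Pos) : St_Sst := by
  intro Γ _ _ G _ d v h
  exact sst_static h1 h2 h

end Pool.Agent.ISP
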