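import Pool.Agent.ISP.St

/-! # Percolation games on Cayley graphs: templates of subpolynomial diameter -/

set_option autoImplicit false

namespace Pool.Agent.ISP

open Finset Filter Pool.Agent.Helper30.Perc Pool.Agent.Helper22.PG

/-- the numerical condition for the induction -/
private lemma sta_ev (C ε : ℝ) (hε : 0 < ε) : ∃ l₀ : ℕ, 1 ≤ l₀ ∧ ∀ l : ℕ, l₀ ≤ l →
    6 * C * l ≤ ε * (√2) ^ l := by
  have h2 : (1 : ℝ) < √2 := by
    rw [Real.lt_sqrt (by norm_num)]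
    norm_num
  have h1 := tendsto_pow_const_div_const_pow_of_one_lt 1 h2
  have h3 : Tendsto (fun n : ℕ => 6 * C * ((n : ℝ) ^ 1 / (√2) ^ n)) atTop (nhds (6 * C * 0)) :=
    h1.const_mul _
  rw [mul_zero] at h3
  have h4 := (h3.eventually (gt_mem_nhds hε))
  obtain ⟨l₀, hl₀⟩ := eventually_atTop.1 h4
  refine ⟨max l₀ 1, le_max_right _ _, fun l hl => ?_⟩
  have h5 := hl₀ l ((le_max_left _ _).trans hl)
  have h6 : (0 : ℝ) < (√2) ^ l := by positivity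
  rw [pow_one, ← mul_div_assoc, div_lt_iff₀ h6] at h5
  exact h5.le

private lemma sta_frac (ε : ℝ) (hε : 0 < ε) (l L : ℕ) (hl : 1 ≤ l) (hL : 2 * l ≤ L) :
    ε / (L + 1) + ε / (6 * l) ≤ ε / (l + 1) := by
  have h1 : (1 : ℝ) ≤ l := by exact_mod_cast hl
  have h2 : 2 * (l : ℝ) ≤ L := by exact_mod_cast hL
  have h3 : ε / ((L : ℝ) + 1) ≤ ε / (2 * l + 1) := by
    apply div_le_div_of_nonneg_left hε.le (by linarith) (by linarith)
  have h4 : ε / (2 * (l : ℝ) + 1) + ε / (6 * l) ≤ ε / (l + 1) := by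
    have h5 : ε / (l + 1) - ε / (2 * (l : ℝ) + 1) - ε / (6 * l)
        = ε * (6 * l ^ 2 - (l + 1) * (2 * l + 1)) / (6 * l * (l + 1) * (2 * l + 1)) := by
      field_simp
      ring
    have h6 : 0 ≤ ε * (6 * (l : ℝ) ^ 2 - (l + 1) * (2 * l + 1)) /
        (6 * l * (l + 1) * (2 * l + 1)) := by
      apply div_nonneg
      · apply mul_nonneg hε.le
        nlinarith
      · positivity
    linarith
  linarith

private lemma sta_pow (E a p : ℕ) (hp : 1 ≤ p) (h : a ^ (E + 1) ≤ p) : a ^ E ≤ p := by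
  rcases Nat.eq_zero_or_pos a with h0 | h0
  · subst h0
    rcases Nat.eq_zero_or_pos E with h1 | h1
    · subst h1
      simpa using hp
    · rw [Nat.zero_pow h1]
      omega
  · exact (Nat.pow_le_pow_right h0 (Nat.le_succ E)).trans h

private lemma sta_base (n C₂ F : ℕ) (hn : 4 * C₂ + 1 ≤ n) (ρ : ℕ) (hF : 1 ≤ F)
    (hρ : ρ ^ F ≤ n) : (ρ + C₂ * (n + 1) ^ 2) ^ F ≤ n ^ (4 * F) := by
  have h1 : ρ ≤ n := by
    by_contra hcon
    push Not at hcon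
    have h2 : ρ ^ 1 ≤ ρ ^ F := Nat.pow_le_pow_right (by omega) hF
    rw [pow_one] at h2
    omega
  rw [pow_mul]
  apply Nat.pow_le_pow_left
  have h3 : (n + 1) ^ 2 ≤ 4 * n ^ 2 := by nlinarith
  have h4 : C₂ * (n + 1) ^ 2 ≤ C₂ * (4 * n ^ 2) := Nat.mul_le_mul_left _ h3
  have h5 : n ≤ n ^ 2 := by nlinarith
  have h6 : (4 * C₂ + 1) * n ^ 2 ≤ n * n ^ 2 := Nat.mul_le_mul_right _ hn
  have h7 : n * n ^ 2 ≤ n * (n * n ^ 2) := Nat.le_mul_of_pos_left _ (by omega)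
  calc ρ + C₂ * (n + 1) ^ 2 ≤ n ^ 2 + C₂ * (4 * n ^ 2) := by omega
    _ = (4 * C₂ + 1) * n ^ 2 := by ring
    _ ≤ n * (n * n ^ 2) := h6.trans h7
    _ = n ^ 4 := by ring

private lemma sta_step (s p F ρ R : ℕ) (hs : 2 ^ F ≤ s) (hp : s ^ 2 ≤ p) (hρ : ρ ^ F ≤ s)
    (hR : R ^ F ≤ s) : (ρ + R) ^ F ≤ p := by
  have h1 : (ρ + R) ^ F ≤ (2 * max ρ R) ^ F := by
    apply Nat.pow_le_pow_left
    have h2 := le_max_left ρ R
    have h3 := le_max_right ρ R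
    omega
  have h2 : (max ρ R) ^ F ≤ s := by
    rcases max_choice ρ R with h | h <;> rw [h] <;> assumption
  calc (ρ + R) ^ F ≤ (2 * max ρ R) ^ F := h1
    _ = 2 ^ F * (max ρ R) ^ F := mul_pow _ _ _
    _ ≤ s * s := Nat.mul_le_mul hs h2
    _ = s ^ 2 := by ring
    _ ≤ p := hp

private lemma sta_sqrt (p P : ℕ) (hP : 3 ≤ P) (hp : P ^ 2 ≤ p) :
    P ≤ Nat.sqrt p ∧ Nat.sqrt p < p ∧ (Nat.sqrt p) ^ 2 ≤ p ∧ p ≤ (Nat.sqrt p) ^ 3 := by
  have h1 : P ≤ Nat.sqrt p := by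
    rw [Nat.le_sqrt']
    exact hp
  have h2 : (Nat.sqrt p) ^ 2 ≤ p := Nat.sqrt_le' p
  have h3 : p < (Nat.sqrt p + 1) ^ 2 := Nat.lt_succ_sqrt' p
  set s := Nat.sqrt p with hs
  refine ⟨h1, ?_, h2, ?_⟩
  · nlinarith
  · have h4 : (s + 1) ^ 2 ≤ s ^ 3 := by
      have h5 : 3 * s ^ 2 ≤ s * s ^ 2 := Nat.mul_le_mul_right _ (by omega)
      nlinarith
    omega

/-- the claim of the induction -/
private def StaC {Γ : Type} [Group Γ] [DecidableEq Γ] (G : SimpleGraph Γ) [G.LocallyFinite]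
    (κ ε : ℝ) (F p : ℕ) : Prop :=
  ∃ T : Finset (Sym2 Γ), (T : Set (Sym2 Γ)) ⊆ G.edgeSet ∧ T.card ≤ p ∧
    (∀ u ∈ insert 1 (vert T), G.dist 1 u ^ F ≤ p) ∧
    ∀ W : Finset Γ, Adm 1 T W → (κ - ε + ε / (Nat.log 2 p + 1)) * p ≤ cut G W

private lemma sta_ind {Γ : Type} [Group Γ] [DecidableEq Γ] (G : SimpleGraph Γ) [G.LocallyFinite]
    (κ ε C₁ : ℝ) (F s₀ s p l₀ : ℕ) (hε : 0 < ε) (hκ : ε < κ) (hF : 1 ≤ F)
    (hl₀ : 1 ≤ l₀) (hl : ∀ l : ℕ, l₀ ≤ l → 6 * C₁ * l ≤ ε * (√2) ^ l)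
    (hcmp : ∀ s : ℕ, s₀ ≤ s → ∀ (κ' : ℝ) (T0 : Finset (Sym2 Γ)) (R1 : ℕ), 0 ≤ κ' → κ' ≤ κ →
      (T0 : Set (Sym2 Γ)) ⊆ G.edgeSet → T0.card ≤ s →
      (∀ u ∈ insert 1 (vert T0), G.dist 1 u ≤ R1) → (∀ W, Adm 1 T0 W → κ' * s ≤ cut G W) →
      ∀ p : ℕ, s ^ 2 ≤ p → p ≤ s ^ 3 → ∃ (T : Finset (Sym2 Γ)) (ρ : ℕ), ρ ^ F ≤ s ∧
        (T : Set (Sym2 Γ)) ⊆ G.edgeSet ∧ T.card ≤ p ∧ (∀ u ∈ vert T, G.dist 1 u ≤ ρ + R1) ∧
        ∀ W, Adm 1 T W → (κ' - C₁ / Real.sqrt s) * p ≤ cut G W)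
    (hs0 : s₀ ≤ s) (hsl : 2 ^ l₀ ≤ s) (hsF : 2 ^ F ≤ s) (hsp : s ^ 2 ≤ p) (hps : p ≤ s ^ 3)
    (hs : StaC G κ ε F s) : StaC G κ ε F p := by
  obtain ⟨T0, hT0, hT0c, hT0r, hT0cut⟩ := hs
  have hspos : 0 < s := lt_of_lt_of_le (by positivity) hsl
  -- the radius
  obtain ⟨u₀, hu₀, hmax⟩ := Finset.exists_max_image (insert 1 (vert T0)) (fun u => G.dist 1 u)
    (Finset.insert_nonempty _ _)
  have hR1 : G.dist 1 u₀ ^ F ≤ s := hT0r u₀ hu₀
  -- the logarithms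
  set l : ℕ := Nat.log 2 s with hldef
  have hll : l₀ ≤ l := Nat.le_log_of_pow_le (by norm_num) hsl
  have hl1 : 1 ≤ l := hl₀.trans hll
  have h2l : 2 ^ l ≤ s := Nat.pow_log_le_self 2 hspos.ne'
  have hL : 2 * l ≤ Nat.log 2 p := by
    apply Nat.le_log_of_pow_le (by norm_num)
    calc 2 ^ (2 * l) = (2 ^ l) ^ 2 := by rw [mul_comm, pow_mul]
      _ ≤ s ^ 2 := Nat.pow_le_pow_left h2l 2
      _ ≤ p := hsp
  have hlpos : (0 : ℝ) < (l : ℝ) + 1 := by positivity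
  have hκ'le : κ - ε + ε / ((l : ℝ) + 1) ≤ κ := by
    have h1 : ε / ((l : ℝ) + 1) ≤ ε := div_le_self hε.le (by
      have : (0 : ℝ) ≤ l := Nat.cast_nonneg _
      linarith)
    linarith
  have hκ'0 : 0 ≤ κ - ε + ε / ((l : ℝ) + 1) := by
    have h1 : 0 ≤ ε / ((l : ℝ) + 1) := by positivity
    linarith
  obtain ⟨T, ρ, hρ, hT, hTc, hTr, hTcut⟩ := hcmp s hs0 _ T0 (G.dist 1 u₀) hκ'0 hκ'le hT0 hT0c
    hmax hT0cut p hsp hps
  refine ⟨T, hT, hTc, ?_, ?_⟩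
  · intro u hu
    rw [mem_insert] at hu
    rcases hu with rfl | hu
    · rw [SimpleGraph.dist_self, Nat.zero_pow hF]
      exact Nat.zero_le _
    · exact (Nat.pow_le_pow_left (hTr u hu) F).trans
        (sta_step s p F ρ _ hsF hsp hρ hR1)
  · intro W hW
    refine le_trans ?_ (hTcut W hW)
    apply mul_le_mul_of_nonneg_right _ (Nat.cast_nonneg _)
    have h1 := sta_frac ε hε l (Nat.log 2 p) hl1 hL
    have h2 : C₁ / √(s : ℝ) ≤ ε / (6 * l) := by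
      have h3 : (√2) ^ l ≤ √(s : ℝ) := by
        apply Real.le_sqrt_of_sq_le
        rw [← pow_mul, mul_comm, pow_mul, Real.sq_sqrt (by norm_num)]
        exact_mod_cast h2l
      have h4 : (0 : ℝ) < (√2) ^ l := by positivity
      have h5 : (0 : ℝ) < l := by exact_mod_cast hl1
      rw [div_le_div_iff₀ (h4.trans_le h3) (by positivity)]
      have h6 := hl l hll
      calc C₁ * (6 * l) = 6 * C₁ * l := by ring
        _ ≤ ε * (√2) ^ l := h6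
        _ ≤ ε * √(s : ℝ) := mul_le_mul_of_nonneg_left h3 hε.le
    linarith

theorem thm_Sta (h1 : St_Blk) (h2 : St_Cmp) : St_Sta := by
  intro Γ _ _ G _ d v h κ hfr ε hε E
  rcases le_or_gt κ ε with hκ | hκ
  · refine ⟨0, fun p _ => ⟨∅, by simp, by simp, by simp [vert], fun W _ => ?_⟩⟩
    have ha : (κ - ε) * (p : ℝ) ≤ 0 := mul_nonpos_of_nonpos_of_nonneg (by linarith)
      (Nat.cast_nonneg _)
    exact ha.trans (Nat.cast_nonneg _)
  have hκ0 : 0 < κ := hε.trans hκ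
  set F : ℕ := E + 1 with hFdef
  have hF : 1 ≤ F := by omega
  obtain ⟨C₂, hblk⟩ := h1 Γ G d v h
  obtain ⟨Ca, sa, hCa, hcmpa⟩ := h2 Γ G d v h κ (8 * F) F
  obtain ⟨Cb, sb, hCb, hcmpb⟩ := h2 Γ G d v h κ 3 F
  obtain ⟨l₀, hl₀, hl⟩ := sta_ev Cb ε hε
  obtain ⟨n, hn, hcap⟩ := (frequently_atTop.1 hfr)
    (sa + sb + (4 * C₂ + 1) + 3 + 2 ^ l₀ + ⌈(2 * Ca / ε) ^ 2⌉₊)
  have hpw : 0 < 2 ^ l₀ := by positivity
  have hn1 : sa ≤ n := by omega
  have hn2 : sb ≤ n := by omega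
  have hn3 : 4 * C₂ + 1 ≤ n := by omega
  have hn4 : 3 ≤ n := by omega
  have hn5 : 2 ^ l₀ ≤ n := by omega
  have hn6 : ⌈(2 * Ca / ε) ^ 2⌉₊ ≤ n := by omega
  have hn7 : Ca / √(n : ℝ) ≤ ε / 2 := by
    have ha : (2 * Ca / ε) ^ 2 ≤ n := (Nat.le_ceil _).trans (by exact_mod_cast hn6)
    have hb : 2 * Ca / ε ≤ √(n : ℝ) := Real.le_sqrt_of_sq_le ha
    have hc : 0 < √(n : ℝ) := lt_of_lt_of_le (by positivity) hb
    rw [div_le_iff₀ hε] at hb
    rw [div_le_div_iff₀ hc (by norm_num)]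
    linarith
  obtain ⟨M1, hM1, hM1c, hM1r, hM1cut⟩ := hblk n (κ * n) hcap
  set P : ℕ := n ^ (4 * F) with hP
  have hnP : n ≤ P := Nat.le_self_pow (by omega) n
  have hP3 : 3 ≤ P := hn4.trans hnP
  have hPF : 2 ^ F ≤ P := by
    rw [hP]
    calc 2 ^ F ≤ n ^ F := Nat.pow_le_pow_left (by omega) F
      _ ≤ n ^ (4 * F) := Nat.pow_le_pow_right (by omega) (by omega)
  have claim : ∀ p : ℕ, P ≤ p → StaC G κ ε F p := by
    intro p
    induction p using Nat.strong_induction_on with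
    | _ p ih =>
      intro hp
      rcases le_or_gt (P ^ 2) p with hp2 | hp2
      · obtain ⟨ha, hb, hc, hd⟩ := sta_sqrt p P hP3 hp2
        refine sta_ind G κ ε Cb F sb (Nat.sqrt p) p l₀ hε hκ hF hl₀ hl hcmpb
          ((hn2.trans hnP).trans ha) ((hn5.trans hnP).trans ha) (hPF.trans ha) hc hd
          (ih _ hb ha)
      · have hsp : n ^ 2 ≤ p := by
          refine le_trans ?_ hp
          exact Nat.pow_le_pow_right (by omega) (by omega)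
        have hps : p ≤ n ^ (8 * F) := by
          refine hp2.le.trans ?_
          rw [hP, ← pow_mul]
          exact Nat.pow_le_pow_right (by omega) (by omega)
        obtain ⟨T, ρ, hρ, hT, hTc, hTr, hTcut⟩ := hcmpa n hn1 κ M1 _ hκ0.le le_rfl hM1 hM1c
          hM1r hM1cut p hsp hps
        refine ⟨T, hT, hTc, ?_, ?_⟩
        · intro u hu
          rw [mem_insert] at hu
          rcases hu with rfl | hu
          · rw [SimpleGraph.dist_self, Nat.zero_pow hF]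
            exact Nat.zero_le _
          · exact ((Nat.pow_le_pow_left (hTr u hu) F).trans
              (sta_base n C₂ F hn3 ρ hF hρ)).trans hp
        · intro W hW
          refine le_trans ?_ (hTcut W hW)
          apply mul_le_mul_of_nonneg_right _ (Nat.cast_nonneg _)
          have ha : 1 ≤ Nat.log 2 p := by
            apply Nat.le_log_of_pow_le (by norm_num)
            omega
          have hb : (1 : ℝ) ≤ (Nat.log 2 p : ℝ) := by exact_mod_cast ha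
          have hc : ε / ((Nat.log 2 p : ℝ) + 1) ≤ ε / 2 := by
            apply div_le_div_of_nonneg_left hε.le (by norm_num) (by linarith)
          linarith
  refine ⟨P, fun p hp => ?_⟩
  obtain ⟨T, hT, hTc, hTr, hTcut⟩ := claim p hp
  refine ⟨T, hT, hTc, fun u hu => ?_, fun W hW => ?_⟩
  · exact sta_pow E _ p (by omega) (hTr u (mem_insert_of_mem hu))
  · refine le_trans ?_ (hTcut W hW)
    apply mul_le_mul_of_nonneg_right _ (Nat.cast_nonneg _)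
    have ha : 0 ≤ ε / ((Nat.log 2 p : ℝ) + 1) := by positivity
    linarith

end Pool.Agent.ISP
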