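import Pool.Agent.ISP.St

/-!
# The cut bound for a star of blocks
-/

set_option autoImplicit false

namespace Pool.Agent.ISP

open Finset Filter Pool.Agent.Helper30.Perc Pool.Agent.Helper22.PG
open Pool.Agent.SIM (MinAdm)

section

variable {Γ : Type} [Group Γ] [DecidableEq Γ] {G : SimpleGraph Γ}

/-- the star of blocks -/
def str_T (T0 : Finset (Sym2 Γ)) (m : ℕ) (g : ℕ → Γ) (π : ∀ j, G.Walk 1 (g j)) :
    Finset (Sym2 Γ) :=
  (range m).biUnion fun j => T0.image (Sym2.map fun x => g j * x) ∪ (π j).edges.toFinset

lemma str_mem_vert (T0 : Finset (Sym2 Γ)) (m : ℕ) (g : ℕ → Γ) (π : ∀ j, G.Walk 1 (g j)) (u : Γ)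
    (hu : u ∈ vert (str_T T0 m g π)) :
    ∃ j < m, u ∈ (π j).support ∨ ∃ u0 ∈ insert 1 (vert T0), g j * u0 = u := by
  rw [mem_vert] at hu
  obtain ⟨e, he, hue⟩ := hu
  rw [str_T, mem_biUnion] at he
  obtain ⟨j, hj, he⟩ := he
  refine ⟨j, mem_range.1 hj, ?_⟩
  rw [mem_union] at he
  rcases he with he | he
  · right
    rw [mem_image] at he
    obtain ⟨e', he', rfl⟩ := he
    rw [Sym2.mem_map] at hue
    obtain ⟨u0, h1, h2⟩ := hue
    exact ⟨u0, mem_insert_of_mem ((mem_vert _ _).2 ⟨e', he', h1⟩), h2⟩
  · left
    rw [List.mem_toFinset] at he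
    exact (π j).mem_support_of_mem_edges he hue

end

theorem thm_Str : St_Str := by
  intro Γ _ _ G _ d v h ψ hψ hmin T0 s R1 ρ R0 Rθ m C0 g π hT0 hT0s hR1 hC0 hπ hρ hg1 hg2 n1 n2
  have hsupp : ∀ j < m, ∀ u ∈ (π j).support, G.dist 1 u ≤ ρ := by
    intro j hj u hu
    obtain ⟨k, hk, hkl⟩ := SimpleGraph.Walk.mem_support_iff_exists_getVert.1 hu
    have h2 := dist_getVert_le h.conn (π j) 0 k (Nat.zero_le _)
    rw [(π j).getVert_zero, hk] at h2
    have h3 := hπ j
    have h4 := hρ j hj
    omega
  have hV1c : (insert 1 (vert T0)).card ≤ 2 * s + 1 := by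
    have h1 := card_vert T0
    have h2 : (insert 1 (vert T0)).card ≤ (vert T0).card + 1 := card_insert_le _ _
    omega
  set T := str_T T0 m g π with hT
  have hblock : ∀ j < m, ∀ e ∈ T0.image (Sym2.map fun x => g j * x) ∪ (π j).edges.toFinset,
      e ∈ T := by
    intro j hj e he
    rw [hT, str_T, mem_biUnion]
    exact ⟨j, mem_range.2 hj, he⟩
  refine ⟨T, ?_, ?_, ?_, ?_⟩
  · intro e he
    rw [mem_coe, hT, str_T, mem_biUnion] at he
    obtain ⟨j, -, he⟩ := he
    rw [mem_union] at he
    rcases he with he | he
    · rw [mem_image] at he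
      obtain ⟨e', he', rfl⟩ := he
      have h1 := hT0 he'
      induction e' using Sym2.ind with
      | _ a b =>
        rw [SimpleGraph.mem_edgeSet] at h1
        rw [Sym2.map_mk, SimpleGraph.mem_edgeSet]
        exact (h.inv _ _ _).2 h1
    · rw [List.mem_toFinset] at he
      exact (π j).edges_subset_edgeSet he
  · rw [hT, str_T]
    refine card_biUnion_le.trans ?_
    calc ∑ j ∈ range m, (T0.image (Sym2.map fun x => g j * x) ∪ (π j).edges.toFinset).card
        ≤ ∑ _j ∈ range m, (s + ρ) := by
          refine sum_le_sum fun j hj => (card_union_le _ _).trans (add_le_add ?_ ?_)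
          · exact card_image_le.trans hT0s
          · refine (List.toFinset_card_le _).trans ?_
            rw [SimpleGraph.Walk.length_edges, hπ j]
            exact hρ j (mem_range.1 hj)
      _ = m * (s + ρ) := by rw [sum_const, card_range, smul_eq_mul]
  · intro u hu
    obtain ⟨j, hj, hju⟩ := str_mem_vert T0 m g π u hu
    rcases hju with hju | ⟨u0, hu0, rfl⟩
    · have := hsupp j hj u hju
      omega
    · have h1 := h.dist_mul_le (g j) u0
      have h2 := hρ j hj
      have h3 := hR1 u0 hu0
      omega
  · suffices hsuf : ∀ W, MinAdm G 1 T W →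
        (m : ℝ) * C0 ≤ cut G W + m * (d * ((ρ + 1) * v Rθ)) by
      intro W hW
      obtain ⟨W0, hW0⟩ := hmin 1 T
      have h1 := (hW0.2 W hW).1
      have h2 : (cut G W0 : ℝ) ≤ cut G W := by exact_mod_cast h1
      exact (hsuf W0 hW0).trans (by linarith)
    intro W hWmin
    have hW := hWmin.1
    set U : ℕ → Finset Γ := fun j => (insert 1 (vert T0)).biUnion fun u => bl G (g j * u) R0
      with hU
    have hUmem : ∀ j x, x ∈ U j ↔ ∃ u ∈ insert 1 (vert T0), G.dist (g j * u) x ≤ R0 := by
      intro j x
      simp only [hU, mem_biUnion, mem_bl h.conn]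
    have hV0U : ∀ j, ∀ u ∈ insert 1 (vert T0), g j * u ∈ U j := by
      intro j u hu
      rw [hUmem]
      exact ⟨u, hu, by simp⟩
    have hroot : ∀ j < m, g j ∈ W := by
      intro j hj
      refine walk_closed T W hW.2 (π j) ?_ hW.1
      intro e he
      refine hblock j hj e ?_
      rw [mem_union, List.mem_toFinset]
      exact Or.inr he
    -- each block
    have hcutj : ∀ j < m, C0 ≤ cut G (W ∩ U j) := by
      intro j hj
      refine h.adm_mul (g j) T0 C0 hC0 (W ∩ U j) ?_ ?_
      · rw [mem_inter]
        refine ⟨hroot j hj, ?_⟩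
        have := hV0U j 1 (mem_insert_self _ _)
        rwa [mul_one] at this
      · intro a b hab ha
        rw [mem_inter] at ha ⊢
        refine ⟨hW.2 (g j * a) _ (hblock j hj _ ?_) ha.1, hV0U j b ?_⟩
        · rw [mem_union, mem_image]
          exact Or.inl ⟨s(a, b), hab, by simp⟩
        · rw [mem_insert, mem_vert]
          exact Or.inr ⟨_, hab, by simp⟩
    have hdisj : ∀ j < m, ∀ j' < m, j ≠ j' → ∀ x ∈ U j, ∀ b ∈ U j', 1 < G.dist x b := by
      intro j hj j' hj' hne x hx b hb
      rw [hUmem] at hx hb
      obtain ⟨u, hu, h1⟩ := hx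
      obtain ⟨u', hu', h2⟩ := hb
      have h3 := hg2 j hj j' hj' hne u hu u' hu'
      have h4 := h.conn.dist_triangle (u := g j * u) (v := x) (w := g j' * u')
      have h5 := h.conn.dist_triangle (u := x) (v := b) (w := g j' * u')
      rw [SimpleGraph.dist_comm (u := b)] at h5
      omega
    set Y : Finset Γ := (range m).biUnion fun j =>
      (π j).support.toFinset.biUnion fun u => bl G u Rθ with hY
    have hYc : Y.card ≤ m * ((ρ + 1) * v Rθ) := by
      refine card_biUnion_le.trans ?_
      calc ∑ j ∈ range m, ((π j).support.toFinset.biUnion fun u => bl G u Rθ).card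
          ≤ ∑ _j ∈ range m, (ρ + 1) * v Rθ := by
            refine sum_le_sum fun j hj => card_biUnion_le.trans ?_
            rw [mem_range] at hj
            calc ∑ u ∈ (π j).support.toFinset, (bl G u Rθ).card
                = (π j).support.toFinset.card * v Rθ := by
                  rw [sum_congr rfl fun u _ => h.vol u Rθ, sum_const, smul_eq_mul]
              _ ≤ _ := by
                  refine Nat.mul_le_mul_right _ ((card_support_le _).trans ?_)
                  have h6 := hπ j
                  have h7 := hρ j hj
                  omega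
        _ = m * ((ρ + 1) * v Rθ) := by rw [sum_const, card_range, smul_eq_mul]
    -- the number of vertices of the template
    have hV0c : (insert 1 (vert T)).card ≤ m * (ρ + 2 * s + 2) + 1 := by
      refine (card_insert_le _ _).trans (Nat.add_le_add_right ?_ 1)
      have hsub : vert T ⊆ (range m).biUnion fun j =>
          (π j).support.toFinset ∪ (insert 1 (vert T0)).image fun x => g j * x := by
        intro u hu
        obtain ⟨j, hj, hju⟩ := str_mem_vert T0 m g π u hu
        rw [mem_biUnion]
        refine ⟨j, mem_range.2 hj, ?_⟩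
        rw [mem_union, List.mem_toFinset, mem_image]
        exact hju
      refine (card_le_card hsub).trans (card_biUnion_le.trans ?_)
      calc ∑ j ∈ range m, ((π j).support.toFinset ∪
            (insert 1 (vert T0)).image fun x => g j * x).card
          ≤ ∑ _j ∈ range m, (ρ + 2 * s + 2) := by
            refine sum_le_sum fun j hj => (card_union_le _ _).trans ?_
            have h1 := card_support_le (π j)
            have h2 := hπ j
            have h3 := hρ j (mem_range.1 hj)
            have h4 : ((insert 1 (vert T0)).image fun x => g j * x).card ≤ 2 * s + 1 :=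
              card_image_le.trans hV1c
            omega
        _ = m * (ρ + 2 * s + 2) := by rw [sum_const, card_range, smul_eq_mul]
    have hbY : ∀ j < m, ∀ a ∈ U j, ∀ b ∈ W, b ∉ U j → G.Adj a b → b ∈ Y := by
      intro j hj a haU b hbW hbU hab
      have hab1 : G.dist a b = 1 := SimpleGraph.dist_eq_one_iff_adj.2 hab
      obtain ⟨u1, hu1, h1⟩ := (hUmem j a).1 haU
      obtain ⟨r, hr⟩ := hψ 1 T W hWmin b hbW
      have hrR : r ≤ R0 := by
        by_contra hcon
        have h2 := n1 r (by omega)
        have h3 : ((insert 1 (vert T)) ∩ bl G b r).card ≤ (insert 1 (vert T)).card :=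
          card_le_card inter_subset_left
        omega
      have hsub : (insert 1 (vert T)) ∩ bl G b r ⊆ (π j).support.toFinset ∩ bl G b r := by
        intro u hu
        rw [mem_inter] at hu ⊢
        refine ⟨?_, hu.2⟩
        have hur := (mem_bl h.conn _ _ _).1 hu.2
        rw [List.mem_toFinset]
        rcases mem_insert.1 hu.1 with rfl | huT
        · exact (π j).start_mem_support
        have h4 := h.conn.dist_triangle (u := g j * u1) (v := a) (w := u)
        have h5 := h.conn.dist_triangle (u := a) (v := b) (w := u)
        obtain ⟨i, hi, hiu⟩ := str_mem_vert T0 m g π u huT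
        by_cases hij : i = j
        · subst hij
          rcases hiu with hiu | ⟨u0, hu0, rfl⟩
          · exact hiu
          · exfalso
            apply hbU
            rw [hUmem]
            refine ⟨u0, hu0, ?_⟩
            rw [SimpleGraph.dist_comm]
            omega
        · exfalso
          rcases hiu with hiu | ⟨u0, hu0, rfl⟩
          · have h6 := hg1 i hi j hj hij u hiu u1 hu1
            rw [SimpleGraph.dist_comm] at h6
            omega
          · have h6 := hg2 i hi j hj hij u0 hu0 u1 hu1
            rw [SimpleGraph.dist_comm] at h6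
            omega
      have hcard := card_le_card hsub
      have hπc := card_support_ball h.conn (π j) (hπ j) b r
      have hrT : r ≤ Rθ := by
        by_contra hcon
        have h2 := n2 r (by omega)
        omega
      have hne : ((π j).support.toFinset ∩ bl G b r).Nonempty := by
        rw [← card_pos]
        omega
      obtain ⟨u, hu⟩ := hne
      rw [mem_inter, List.mem_toFinset, mem_bl h.conn] at hu
      rw [hY, mem_biUnion]
      refine ⟨j, mem_range.2 hj, ?_⟩
      rw [mem_biUnion]
      refine ⟨u, List.mem_toFinset.2 hu.1, ?_⟩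
      rw [mem_bl h.conn, SimpleGraph.dist_comm]
      omega
    have hsplit : ∀ j ∈ range m, cut G (W ∩ U j) ≤
        ∑ a ∈ W ∩ U j, ((G.neighborFinset a \ W).card + (G.neighborFinset a ∩ Y).card) := by
      intro j hj
      rw [mem_range] at hj
      unfold cut
      refine sum_le_sum fun a ha => ?_
      refine le_trans (card_le_card ?_) (card_union_le _ _)
      intro b hb
      rw [Finset.mem_sdiff, SimpleGraph.mem_neighborFinset, mem_inter] at hb
      rw [mem_union, Finset.mem_sdiff, SimpleGraph.mem_neighborFinset, mem_inter,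
        SimpleGraph.mem_neighborFinset]
      by_cases hbW : b ∈ W
      · right
        exact ⟨hb.1, hbY j hj a (mem_inter.1 ha).2 b hbW (fun h => hb.2 ⟨hbW, h⟩) hb.1⟩
      · exact Or.inl ⟨hb.1, hbW⟩
    have hpd : (↑(range m) : Set ℕ).PairwiseDisjoint fun j => W ∩ U j := by
      intro j hj j' hj' hne
      rw [Function.onFun, disjoint_left]
      intro x hx hx'
      have := hdisj j (mem_range.1 hj) j' (mem_range.1 hj') hne x (mem_inter.1 hx).2 x
        (mem_inter.1 hx').2
      simp at this
    have htot : ∑ j ∈ range m, ∑ a ∈ W ∩ U j,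
        ((G.neighborFinset a \ W).card + (G.neighborFinset a ∩ Y).card) ≤
        cut G W + Y.card * d := by
      classical
      rw [← sum_biUnion hpd]
      refine (sum_le_sum_of_subset (t := W) ?_).trans ?_
      · intro a ha
        rw [mem_biUnion] at ha
        obtain ⟨j, -, ha⟩ := ha
        exact (mem_inter.1 ha).1
      · rw [sum_add_distrib]
        refine Nat.add_le_add_left ?_ _
        calc ∑ a ∈ W, (G.neighborFinset a ∩ Y).card
            = ∑ a ∈ W, ∑ b ∈ Y, if G.Adj a b then 1 else 0 := by
              refine sum_congr rfl fun a _ => ?_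
              rw [← card_filter]
              have e : G.neighborFinset a ∩ Y = Y.filter fun b => G.Adj a b := by
                ext b
                rw [mem_inter, SimpleGraph.mem_neighborFinset, mem_filter, and_comm]
              rw [e]
          _ = ∑ b ∈ Y, ∑ a ∈ W, if G.Adj a b then 1 else 0 := sum_comm
          _ ≤ ∑ _b ∈ Y, d := by
              refine sum_le_sum fun b _ => ?_
              rw [← card_filter]
              refine le_trans (card_le_card ?_) (h.deg b)
              intro a ha
              rw [mem_filter] at ha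
              rw [SimpleGraph.mem_neighborFinset]
              exact ha.2.symm
          _ = Y.card * d := by rw [sum_const, smul_eq_mul]
    have hnat : ∑ j ∈ range m, cut G (W ∩ U j) ≤ cut G W + m * (d * ((ρ + 1) * v Rθ)) := by
      refine (sum_le_sum hsplit).trans (htot.trans (Nat.add_le_add_left ?_ _))
      calc Y.card * d ≤ m * ((ρ + 1) * v Rθ) * d := Nat.mul_le_mul_right _ hYc
        _ = _ := by ring
    have hnat' : (∑ j ∈ range m, (cut G (W ∩ U j) : ℝ)) ≤
        cut G W + m * (d * ((ρ + 1) * v Rθ)) := by
      exact_mod_cast hnat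
    refine le_trans ?_ hnat'
    calc (m : ℝ) * C0 = ∑ _j ∈ range m, C0 := by rw [sum_const, card_range, nsmul_eq_mul]
      _ ≤ ∑ j ∈ range m, (cut G (W ∩ U j) : ℝ) :=
        sum_le_sum fun j hj => hcutj j (mem_range.1 hj)

end Pool.Agent.ISP
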