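import Pool.Agent.ISP.St

/-!
# ISP/Tn0 (helper96): one move of Maker, first half
-/

set_option autoImplicit false

namespace Pool.Agent.ISP

open Finset Filter Pool.Agent.Helper30.Perc Pool.Agent.Helper22.PG
open Pool.Agent.SIM (MinAdm Lv cay mem_vert_left)

section

variable {Γ : Type} [Group Γ] [DecidableEq Γ] {G : SimpleGraph Γ}

private theorem tn0_vert (g : Γ) (T : Finset (Sym2 Γ)) (u : Γ)
    (hu : u ∈ vert (T.image (Sym2.map fun x => g * x))) : ∃ a ∈ vert T, u = g * a := by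
  rw [mem_vert] at hu
  obtain ⟨e, he, hue⟩ := hu
  rw [mem_image] at he
  obtain ⟨e', he', rfl⟩ := he
  rw [Sym2.mem_map] at hue
  obtain ⟨a, ha, rfl⟩ := hue
  exact ⟨a, (mem_vert _ _).2 ⟨e', he', ha⟩, rfl⟩

omit [DecidableEq Γ] in
private theorem tn0_edge (hinv : ∀ g x y, G.Adj (g * x) (g * y) ↔ G.Adj x y) (g : Γ)
    (e : Sym2 Γ) (he : e ∈ G.edgeSet) : Sym2.map (fun x => g * x) e ∈ G.edgeSet := by
  induction e using Sym2.ind with
  | _ a b =>
    rw [Sym2.map_mk]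
    exact (hinv g a b).2 he

end

private theorem tn0_delta (κ ε : ℝ) (hε : 0 < ε) (hκ : ε < κ) :
    ∃ δ : ℝ, 0 < δ ∧ δ ≤ 1 / 2 ∧ κ * δ ≤ ε / 8 := by
  have hκ0 : 0 < κ := hε.trans hκ
  refine ⟨ε / (8 * (κ + 1)), by positivity, ?_, ?_⟩
  · rw [div_le_div_iff₀ (by positivity) (by norm_num)]
    linarith
  · rw [← mul_div_assoc, div_le_div_iff₀ (by positivity) (by norm_num)]
    nlinarith

/-- `St_Tn0` -/
theorem thm_Tn0 (h1 : St_Rch) : St_Tn0 := by
  intro Γ _ _ G _ d v h κ hS ε hε hεκ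
  obtain ⟨δ, hδ0, hδ2, hδκ⟩ := tn0_delta κ ε hε hεκ
  have hκ0 : 0 < κ := hε.trans hεκ
  refine ⟨δ, hδ0, ?_⟩
  intro A E hE
  obtain ⟨pS, hpS⟩ := hS (ε / 4) (by linarith) E
  obtain ⟨pR, hpR⟩ := h1 Γ G d v h κ (ε / 2) (by linarith) A E hE
  refine ⟨max (2 * pS) pR, ?_⟩
  intro p hp q hq k₀ hk₀ σ hσ M B y hPos hAt hB
  have hp1 : 2 * pS ≤ p := (le_max_left _ _).trans hp
  have hp2 : pR ≤ p := (le_max_right _ _).trans hp
  have hpos : (0 : ℝ) ≤ p := Nat.cast_nonneg _
  have hk1 : (k₀ : ℝ) ≤ p / 2 := by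
    have h5 : δ * p ≤ 1 / 2 * p := mul_le_mul_of_nonneg_right hδ2 hpos
    linarith
  have hkp : k₀ ≤ p := by
    have : (k₀ : ℝ) ≤ p := by linarith
    exact_mod_cast this
  obtain ⟨p', hp'⟩ := Nat.exists_eq_add_of_le hkp
  have hp'r : (p : ℝ) = k₀ + p' := by
    have := congrArg (fun n : ℕ => (n : ℝ)) hp'
    push_cast at this
    exact this
  have hp'S : pS ≤ p' := by
    have h5 : (2 * pS : ℝ) ≤ p := by exact_mod_cast hp1
    have : (pS : ℝ) ≤ p' := by linarith
    exact_mod_cast this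
  have hp'p : p' ≤ p := by omega
  obtain ⟨T, hTE, hTc, hTv, hTcut⟩ := hpS p' hp'S
  have hmain : (q : ℝ) + ε / 2 * p ≤ (κ - ε / 4) * p' := by
    have h5 : (p : ℝ) - δ * p ≤ p' := by linarith
    have h6 : (κ - ε / 4) * ((p : ℝ) - δ * p) ≤ (κ - ε / 4) * p' :=
      mul_le_mul_of_nonneg_left h5 (by linarith)
    have h7 : 0 ≤ δ * p := by positivity
    have h8 : κ * δ * p ≤ ε / 8 * p := mul_le_mul_of_nonneg_right hδκ hpos
    have h9 : 0 ≤ ε / 4 * (δ * p) := by positivity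
    have h10 : (κ - ε / 4) * ((p : ℝ) - δ * p) = κ * p - ε / 4 * p - κ * δ * p + ε / 4 * (δ * p) := by
      ring
    have h11 : 0 ≤ ε * p := by positivity
    nlinarith
  obtain ⟨hME, hBE, hMB⟩ := hPos
  obtain ⟨X0, hX0c, hX0E, hX0B, hreach⟩ := hAt
  set T' := T.image (Sym2.map fun x => y * x) with hT'
  have hT'E : (T' : Set (Sym2 Γ)) ⊆ G.edgeSet := by
    intro e he
    rw [mem_coe, hT', mem_image] at he
    obtain ⟨e', he', rfl⟩ := he
    exact tn0_edge h.inv y e' (hTE he')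
  obtain ⟨ρ, hρ1, hρ2⟩ : ∃ ρ : ℕ, ρ ^ E ≤ p ∧ ∀ u ∈ vert T, G.dist 1 u ≤ ρ := by
    refine ⟨(vert T).sup (G.dist 1), ?_, fun u hu => Finset.le_sup hu⟩
    rcases (vert T).eq_empty_or_nonempty with h0 | h0
    · rw [h0, Finset.sup_empty]
      show 0 ^ E ≤ p
      rw [zero_pow hE.ne']
      exact Nat.zero_le _
    · obtain ⟨u, hu, he⟩ := Finset.exists_mem_eq_sup _ h0 (G.dist 1)
      rw [he]
      exact (hTv u hu).trans hp'p
  have hT'v : ∀ u ∈ vert T', G.dist y u ≤ ρ := by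
    intro u hu
    obtain ⟨a, ha, rfl⟩ := tn0_vert y T u hu
    rw [h.dist_self_mul]
    exact hρ2 a ha
  have hρσ : ρ ≤ σ := by
    have h5 := hσ ρ 0 hρ1 (by rw [zero_pow hE.ne']; exact Nat.zero_le _)
    omega
  have hT'B : Disjoint T' B := by
    rw [Finset.disjoint_left]
    intro e he heB
    induction e using Sym2.ind with
    | _ a b =>
      exact absurd ((hT'v a (mem_vert_left he)).trans hρσ) (not_le.2 (hB a (mem_vert_left heB)))
  -- the move
  set F := (X0 ∪ T') \ M with hF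
  have hFc : F.card ≤ p := by
    have h6 : T'.card ≤ p' := card_image_le.trans hTc
    calc F.card ≤ (X0 ∪ T').card := card_le_card sdiff_subset
      _ ≤ X0.card + T'.card := card_union_le _ _
      _ ≤ k₀ + p' := by omega
      _ = p := hp'.symm
  have hFE : (F : Set (Sym2 Γ)) ⊆ G.edgeSet := by
    intro e he
    rw [mem_coe, hF, Finset.mem_sdiff, mem_union] at he
    rcases he.1 with h5 | h5
    · exact hX0E h5
    · exact hT'E h5
  have hFMB : Disjoint (F : Set (Sym2 Γ)) ((M ∪ B : Finset (Sym2 Γ)) : Set (Sym2 Γ)) := by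
    rw [disjoint_coe, Finset.disjoint_left]
    intro e he heMB
    rw [hF, Finset.mem_sdiff, mem_union] at he
    rcases mem_union.1 heMB with h6 | h6
    · exact he.2 h6
    · rcases he.1 with h5 | h5
      · exact Finset.disjoint_left.1 hX0B h5 h6
      · exact Finset.disjoint_left.1 hT'B h5 h6
  obtain ⟨X, hFX, hXc, hXE, hXd⟩ := exists_move h.edge_infinite F (M ∪ B) p hFE hFMB hFc
  refine ⟨X, hXc, hXE, by rwa [disjoint_coe] at hXd, ?_⟩
  intro Y hYc hYE hYd
  have hYκ : (Y.card : ℝ) ≤ κ * p := by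
    rw [hYc]
    have h11 : 0 ≤ ε * p := by positivity
    nlinarith
  have hsub : X0 ∪ T' ⊆ M ∪ X := by
    intro e he
    by_cases heM : e ∈ M
    · exact mem_union_left _ heM
    · exact mem_union_right _ (hFX (Finset.mem_sdiff.2 ⟨he, heM⟩))
  obtain ⟨j, N, hj, hLv, hN⟩ := hpR p hp2 y T' B Y ρ σ hT'v hYκ hB
    (fun j hj => hσ ρ j hρ1 hj) (by
      intro N hN
      refine h.adm_mul y T _ ?_ N hN.1 ?_
      · intro W hW
        rw [hYc]
        exact hmain.trans (hTcut W hW)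
      · intro a b hab ha
        refine hN.2 _ _ ?_ ha
        rw [hT', mem_image]
        exact ⟨s(a, b), hab, rfl⟩)
  refine ⟨j, N, hj, hN, ?_, ?_⟩
  · intro x hx
    have h5 := hLv.di x hx
    have h6 := hσ ρ j hρ1 hj
    omega
  · intro x hx
    obtain ⟨P, hP1, hP2, hP3, hP4⟩ := hLv.re x hx
    refine ⟨P, hP1, hP2, hP3, ?_⟩
    have r1 : (SimpleGraph.fromEdgeSet
        ((M ∪ X ∪ P : Finset (Sym2 Γ)) : Set (Sym2 Γ))).Reachable 1 y := by
      refine reach_mono ?_ hreach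
      intro a ha
      rcases mem_union.1 ha with h5 | h5
      · exact mem_union_left _ (mem_union_left _ h5)
      · exact mem_union_left _ (hsub (mem_union_left _ h5))
    have r2 : (SimpleGraph.fromEdgeSet
        ((M ∪ X ∪ P : Finset (Sym2 Γ)) : Set (Sym2 Γ))).Reachable y x := by
      refine reach_mono ?_ hP4
      intro a ha
      rcases mem_union.1 ha with h5 | h5
      · exact mem_union_left _ (hsub (mem_union_right _ h5))
      · exact mem_union_right _ h5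
    exact r1.trans r2

end Pool.Agent.ISP
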