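import Pool.Agent.ISP.St

/-! ISP module Top: the invariant can be forced again. -/

set_option autoImplicit false

namespace Pool.Agent.ISP

open Finset Filter Pool.Agent.Helper30.Perc Pool.Agent.Helper22.PG

theorem thm_Top : St_Top := by
  intro Γ Q _ _ _ _ G _ H _ v' π p q k₀ σ ς ρ e τ m hS hC M B hI
  obtain ⟨hPos, k, y, hAt, hCa, hB⟩ := hI
  have ht := hS.t1 (k + 1)
  have hρ := hS.c1 (k + 1 + 1)
  have ht2 : 2 * τ (k + 1) ≤ τ (k + 2) := by
    rw [ht]
    exact Nat.mul_le_mul_right _ (by omega)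
  have hm1 := hS.m1 k
  have hm2 := hS.m1 (k + 1)
  have hv : ∀ (c : Q) (r : ℕ), (nb H π (vert B) c r).card ≤ m (k + 1) := by
    intro c r
    refine (card_nb_le _ _ _).trans ((card_vert B).trans ?_)
    rw [hm1]
    calc 2 * B.card ≤ 2 * (4 * (q + 1) * τ (k + 1)) := Nat.mul_le_mul_left _ hB
      _ = 8 * (q + 1) * τ (k + 1) := by ring
  have hmm : m (k + 1) ≤ 2 * m (k + 2) := by
    rw [hm1, hm2]
    calc 8 * (q + 1) * τ (k + 1) ≤ 8 * (q + 1) * (2 * τ (k + 2)) :=
          Nat.mul_le_mul_left _ (by omega)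
      _ = 2 * (8 * (q + 1) * τ (k + 2)) := by ring
  have hcl := hC (k + 1) M B y (π y) hPos hAt ?_ ((hv _ _).trans hmm) ?_
  · refine hcl.mono fun M' B' hF => hF.mono fun M'' B'' hG => ?_
    obtain ⟨hPos', hBB, hcard, y', hAt', -, hCa'⟩ := hG
    refine ⟨hPos', k + 1, y', hAt', hCa', ?_⟩
    calc B''.card ≤ B.card + q * τ (k + 1) := hcard
      _ ≤ 4 * (q + 1) * τ (k + 1) + q * τ (k + 1) := Nat.add_le_add_right hB _
      _ ≤ 4 * (q + 1) * (2 * τ (k + 1)) := by nlinarith [Nat.zero_le (q * τ (k + 1)), Nat.zero_le (τ (k + 1))]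
      _ ≤ 4 * (q + 1) * τ (k + 1 + 1) := Nat.mul_le_mul_left _ ht2
  · intro j hj
    rcases Nat.lt_or_ge j (k + 1) with h | h
    · exact hCa j (by omega)
    · have : j = k + 1 := by omega
      subst this
      exact hv _ _
  · simp

end Pool.Agent.ISP
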