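import Pool.Agent.ISP.Final
import Pool.Agent.ISP.Iso1
import Pool.Agent.ISP.Fgr
import Pool.Agent.ISP.Lc1
import Pool.Agent.ISP.Lc2
import Pool.Agent.ISP.Loc
import Pool.Agent.ISP.Min
import Pool.Agent.ISP.Blk
import Pool.Agent.ISP.Ind
import Pool.Agent.ISP.Str
import Pool.Agent.ISP.Plc
import Pool.Agent.ISP.Nms
import Pool.Agent.ISP.Cmp
import Pool.Agent.ISP.Sta
import Pool.Agent.ISP.Pos
import Pool.Agent.ISP.Gro
import Pool.Agent.ISP.Rch
import Pool.Agent.ISP.Tri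
import Pool.Agent.ISP.Cnt
import Pool.Agent.ISP.Tn0
import Pool.Agent.ISP.Cl0
import Pool.Agent.ISP.Flw
import Pool.Agent.ISP.Pth
import Pool.Agent.ISP.Cls
import Pool.Agent.ISP.Inf
import Pool.Agent.ISP.Top
import Pool.Agent.ISP.Gam
import Pool.Agent.ISP.Num
import Pool.Agent.ISP.Mkr
import Pool.Agent.ISP.Sst
import Pool.Agent.ISP.Fo1
import Pool.Agent.ISP.Fo2
import Pool.Agent.ISP.Rt1
import Pool.Agent.ISP.Rt2
import Pool.Agent.ISP.Rtn
import Pool.Agent.ISP.Exg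

/-!
# Percolation games on Cayley graphs of superpolynomial growth: the modules put together
-/

set_option autoImplicit false

namespace Pool.Agent.ISP

open Finset Filter Topology Pool.Agent.Helper30.Perc Pool.Agent.Helper22.PG
open Pool.Agent.SIM (cay)

theorem main_loc : St_Loc := thm_Loc thm_Fgr thm_Lc2 (thm_Lc1 thm_Iso1)

theorem main_min : St_Min := thm_Min thm_Iso1 thm_Fgr

theorem main_sta : St_Sta :=
  thm_Sta (thm_Blk main_min) (thm_Cmp main_loc thm_Nms (thm_Plc thm_Ind main_min thm_Str))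

theorem main_sst : St_Sst := thm_Sst main_sta (thm_Pos thm_Iso1 main_min main_loc)

theorem main_mkr : St_Mkr :=
  thm_Mkr (thm_Tn0 (thm_Rch thm_Iso1 thm_Gro)) (thm_Cl0 thm_Tri thm_Cnt)
    (thm_Cls thm_Flw (thm_Pth thm_Tri thm_Cnt)) (thm_Inf thm_Flw) thm_Top thm_Gam thm_Num

theorem main (Γ : Type) [Group Γ] (S : Finset Γ)
    (hS : Subgroup.closure (S : Set Γ) = ⊤) (hgr : SuperPoly S ∨ SIM.Sims Γ) :
    ∃ b : ℝ, 0 < b ∧
      (∀ v₀ : Γ, Tendsto (fun p : ℕ => (maxCap (cay S) v₀ p : ℝ) / (p : ℝ)) atTop (𝓝 b)) ∧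
      ∀ ε : ℝ, 0 < ε → ∃ p₀ : ℕ, ∀ p q : ℕ, p₀ ≤ p → ∀ v₀ : Γ,
        ((b + ε) * (p : ℝ) < (q : ℝ) → BreakerWins (cay S) v₀ p q) ∧
        (FolQuot S ∨ SIM.Sims Γ → (q : ℝ) < (b - ε) * (p : ℝ) →
          MakerWins (cay S) v₀ p q) :=
  final_of' main_sst main_mkr (thm_Fo1 thm_Iso1) thm_Fo2 (thm_Rtn thm_Rt1 thm_Rt2) thm_Exg Γ S
    hS hgr

end Pool.Agent.ISP
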