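import Pool.Agent.ISP.Basic

/-!
# Percolation games on Cayley graphs with controlled Foelner sets: frozen statements, with proofs
in the docstrings

In all statements `G` is a connected left invariant graph on the group `Γ` (`Cy G d v`).
Basic facts (translations `Cy.dist_mul`, `Cy.dist_self_mul`, `Cy.v_mono`, `Cy.v_pow`, `Cy.v_unb`,
`Cy.exists_dist_eq`, `Cy.edge_infinite`, `Cy.adm_mul`, and for the game `Stp.mono`, `Stp.strong`,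
`Frc.trans`, `Frc.bind`, `Frc.exists`, `At.mono`, `At.walk`, `At.reachable`) are in `ISP/Basic.lean`;
facts on balls `bl`, geodesics (`dist_getVert`, `card_support_ball`, `card_support_le`,
`walk_closed`) in `Helper22/PG/{Defs,Basic,Vitali,CutBound}.lean`; `cut`, `bdE`, `Adm`, `vert`,
`card_vert`, `cut_map`, `Lev`, `exists_clos`, `lev_succ` in `Helper30/Perc/{Cap,Grow}.lean`; `CapGE`,
`exists_adm_small`, `exists_move` in `Helper30/Perc/{Const,Main,Game}.lean`. Many modules are close to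
the modules of the same name in `Pool/Agent/SIM/` (copy and adapt; `MinAdm`, `Lv`, `mem_vert_left` are
taken from there).
-/

set_option autoImplicit false

namespace Pool.Agent.ISP

open Finset Filter Pool.Agent.Helper30.Perc Pool.Agent.Helper22.PG
open Pool.Agent.SIM (MinAdm Lv cay)

/-! ## Isoperimetry -/

/-- [Iso1] first part: right translation by `g` moves at most `dist 1 g * cut G W` elements out of `W`.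
Proof. Take a walk `1 = g_0, ..., g_n = g`, `n = dist 1 g`; if `x ∈ W` and `x g ∉ W` then
`x g_i ∈ W`, `x g_{i+1} ∉ W` for some `i`, and for fixed `i` the map `x ↦ (x g_i, x g_{i+1})` is an
injection into the pairs `(a, b)`, `a ∈ W`, `b ∈ G.neighborFinset a \ W`, whose number is `cut G W`
(`iso1_walk` in `SIM/Iso1.lean`).
Second part: if `W` fills at most half of the ball of radius `r` around each of its points then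
`|W| ≤ 2 r |∂W|`. Proof: sum over `g ∈ bl 1 r` (as `SIM.thm_Iso1`). -/
def St_Iso1 : Prop := ∀ (Γ : Type) [Group Γ] [DecidableEq Γ] (G : SimpleGraph Γ)
  [G.LocallyFinite] (d : ℕ) (v : ℕ → ℕ), Cy G d v → ∀ W : Finset Γ,
  (∀ g : Γ, (W.filter fun x => x * g ∉ W).card ≤ G.dist 1 g * cut G W) ∧
  ∀ r : ℕ, (∀ x ∈ W, 2 * (W ∩ bl G x r).card ≤ v r) → W.card ≤ 2 * r * cut G W

/-- [Fgr] the inverse growth function at the powers of `2` is subpolynomial. Proof. `f k` is the least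
`R` with `2 ^ (k + 2) ≤ v R` (`Cy.v_unb`, `Nat.find`); `v 0 = 1`, so `1 ≤ f k`, and `v (f k - 1) < 2 ^ (k + 2)`.
Monotone: clear. Let `r₁` be such that `r ^ A ≤ v r` for `r ≥ r₁` (`Cy.v_pow`). If `f k - 1 ≥ r₁` and
`f k ≥ 2` then `f k ≤ 2 (f k - 1)` and `f k ^ A ≤ 2 ^ A (f k - 1) ^ A ≤ 2 ^ A v (f k - 1) ≤ 2 ^ A 2 ^ (k + 2)`;
otherwise `f k ^ A ≤ (r₁ + 1) ^ A`. So `C = 4 * 2 ^ A + (r₁ + 1) ^ A` works. -/
def St_Fgr : Prop := ∀ (Γ : Type) [Group Γ] [DecidableEq Γ] (G : SimpleGraph Γ)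
  [G.LocallyFinite] (d : ℕ) (v : ℕ → ℕ), Cy G d v → ∃ f : ℕ → ℕ,
  (∀ k, 2 ^ (k + 2) ≤ v (f k)) ∧ (∀ k, 1 ≤ f k) ∧ (∀ k, f k ≤ f (k + 1)) ∧
  ∀ A : ℕ, ∃ C : ℕ, ∀ k, f k ^ A ≤ C * 2 ^ k

/-- [Lc1] localisation of minimal admissible sets.
Proof. Let `V0 = insert o (vert T)`, `N r = #(V0 ∩ bl x r)`, `F r = #((W ∩ bl x r) \ V0)`; suppose `N r ≤ ψ r`
for all `r`. For `r = 0` this gives `N 0 = 0`, so `x ∉ V0` and `F 0 = 1`.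
Let `Q = (W ∩ bl x r) \ V0`, nonempty. `W \ Q` is admissible (`o` and the endpoints of edges of `T`
are in `V0`) and smaller than `W`, so `cut W < cut (W \ Q)`. Writing `e(X,Y)` for the number of
pairs of adjacent vertices in `X × Y`: `cut W = e(W \ Q, Wᶜ) + e(Q, Wᶜ)` and
`cut (W \ Q) = e(W \ Q, Wᶜ) + e(W \ Q, Q)`, so `e(Q, Wᶜ) < e(Q, W \ Q)` and
`cut Q = e(Q, Wᶜ) + e(Q, W \ Q) < 2 e(Q, W \ Q)`. If `a ∈ Q`, `b ∈ W \ Q` are adjacent then `b ∈ V0 ∩ bl x r`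
or `b ∉ bl x r`, and then `a ∉ bl x (r-1)`. So for `r ≥ 1`
`cut Q < 2 d (N r + F r - F (r-1))` (all this as in `SIM/Loc.lean`).
Claim: `2 ^ k ≤ F (S k)`, `S k = ∑ i ∈ range k, 8 * d * f i`, for all `k`; this contradicts `F r ≤ #W`.
Induction on `k`. Let `S k < r ≤ S (k + 1)`. `F` is increasing. If `F r < 2 ^ (k+1)` then
`2 * F r ≤ 2 ^ (k+2) ≤ v (f k)`, so by `St_Iso1` for `Q` with radius `f k`
`2 ^ k ≤ F r ≤ 2 * f k * cut Q ≤ 4 * d * f k * (N r + F r - F (r-1))`, and `8 * d * f k * N r ≤ 2 ^ k` by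
hypothesis, so `8 * d * f k * (F r - F (r-1)) ≥ 2 ^ k`. If this holds for all the `8 * d * f k` values of
`r`, summation gives `F (S (k+1)) ≥ F (S k) + 2 ^ k ≥ 2 ^ (k+1)`. -/
def St_Lc1 : Prop := ∀ (Γ : Type) [Group Γ] [DecidableEq Γ] (G : SimpleGraph Γ)
  [G.LocallyFinite] (d : ℕ) (v : ℕ → ℕ), Cy G d v → ∀ f ψ : ℕ → ℕ,
  (∀ k, 2 ^ (k + 2) ≤ v (f k)) → (∀ k, 1 ≤ f k) → ψ 0 = 0 →
  (∀ k r, ∑ i ∈ range k, 8 * d * f i < r → r ≤ ∑ i ∈ range (k + 1), 8 * d * f i →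
    8 * d * f k * ψ r ≤ 2 ^ k) → LocP G ψ

/-- [Lc2] the localisation function. Proof. `S k = ∑ i ∈ range k, 8 * d * f i` is strictly increasing
(`d, f i ≥ 1`), `S 0 = 0`. For `r ≥ 1` let `k = k r` be the number with `S k < r ≤ S (k + 1)` (`Nat.find` of
`r ≤ S (k + 1)`) and `ψ r = 2 ^ k / (8 * d * f k)`, `ψ 0 = 0`. Growth: `r ≤ S (k + 1) ≤ (k + 1) * 8 * d * f k`
(`f` monotone), so `r ^ B * (8 * d * f k) ≤ ((k + 1) * 8 * d) ^ (B + 1) * f k ^ (B + 1)`, and with `C` for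
`A = 2 (B + 1)`: `(f k ^ (B + 1)) ^ 2 ≤ C * 2 ^ k`, so it suffices that
`((k + 1) * 8 * d) ^ (2 * (B + 1)) * C ≤ 2 ^ k`, true for `k ≥ k₀`; `k r ≥ k₀` if `r > S k₀`. -/
def St_Lc2 : Prop := ∀ (d : ℕ) (f : ℕ → ℕ), 0 < d → (∀ k, 1 ≤ f k) → (∀ k, f k ≤ f (k + 1)) →
  (∀ A : ℕ, ∃ C : ℕ, ∀ k, f k ^ A ≤ C * 2 ^ k) → ∃ ψ : ℕ → ℕ, ψ 0 = 0 ∧
    (∀ B : ℕ, ∃ r₀ : ℕ, ∀ r, r₀ ≤ r → r ^ B ≤ ψ r) ∧
    ∀ k r, ∑ i ∈ range k, 8 * d * f i < r → r ≤ ∑ i ∈ range (k + 1), 8 * d * f i →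
      8 * d * f k * ψ r ≤ 2 ^ k

/-- [Loc] Proof. `St_Fgr`, `St_Lc2`, `St_Lc1`. -/
def St_Loc : Prop := ∀ (Γ : Type) [Group Γ] [DecidableEq Γ] (G : SimpleGraph Γ)
  [G.LocallyFinite] (d : ℕ) (v : ℕ → ℕ), Cy G d v → ∃ ψ : ℕ → ℕ, ψ 0 = 0 ∧
    (∀ B : ℕ, ∃ r₀ : ℕ, ∀ r, r₀ ≤ r → r ^ B ≤ ψ r) ∧ LocP G ψ

/-- [Min] minimal admissible sets. Proof. Existence: `insert o (vert T)` is admissible; minimise
first `cut`, then `card`. Distance: as in `SIM/Min.lean` (the part of `W` joined to `o` inside `W` is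
admissible with at most the same `cut`, so it is `W`; a path inside `W` has fewer than `#W` edges).
Size: `cut W ≤ cut (insert o (vert T)) ≤ d (2 #T + 1)`. Let `f`, `C` be as in `St_Fgr` for `A = 2`,
`2 ^ k ≤ #W < 2 ^ (k + 1)`; then `2 #W ≤ 2 ^ (k + 2) ≤ v (f k)` and `St_Iso1` (second part, radius `f k`) gives
`#W ≤ 2 f k d (2 #T + 1)`, so `#W ^ 2 ≤ 4 C 2 ^ k d ^ 2 (2 #T + 1) ^ 2 ≤ 4 C #W d ^ 2 (2 #T + 1) ^ 2` and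
`#W ≤ 16 C d ^ 2 (#T + 1) ^ 2`. -/
def St_Min : Prop := ∀ (Γ : Type) [Group Γ] [DecidableEq Γ] (G : SimpleGraph Γ)
  [G.LocallyFinite] (d : ℕ) (v : ℕ → ℕ), Cy G d v → ∃ C₂ : ℕ, ∀ (o : Γ) (T : Finset (Sym2 Γ)),
  (∃ W, MinAdm G o T W) ∧ ((T : Set (Sym2 Γ)) ⊆ G.edgeSet → ∀ W, MinAdm G o T W →
    (∀ x ∈ W, G.dist o x < W.card) ∧ W.card ≤ C₂ * (T.card + 1) ^ 2)

/-! ## Templates of small diameter -/

/-- [Blk] blocks of bounded radius. Proof. `C₂` from `St_Min`. Let `M` be as in `CapGE`,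
`R = C₂ (n + 1) ^ 2`, `M1` the edges of `M` with both endpoints in `bl 1 R`. Let `W` be minimal admissible
for `M1`: `#W ≤ R` and `dist 1 x < #W ≤ R` on `W`. If `a ∈ W`, `s(a,b) ∈ M` then `a`, `b` are adjacent, so
`dist 1 b ≤ R` and `s(a,b) ∈ M1`, `b ∈ W`. So `W` is admissible for `M` and `c₁ ≤ cut W ≤ cut W'` for all
`W'` admissible for `M1` (as `SIM/Blk.lean`). -/
def St_Blk : Prop := ∀ (Γ : Type) [Group Γ] [DecidableEq Γ] (G : SimpleGraph Γ)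
  [G.LocallyFinite] (d : ℕ) (v : ℕ → ℕ), Cy G d v → ∃ C₂ : ℕ, ∀ (n : ℕ) (c₁ : ℝ),
  CapGE G 1 n c₁ → ∃ M1 : Finset (Sym2 Γ), (M1 : Set (Sym2 Γ)) ⊆ G.edgeSet ∧ M1.card ≤ n ∧
    (∀ u ∈ insert 1 (vert M1), G.dist 1 u ≤ C₂ * (n + 1) ^ 2) ∧
    ∀ W, Adm 1 M1 W → c₁ ≤ cut G W

/-- [Ind] independent vertices in a digraph of small out-degree. Proof. Induction on `m` (for all `B`):
for `m + 1`, the number of pairs `(a, b) ∈ B × B`, `b ∈ bad a`, is at most `β #B`, so some `b ∈ B` has at most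
`β` in-neighbours `a ∈ B` (`b ∈ bad a`); remove from `B` the vertex `b`, its in-neighbours and `bad b`: at
least `#B - (2 β + 1)` vertices remain; the sequence for these, and `b`. -/
def St_Ind : Prop := ∀ (V : Type) [DecidableEq V] [Nonempty V] (B : Finset V) (bad : V → Finset V)
  (β m : ℕ), (∀ a ∈ B, (bad a).card ≤ β) → m * (2 * β + 1) ≤ B.card →
  ∃ g : ℕ → V, (∀ i < m, g i ∈ B) ∧ ∀ i < m, ∀ j < m, i ≠ j → g j ∉ bad (g i)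

/-- [Str] the cut bound for a star of blocks. `V1 = insert 1 (vert T0)`. Proof. Let `T` be the union of the
edges of the geodesics `π j` and the blocks `g j T0` (`T0.image (Sym2.map (g j * ·))`), `j < m`:
`#T ≤ m (s + ρ)`, `T ⊆ G.edgeSet`, vertices within `ρ + R1` of `1`. Let `W` be minimal admissible for `T`,
root `1` (for other admissible sets use `cut W ≤ cut W'`; existence: hypothesis `hmin`),
`V0 = insert 1 (vert T)`, `#V0 ≤ 1 + m ((ρ + 1) + (2 s + 1))` (a path has at most `ρ + 1` vertices,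
`#V1 ≤ 2 s + 1`). `W` contains `1`, all vertices of the `π j` (`walk_closed`), in particular `g j`.
Let `W_j = {x ∈ W | ∃ u ∈ V1, dist x (g_j u) ≤ R0}`. It contains `g_j` and is closed under the edges of
`g_j T0`, so `C0 ≤ cut W_j` (`Cy.adm_mul`). The `W_j` are pairwise disjoint (`hg2`). Let
`a ∈ W_j`, `b ∈ W \ W_j` be adjacent; then `b` is within `Rθ` of a vertex of `π j`: let `r` be as in
`LocP` for `b`. By `n1` `r ≤ R0`. No vertex `g_i u`, `u ∈ V1`, is in `bl b r`: for `i = j` because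
`b ∉ W_j`, for `i ≠ j` because otherwise `dist (g_i u) (g_j u') ≤ R0 + 1 + R0`, against `hg2`. No vertex of `π i`,
`i ≠ j`, is in `bl b r`, by `hg1`. So `V0 ∩ bl b r` consists of vertices of `π j` (`1` is one of them), at
most `2 r + 1` (`card_support_ball`), and is not empty. By `n2` `r ≤ Rθ`.
Let `Y j` be the set of the vertices within `Rθ` of a vertex of `π j`, `#(Y j) ≤ (ρ + 1) v Rθ`. Then
`∑_j cut W_j ≤ ∑_j ∑_{a ∈ W_j} #(N a \ W) + ∑_j ∑_{a ∈ W_j} #(N a ∩ Y j)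
≤ cut W + ∑_j ∑_{y ∈ Y j} #(N y) ≤ cut W + m d (ρ + 1) v Rθ` (as in `SIM/Cut.lean`). -/
def St_Str : Prop := ∀ (Γ : Type) [Group Γ] [DecidableEq Γ] (G : SimpleGraph Γ)
  [G.LocallyFinite] (d : ℕ) (v : ℕ → ℕ), Cy G d v → ∀ ψ : ℕ → ℕ, LocP G ψ →
  (∀ (o : Γ) (T : Finset (Sym2 Γ)), ∃ W, MinAdm G o T W) →
  ∀ (T0 : Finset (Sym2 Γ)) (s R1 ρ R0 Rθ m : ℕ) (C0 : ℝ) (g : ℕ → Γ)
    (π : ∀ j, G.Walk 1 (g j)),
  (T0 : Set (Sym2 Γ)) ⊆ G.edgeSet → T0.card ≤ s →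
  (∀ u ∈ insert 1 (vert T0), G.dist 1 u ≤ R1) → (∀ W, Adm 1 T0 W → C0 ≤ cut G W) →
  (∀ j, (π j).length = G.dist 1 (g j)) → (∀ j < m, G.dist 1 (g j) ≤ ρ) →
  -- hg1
  (∀ i < m, ∀ j < m, i ≠ j → ∀ w ∈ (π i).support, ∀ u ∈ insert 1 (vert T0),
    2 * R0 + 1 < G.dist w (g j * u)) →
  -- hg2
  (∀ i < m, ∀ j < m, i ≠ j → ∀ u ∈ insert 1 (vert T0), ∀ u' ∈ insert 1 (vert T0),
    2 * R0 + 1 < G.dist (g i * u) (g j * u')) →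
  -- n1
  (∀ r, R0 < r → m * (ρ + 2 * s + 2) + 1 ≤ ψ r) →
  -- n2
  (∀ r, Rθ < r → 2 * r + 1 ≤ ψ r) →
  ∃ T : Finset (Sym2 Γ), (T : Set (Sym2 Γ)) ⊆ G.edgeSet ∧ T.card ≤ m * (s + ρ) ∧
    (∀ u ∈ vert T, G.dist 1 u ≤ ρ + R1) ∧
    ∀ W, Adm 1 T W → (m : ℝ) * C0 ≤ cut G W + m * (d * ((ρ + 1) * v Rθ))

/-- [Plc] placement. Proof. For `g : Γ` let `π_g` be a geodesic from `1` to `g`, `V1 = insert 1 (vert T0)`,
`#V1 ≤ 2 s + 1`, `P_g = π_g.support.toFinset ∪ V1.image (g * ·)`, `#P_g ≤ (ρ + 1) + (2 s + 1)` for `g ∈ bl 1 ρ`, and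
`bad g = P_g.biUnion fun w => V1.biUnion fun u => (bl w (2 R0 + 1)).image (· * u⁻¹)`, with at most
`((ρ + 1) + (2 s + 1)) * ((2 s + 1) * v (2 R0 + 1))` elements. If `dist w (g' u) ≤ 2 R0 + 1` for some `w ∈ P_g`,
`u ∈ V1` then `g' ∈ bad g`. Apply `St_Ind` to `B = bl 1 ρ` and then `St_Str`. -/
def St_Plc : Prop := ∀ (Γ : Type) [Group Γ] [DecidableEq Γ] (G : SimpleGraph Γ)
  [G.LocallyFinite] (d : ℕ) (v : ℕ → ℕ), Cy G d v → ∀ ψ : ℕ → ℕ, LocP G ψ →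
  ∀ (T0 : Finset (Sym2 Γ)) (s R1 ρ R0 Rθ m : ℕ) (C0 : ℝ),
  (T0 : Set (Sym2 Γ)) ⊆ G.edgeSet → T0.card ≤ s →
  (∀ u ∈ insert 1 (vert T0), G.dist 1 u ≤ R1) → (∀ W, Adm 1 T0 W → C0 ≤ cut G W) →
  (∀ r, R0 < r → m * (ρ + 2 * s + 2) + 1 ≤ ψ r) → (∀ r, Rθ < r → 2 * r + 1 ≤ ψ r) →
  m * (2 * ((ρ + 2 * s + 2) * ((2 * s + 1) * v (2 * R0 + 1))) + 1) ≤ v ρ →
  ∃ T : Finset (Sym2 Γ), (T : Set (Sym2 Γ)) ⊆ G.edgeSet ∧ T.card ≤ m * (s + ρ) ∧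
    (∀ u ∈ vert T, G.dist 1 u ≤ ρ + R1) ∧
    ∀ W, Adm 1 T W → (m : ℝ) * C0 ≤ cut G W + m * (d * ((ρ + 1) * v Rθ))

/-- [Nms] choice of the radii. Proof. We may assume `E ≥ 1`, `s ≥ 2`. Let `R0` be the largest number with
`(2 R0 + 1) ^ (2 E) ≤ s`, `ρ = (2 R0 + 1) ^ 2`; so `ρ ^ E ≤ s`, `ρ ≤ s`, and `s < (2 R0 + 3) ^ (2 E)`; `R0 → ∞` as
`s → ∞`. For `r > R0` and `m ≤ s ^ B`: `m (ρ + 2 s + 2) + 1 ≤ 6 s ^ (B+1) ≤ 6 (2 r + 1) ^ (2 E (B+1))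
≤ 6 (3 r) ^ (2 E (B+1)) ≤ r ^ (2 E (B+1) + 1) ≤ ψ r` if `r ≥ R0` is large. With `x = 2 R0 + 1`, `s ≤ (3 x) ^ (2 E)`:
`m (2 (ρ + 2 s + 2) (2 s + 1) v x + 1) ≤ 31 s ^ (B+2) v x ≤ 31 (3 x) ^ (2 E (B+2)) v x ≤
x ^ (2 E (B+2) + 1) v x ≤ v (x ^ 2) = v ρ` (hypothesis on `v`), for `x` large. -/
def St_Nms : Prop := ∀ v ψ : ℕ → ℕ, (∀ r, 0 < v r) →
  (∀ B : ℕ, ∃ r₀ : ℕ, ∀ r, r₀ ≤ r → r ^ B * v r ≤ v (r ^ 2)) →
  (∀ B : ℕ, ∃ r₀ : ℕ, ∀ r, r₀ ≤ r → r ^ B ≤ ψ r) → ∀ B E : ℕ, ∃ s₀ : ℕ, ∀ s, s₀ ≤ s →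
  ∃ ρ R0 : ℕ, ρ ^ E ≤ s ∧ ∀ m, m ≤ s ^ B → (∀ r, R0 < r → m * (ρ + 2 * s + 2) + 1 ≤ ψ r) ∧
    m * (2 * ((ρ + 2 * s + 2) * ((2 * s + 1) * v (2 * R0 + 1))) + 1) ≤ v ρ

/-- [Cmp] one composition step. Proof. `Rθ` with `2 r + 1 ≤ ψ r` for `r > Rθ`, `c = d v Rθ`. Take `ρ`, `R0`
from `St_Nms` with `B`, `E + 2` (so `ρ ^ E ≤ s` and `ρ ^ 2 ≤ s`), `m = p / (s + ρ)` (so `m ≤ p ≤ s ^ B`), and
`T` from `St_Plc`: `#T ≤ m (s + ρ) ≤ p`; `dist ≤ ρ + R1`. For `W` admissible, since `0 ≤ κ ≤ K`,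
`cut W ≥ m (κ s - c (ρ + 1)) ≥ m κ s - p c (ρ + 1) / s`, and `m (s + ρ) ≥ p - (s + ρ)` gives
`m κ s ≥ κ p - κ m ρ - κ (s + ρ) ≥ κ p - K p ρ / s - 2 K s` (`m ≤ p / s`, `ρ ≤ s`); `s ^ 2 ≤ p`; so
`cut W ≥ κ p - p (K ρ / s + 2 K / s + c (ρ + 1) / s) ≥ (κ - C₁ / √s) p` with `C₁ = 3 K + 2 c`
(`ρ ≤ √s`, `1 ≤ √s`), in the form: `(cut - κ p)` is at least `- C₁ p / √s`. -/
def St_Cmp : Prop := ∀ (Γ : Type) [Group Γ] [DecidableEq Γ] (G : SimpleGraph Γ)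
  [G.LocallyFinite] (d : ℕ) (v : ℕ → ℕ), Cy G d v → ∀ (K : ℝ) (B E : ℕ), ∃ (C₁ : ℝ) (s₀ : ℕ),
  0 < C₁ ∧ ∀ s : ℕ, s₀ ≤ s → ∀ (κ : ℝ) (T0 : Finset (Sym2 Γ)) (R1 : ℕ), 0 ≤ κ → κ ≤ K →
    (T0 : Set (Sym2 Γ)) ⊆ G.edgeSet → T0.card ≤ s →
    (∀ u ∈ insert 1 (vert T0), G.dist 1 u ≤ R1) → (∀ W, Adm 1 T0 W → κ * s ≤ cut G W) →
    ∀ p : ℕ, s ^ 2 ≤ p → p ≤ s ^ B → ∃ (T : Finset (Sym2 Γ)) (ρ : ℕ), ρ ^ E ≤ s ∧
      (T : Set (Sym2 Γ)) ⊆ G.edgeSet ∧ T.card ≤ p ∧ (∀ u ∈ vert T, G.dist 1 u ≤ ρ + R1) ∧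
      ∀ W, Adm 1 T W → (κ - C₁ / Real.sqrt s) * p ≤ cut G W

/-- [Sta] templates of subpolynomial diameter. Proof. Given `ε`, `E`; we may assume `E ≥ 1`, and `κ > ε`
(otherwise `T = ∅`). `K = κ`, `C₂` from `St_Blk`; `St_Cmp` with `B₁ = 8 E` and with `B₂ = 3`, and
`E` replaced by `E`; let `C₁`, `s₀` be common. Take `n` large with `CapGE G 1 n (κ n)`; `M1` from `St_Blk`,
radius `R1 = C₂ (n + 1) ^ 2`. Put `P = n ^ (4 E)`. Claim: for all `p ≥ P` there is `T ⊆ G.edgeSet`,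
`#T ≤ p`, `dist 1 u ^ E ≤ p` on `insert 1 (vert T)`, and all admissible sets have
`cut ≥ (κ - ε + ε / (Nat.log 2 p + 1)) p`.
(1) `P ≤ p ≤ P ^ 2 = n ^ (8 E)`: `St_Cmp` with `s = n`, `T0 = M1`, `κ`: `ρ ≤ n` and `(ρ + R1) ^ E ≤ P ≤ p` as
`ρ + R1 ≤ n ^ 4` for `n` large; `κ - C₁ / √n ≥ κ - ε + ε / (log 2 p + 1)` for `n` large (`log 2 p ≥ 1`, so
the right side is at most `κ - ε / 2`).
(2) `p > P ^ 2`: strong induction, `s = Nat.sqrt p ≥ P`, `s < p`, template `T0` for `s`, with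
`κ' = κ - ε + ε / (log 2 s + 1)`, and `s ^ 2 ≤ p ≤ s ^ 3`; `St_Cmp` with `κ'`. Radius: `ρ ^ E ≤ s`, `R1 ^ E ≤ s`
(`R1` the largest distance), `(ρ + R1) ^ E ≤ 2 ^ E s ≤ s ^ 2 ≤ p`. Since `Nat.log 2 s = Nat.log 2 p / 2 =: l`
(or just `2 log 2 s ≤ log 2 p ≤ 2 log 2 s + 1`), `ε / (l + 1) - ε / (2 l + 1) = ε l / ((l+1)(2l+1)) ≥ ε / (6 l)`
(`l ≥ 1`) and this is at least `C₁ / √s`, because `s ≥ 2 ^ l` and `6 l C₁ ≤ ε 2 ^ (l / 2)` for `l` large. -/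
def St_Sta : Prop := ∀ (Γ : Type) [Group Γ] [DecidableEq Γ] (G : SimpleGraph Γ)
  [G.LocallyFinite] (d : ℕ) (v : ℕ → ℕ), Cy G d v → ∀ κ : ℝ,
  (∃ᶠ n : ℕ in atTop, CapGE G 1 n (κ * n)) → Stat G κ

/-- [Pos] the isoperimetric constant is positive. Proof. `ψ` from `St_Loc`, `Rθ` with `2 r + 1 ≤ ψ r` for
`r > Rθ`; choose `r0 ≥ 1` with `2 (2 (r0 + Rθ) + 1) v Rθ ≤ v r0` (`Cy.v_pow` with `B = 2`). Let `γ` be a
geodesic of length `p` from `1`, `T` its edges, `W` minimal admissible. By `LocP` and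
`#(V0 ∩ bl x r) ≤ 2 r + 1` (`card_support_ball`) every `x ∈ W` is within `Rθ` of `γ`. So `W ∩ bl x r0` has at
most `(2 (r0 + Rθ) + 1) v Rθ` elements; by `St_Iso1` `#W ≤ 2 r0 cut W`, and `W` contains the `p + 1`
vertices of `γ`. So `p / (2 r0) ≤ cut W` (copy `SIM/Pos.lean`). -/
def St_Pos : Prop := ∀ (Γ : Type) [Group Γ] [DecidableEq Γ] (G : SimpleGraph Γ)
  [G.LocallyFinite] (d : ℕ) (v : ℕ → ℕ), Cy G d v → ∃ b : ℝ, 0 < b ∧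
  ∀ p : ℕ, CapGE G 1 p (b * p)

/-! ## Reaching many vertices -/

/-- [Gro] a growth lemma. Proof. Let `E' = 4 (E + 1)`. Phase 1: `f j ≥ j ε p / d`, so for
`j₁ = ⌈4 d K R / ε⌉ + 1` one has `f j₁ ≥ 4 R K p` (or `f j ≥ p ^ A` earlier). Phase 2: while
`4 R K p ≤ f j < p ^ A`, `f j / (2 R) - K p ≥ f j / (4 R)`, so `f (j + 1) ≥ (1 + 1 / (4 R d)) f j`; as
`(1 + 1/n)^n ≥ 2` (`one_add_mul_le_pow`), `f` doubles in `4 R d` steps, so after `4 R d * (A (log 2 p + 1))`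
steps `f j ≥ 2 ^ (A (log 2 p + 1)) ≥ p ^ A`. The total number of steps is at most `C R (log 2 p + 2)` with
`C` depending on `d, A, K, ε`, and `R ^ E' ≤ p`; so `(C R (log 2 p + 2)) ^ E ≤ p` for `p` large. -/
def St_Gro : Prop := ∀ (d A E : ℕ) (K ε : ℝ), 0 < d → 0 ≤ K → 0 < ε → ∃ E' p₀ : ℕ,
  ∀ p : ℕ, p₀ ≤ p → ∀ (R : ℕ) (f : ℕ → ℕ), 1 ≤ R → R ^ E' ≤ p → 1 ≤ f 0 →
    (∀ j, j ^ E ≤ p → ε * p + d * (f j : ℝ) ≤ d * (f (j + 1) : ℝ)) →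
    (∀ j, j ^ E ≤ p → f j ≤ p ^ A → (f j : ℝ) / (2 * R) + d * (f j : ℝ) ≤
      K * p + d * (f (j + 1) : ℝ)) → ∃ j, j ^ E ≤ p ∧ p ^ A ≤ f j

/-- [Rch] Maker reaches at least `p ^ A` vertices in at most `p ^ (1 / E)` steps. `B` are old edges of
Breaker, far away, `Y` new ones. Proof. `E'` from `St_Gro` (with `max K 0`). `R` := a radius with
`2 p ^ A ≤ v R` and `R ^ E' ≤ p`, `1 ≤ R` (`p` large, `Cy.v_pow` with exponent `B = E' (A + 1) + 1`... : take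
`R` the largest number with `R ^ E' ≤ p`, then `p < (R + 1) ^ E' ≤ (2 R) ^ E'`, and
`2 p ^ A ≤ 2 (2 R) ^ (E' A) ≤ R ^ (E' A + 1) ≤ v R` for `R` large; assume `E' ≥ 1`). Build `N_0, N_1, ...`: `N_0` is
the set of vertices reachable from `z` by edges of `T` (`exists_clos T {z}`), `N_{j+1}` the closure
under `T` of `N_j` and its neighbours along edges not in `B ∪ Y` (as in `SIM/Rch.lean`;
`dist ≤ ρ + j + 1`, vertices of `T` are within `ρ`). For `j ^ E ≤ p` the vertices of `N_j` and their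
neighbours are within `ρ + j + 1 ≤ R'` of `z`, so boundary edges of `N_j` are not in `B`, so at most
`#Y` of them are in `B ∪ Y`, and `cut N_j + d #N_j ≤ #Y + d #N_{j+1}`. `N_j` is admissible, so
`cut N_j ≥ #Y + ε p`. If `#N_j ≤ p ^ A` then `2 #N_j ≤ v R`, so `#N_j ≤ 2 R cut N_j` (`St_Iso1`). Use `St_Gro`
with `f j = #N_j` (for `j ^ E > p` define `f` by the same construction; the hypotheses are only needed
for `j ^ E ≤ p`). -/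
def St_Rch : Prop := ∀ (Γ : Type) [Group Γ] [DecidableEq Γ] (G : SimpleGraph Γ)
  [G.LocallyFinite] (d : ℕ) (v : ℕ → ℕ), Cy G d v → ∀ K ε : ℝ, 0 < ε → ∀ A E : ℕ, 0 < E →
  ∃ p₀ : ℕ, ∀ p : ℕ, p₀ ≤ p → ∀ (z : Γ) (T B Y : Finset (Sym2 Γ)) (ρ R' : ℕ),
    (∀ u ∈ vert T, G.dist z u ≤ ρ) → (Y.card : ℝ) ≤ K * p →
    (∀ o ∈ vert B, R' < G.dist z o) → (∀ j, j ^ E ≤ p → ρ + j + 1 ≤ R') →
    (∀ N, Adm z T N → (Y.card : ℝ) + ε * p ≤ cut G N) →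
    ∃ (j : ℕ) (N : Finset Γ), j ^ E ≤ p ∧ Lv G z T (B ∪ Y) ρ j N ∧ p ^ A ≤ N.card

/-! ## Paths that avoid bad vertices

From now on there are two graphs: `G` on `Γ` and `H` on the quotient `Q`, with a quotient map `π`
(`Qm G H π`; `Qm.one`, `Qm.dist_le`, `Qm.lift_walk` in `Basic.lean`). `nb H π O c r` is the set of the
`o ∈ O` with `H.dist c (π o) ≤ r` (`mem_nb`, `nb_subset`, `nb_le`, `card_nb_le`). -/

/-- [Tri] counting triples. Proof. For `k ∈ K` fix a geodesic `γ_k` of `H` from `1` to `k`, of length `≤ ρ`,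
and a lift `γ'_k`, a walk of `G` of the same length from `1` to some `k'` with `π k' = k` (`Qm.lift_walk`,
`Qm.one`). For `x ∈ X`, `x' ∈ X'`: `π x K ∩ x' K = π x (K ∩ ((π x)⁻¹ x') K)` has at least `#K / 2` elements
`s` (`Fo`; `dist 1 ((π x)⁻¹ x') = dist (π x) x' ≤ D`). So the set of triples `(x, x', s)`,
`s ∈ π x K ∩ x' K`, has at least `#X #X' #K / 2` elements.
Call `(x, k)` bad if the translate `x γ'_k` meets `Bad`; for fixed `k`, a fixed position `i ≤ ρ` and `o ∈ Bad`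
at most one `x` has `x γ'_k(i) = o`, so there are at most `#K #Bad (ρ + 1)` bad pairs. Call `(x', k)` bad if
`x' γ_k` meets `π Bad`: again at most `#K #Bad (ρ + 1)` pairs. The number of the triples with
`(x, (π x)⁻¹ s)` bad is at most `#X' #K #Bad (ρ + 1) ≤ #X #X' #K / 8`, with `(x', x'⁻¹ s)` bad at most
`#X #K #Bad (ρ + 1) ≤ #X #X' #K / 8`, with `x' ∈ Bad'` at most `#X #Bad' #K ≤ #X #X' #K / 8`. As
`3/8 < 1/2` and `#X #X' #K > 0` some triple is good. The walk is `x γ'_k`, `k = (π x)⁻¹ s`, from `x` to `x k'`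
(`π (x k') = s`), followed by a lift of the reverse of `x' γ_{x'⁻¹ s}` (from `s` to `x'`) starting at
`x k'`; its end `z` has `π z = x'`. -/
def St_Tri : Prop := ∀ (Γ Q : Type) [Group Γ] [DecidableEq Γ] [Group Q] [DecidableEq Q]
  (G : SimpleGraph Γ) [G.LocallyFinite] (H : SimpleGraph Q) [H.LocallyFinite] (d d' : ℕ)
  (v v' : ℕ → ℕ) (π : Γ → Q), Cy G d v → Cy H d' v' → Qm G H π →
  ∀ (D ρ : ℕ) (K : Finset Q) (X : Finset Γ) (X' : Finset Q) (Bad : Finset Γ)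
    (Bad' : Finset Q), Fo H D ρ K → X.Nonempty → X'.Nonempty →
  (∀ x ∈ X, ∀ x' ∈ X', H.dist (π x) x' ≤ D) →
  8 * Bad.card * (ρ + 1) ≤ X.card → 8 * Bad.card * (ρ + 1) ≤ X'.card →
  8 * Bad'.card ≤ X'.card →
  ∃ x ∈ X, ∃ z : Γ, π z ∈ X' ∧ π z ∉ Bad' ∧ ∃ w : G.Walk x z, w.length ≤ 2 * ρ ∧
    ∀ u ∈ w.support, u ∉ Bad

/-- [Cnt] Markov's inequality. Proof. Count the pairs `(c, o)`, `c ∈ S`, `o ∈ O`, `dist c (π o) ≤ r`: every `c`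
of the filtered set has more than `t` of them, every `o` at most `v' r` (`Cy.vol`, `mem_bl_comm`), and only
`o` with `π o` within `R + r` of `y` occur. -/
def St_Cnt : Prop := ∀ (Γ Q : Type) [Group Γ] [DecidableEq Γ] [Group Q] [DecidableEq Q]
  (H : SimpleGraph Q) [H.LocallyFinite] (d' : ℕ) (v' : ℕ → ℕ) (π : Γ → Q), Cy H d' v' →
  ∀ (S : Finset Q) (O : Finset Γ) (y : Q) (R r t : ℕ), (∀ c ∈ S, H.dist y c ≤ R) →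
  (S.filter fun c => t < (nb H π O c r).card).card * t ≤ (nb H π O y (R + r)).card * v' r ∧
  (S.filter fun c => t < (nb H π O c r).card).card ≤ (nb H π O y (R + r)).card * v' r

/-! ## The game -/

/-- [Tn0] one move of Maker, first half. Proof. If `κ ≤ 0` nothing to do (`ε < κ`). Let
`δ = ε / (8 (κ + 1))`, so `k₀ ≤ δ p`, `p' = p - k₀ ≥ (1 - δ) p`, `κ δ ≤ ε / 8`; for `p` large there is a template
`T` from `Stat` with `ε / 4`, `E` for `p'` (`p' ≥ p / 2` is large): `#T ≤ p'`, `dist 1 u ^ E ≤ p' ≤ p`, and all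
admissible sets have `cut ≥ (κ - ε / 4) p' ≥ (κ - ε / 2) p ≥ q + (ε / 2) p`. Let `X0` be as in `At`, `yT` the
translate of `T`. Maker claims `X0 ∪ yT` minus `M` (at most `k₀ + p' ≤ p` edges, not in `B`: `X0` is
disjoint from `B`; vertices of `yT` are within `σ` of `y`, those of `vert B` are not) and arbitrary
other edges (`exists_move` with `A = M ∪ B`). Let Breaker answer `Y`, `#Y = q`. `St_Rch` with `z = y`, `yT`,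
`B`, `Y`, `ρ` = the maximal distance of vertices of `T` from `1`, `R' = σ`, `K = κ`, `ε / 2` gives `j`, `N`.
Every `x ∈ N` has `dist y x ≤ ρ + j ≤ σ`, and `Lv` gives `P` (`≤ j` edges, not in `B ∪ Y`) with `x` reachable
from `y` by `yT ∪ P`; `y` is reachable from `1` by `M ∪ X0`; so `At G j (M ∪ X) (B ∪ Y) x`. -/
def St_Tn0 : Prop := ∀ (Γ : Type) [Group Γ] [DecidableEq Γ] (G : SimpleGraph Γ)
  [G.LocallyFinite] (d : ℕ) (v : ℕ → ℕ), Cy G d v → ∀ κ : ℝ, Stat G κ → ∀ ε : ℝ, 0 < ε →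
  ε < κ → ∃ δ : ℝ, 0 < δ ∧ ∀ A E : ℕ, 0 < E → ∃ p₀ : ℕ, ∀ p : ℕ, p₀ ≤ p → ∀ q : ℕ,
    (q : ℝ) ≤ (κ - ε) * p → ∀ k₀ : ℕ, (k₀ : ℝ) ≤ δ * p → ∀ σ : ℕ,
    (∀ a b : ℕ, a ^ E ≤ p → b ^ E ≤ p → a + b + 1 ≤ σ) →
    ∀ (M B : Finset (Sym2 Γ)) (y : Γ), Pos G M B → At G k₀ M B y →
      (∀ o ∈ vert B, σ < G.dist y o) →
      Stp G p q M B fun M' B' => ∃ (j : ℕ) (N : Finset Γ), j ^ E ≤ p ∧ p ^ A ≤ N.card ∧
        (∀ x ∈ N, G.dist y x ≤ σ) ∧ ∀ x ∈ N, At G j M' B' x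

/-- [Cl0] the claim of level `0`. Here `hT` is the conclusion of `St_Tn0`.
Proof. By (a) at level `0` (`m 0 = 0`) every `o ∈ vert B` has `H.dist (π y) (π o) > 2 σ 0`, so
`G.dist y o > σ 0` (`Qm.dist_le`). `hT`, `Stp.strong`, `Stp.mono`: let `M'`, `B'` be the new position,
`B ⊆ B'`, `#B' ≤ #B + q`, and `j`, `N` as in `hT`; `O = nb H π (vert B') (π y) (5 ρ 0)`,
`#O ≤ 2 m 1 + 2 q` by (b) and `nb_le`. `St_Tri` with `D = σ 0 + e 0 + 1 + ς 0`, `ρ 0`, `K` from `hF`, `X = N`,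
`X' = bl H b (ς 0)`, `Bad = O`, `Bad' = {x' ∈ X' | 0 < #(nb H π (vert B') x' (2 σ 0))}`. Sizes:
`8 #Bad (ρ 0 + 1) ≤ p ^ A ≤ #N` (`hA`), `≤ v' (ς 0)` (`v3`);
`#Bad' ≤ #(nb H π (vert B') (π y) (e 0 + 1 + ς 0 + 2 σ 0)) v' (2 σ 0)` (`St_Cnt`, second part, `t = 0`,
`R = e 0 + 1 + ς 0`) and `e 0 + 1 + ς 0 + 2 σ 0 ≤ 5 ρ 0`, so `8 #Bad' ≤ v' (ς 0)` (`v4`). `N` is nonempty since
`1 ≤ p ^ A` (`1 ≤ p`). We get `x ∈ N`, `z` with `x' = π z ∈ X' \ Bad'` and a walk `w` of length `≤ 2 ρ 0` from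
`x` to `z` avoiding `Bad`; the images of its vertices are within `σ 0 + 2 ρ 0 ≤ 5 ρ 0` of `π y`
(`Qm.dist_le`), so they are not in `vert B'`. By `At.walk` `At G (j + 2 ρ 0) M' B' z`, and
`j + 2 ρ 0 ≤ k₀` (`hk`). `dist x' b ≤ ς 0 = e 0`, (a) at level `0` for `x'`, `B'` holds because `x' ∉ Bad'`.
`τ 0 = 1`. -/
def St_Cl0 : Prop := ∀ (Γ Q : Type) [Group Γ] [DecidableEq Γ] [Group Q] [DecidableEq Q]
  (G : SimpleGraph Γ) [G.LocallyFinite] (H : SimpleGraph Q) [H.LocallyFinite] (d d' : ℕ)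
  (v v' : ℕ → ℕ) (π : Γ → Q), Cy G d v → Cy H d' v' → Qm G H π → ∀ (p q k₀ A E : ℕ)
  (σ ς ρ e τ m : ℕ → ℕ), Scl v' q σ ς ρ e τ m → 1 ≤ p →
  -- hF
  (∃ K : Finset Q, Fo H (σ 0 + e 0 + 1 + ς 0) (ρ 0) K) →
  -- hA
  8 * (2 * m 1 + 2 * q) * (ρ 0 + 1) ≤ p ^ A →
  -- hk
  (∀ j, j ^ E ≤ p → j + 2 * ρ 0 ≤ k₀) →
  -- hT
  (∀ (M B : Finset (Sym2 Γ)) (y : Γ), Pos G M B → At G k₀ M B y →
      (∀ o ∈ vert B, σ 0 < G.dist y o) →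
      Stp G p q M B fun M' B' => ∃ (j : ℕ) (N : Finset Γ), j ^ E ≤ p ∧ p ^ A ≤ N.card ∧
        (∀ x ∈ N, G.dist y x ≤ σ 0) ∧ ∀ x ∈ N, At G j M' B' x) →
  Clm G H π p q k₀ σ ρ e τ m 0

/-- [Flw] following a path at level `k`. `c 0, c 1, ..., c L` is a path in `H` (consecutive vertices at
distance at most `1`) around whose vertices there are few endpoints of Breaker's edges.
Proof. Claim: for `i ≤ L`, `Stp G p q M B (Frc G p q (Goal ... k ((i + 1) * τ k) (c i) B))`. For `i = 0` this is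
`Clm` with target `c 0` (`Cb` at `π y`: `nb_subset` with `5 ρ k + e k + 1 ≤ 6 ρ k` (`c1`)).
Step: from a position `M'`, `B'` with `Goal` for `i` (`y'`, `dist (π y') (c i) ≤ e k`,
`#B' ≤ #B + q (i+1) τ k`) apply `Clm` with target `c (i+1)`, `dist (π y') (c (i+1)) ≤ e k + 1`. `Cb` at `π y'`
(`nb_le`): `#(nb (vert B') (π y') (5 ρ k)) ≤ #(nb (vert B) (c (i+1)) (6 ρ k)) + 2 q (i+1) τ k
≤ m (k+1) + 2 q τ (k+1) ≤ 2 m (k+1)`, by `hL`: `(L + 1) τ k ≤ τ (k+1)`, and `m1`. `Goal` composes: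
`B ⊆ B' ⊆ B''`, `#B'' ≤ #B' + q τ k`. Use `Stp.mono`, `Frc.trans` and `Stp.force`. -/
def St_Flw : Prop := ∀ (Γ Q : Type) [Group Γ] [DecidableEq Γ] [Group Q] [DecidableEq Q]
  (G : SimpleGraph Γ) [G.LocallyFinite] (H : SimpleGraph Q) [H.LocallyFinite] (d' : ℕ)
  (v' : ℕ → ℕ) (π : Γ → Q), Cy H d' v' → ∀ (p q k₀ : ℕ)
  (σ ς ρ e τ m : ℕ → ℕ), Scl v' q σ ς ρ e τ m → ∀ k : ℕ, Clm G H π p q k₀ σ ρ e τ m k →
  ∀ (L : ℕ) (c : ℕ → Q) (M B : Finset (Sym2 Γ)) (y : Γ),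
  -- hL
  (L + 1) * τ k ≤ τ (k + 1) →
  (∀ i < L, H.dist (c i) (c (i + 1)) ≤ 1) →
  (∀ i ≤ L, (nb H π (vert B) (c i) (6 * ρ k)).card ≤ m (k + 1)) →
  Pos G M B → At G k₀ M B y → (∀ j ≤ k, Ca H π σ m j B (π y)) → H.dist (π y) (c 0) ≤ e k + 1 →
  Stp G p q M B (Frc G p q (Goal G H π q k₀ σ e m k ((L + 1) * τ k) (c L) B))

/-- [Pth] the path at level `k + 1`, in `H`. Proof. `St_Tri` for the graph `H`, the same graph `H` and the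
identity (`Qm.refl`), with `D = σ (k+1) + e (k+1) + 1 + ς (k+1)`, `ρ (k+1)`, `K` from `hF`,
`X = bl y (σ (k+1))`, `X' = bl b (ς (k+1))`, `R = σ (k+1) + 2 ρ (k+1)`,
`Bad = {c ∈ bl y R | m (k+1) < #(nb H π O c (6 ρ k))}`,
`Bad' = {x' ∈ X' | 4 (q+1) τ (k+1) < #(nb H π O x' (3 σ (k+1)))}`.
Sizes: `R + 6 ρ k ≤ 5 ρ (k+1)` (`6 ρ k ≤ σ (k+1) ≤ ς (k+1) ≤ e (k+1) ≤ ρ (k+1)`), so by `St_Cnt` and (b)
`#Bad m (k+1) ≤ 2 m (k+2) v' (6 ρ k)`; as `m (k+2) = (σ (k+2) + 2 ρ (k+2) + 1) m (k+1)` and `0 < m (k+1)`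
(`τ` is positive), `#Bad ≤ 2 (σ (k+2) + 2 ρ (k+2) + 1) v' (6 ρ k)` and
`8 #Bad (ρ (k+1) + 1) ≤ v' (σ (k+1)) ≤ v' (ς (k+1))` (`v1`). Similarly
`#Bad' 4 (q+1) τ (k+1) ≤ 2 m (k+2) v' (3 σ (k+1)) = 16 (q+1) τ (k+2) v' (3 σ (k+1))` since
`e (k+1) + 1 + ς (k+1) + 3 σ (k+1) ≤ 5 ρ (k+1)`, so `#Bad' ≤ 4 (σ (k+2) + 2 ρ (k+2) + 1) v' (3 σ (k+1))`, and
`8 #Bad' ≤ v' (ς (k+1))` (`v2`). We get `x`, `x' = z`, `w`. The path: a geodesic from `y` to `x` (length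
`≤ σ (k+1)`), then `w` (length `≤ 2 ρ (k+1)`); `c i` its vertices (`Walk.getVert` of `Walk.append`), `L` its
length. Vertices of the geodesic are within `σ (k+1)` of `y` and `σ (k+1) + 6 ρ k ≤ 2 σ (k+1)`, use (a);
vertices of `w` are in `bl y R` and not in `Bad`. -/
def St_Pth : Prop := ∀ (Γ Q : Type) [Group Γ] [DecidableEq Γ] [Group Q] [DecidableEq Q]
  (H : SimpleGraph Q) [H.LocallyFinite] (d' : ℕ) (v' : ℕ → ℕ) (π : Γ → Q), Cy H d' v' →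
  ∀ (q : ℕ) (σ ς ρ e τ m : ℕ → ℕ), Scl v' q σ ς ρ e τ m → ∀ k : ℕ,
  -- hF
  (∃ K : Finset Q, Fo H (σ (k + 1) + e (k + 1) + 1 + ς (k + 1)) (ρ (k + 1)) K) →
  ∀ (O : Finset Γ) (y b : Q),
  -- (a) and (b)
  (nb H π O y (2 * σ (k + 1))).card ≤ m (k + 1) →
  (nb H π O y (5 * ρ (k + 1))).card ≤ 2 * m (k + 2) →
  H.dist y b ≤ e (k + 1) + 1 →
  ∃ (L : ℕ) (c : ℕ → Q), L ≤ σ (k + 1) + 2 * ρ (k + 1) ∧ c 0 = y ∧
    (∀ i < L, H.dist (c i) (c (i + 1)) ≤ 1) ∧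
    (∀ i ≤ L, (nb H π O (c i) (6 * ρ k)).card ≤ m (k + 1)) ∧
    H.dist (c L) b ≤ ς (k + 1) ∧
    (nb H π O (c L) (3 * σ (k + 1))).card ≤ 4 * (q + 1) * τ (k + 1)

/-- [Cls] the induction step. Proof. Path from `St_Pth` for `O = vert B` and the vertex `π y`; follow it
with `St_Flw` (`(L + 1) τ k ≤ τ (k+1)` by `t1`; `dist (π y) (c 0) = 0`). At the end `y'` with
`dist (π y') (c L) ≤ e k`: `dist (π y') b ≤ e k + ς (k+1) = e (k+1)`;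
`#B' ≤ #B + q (L+1) τ k ≤ #B + q τ (k+1)`; (a) at levels `≤ k` from `Goal`, and at level `k+1` (`nb_le`,
`2 σ (k+1) + e k ≤ 3 σ (k+1)` as `e k ≤ ρ k ≤ σ (k+1)`):
`#(nb (vert B') (π y') (2 σ (k+1))) ≤ 4 (q+1) τ (k+1) + 2 q τ (k+1) ≤ m (k+1)`. -/
def St_Cls : Prop := ∀ (Γ Q : Type) [Group Γ] [DecidableEq Γ] [Group Q] [DecidableEq Q]
  (G : SimpleGraph Γ) [G.LocallyFinite] (H : SimpleGraph Q) [H.LocallyFinite] (d' : ℕ)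
  (v' : ℕ → ℕ) (π : Γ → Q), Cy H d' v' → ∀ (p q k₀ : ℕ)
  (σ ς ρ e τ m : ℕ → ℕ), Scl v' q σ ς ρ e τ m → ∀ k : ℕ,
  (∃ K : Finset Q, Fo H (σ (k + 1) + e (k + 1) + 1 + ς (k + 1)) (ρ (k + 1)) K) →
  Clm G H π p q k₀ σ ρ e τ m k → Clm G H π p q k₀ σ ρ e τ m (k + 1)

/-- [Inf] in a position of the invariant the component of `1` in `G` minus `B` is infinite.
Proof. Let `k, y` be as in `Inv`, `l ≥ k + 1`. At level `l`: `#(nb (vert B) c r) ≤ #(vert B) ≤ 2 #B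
≤ 8 (q+1) τ (k+1) = m (k+1) ≤ m l` for all `c`, `r` (`τ` is increasing; `card_nb_le`, `card_vert`), so (a)
holds at all levels `≤ l` at `π y`, and the hypothesis of `St_Flw` holds for every path. Take a geodesic
`c` of `H` of length `L = σ (l+1)` from `π y` (`Cy.exists_dist_eq`); `(L + 1) τ l ≤ τ (l+1)`. `St_Flw`,
`Stp.exists`, `Frc.exists` (`G.edgeSet` is infinite: `Cy.edge_infinite`) give a position `M'`, `B'` and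
`y'` with `At G k₀ M' B' y'`, `B ⊆ B'`, `dist (π y') (c L) ≤ e l`; `y'` is in the component of `1` in `G` minus
`B'` (`At.reachable`), hence in `G` minus `B`, and `H.dist (π y) (π y') ≥ σ (l+1) - e l ≥ 5 ρ l ≥ l`
(`ρ l ≥ l`: the scales increase). So the images of the vertices of the component are at arbitrarily large
distance from `π y`. -/
def St_Inf : Prop := ∀ (Γ Q : Type) [Group Γ] [DecidableEq Γ] [Group Q] [DecidableEq Q]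
  (G : SimpleGraph Γ) [G.LocallyFinite] (H : SimpleGraph Q) [H.LocallyFinite] (d d' : ℕ)
  (v v' : ℕ → ℕ) (π : Γ → Q), Cy G d v → Cy H d' v' → ∀ (p q k₀ : ℕ)
  (σ ς ρ e τ m : ℕ → ℕ), Scl v' q σ ς ρ e τ m → (∀ k, Clm G H π p q k₀ σ ρ e τ m k) →
  ∀ M B : Finset (Sym2 Γ), Inv G H π q k₀ σ τ m M B →
  {w : Γ | (G.deleteEdges (B : Set (Sym2 Γ))).Reachable 1 w}.Infinite

/-- [Top] the invariant can be forced again. Proof. Let `k, y` be as in `Inv`.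
`#(nb (vert B) c r) ≤ 2 #B ≤ 8 (q+1) τ (k+1) = m (k+1)`, so (a) holds at level `k+1` and
(b): `m (k+1) ≤ 2 m (k+2)`. Apply the claim of level `k+1` with target `b = π y`: `y'`, `B'` with (a) at all
levels `≤ k+1`, `#B' ≤ #B + q τ (k+1) ≤ 5 (q+1) τ (k+1) ≤ 4 (q+1) τ (k+2)` (`τ (k+2) ≥ 2 τ (k+1)`, since
`ρ (k+2) ≥ 1` by `c1`). -/
def St_Top : Prop := ∀ (Γ Q : Type) [Group Γ] [DecidableEq Γ] [Group Q] [DecidableEq Q]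
  (G : SimpleGraph Γ) [G.LocallyFinite] (H : SimpleGraph Q) [H.LocallyFinite]
  (v' : ℕ → ℕ) (π : Γ → Q) (p q k₀ : ℕ)
  (σ ς ρ e τ m : ℕ → ℕ), Scl v' q σ ς ρ e τ m → (∀ k, Clm G H π p q k₀ σ ρ e τ m k) →
  ∀ M B : Finset (Sym2 Γ), Inv G H π q k₀ σ τ m M B →
  Stp G p q M B (Frc G p q (Inv G H π q k₀ σ τ m))

/-- [Gam] the game lemma. Proof. `makerWins_of_invariant` with the invariant
`Frc G p q Q M B` (independent of the number of the round). Step: if `Frc` is `step` use its data, if it is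
`base` use the first hypothesis (the sets `M' = M ∪ X`, `B' = B ∪ Y` are given by equalities of coerced
sets, see `Helper22/PG/Forced.lean`). Infinite component: `Frc.exists` gives `M'`, `B'` with `Q M' B'`,
`B ⊆ B'`; the component for `B` contains that for `B'`. -/
def St_Gam : Prop := ∀ (Γ : Type) [Group Γ] [DecidableEq Γ] (G : SimpleGraph Γ)
  [G.LocallyFinite], G.edgeSet.Infinite → ∀ (p q : ℕ)
  (Q : Finset (Sym2 Γ) → Finset (Sym2 Γ) → Prop), Q ∅ ∅ →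
  (∀ M B, Q M B → Stp G p q M B (Frc G p q Q)) →
  (∀ M B, Q M B → {w : Γ | (G.deleteEdges (B : Set (Sym2 Γ))).Reachable 1 w}.Infinite) →
  MakerWins G 1 p q

/-- [Num] the scales (here `v` is the growth function of `H`). Proof. We may assume `C ≥ 1` (`Fo` is
monotone in `ρ`; replace `C` by `C + 1`). Let
`N = 8 C + 1`, `E = N + 1`, `σ 0 = s` the largest number with `s ^ N ≤ p`, so `p < (s + 1) ^ N ≤ (2 s) ^ N`.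
`ς k = σ k ^ 4`, `ρ k = σ k ^ (8 C)`, `σ (k+1) = ρ k ^ 4 = σ k ^ (32 C)`, `e`, `τ`, `m` by the recursions. All
scales are `≥ s`, which is large. `ς (k+1) = σ (k+1) ^ 4`, and by induction `e k ≤ 2 ς k` (`ς k ≤ ρ k ≤ σ (k+1)`,
`2 σ (k+1) ≤ ς (k+1)`), `e k + 1 ≤ 3 σ k ^ 4 ≤ σ k ^ 8 ≤ ρ k`, `6 ρ k ≤ ρ k ^ 4`.
`hF`: `σ k + e k + 1 + ς k ≤ 5 σ k ^ 4 ≤ σ k ^ 8 =: D`, `D ^ C = ρ k`; `FoC` for `D` (`Fo` is monotone in the first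
argument).
`v1` with `r = 6 ρ k`: `σ (k+2) + 2 ρ (k+2) + 1 ≤ 4 ρ (k+2)`, `ρ (k+1) = ρ k ^ (32 C)`, `ρ (k+2) = ρ k ^ ((32 C)^2)`;
`64 ρ (k+2) (ρ (k+1) + 1) ≤ 128 ρ k ^ ((32 C)^2 + 32 C) ≤ r ^ B` and `r ^ B v r ≤ v (r ^ 2) ≤ v (σ (k+1))` as
`36 ρ k ^ 2 ≤ ρ k ^ 4`. `v2` with `r = 3 σ (k+1)` in the same way: `128 ρ (k+2) ≤ r ^ B`, `9 σ (k+1) ^ 2 ≤ ς (k+1)`.
Level `0`: `q ≤ K p ≤ K' (2 s) ^ N` (`K' = ⌈K⌉₊`), `m 1 = 8 (q+1) (σ 1 + 2 ρ 1 + 1) ≤ 32 (q+1) ρ 1`, a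
polynomial in `s`; so `8 (2 m 1 + 2 q) (ρ 0 + 1) ≤ (2 s) ^ B` and `v4`, `v3` follow with `r = 2 s`,
`4 s ^ 2 ≤ s ^ 4`, and `(2 s) ^ B ≤ s ^ (2 B) ≤ p ^ (2 B)`: `A = 2 B` (`hA`). `a ^ E ≤ p`, `b ^ E ≤ p`:
if `3 a ≥ s` then `(s/3) ^ (N+1) ≤ p < (2 s) ^ N`,
`s ≤ 3 ^ (N+1) 2 ^ N`, excluded for `p` large; so `3 a < s`, `3 b < s`, `a + b + 1 ≤ s`. Finally
`a + 2 ρ 0 ≤ s + 2 s ^ (N - 1) ≤ 3 s ^ (N-1) ≤ 3 p / s ≤ δ p - 1` for `p` large. -/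
def St_Num : Prop := ∀ (Γ : Type) [Group Γ] [DecidableEq Γ] (H : SimpleGraph Γ)
  [H.LocallyFinite] (d : ℕ) (v : ℕ → ℕ), Cy H d v → ∀ C : ℕ, FoC H C → ∀ K : ℝ,
  ∃ A E : ℕ, 0 < E ∧ ∀ δ : ℝ, 0 < δ → ∃ p₀ : ℕ, ∀ p : ℕ, p₀ ≤ p → ∀ q : ℕ, (q : ℝ) ≤ K * p →
    ∃ σ ς ρ e τ m : ℕ → ℕ, Scl v q σ ς ρ e τ m ∧
      (∀ k, ∃ K : Finset Γ, Fo H (σ k + e k + 1 + ς k) (ρ k) K) ∧
      8 * (2 * m 1 + 2 * q) * (ρ 0 + 1) ≤ p ^ A ∧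
      (∀ a b : ℕ, a ^ E ≤ p → b ^ E ≤ p → a + b + 1 ≤ σ 0) ∧
      ∀ a : ℕ, a ^ E ≤ p → a + 2 * ρ 0 ≤ ⌊δ * p⌋₊

/-- [Mkr] Maker wins. Proof. `A`, `E` from `St_Num` (for `H`) with `K = κ`, `δ` from `St_Tn0` (for `G`),
`k₀ = ⌊δ p⌋₊`; `St_Cl0`, `St_Cls` and induction give the claims of all levels; `St_Gam` with
`Q = Inv`, `St_Top`, `St_Inf`; `Inv ∅ ∅` with `k = 0`, `y = 1`. -/
def St_Mkr : Prop := ∀ (Γ Q : Type) [Group Γ] [DecidableEq Γ] [Group Q] [DecidableEq Q]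
  (G : SimpleGraph Γ) [G.LocallyFinite] (H : SimpleGraph Q) [H.LocallyFinite] (d d' : ℕ)
  (v v' : ℕ → ℕ) (π : Γ → Q), Cy G d v → Cy H d' v' → Qm G H π → ∀ C : ℕ, FoC H C →
  ∀ κ : ℝ, Stat G κ → ∀ ε : ℝ, 0 < ε → ε < κ →
  ∃ p₀ : ℕ, ∀ p : ℕ, p₀ ≤ p → ∀ q : ℕ, (q : ℝ) ≤ (κ - ε) * p → MakerWins G 1 p q

/-- [Sst] the static half. Proof. As `final_static` in `SIM/Final.lean`. -/
def St_Sst : Prop := ∀ (Γ : Type) [Group Γ] [DecidableEq Γ] (G : SimpleGraph Γ)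
  [G.LocallyFinite] (d : ℕ) (v : ℕ → ℕ), Cy G d v → ∃ b : ℝ, 0 < b ∧
    (∀ v₀ : Γ, Tendsto (fun p : ℕ => (maxCap G v₀ p : ℝ) / p) atTop (nhds b)) ∧
    (∀ ε : ℝ, 0 < ε → ∃ p₀ : ℕ, ∀ p q : ℕ, p₀ ≤ p → ∀ v₀ : Γ,
      (b + ε) * (p : ℝ) < (q : ℝ) → BreakerWins G v₀ p q) ∧
    ∀ ε : ℝ, 0 < ε → Stat G (b - ε)

/-! ## Foelner sets -/

/-- [Fo1] small boundary gives controlled Foelner sets. Proof. Take `C` with `2 ≤ c C`, `1 ≤ C`;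
`D ≥ D₀ ≥ 2`, `r = D ^ C ≥ D`, `F ⊆ bl 1 r` with `cut F ≤ r ^ (-c) #F`; `r ^ c = D ^ (c C) ≥ D ^ 2 ≥ 2 D`, so
`2 D cut F ≤ #F`. `K = F.image (·⁻¹)`: `#K = #F`, `dist 1 f⁻¹ = dist 1 f`. For `dist 1 g ≤ D`:
`K ∩ g K` contains `f⁻¹` for `f ∈ F` with `f g ∈ F` (`f⁻¹ = g (f g)⁻¹`), so
`#(K ∩ g K) ≥ #F - #{f ∈ F | f g ∉ F} ≥ #F - D cut F ≥ #F / 2` (`St_Iso1`, first part). -/
def St_Fo1 : Prop := ∀ (Γ : Type) [Group Γ] [DecidableEq Γ] (G : SimpleGraph Γ)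
  [G.LocallyFinite] (d : ℕ) (v : ℕ → ℕ), Cy G d v → ∀ c : ℝ, 0 < c →
  (∃ r₀ : ℕ, ∀ r : ℕ, r₀ ≤ r → ∃ F : Finset Γ, F.Nonempty ∧ (∀ x ∈ F, G.dist 1 x ≤ r) ∧
    (cut G F : ℝ) ≤ (r : ℝ) ^ (-c) * F.card) → ∃ C : ℕ, FoC G C

/-- [Fo2] growth at most `exp (r ^ a)` gives sets with small boundary. Proof. WLOG `0 < a`;
`c = (1 - a) / 2`. Let `r` be large and suppose that no ball `F = bl 1 s`, `r / 2 ≤ s < r`, will do. The number of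
boundary edges of `bl 1 s` is at most `d (v (s+1) - v s)` (the outer endpoints are in
`bl 1 (s+1) \ bl 1 s` and have degree at most `d`), so `v (s+1) ≥ (1 + r ^ (-c) / d) v s` for all these `s` and
`v r ≥ (1 + r ^ (-c) / d) ^ (r / 2)`; as `1 + x ≥ exp (x / 2)` for `0 ≤ x ≤ 1`,
`v r ≥ exp (r ^ (1 - c) / (8 d))`, more than `exp (r ^ a)` for `r` large because `1 - c > a`. -/
def St_Fo2 : Prop := ∀ (Γ : Type) [Group Γ] [DecidableEq Γ] (G : SimpleGraph Γ)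
  [G.LocallyFinite] (d : ℕ) (v : ℕ → ℕ), Cy G d v → ∀ a : ℝ, a < 1 →
  (∃ r₀ : ℕ, ∀ r : ℕ, r₀ ≤ r → (v r : ℝ) ≤ Real.exp ((r : ℝ) ^ a)) → ∃ c : ℝ, 0 < c ∧
  ∃ r₀ : ℕ, ∀ r : ℕ, r₀ ≤ r → ∃ F : Finset Γ, F.Nonempty ∧ (∀ x ∈ F, G.dist 1 x ≤ r) ∧
    (cut G F : ℝ) ≤ (r : ℝ) ^ (-c) * F.card

/-- [Rt1] pigeonhole for the numbers of closed walks. `D` is the degree. Proof. Let
`g k x = #(G.finsetWalkLength k 1 x)` (zero unless `dist 1 x ≤ k`); `g (k+1) x = ∑ y ∈ N x, g k y` (by the last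
edge; or use walks from `x` to `1` and the recursion of `finsetWalkLength`, and symmetry) and
`s k = ∑ x, g k x ^ 2 = #(closed walks of length 2 k)` (cut a closed walk in the middle). `s 0 = 1`. If
`s (k+1) < D ^ 2 exp (- n ^ (a-1)) s k` for all `k < n` then `s n < D ^ (2 n) exp (- n ^ a)`, against the
hypothesis. So take `k < n` with the reverse inequality, `f = g k`; `f ≠ 0` because `s k > 0`
(`s k = 0` would imply `s n = 0`). -/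
def St_Rt1 : Prop := ∀ (Γ : Type) [Group Γ] [DecidableEq Γ] (G : SimpleGraph Γ)
  [G.LocallyFinite] (d : ℕ) (v : ℕ → ℕ), Cy G d v → ∀ (a : ℝ) (n : ℕ), 0 < n →
  ((G.neighborFinset 1).card : ℝ) ^ (2 * n) * Real.exp (-((n : ℝ) ^ a)) ≤
    (G.finsetWalkLength (2 * n) 1 1).card →
  ∃ f : Γ → ℕ, (∃ x, f x ≠ 0) ∧ (∀ x, f x ≠ 0 → G.dist 1 x < n) ∧
    ((G.neighborFinset 1).card : ℝ) ^ 2 * Real.exp (-((n : ℝ) ^ (a - 1))) *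
      ∑ x ∈ bl G 1 n, (f x : ℝ) ^ 2 ≤
      ∑ x ∈ bl G 1 n, (∑ y ∈ G.neighborFinset x, (f y : ℝ)) ^ 2

/-- [Rt2] Cheeger's inequality for two steps. Proof. All degrees are `D`. For every `x`,
`D ∑_{y ∈ N x} f y ^ 2 - (∑_{y ∈ N x} f y) ^ 2 = (1/2) ∑_{y, z ∈ N x} (f y - f z) ^ 2`; sum over `x`:
`∑_{x, y, z ∈ N x} (f y - f z) ^ 2 = 2 (D ^ 2 ∑ f ^ 2 - ∑ (A f) ^ 2) ≤ 2 η D ^ 2 ∑ f ^ 2` (`x` ranges over `bl 1 n`,
which contains the neighbours of the support). Cauchy-Schwarz: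
`∑_{x, y, z ∈ N x} |f y ^ 2 - f z ^ 2| ≤ (2 η D ^ 2 ∑ f ^ 2) ^ (1/2) (4 D ^ 2 ∑ f ^ 2) ^ (1/2) ≤ 4 √η D ^ 2 ∑ f ^ 2`.
For `t ≥ 1` let `F t = {y | t ≤ f y ^ 2}`; `∑_t #(F t) = ∑ f ^ 2`, and
`∑_t #{(x, y, z) | y, z ∈ N x, y ∈ F t, z ∉ F t} ≤ ∑ |f y ^ 2 - f z ^ 2|`, so there is `t ≥ 1` with `F = F t`
nonempty and at most `4 √η D ^ 2 #F` such triples. `F' = F ∪ N F`: if `(x, z)` is a boundary edge of `F'`,
`x ∈ F'`, `z ∉ F'`, then `x ∉ F`, so `x` has a neighbour `y ∈ F`, and `z ∉ F`: so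
`cut F' ≤ 4 √η D ^ 2 #F ≤ 4 √η D ^ 2 #F'`. `F' ⊆ bl 1 n`. -/
def St_Rt2 : Prop := ∀ (Γ : Type) [Group Γ] [DecidableEq Γ] (G : SimpleGraph Γ)
  [G.LocallyFinite] (d : ℕ) (v : ℕ → ℕ), Cy G d v → ∀ (η : ℝ) (n : ℕ) (f : Γ → ℕ), 0 ≤ η →
  (∃ x, f x ≠ 0) → (∀ x, f x ≠ 0 → G.dist 1 x < n) →
  ((G.neighborFinset 1).card : ℝ) ^ 2 * (1 - η) * ∑ x ∈ bl G 1 n, (f x : ℝ) ^ 2 ≤
      ∑ x ∈ bl G 1 n, (∑ y ∈ G.neighborFinset x, (f y : ℝ)) ^ 2 →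
  ∃ F : Finset Γ, F.Nonempty ∧ (∀ x ∈ F, G.dist 1 x ≤ n) ∧
    (cut G F : ℝ) ≤ 4 * Real.sqrt η * ((G.neighborFinset 1).card : ℝ) ^ 2 * F.card

/-- [Rtn] slow decay of the return probabilities gives sets with small boundary. Proof. `c = (1 - a) / 4`;
for `n` large `St_Rt1`, and `St_Rt2` with `η = n ^ (a - 1)` (`exp (-η) ≥ 1 - η`); `4 √η D ^ 2 =
4 D ^ 2 n ^ (-2 c) ≤ n ^ (-c)` for `n` large. -/
def St_Rtn : Prop := ∀ (Γ : Type) [Group Γ] [DecidableEq Γ] (G : SimpleGraph Γ)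
  [G.LocallyFinite] (d : ℕ) (v : ℕ → ℕ), Cy G d v → ∀ a : ℝ, a < 1 →
  (∃ n₀ : ℕ, ∀ n : ℕ, n₀ ≤ n →
    ((G.neighborFinset 1).card : ℝ) ^ (2 * n) * Real.exp (-((n : ℝ) ^ a)) ≤
      (G.finsetWalkLength (2 * n) 1 1).card) → ∃ c : ℝ, 0 < c ∧
  ∃ r₀ : ℕ, ∀ r : ℕ, r₀ ≤ r → ∃ F : Finset Γ, F.Nonempty ∧ (∀ x ∈ F, G.dist 1 x ≤ r) ∧
    (cut G F : ℝ) ≤ (r : ℝ) ^ (-c) * F.card

/-- [Exg] exponential growth. Proof. `v (r ^ 2) ≥ v (c (r ^ 2 / c)) ≥ 2 ^ (r ^ 2 / c)` (`c ≥ 1` since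
`v 0 = 1`), and `r ^ B v r ≤ r ^ B (d + 1) ^ r`, which is smaller for `r` large. -/
def St_Exg : Prop := ∀ (d c : ℕ) (v : ℕ → ℕ), v 0 = 1 → (∀ r, v r ≤ (d + 1) ^ r) →
  (∀ r s, r ≤ s → v r ≤ v s) → (∀ n, 2 ^ n ≤ v (c * n)) →
  ∀ B : ℕ, ∃ r₀ : ℕ, ∀ r, r₀ ≤ r → r ^ B * v r ≤ v (r ^ 2)

end Pool.Agent.ISP
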