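import Pool.Agent.ISP.St

/-!
# ISP, module Tri: counting triples (statement and proof: helper78; Lean: helper37)
-/

set_option autoImplicit false
set_option linter.unusedSectionVars false

namespace Pool.Agent.ISP

open Finset Filter Pool.Agent.Helper30.Perc Pool.Agent.Helper22.PG

/-- few translates of a short list meet a small set -/
private theorem tri_few {A : Type} [Group A] [DecidableEq A] (X Bad : Finset A) (l : List A)
    (n : ℕ) (hl : l.length ≤ n) [DecidablePred fun x => ∃ u ∈ l, x * u ∈ Bad] :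
    (X.filter fun x => ∃ u ∈ l, x * u ∈ Bad).card ≤ n * Bad.card := by
  have h1 : (X.filter fun x => ∃ u ∈ l, x * u ∈ Bad) ⊆
      (l.toFinset ×ˢ Bad).image fun p => p.2 * p.1⁻¹ := by
    intro x hx
    rw [mem_filter] at hx
    obtain ⟨-, u, hu, hxu⟩ := hx
    rw [mem_image]
    refine ⟨(u, x * u), ?_, ?_⟩
    · rw [mem_product]
      exact ⟨List.mem_toFinset.2 hu, hxu⟩
    · simp
  refine (card_le_card h1).trans (card_image_le.trans ?_)
  rw [card_product]
  exact Nat.mul_le_mul_right _ ((List.toFinset_card_le l).trans hl)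

/-- the counting argument -/
private theorem tri_count {A B C : Type} [DecidableEq A] [DecidableEq B] [DecidableEq C]
    (X : Finset A) (X' : Finset B) (K : Finset C) (f : A → B → C → C)
    (hf : ∀ x x', Function.Injective (f x x')) (R1 : A → C → Prop) (R2 : B → C → Prop)
    (Bad' : Finset B) (m : ℕ) (hX : X.Nonempty) (hX' : X'.Nonempty) (hK : K.Nonempty)
    (h0 : ∀ x ∈ X, ∀ x' ∈ X', K.card ≤ 2 * (K.filter fun k => f x x' k ∈ K).card)
    (h1 : ∀ k ∈ K, ∀ S : Finset A, S ⊆ X → (∀ x ∈ S, R1 x k) → S.card ≤ m)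
    (h2 : ∀ k ∈ K, ∀ S : Finset B, S ⊆ X' → (∀ x ∈ S, R2 x k) → S.card ≤ m)
    (m1 : 8 * m ≤ X.card) (m2 : 8 * m ≤ X'.card) (m3 : 8 * Bad'.card ≤ X'.card) :
    ∃ x ∈ X, ∃ x' ∈ X', ∃ k ∈ K, f x x' k ∈ K ∧ ¬ R1 x k ∧ ¬ R2 x' (f x x' k) ∧ x' ∉ Bad' := by
  classical
  by_contra hcon
  push Not at hcon
  have hpt : ∀ x ∈ X, ∀ x' ∈ X', (K.filter fun k => f x x' k ∈ K).card ≤
      (K.filter fun k => R1 x k).card + (K.filter fun k => R2 x' k).card +
        (if x' ∈ Bad' then K.card else 0) := by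
    intro x hx x' hx'
    have hsub : (K.filter fun k => f x x' k ∈ K) ⊆ (K.filter fun k => R1 x k) ∪
        (K.filter fun k => f x x' k ∈ K ∧ R2 x' (f x x' k)) ∪ (if x' ∈ Bad' then K else ∅) := by
      intro k hk
      rw [mem_filter] at hk
      rw [mem_union, mem_union, mem_filter, mem_filter]
      by_cases a : R1 x k
      · exact Or.inl (Or.inl ⟨hk.1, a⟩)
      by_cases b : R2 x' (f x x' k)
      · exact Or.inl (Or.inr ⟨hk.1, hk.2, b⟩)
      · right
        rw [if_pos (hcon x hx x' hx' k hk.1 hk.2 a b)]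
        exact hk.1
    have h3 : (K.filter fun k => f x x' k ∈ K ∧ R2 x' (f x x' k)).card ≤
        (K.filter fun k => R2 x' k).card := by
      refine card_le_card_of_injOn (f x x') ?_ (fun a _ b _ hab => hf x x' hab)
      intro k hk
      simp only [coe_filter, Set.mem_ofPred_eq] at hk ⊢
      exact hk.2
    have h4 : (if x' ∈ Bad' then K else ∅ : Finset C).card =
        (if x' ∈ Bad' then K.card else 0) := by
      split_ifs <;> simp
    have h5 := card_le_card hsub
    have h6 := card_union_le ((K.filter fun k => R1 x k) ∪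
        (K.filter fun k => f x x' k ∈ K ∧ R2 x' (f x x' k))) (if x' ∈ Bad' then K else ∅)
    have h7 := card_union_le (K.filter fun k => R1 x k)
        (K.filter fun k => f x x' k ∈ K ∧ R2 x' (f x x' k))
    rw [h4] at h6
    omega
  -- sum over all pairs
  have hs1 : X.card * (X'.card * K.card) ≤
      ∑ x ∈ X, ∑ x' ∈ X', 2 * ((K.filter fun k => R1 x k).card +
        (K.filter fun k => R2 x' k).card + (if x' ∈ Bad' then K.card else 0)) := by
    have : X.card * (X'.card * K.card) = ∑ x ∈ X, ∑ x' ∈ X', K.card := by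
      rw [sum_const, sum_const, smul_eq_mul, smul_eq_mul]
    rw [this]
    refine sum_le_sum fun x hx => sum_le_sum fun x' hx' => ?_
    exact (h0 x hx x' hx').trans (Nat.mul_le_mul_left 2 (hpt x hx x' hx'))
  have hR1 : ∑ x ∈ X, (K.filter fun k => R1 x k).card ≤ K.card * m := by
    have h3 := sum_card_bipartiteAbove_eq_sum_card_bipartiteBelow (s := X) (t := K) R1
    simp only [bipartiteAbove, bipartiteBelow] at h3
    rw [h3, ← smul_eq_mul]
    refine sum_le_card_nsmul _ _ _ ?_
    intro k hk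
    exact h1 k hk _ (filter_subset _ _) (fun x hx => (mem_filter.1 hx).2)
  have hR2 : ∑ x' ∈ X', (K.filter fun k => R2 x' k).card ≤ K.card * m := by
    have h3 := sum_card_bipartiteAbove_eq_sum_card_bipartiteBelow (s := X') (t := K) R2
    simp only [bipartiteAbove, bipartiteBelow] at h3
    rw [h3, ← smul_eq_mul]
    refine sum_le_card_nsmul _ _ _ ?_
    intro k hk
    exact h2 k hk _ (filter_subset _ _) (fun x hx => (mem_filter.1 hx).2)
  have hR3 : ∑ x' ∈ X', (if x' ∈ Bad' then K.card else 0) ≤ Bad'.card * K.card := by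
    rw [← sum_filter, sum_const, smul_eq_mul]
    refine Nat.mul_le_mul_right _ (card_le_card ?_)
    intro x' hx'
    exact (mem_filter.1 hx').2
  have hs2 : ∑ x ∈ X, ∑ x' ∈ X', 2 * ((K.filter fun k => R1 x k).card +
        (K.filter fun k => R2 x' k).card + (if x' ∈ Bad' then K.card else 0)) =
      2 * (X'.card * (∑ x ∈ X, (K.filter fun k => R1 x k).card)) +
        2 * (X.card * (∑ x' ∈ X', (K.filter fun k => R2 x' k).card)) +
        2 * (X.card * (∑ x' ∈ X', (if x' ∈ Bad' then K.card else 0))) := by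
    simp only [← mul_sum, sum_add_distrib, sum_const, smul_eq_mul]
    ring
  rw [hs2] at hs1
  have hN : 0 < X.card * (X'.card * K.card) :=
    Nat.mul_pos hX.card_pos (Nat.mul_pos hX'.card_pos hK.card_pos)
  have e1 : 8 * (X'.card * (∑ x ∈ X, (K.filter fun k => R1 x k).card)) ≤
      X.card * (X'.card * K.card) := by
    calc 8 * (X'.card * (∑ x ∈ X, (K.filter fun k => R1 x k).card))
        ≤ 8 * (X'.card * (K.card * m)) :=
          Nat.mul_le_mul_left _ (Nat.mul_le_mul_left _ hR1)
      _ = (8 * m) * (X'.card * K.card) := by ring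
      _ ≤ _ := Nat.mul_le_mul_right _ m1
  have e2 : 8 * (X.card * (∑ x' ∈ X', (K.filter fun k => R2 x' k).card)) ≤
      X.card * (X'.card * K.card) := by
    calc 8 * (X.card * (∑ x' ∈ X', (K.filter fun k => R2 x' k).card))
        ≤ 8 * (X.card * (K.card * m)) :=
          Nat.mul_le_mul_left _ (Nat.mul_le_mul_left _ hR2)
      _ = X.card * ((8 * m) * K.card) := by ring
      _ ≤ _ := Nat.mul_le_mul_left _ (Nat.mul_le_mul_right _ m2)
  have e3 : 8 * (X.card * (∑ x' ∈ X', (if x' ∈ Bad' then K.card else 0))) ≤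
      X.card * (X'.card * K.card) := by
    calc 8 * (X.card * (∑ x' ∈ X', (if x' ∈ Bad' then K.card else 0)))
        ≤ 8 * (X.card * (Bad'.card * K.card)) :=
          Nat.mul_le_mul_left _ (Nat.mul_le_mul_left _ hR3)
      _ = X.card * ((8 * Bad'.card) * K.card) := by ring
      _ ≤ _ := Nat.mul_le_mul_left _ (Nat.mul_le_mul_right _ m3)
  omega

/-- translates of walks -/
private theorem tri_walk {Γ : Type} [Group Γ] [DecidableEq Γ] {G : SimpleGraph Γ}
    [G.LocallyFinite] {d : ℕ} {v : ℕ → ℕ} (hG : Cy G d v) (x : Γ) {a b : Γ} (w : G.Walk a b)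
    {a' b' : Γ} (ha : x * a = a') (hb : x * b = b') :
    ∃ W : G.Walk a' b', W.length = w.length ∧ ∀ u ∈ W.support, ∃ u' ∈ w.support, x * u' = u := by
  subst ha hb
  refine ⟨w.map (hG.lt x).toHom, SimpleGraph.Walk.length_map _ _, ?_⟩
  intro u hu
  have h1 : u ∈ (w.map (hG.lt x).toHom).support := hu
  rw [SimpleGraph.Walk.support_map, List.mem_map] at h1
  exact h1

/-- [Tri] -/
theorem thm_Tri : St_Tri := by
  intro Γ Q _ _ _ _ G _ H _ d d' v v' π hG hH hπ D ρ K X X' Bad Bad' hK hX hX' hD m1 m2 m3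
  classical
  obtain ⟨hKne, hKρ, hKD⟩ := hK
  -- geodesics and their lifts
  have hgeo : ∀ k : Q, ∃ γ : H.Walk 1 k, γ.length = H.dist 1 k := fun k =>
    hH.conn.exists_walk_length_eq_dist 1 k
  choose γ hγ using hgeo
  have hlift : ∀ k : Q, ∃ (y : Γ) (w : G.Walk 1 y), π y = k ∧ w.length = (γ k).length := by
    intro k
    obtain ⟨y, w, h1, h2, -⟩ := hπ.lift_walk (γ k) 1 hπ.one
    exact ⟨y, w, h1, h2⟩
  choose y w hy hw using hlift
  have hlen : ∀ k ∈ K, (γ k).length ≤ ρ := fun k hk => by rw [hγ]; exact hKρ k hk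
  obtain ⟨x, hx, x', hx', k, hk, hfk, hR1, hR2, hB⟩ :=
    tri_count X X' K (fun x x' k => x'⁻¹ * (π x * k))
      (fun x x' a b hab => by
        have := mul_left_cancel hab
        exact mul_left_cancel this)
      (fun x k => ∃ u ∈ (w k).support, x * u ∈ Bad)
      (fun x' k => ∃ u ∈ (γ k).support, x' * u ∈ Bad.image π) Bad' ((ρ + 1) * Bad.card)
      hX hX' hKne (by
        intro x hx x' hx'
        have h1 := hKD ((π x)⁻¹ * x') (by
          rw [← hH.dist_one]
          exact hD x hx x' hx')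
        refine h1.trans (Nat.mul_le_mul_left 2 (card_le_card ?_))
        intro k hk
        rw [mem_inter, mem_image] at hk
        obtain ⟨hk1, k', hk', rfl⟩ := hk
        rw [mem_filter]
        refine ⟨hk1, ?_⟩
        have : x'⁻¹ * (π x * ((π x)⁻¹ * x' * k')) = k' := by group
        rw [this]
        exact hk') (by
        intro k hk S hS hS'
        have h1 := tri_few S Bad (w k).support (ρ + 1) (by
          rw [SimpleGraph.Walk.length_support, hw]
          exact Nat.add_le_add_right (hlen k hk) 1)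
        rw [filter_true_of_mem hS'] at h1
        exact h1) (by
        intro k hk S hS hS'
        have h1 := tri_few S (Bad.image π) (γ k).support (ρ + 1) (by
          rw [SimpleGraph.Walk.length_support]
          exact Nat.add_le_add_right (hlen k hk) 1)
        rw [filter_true_of_mem hS'] at h1
        exact h1.trans (Nat.mul_le_mul_left _ card_image_le)) (by
        calc 8 * ((ρ + 1) * Bad.card) = 8 * Bad.card * (ρ + 1) := by ring
          _ ≤ _ := m1) (by
        calc 8 * ((ρ + 1) * Bad.card) = 8 * Bad.card * (ρ + 1) := by ring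
          _ ≤ _ := m2) m3
  push Not at hR1 hR2
  obtain ⟨k'', hk''⟩ : ∃ k'', k'' = x'⁻¹ * (π x * k) := ⟨_, rfl⟩
  have hend : x' * k'' = π x * k := by rw [hk'']; group
  rw [← hk''] at hfk
  -- the first half
  obtain ⟨W1, hW1, hW1'⟩ : ∃ W1 : G.Walk x (x * y k), W1.length ≤ ρ ∧ ∀ u ∈ W1.support, u ∉ Bad := by
    obtain ⟨W, h1, h2⟩ := tri_walk hG x (w k) (mul_one x) rfl
    refine ⟨W, by rw [h1, hw]; exact hlen k hk, ?_⟩
    intro u hu
    obtain ⟨u', hu', rfl⟩ := h2 u hu
    exact hR1 u' hu'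
  -- the second half
  obtain ⟨V, hV, hV'⟩ : ∃ V : H.Walk (π x * k) x', V.length ≤ ρ ∧
      ∀ u ∈ V.support, u ∉ Bad.image π := by
    obtain ⟨W, h1, h2⟩ := tri_walk hH x' (γ k'') (mul_one x') hend
    refine ⟨W.reverse, by rw [SimpleGraph.Walk.length_reverse, h1]; exact hlen k'' hfk, ?_⟩
    intro u hu
    rw [SimpleGraph.Walk.support_reverse, List.mem_reverse] at hu
    obtain ⟨u', hu', rfl⟩ := h2 u hu
    exact hR2 u' (by rw [hk''] at hu'; exact hu')
  obtain ⟨z, W2, hz, hW2, hW2'⟩ := hπ.lift_walk V (x * y k) (by rw [hπ.mul, hy])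
  refine ⟨x, hx, z, by rw [hz]; exact hx', by rw [hz]; exact hB, W1.append W2, ?_, ?_⟩
  · rw [SimpleGraph.Walk.length_append]
    omega
  · intro u hu
    rw [SimpleGraph.Walk.mem_support_append_iff] at hu
    rcases hu with hu | hu
    · exact hW1' u hu
    · intro hub
      exact hV' _ (hW2' u hu) (mem_image_of_mem π hub)

end Pool.Agent.ISP
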